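import Pool.Agent.W_4b1b5d_h3.Defs

set_option autoImplicit false

namespace Pool.W4b1b5d.H3

/-- recursion for the falling factorial -/
theorem LkDer_fall (n : ℤ) (k : ℕ) : fall n (k + 1) = fall n k * ((n : ℂ) - k) := by
  unfold fall
  rw [Finset.prod_range_succ]

/-- integer powers are smooth outside of zero -/
theorem LkDer_zpow (n : ℤ) {z : V2 × ℂ} (hz : z.2 ≠ 0) :
    ContDiffAt ℝ (⊤ : ℕ∞) (fun z : V2 × ℂ => z.2 ^ n) z := by
  have h2 : ContDiffAt ℝ (⊤ : ℕ∞) (fun z : V2 × ℂ => z.2) z := contDiffAt_snd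
  obtain ⟨m, rfl | rfl⟩ := n.eq_nat_or_neg
  · simp only [zpow_natCast]
    exact h2.pow m
  · simp only [zpow_neg, zpow_natCast]
    exact (h2.pow m).inv (pow_ne_zero _ hz)

theorem LkDer_contDiffAt (d : ℕ) (u : ℕ → V2 → ℂ) (hu : ∀ j, ContDiff ℝ (⊤ : ℕ∞) (u j)) (k : ℕ)
    {z : V2 × ℂ} (hz : z.2 ≠ 0) :
    ContDiffAt ℝ (⊤ : ℕ∞) (fun z : V2 × ℂ => Lk d (fun j => u j z.1) k z.2) z := by
  unfold Lk
  refine ContDiffAt.sum fun j _ => ?_
  exact ((((hu j).contDiffAt).comp z contDiffAt_fst).mul contDiffAt_const).mul (LkDer_zpow _ hz)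

/-- TASK LkDer (1).  Termwise: `HasDerivAt (fun q => q ^ n) (n * q ^ (n-1)) q` for integer `n`
(`hasDerivAt_zpow`), and `fall s (k+1) = fall s k * (s - k)` (`Finset.prod_range_succ`). -/
theorem Lk_hasDerivAt (d : ℕ) (u : ℕ → ℂ) (k : ℕ) {p : ℂ} (hp : p ≠ 0) :
    HasDerivAt (fun q => Lk d u k q) (Lk d u (k + 1) p) p := by
  unfold Lk
  refine HasDerivAt.fun_sum fun j _ => ?_
  have h := (hasDerivAt_zpow ((j : ℤ) - d - k) p (Or.inl hp)).const_mul
    (u j * fall ((j : ℤ) - d) k)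
  refine h.congr_deriv ?_
  rw [LkDer_fall]
  have e : (j : ℤ) - d - ((k + 1 : ℕ) : ℤ) = (j : ℤ) - d - k - 1 := by push_cast; ring
  rw [e]
  push_cast
  ring

/-- `Lk` is smooth in the coefficients and in `p ≠ 0`: finite sum of products. -/
theorem Lk_contDiffOn (d : ℕ) (u : ℕ → V2 → ℂ) (hu : ∀ j, ContDiff ℝ (⊤ : ℕ∞) (u j)) (k : ℕ) :
    ContDiffOn ℝ (⊤ : ℕ∞) (fun z : V2 × ℂ => Lk d (fun j => u j z.1) k z.2) {z | z.2 ≠ 0} := by
  intro z hz
  exact (LkDer_contDiffAt d u hu k hz).contDiffWithinAt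

/-- `dd a f` by real and imaginary parts of `a` -/
theorem LkDer_dd (a : Fin 2 → ℂ) (f : V2 → ℂ) (x : V2) :
    dd a f x = fderiv ℝ f x (fun i => (a i).re) +
      Complex.I * fderiv ℝ f x (fun i => (a i).im) := by
  have h : ∀ v : V2, fderiv ℝ f x v = ∑ i, (v i : ℂ) * fderiv ℝ f x (Pi.single i 1) := by
    intro v
    have h1 : v = ∑ i, v i • (Pi.single i 1 : V2) := by
      ext j
      simp [Finset.sum_apply, Pi.single_apply]
    conv_lhs => rw [h1]
    rw [map_sum]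
    refine Finset.sum_congr rfl fun i _ => ?_
    rw [map_smul, Complex.real_smul]
  unfold dd
  rw [h, h, Finset.mul_sum, ← Finset.sum_add_distrib]
  refine Finset.sum_congr rfl fun i _ => ?_
  have h2 : a i = ((a i).re : ℂ) + Complex.I * ((a i).im : ℂ) := by
    conv_lhs => rw [← Complex.re_add_im (a i)]
    ring
  conv_lhs => rw [h2]
  ring

/-- derivative in the `x`-directions. -/
theorem Dx_Lk (a : Fin 2 → ℂ) (d : ℕ) (u : ℕ → V2 → ℂ) (hu : ∀ j, ContDiff ℝ (⊤ : ℕ∞) (u j))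
    (k : ℕ) (z : V2 × ℂ) (hz : z.2 ≠ 0) :
    Dx a (fun z : V2 × ℂ => Lk d (fun j => u j z.1) k z.2) z
      = Lk d (fun j => dd a (u j) z.1) k z.2 := by
  have hF := (LkDer_contDiffAt d u hu k hz).differentiableAt (by simp)
  have h1 : ∀ v : V2, fderiv ℝ (fun z : V2 × ℂ => Lk d (fun j => u j z.1) k z.2) z (v, 0) =
      Lk d (fun j => fderiv ℝ (u j) z.1 v) k z.2 := by
    intro v
    have h2 : HasFDerivAt (fun x : V2 => Lk d (fun j => u j x) k z.2)
        ((fderiv ℝ (fun z : V2 × ℂ => Lk d (fun j => u j z.1) k z.2) z).comp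
          (ContinuousLinearMap.inl ℝ V2 ℂ)) z.1 := by
      have h3 : HasFDerivAt (fun x : V2 => (x, z.2)) (ContinuousLinearMap.inl ℝ V2 ℂ) z.1 :=
        hasFDerivAt_prodMk_left z.1 z.2
      exact HasFDerivAt.comp z.1 (g := fun z : V2 × ℂ => Lk d (fun j => u j z.1) k z.2)
        (f := fun x : V2 => (x, z.2)) hF.hasFDerivAt h3
    have h4 : HasFDerivAt (fun x : V2 => Lk d (fun j => u j x) k z.2)
        (∑ j ∈ Finset.range (2 * d + 1),
          (fall ((j : ℤ) - d) k * z.2 ^ ((j : ℤ) - d - k)) • fderiv ℝ (u j) z.1) z.1 := by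
      have h5 : (fun x : V2 => Lk d (fun j => u j x) k z.2) = fun x : V2 =>
          ∑ j ∈ Finset.range (2 * d + 1),
            (fall ((j : ℤ) - d) k * z.2 ^ ((j : ℤ) - d - k)) * u j x := by
        funext x
        unfold Lk
        refine Finset.sum_congr rfl fun j _ => ?_
        ring
      rw [h5]
      refine HasFDerivAt.fun_sum fun j _ => ?_
      exact (((hu j).differentiable (by simp)).differentiableAt.hasFDerivAt).const_mul _
    have h6 := congrArg (fun L : V2 →L[ℝ] ℂ => L v) (h2.unique h4)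
    simp only [ContinuousLinearMap.comp_apply, ContinuousLinearMap.inl_apply] at h6
    rw [h6]
    unfold Lk
    simp only [sum_apply, smul_apply, smul_eq_mul]
    refine Finset.sum_congr rfl fun j _ => ?_
    ring
  unfold Dx CD
  rw [h1, h1]
  unfold Lk
  rw [Finset.mul_sum, ← Finset.sum_add_distrib]
  refine Finset.sum_congr rfl fun j _ => ?_
  simp only [LkDer_dd]
  ring

/-- real derivatives in `p` -/
theorem LkDer_snd (d : ℕ) (u : ℕ → V2 → ℂ) (hu : ∀ j, ContDiff ℝ (⊤ : ℕ∞) (u j))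
    (k : ℕ) (z : V2 × ℂ) (hz : z.2 ≠ 0) (v : ℂ) :
    fderiv ℝ (fun z : V2 × ℂ => Lk d (fun j => u j z.1) k z.2) z (0, v) =
      v * Lk d (fun j => u j z.1) (k + 1) z.2 := by
  have hF := (LkDer_contDiffAt d u hu k hz).differentiableAt (by simp)
  have h2 : HasFDerivAt (fun p : ℂ => Lk d (fun j => u j z.1) k p)
      ((fderiv ℝ (fun z : V2 × ℂ => Lk d (fun j => u j z.1) k z.2) z).comp
        (ContinuousLinearMap.inr ℝ V2 ℂ)) z.2 := by
    have h3 : HasFDerivAt (fun p : ℂ => (z.1, p)) (ContinuousLinearMap.inr ℝ V2 ℂ) z.2 :=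
      hasFDerivAt_prodMk_right z.1 z.2
    exact HasFDerivAt.comp z.2 (g := fun z : V2 × ℂ => Lk d (fun j => u j z.1) k z.2)
      (f := fun p : ℂ => (z.1, p)) hF.hasFDerivAt h3
  have h4 : HasFDerivAt (fun p : ℂ => Lk d (fun j => u j z.1) k p) _ z.2 :=
    (Lk_hasDerivAt d (fun j => u j z.1) k hz).hasFDerivAt.restrictScalars ℝ
  have h6 := congrArg (fun L : ℂ →L[ℝ] ℂ => L v) (h2.unique h4)
  simp only [ContinuousLinearMap.comp_apply, ContinuousLinearMap.inr_apply] at h6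
  rw [h6]
  simp [ContinuousLinearMap.toSpanSingleton_apply]

/-- holomorphic derivative in `p`. -/
theorem Dp_Lk (d : ℕ) (u : ℕ → V2 → ℂ) (hu : ∀ j, ContDiff ℝ (⊤ : ℕ∞) (u j))
    (k : ℕ) (z : V2 × ℂ) (hz : z.2 ≠ 0) :
    Dp (fun z : V2 × ℂ => Lk d (fun j => u j z.1) k z.2) z
      = Lk d (fun j => u j z.1) (k + 1) z.2 := by
  unfold Dp CD
  rw [LkDer_snd d u hu k z hz, LkDer_snd d u hu k z hz]
  have hI : Complex.I * Complex.I = -1 := Complex.I_mul_I
  linear_combination (-(Lk d (fun j => u j z.1) (k + 1) z.2) / 2) * hI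

/-- `Lk` is holomorphic in `p`. -/
theorem Dq_Lk (d : ℕ) (u : ℕ → V2 → ℂ) (hu : ∀ j, ContDiff ℝ (⊤ : ℕ∞) (u j))
    (k : ℕ) (z : V2 × ℂ) (hz : z.2 ≠ 0) :
    Dq (fun z : V2 × ℂ => Lk d (fun j => u j z.1) k z.2) z = 0 := by
  unfold Dq CD
  rw [LkDer_snd d u hu k z hz, LkDer_snd d u hu k z hz]
  have hI : Complex.I * Complex.I = -1 := Complex.I_mul_I
  linear_combination ((Lk d (fun j => u j z.1) (k + 1) z.2) / 2) * hI

/-- smoothness of `dd a f` for smooth `f`. -/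
theorem dd_contDiff (a : Fin 2 → ℂ) {f : V2 → ℂ} (hf : ContDiff ℝ (⊤ : ℕ∞) f) :
    ContDiff ℝ (⊤ : ℕ∞) (dd a f) := by
  unfold dd
  refine ContDiff.sum fun i _ => ?_
  exact contDiff_const.mul ((hf.fderiv_right (by simp)).clm_apply contDiff_const)

/-- periodicity of `dd a f` for periodic `f`. -/
theorem dd_per (a : Fin 2 → ℂ) {f : V2 → ℂ} (hf : Per f) : Per (dd a f) := by
  intro x k
  unfold dd
  have h : fderiv ℝ f (x + fun i => (k i : ℝ)) = fderiv ℝ f x := by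
    have h1 := fderiv_comp_add_right (𝕜 := ℝ) (f := f) (x := x) (fun i => (k i : ℝ))
    rw [← h1]
    congr 1
    funext y
    exact hf y k
  rw [h]

end Pool.W4b1b5d.H3
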