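import Pool.Agent.W_4b1b5d_h3.DefsI
import Pool.Agent.W_4b1b5d_h3.LkDer

set_option autoImplicit false

namespace Pool.W4b1b5d.H3

theorem BetaA_sol0 (a b c d u w : ℝ) (h : a * d - b * c ≠ 0) :
    u = 2 * ((d * u - b * w) / (2 * (a * d - b * c)) * a
      - (c * u - a * w) / (2 * (a * d - b * c)) * b) := by
  have h2 : 2 * (a * d - b * c) ≠ 0 := mul_ne_zero two_ne_zero h
  rw [div_mul_eq_mul_div, div_mul_eq_mul_div, ← sub_div, mul_div_assoc', eq_div_iff h2]
  ring

theorem BetaA_sol1 (a b c d u w : ℝ) (h : a * d - b * c ≠ 0) :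
    w = 2 * ((d * u - b * w) / (2 * (a * d - b * c)) * c
      - (c * u - a * w) / (2 * (a * d - b * c)) * d) := by
  have h2 : 2 * (a * d - b * c) ≠ 0 := mul_ne_zero two_ne_zero h
  rw [div_mul_eq_mul_div, div_mul_eq_mul_div, ← sub_div, mul_div_assoc', eq_div_iff h2]
  ring

theorem BetaA_const (a : Fin 2 → ℂ) (c : ℂ) (x : V2) : dd a (fun _ => c) x = 0 := by
  unfold dd
  simp

theorem BetaA_ofReal {g : V2 → ℝ} {x : V2} (hg : DifferentiableAt ℝ g x) (v : V2) :
    fderiv ℝ (fun y => (g y : ℂ)) x v = ((fderiv ℝ g x v : ℝ) : ℂ) := by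
  have h1 : HasFDerivAt (fun y => (g y : ℂ)) (Complex.ofRealCLM.comp (fderiv ℝ g x)) x :=
    Complex.ofRealCLM.hasFDerivAt.comp x hg.hasFDerivAt
  rw [h1.fderiv]
  rfl

theorem BetaA_diff {g : V2 → ℝ} (hg : ContDiff ℝ (⊤ : ℕ∞) g) (x : V2) :
    DifferentiableAt ℝ (fun y => (g y : ℂ)) x :=
  (Complex.ofRealCLM.differentiableAt).comp x (hg.differentiable (by simp)).differentiableAt

theorem BetaA_dir (f : V2 → ℂ) (x v : V2) :
    fderiv ℝ f x v = ∑ i, (v i : ℂ) * fderiv ℝ f x (Pi.single i 1) := by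
  have h1 : v = ∑ i, v i • (Pi.single i 1 : V2) := by
    ext j
    simp [Finset.sum_apply, Pi.single_apply]
  conv_lhs => rw [h1]
  rw [map_sum]
  refine Finset.sum_congr rfl fun i _ => ?_
  rw [map_smul, Complex.real_smul]

/-- TASK BetaA.  Elementary facts on `dd`: linear combinations and products (from the rules of
`fderiv`). -/
theorem dd_mul (a : Fin 2 → ℂ) {f g : V2 → ℂ} {x : V2} (hf : DifferentiableAt ℝ f x)
    (hg : DifferentiableAt ℝ g x) : dd a (fun y => f y * g y) x = dd a f x * g x + f x * dd a g x := by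
  unfold dd
  rw [fderiv_fun_mul hf hg, Finset.sum_mul, Finset.mul_sum, ← Finset.sum_add_distrib]
  refine Finset.sum_congr rfl fun i _ => ?_
  simp only [add_apply, smul_apply, smul_eq_mul]
  ring

theorem dd_add (a : Fin 2 → ℂ) {f g : V2 → ℂ} {x : V2} (hf : DifferentiableAt ℝ f x)
    (hg : DifferentiableAt ℝ g x) : dd a (fun y => f y + g y) x = dd a f x + dd a g x := by
  unfold dd
  rw [fderiv_fun_add hf hg, ← Finset.sum_add_distrib]
  refine Finset.sum_congr rfl fun i _ => ?_
  simp only [add_apply]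
  ring

theorem dd_sum (a : Fin 2 → ℂ) {ι : Type*} (s : Finset ι) (f : ι → V2 → ℂ) {x : V2}
    (hf : ∀ i ∈ s, DifferentiableAt ℝ (f i) x) :
    dd a (fun y => ∑ i ∈ s, f i y) x = ∑ i ∈ s, dd a (f i) x := by
  unfold dd
  rw [fderiv_fun_sum hf, Finset.sum_comm]
  refine Finset.sum_congr rfl fun i _ => ?_
  simp only [sum_apply, Finset.mul_sum]

theorem dd_pow (a : Fin 2 → ℂ) {f : V2 → ℂ} {x : V2} (hf : DifferentiableAt ℝ f x) (k : ℕ) :
    dd a (fun y => f y ^ k) x = (k : ℂ) * f x ^ (k - 1) * dd a f x := by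
  rcases k with _ | m
  · simp only [pow_zero]
    rw [BetaA_const]
    simp
  · induction m with
    | zero =>
      simp
    | succ m ih =>
      have h1 : (fun y => f y ^ (m + 1 + 1)) = fun y => f y ^ (m + 1) * f y := by
        funext y
        exact pow_succ _ _
      rw [h1, dd_mul a (f := fun y => f y ^ (m + 1)) (hf.fun_pow (m + 1)) hf, ih]
      simp only [Nat.add_sub_cancel]
      push_cast
      ring

/-- `dd (cj a) (conj f) = conj (dd a f)`. -/
theorem dd_conj (a : Fin 2 → ℂ) {f : V2 → ℂ} {x : V2} (hf : DifferentiableAt ℝ f x) :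
    dd (cj a) (fun y => (starRingEnd ℂ) (f y)) x = (starRingEnd ℂ) (dd a f x) := by
  have h1 : HasFDerivAt (fun y => (starRingEnd ℂ) (f y))
      ((Complex.conjCLE : ℂ →L[ℝ] ℂ).comp (fderiv ℝ f x)) x :=
    (Complex.conjCLE : ℂ →L[ℝ] ℂ).hasFDerivAt.comp x hf.hasFDerivAt
  unfold dd cj
  rw [h1.fderiv, map_sum]
  refine Finset.sum_congr rfl fun i _ => ?_
  rw [map_mul]
  rfl

/-- For a real function: `db g = conj (dd g)`. -/
theorem ddr_conj (a : Fin 2 → ℂ) {g : V2 → ℝ} {x : V2} (hg : DifferentiableAt ℝ g x) :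
    ddr (cj a) g x = (starRingEnd ℂ) (ddr a g x) := by
  unfold ddr
  have h1 := dd_conj a (f := fun y => (g y : ℂ)) (x := x)
    ((Complex.ofRealCLM.differentiableAt).comp x hg)
  simp only [Complex.conj_ofReal] at h1
  exact h1

/-- `ddr` in terms of real partial derivatives. -/
theorem ddr_eq (a : Fin 2 → ℂ) {g : V2 → ℝ} {x : V2} (hg : DifferentiableAt ℝ g x) :
    ddr a g x = a 0 * (pd 0 g x : ℂ) + a 1 * (pd 1 g x : ℂ) := by
  have h1 := BetaA_ofReal hg
  unfold ddr dd pd
  rw [Fin.sum_univ_two, h1, h1]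

/-- `dd` of `f` vanishes at points of an open set where `f` vanishes identically. -/
theorem dd_zero_of_open (a : Fin 2 → ℂ) {f : V2 → ℂ} {S : Set V2} (hS : IsOpen S)
    (h : ∀ x ∈ S, f x = 0) : ∀ x ∈ S, dd a f x = 0 := by
  intro x hx
  have h1 : f =ᶠ[nhds x] fun _ => 0 := by
    filter_upwards [hS.mem_nhds hx] with y hy
    exact h y hy
  unfold dd
  rw [h1.fderiv_eq]
  simp

/-- Every real direction `v` is `lam * al + conj (lam * al)` for some complex `lam`, and then
`fderiv f x v = lam * dd al f x + conj lam * dd (cj al) f x`.  (`al`, `cj al` are linearly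
independent over `ℂ` because `Im (conj (al 0) * al 1) ≠ 0`.) -/
theorem dir_decomp (al : Fin 2 → ℂ) (hal : ((starRingEnd ℂ) (al 0) * al 1).im ≠ 0) (v : V2) :
    ∃ lam : ℂ, (∀ i, (v i : ℂ) = lam * al i + (starRingEnd ℂ) (lam * al i)) ∧
      ∀ (f : V2 → ℂ) (x : V2), DifferentiableAt ℝ f x →
        fderiv ℝ f x v = lam * dd al f x + (starRingEnd ℂ) lam * dd (cj al) f x := by
  set a := (al 0).re with ha
  set b := (al 0).im with hb
  set c := (al 1).re with hc
  set d := (al 1).im with hd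
  have hdet : a * d - b * c ≠ 0 := by
    have e : ((starRingEnd ℂ) (al 0) * al 1).im = a * d - b * c := by
      rw [Complex.mul_im, Complex.conj_re, Complex.conj_im]
      ring
    rwa [e] at hal
  have hv : ∀ i, (v i : ℂ) =
      (⟨(d * v 0 - b * v 1) / (2 * (a * d - b * c)), (c * v 0 - a * v 1) / (2 * (a * d - b * c))⟩ : ℂ)
        * al i + (starRingEnd ℂ)
      ((⟨(d * v 0 - b * v 1) / (2 * (a * d - b * c)), (c * v 0 - a * v 1) / (2 * (a * d - b * c))⟩ : ℂ)
        * al i) := by
    intro i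
    rw [Complex.add_conj, Complex.mul_re]
    congr 1
    fin_cases i
    · change v 0 = 2 * (_ * (al 0).re - _ * (al 0).im)
      rw [← ha, ← hb]
      exact BetaA_sol0 a b c d (v 0) (v 1) hdet
    · change v 1 = 2 * (_ * (al 1).re - _ * (al 1).im)
      rw [← hc, ← hd]
      exact BetaA_sol1 a b c d (v 0) (v 1) hdet
  refine ⟨_, hv, ?_⟩
  intro f x _
  generalize (⟨(d * v 0 - b * v 1) / (2 * (a * d - b * c)),
    (c * v 0 - a * v 1) / (2 * (a * d - b * c))⟩ : ℂ) = lam at hv ⊢
  rw [BetaA_dir]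
  unfold dd cj
  rw [Finset.mul_sum, Finset.mul_sum, ← Finset.sum_add_distrib]
  refine Finset.sum_congr rfl fun i _ => ?_
  rw [hv i, map_mul]
  ring

namespace ID

theorem ell_smooth (I : ID) (h : ℝ) : ContDiff ℝ (⊤ : ℕ∞) (I.ell h) := by
  unfold ell
  exact (contDiff_const.sub I.Usm).div I.musm fun x => (I.mupos x).ne'

theorem ell_per (I : ID) (h : ℝ) : Per (I.ell h) := by
  intro x k
  unfold ell
  rw [I.Uper x k, I.muper x k]

/-- `mu * dd ell = - dd U - ell * dd mu`. -/
theorem ddr_ell (I : ID) (h : ℝ) (a : Fin 2 → ℂ) (x : V2) :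
    (I.mu x : ℂ) * ddr a (I.ell h) x = - ddr a I.U x - (I.ell h x : ℂ) * ddr a I.mu x := by
  have hmu := BetaA_diff I.musm x
  have hU := BetaA_diff I.Usm x
  have hell := BetaA_diff (I.ell_smooth h) x
  have h1 := dd_mul a hmu hell
  have h2 : (fun y => (I.mu y : ℂ) * (I.ell h y : ℂ) + (I.U y : ℂ)) = fun _ => (h : ℂ) := by
    funext y
    rw [← Complex.ofReal_mul, ← Complex.ofReal_add]
    congr 1
    unfold ell
    have := (I.mupos y).ne'
    field_simp
    ring
  have h3 := dd_add a (f := fun y => (I.mu y : ℂ) * (I.ell h y : ℂ)) (hmu.mul hell) hU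
  rw [h2, BetaA_const, h1] at h3
  unfold ddr
  linear_combination -h3

theorem beta_smooth (I : ID) (h : ℝ) (s : ℤ) : ContDiff ℝ (⊤ : ℕ∞) (I.beta h s) := by
  unfold beta
  refine ContDiff.sum fun b _ => ?_
  exact (I.fsm _ _).mul ((Complex.ofRealCLM.contDiff.comp (I.ell_smooth h)).pow b)

theorem beta_per (I : ID) (h : ℝ) (s : ℤ) : Per (I.beta h s) := by
  intro x k
  unfold beta
  rw [I.ell_per h x k]
  refine Finset.sum_congr rfl fun b _ => ?_
  rw [I.fper _ _ x k]

/-- `beta h s = 0` for `|s| > n`. -/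
theorem beta_big (I : ID) (h : ℝ) (s : ℤ) (hs : (I.n : ℤ) < |s|) (x : V2) : I.beta h s x = 0 := by
  unfold beta
  refine Finset.sum_eq_zero fun b hb => ?_
  have hb' : b ≤ I.n := by
    rw [Finset.mem_range] at hb
    omega
  have h0 : I.f (s + b) b x = 0 := by
    rcases le_or_gt 0 s with h1 | h1
    · rw [abs_of_nonneg h1] at hs
      exact I.f_big _ _ x (by omega)
    · rw [abs_of_neg h1] at hs
      exact I.f_neg _ _ x (by omega)
  rw [h0, zero_mul]

/-- parity -/
theorem beta_par (I : ID) (h : ℝ) (s : ℤ) (hs : Odd (s + I.n)) (x : V2) : I.beta h s x = 0 := by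
  unfold beta
  refine Finset.sum_eq_zero fun b _ => ?_
  have h0 : I.f (s + b) b x = 0 := by
    rcases lt_or_ge (s + b) 0 with h1 | h1
    · exact I.f_neg _ _ x h1
    · obtain ⟨m, hm⟩ := Int.eq_ofNat_of_zero_le h1
      rw [hm]
      apply I.par m b x
      have e : ((m + b + I.n : ℕ) : ℤ) = (s + I.n) + 2 * b := by
        push_cast
        linarith
      have h2 : Odd ((m + b + I.n : ℕ) : ℤ) := by
        rw [e]
        exact hs.add_even (even_two_mul _)
      exact_mod_cast h2
  rw [h0, zero_mul]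

/-- `beta_{-s} = ell^s * conj beta_s`.
In `beta h (-s) = ∑_b f (b-s) b ell^b` the terms with `b < s` vanish (`f_neg`); put `b = a + s`:
`f a (a+s) = conj (f (a+s) a)`; the terms with `a > n - s` of `beta h s` vanish by `f_big`
(`s + 2a > n` when `s ≤ n`; for `s > n` everything is `0`). -/
theorem beta_conj (I : ID) (h : ℝ) (s : ℕ) (x : V2) :
    I.beta h (-(s : ℤ)) x = (I.ell h x : ℂ) ^ s * (starRingEnd ℂ) (I.beta h s x) := by
  have h1 : I.beta h (-(s : ℤ)) x =
      ∑ b ∈ Finset.range (s + (I.n + 1)), I.f (-(s : ℤ) + b) b x * (I.ell h x : ℂ) ^ b := by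
    unfold beta
    apply Finset.sum_subset
    · intro b hb
      rw [Finset.mem_range] at hb ⊢
      omega
    · intro b _ hb
      rw [Finset.mem_range, not_lt] at hb
      have h0 : I.f (-(s : ℤ) + b) b x = 0 := by
        rcases lt_or_ge (-(s : ℤ) + b) 0 with h2 | h2
        · exact I.f_neg _ _ x h2
        · exact I.f_big _ _ x (by omega)
      rw [h0, zero_mul]
  have h2 : ∑ b ∈ Finset.range s, I.f (-(s : ℤ) + b) b x * (I.ell h x : ℂ) ^ b = 0 := by
    refine Finset.sum_eq_zero fun b hb => ?_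
    rw [Finset.mem_range] at hb
    rw [I.f_neg _ _ x (by omega), zero_mul]
  rw [h1, Finset.sum_range_add, h2, zero_add]
  unfold beta
  rw [map_sum, Finset.mul_sum]
  refine Finset.sum_congr rfl fun a _ => ?_
  have h3 : I.f (-(s : ℤ) + ((s + a : ℕ) : ℤ)) ((s + a : ℕ) : ℤ) x =
      (starRingEnd ℂ) (I.f ((s : ℤ) + a) a x) := by
    have e1 : -(s : ℤ) + ((s + a : ℕ) : ℤ) = a := by push_cast; ring
    rw [e1, I.conj]
    push_cast
    rfl
  rw [h3, map_mul, map_pow, Complex.conj_ofReal, pow_add]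
  ring

/-- At a point with `U x = h` we have `ell h x = 0` and `beta h s x = f s 0 x`. -/
theorem beta_at (I : ID) (x : V2) (s : ℤ) : I.beta (I.U x) s x = I.f s 0 x := by
  have h1 : I.ell (I.U x) x = 0 := by
    unfold ell
    rw [sub_self, zero_div]
  unfold beta
  rw [h1, Finset.sum_eq_single 0]
  · simp
  · intro b _ hb
    rw [Complex.ofReal_zero, zero_pow hb, mul_zero]
  · intro h2
    exact absurd (Finset.mem_range.2 (Nat.succ_pos _)) h2

/-- Derivative of `beta` at a point with `U x = h` in a direction `v` with `dU(v) = 0`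
(`ell = 0` and its derivative in the direction `v` is `0`). -/
theorem beta_deriv_at (I : ID) (x v : V2) (hv : fderiv ℝ I.U x v = 0) (s : ℤ) :
    fderiv ℝ (I.beta (I.U x) s) x v = fderiv ℝ (I.f s 0) x v := by
  have h1 : I.ell (I.U x) x = 0 := by
    unfold ell
    rw [sub_self, zero_div]
  have hmud : DifferentiableAt ℝ I.mu x := (I.musm.differentiable (by simp)).differentiableAt
  have helld : DifferentiableAt ℝ (I.ell (I.U x)) x :=
    ((I.ell_smooth _).differentiable (by simp)).differentiableAt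
  have h2 : fderiv ℝ (I.ell (I.U x)) x v = 0 := by
    have e1 : (fun y => I.mu y * I.ell (I.U x) y) = fun y => I.U x - I.U y := by
      funext y
      unfold ell
      have := (I.mupos y).ne'
      field_simp
    have e2 := fderiv_fun_mul hmud helld
    rw [e1, fderiv_const_sub, h1] at e2
    have e3 := congrArg (fun L : V2 →L[ℝ] ℝ => L v) e2
    simp only [neg_apply, add_apply, smul_apply, smul_eq_mul, hv, zero_mul, add_zero,
      neg_zero] at e3
    exact (mul_eq_zero.1 e3.symm).resolve_left (I.mupos x).ne'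
  have h3 := BetaA_ofReal helld v
  rw [h2, Complex.ofReal_zero] at h3
  have hellc : DifferentiableAt ℝ (fun y => (I.ell (I.U x) y : ℂ)) x :=
    BetaA_diff (I.ell_smooth _) x
  have h4 : ∀ b : ℕ, fderiv ℝ (fun y => (I.ell (I.U x) y : ℂ) ^ b) x v = 0 := by
    intro b
    induction b with
    | zero =>
      simp
    | succ b ih =>
      have e : (fun y => (I.ell (I.U x) y : ℂ) ^ (b + 1)) =
          fun y => (I.ell (I.U x) y : ℂ) ^ b * (I.ell (I.U x) y : ℂ) := by
        funext y
        exact pow_succ _ _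
      rw [e, fderiv_fun_mul (hellc.fun_pow b) hellc]
      simp only [add_apply, smul_apply, smul_eq_mul, h3, ih, mul_zero, add_zero]
  have hfd : ∀ b : ℕ, DifferentiableAt ℝ (I.f (s + b) b) x := fun b =>
    ((I.fsm _ _).differentiable (by simp)).differentiableAt
  unfold beta
  rw [fderiv_fun_sum fun b _ => (hfd b).fun_mul (hellc.fun_pow b)]
  simp only [sum_apply]
  rw [Finset.sum_eq_single 0]
  · simp
  · intro b _ hb
    rw [fderiv_fun_mul (hfd b) (hellc.fun_pow b)]
    simp only [add_apply, smul_apply, smul_eq_mul, h4, h1, Complex.ofReal_zero, zero_pow hb,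
      mul_zero, zero_mul, add_zero]
  · intro h5
    exact absurd (Finset.mem_range.2 (Nat.succ_pos _)) h5

end ID

end Pool.W4b1b5d.H3
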