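import Pool.Agent.W_4b1b5d_h3.Defs

set_option autoImplicit false

namespace Pool.W4b1b5d.H3

theorem Liou_bdd (f : V2 → ℂ) (hf : Continuous f) (hper : Per f) :
    Bornology.IsBounded (Set.range f) := by
  have h1 : IsCompact (f '' Set.Icc (0 : V2) 1) := isCompact_Icc.image hf
  refine h1.isBounded.subset ?_
  rintro _ ⟨x, rfl⟩
  refine ⟨x + fun i => (((-⌊x i⌋ : ℤ)) : ℝ), ?_, hper x _⟩
  constructor
  · intro i
    have := Int.floor_le (x i)
    change (0 : ℝ) ≤ x i + ((-⌊x i⌋ : ℤ) : ℝ)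
    push_cast
    linarith
  · intro i
    have := Int.lt_floor_add_one (x i)
    change x i + ((-⌊x i⌋ : ℤ) : ℝ) ≤ (1 : ℝ)
    push_cast
    linarith

/-- the real linear map `z ↦ (2 Re (z al 0), 2 Re (z al 1))`. -/
noncomputable def Liou_phi (al : Fin 2 → ℂ) : ℂ →L[ℝ] V2 :=
  ContinuousLinearMap.pi fun i => (2 : ℝ) • Complex.reCLM.comp (ContinuousLinearMap.mul ℝ ℂ (al i))

theorem Liou_phi_apply (al : Fin 2 → ℂ) (z : ℂ) (i : Fin 2) :
    Liou_phi al z i = 2 * (al i * z).re := by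
  simp [Liou_phi]

theorem Liou_phi_surj (al : Fin 2 → ℂ) (hal : ((starRingEnd ℂ) (al 0) * al 1).im ≠ 0) :
    Function.Surjective (Liou_phi al) := by
  intro x
  have hD : (al 0).re * (al 1).im - (al 0).im * (al 1).re ≠ 0 := by
    intro h
    apply hal
    simp only [Complex.mul_im, Complex.conj_re, Complex.conj_im]
    linarith
  obtain ⟨D, hDd⟩ : ∃ D : ℝ, D = (al 0).re * (al 1).im - (al 0).im * (al 1).re := ⟨_, rfl⟩
  rw [← hDd] at hD
  refine ⟨⟨(x 0 * (al 1).im - (al 0).im * x 1) / (2 * D),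
    ((al 1).re * x 0 - (al 0).re * x 1) / (2 * D)⟩, ?_⟩
  funext i
  fin_cases i
  · change Liou_phi al _ 0 = x 0
    rw [Liou_phi_apply, Complex.mul_re]
    field_simp
    rw [hDd]
    ring
  · change Liou_phi al _ 1 = x 1
    rw [Liou_phi_apply, Complex.mul_re]
    field_simp
    rw [hDd]
    ring

theorem Liou_lin (f : V2 → ℂ) (x v : V2) :
    fderiv ℝ f x v = ∑ i, (v i : ℂ) * fderiv ℝ f x (Pi.single i 1) := by
  have h1 : v = ∑ i, v i • (Pi.single i (1 : ℝ) : V2) := by
    funext j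
    simp [Finset.sum_apply, Pi.single_apply]
  conv_lhs => rw [h1]
  rw [map_sum]
  refine Finset.sum_congr rfl fun i _ => ?_
  rw [map_smul, Complex.real_smul]

theorem Liou_hasDeriv (al : Fin 2 → ℂ) (f : V2 → ℂ) (hf : Differentiable ℝ f)
    (h : ∀ x, dd (cj al) f x = 0) (z : ℂ) :
    HasFDerivAt (fun w => f (Liou_phi al w))
      ((dd al f (Liou_phi al z)) • (1 : ℂ →L[ℂ] ℂ)) z := by
  have h1 : HasFDerivAt (fun w => f (Liou_phi al w))
      ((fderiv ℝ f (Liou_phi al z)).comp (Liou_phi al)) z :=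
    (hf (Liou_phi al z)).hasFDerivAt.comp z (Liou_phi al).hasFDerivAt
  refine hasFDerivAt_of_restrictScalars ℝ h1 ?_
  ext
  have h2 : ∀ w : ℂ, (fderiv ℝ f (Liou_phi al z)) (Liou_phi al w) =
      w * dd al f (Liou_phi al z) := by
    intro w
    have h3 : (fderiv ℝ f (Liou_phi al z)) (Liou_phi al w) =
      w * dd al f (Liou_phi al z) + (starRingEnd ℂ) w * dd (cj al) f (Liou_phi al z) := by
      rw [Liou_lin]
      unfold dd
      rw [Finset.mul_sum, Finset.mul_sum, ← Finset.sum_add_distrib]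
      refine Finset.sum_congr rfl fun i _ => ?_
      have h4 : ((Liou_phi al w i : ℝ) : ℂ) = al i * w + (starRingEnd ℂ) (al i * w) := by
        rw [Complex.add_conj, Liou_phi_apply]
      rw [h4, map_mul]
      unfold cj
      ring
    rw [h3, h, mul_zero, add_zero]
  simp [h2, mul_comm]

/-- TASK Liou.  Liouville: a periodic solution of `db f = 0` is constant.

Proof.  Let `φ : ℂ → V2`, `φ z i = 2 Re (z * al i)`, a real linear map, bijective because
`Im (conj (al 0) * al 1) ≠ 0`.  `g = f ∘ φ` is real differentiable with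
`fderiv g z w = ∑_i 2 Re (w * al i) ∂_i f = w * dd al f + conj w * dd (cj al) f = w * dd al f (φ z)`, so `g`
is complex differentiable.  `f` is bounded (periodic and continuous), so `g` is constant by Liouville's
theorem (`Differentiable.apply_eq_apply_of_bounded`), and `φ` is surjective. -/
theorem liou (al : Fin 2 → ℂ) (hal : ((starRingEnd ℂ) (al 0) * al 1).im ≠ 0) (f : V2 → ℂ)
    (hf : ContDiff ℝ (⊤ : ℕ∞) f) (hper : Per f) (h : ∀ x, dd (cj al) f x = 0) :
    ∃ a : ℂ, ∀ x, f x = a := by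
  have hd : Differentiable ℝ f := hf.differentiable (by simp)
  have h1 : Differentiable ℂ (fun w => f (Liou_phi al w)) := fun z =>
    (Liou_hasDeriv al f hd h z).differentiableAt
  have h2 : Bornology.IsBounded (Set.range (fun w => f (Liou_phi al w))) :=
    (Liou_bdd f hf.continuous hper).subset (by
      rintro _ ⟨w, rfl⟩
      exact ⟨_, rfl⟩)
  refine ⟨f (Liou_phi al 0), fun x => ?_⟩
  obtain ⟨z, rfl⟩ := Liou_phi_surj al hal x
  exact h1.apply_eq_apply_of_bounded h2 z 0

end Pool.W4b1b5d.H3
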