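import Pool.Agent.W_4b1b5d_h3.Pt

set_option autoImplicit false

namespace Pool.W4b1b5d.H3

open MeasureTheory Set

theorem IdI_isOpen_ne : IsOpen {z : V2 × ℂ | z.2 ≠ 0} :=
  isOpen_ne_fun continuous_snd continuous_const

theorem IdI_Out_sub (D : LD) : D.Out ⊆ {z : V2 × ℂ | z.2 ≠ 0} := fun _ hz => D.ne_zero_of_Out hz

theorem IdI_R_smooth (D : LD) (k : ℕ) :
    ContDiffOn ℝ (⊤ : ℕ∞) (fun z : V2 × ℂ => D.R k z.1 z.2) D.Out :=
  (Lk_contDiffOn D.d D.c D.csm k).mono (IdI_Out_sub D)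

theorem IdI_R1_smooth (D : LD) (k : ℕ) :
    ContDiffOn ℝ (⊤ : ℕ∞) (fun z : V2 × ℂ => D.R1 k z.1 z.2) D.Out :=
  (Lk_contDiffOn D.d (fun j => dd D.al (D.c j)) (fun j => dd_contDiff _ (D.csm j)) k).mono
    (IdI_Out_sub D)

theorem IdI_R2_smooth (D : LD) (k : ℕ) :
    ContDiffOn ℝ (⊤ : ℕ∞) (fun z : V2 × ℂ => D.R2 k z.1 z.2) D.Out :=
  (Lk_contDiffOn D.d (fun j => dd (cj D.al) (D.c j)) (fun j => dd_contDiff _ (D.csm j)) k).mono
    (IdI_Out_sub D)

theorem IdI_ww_smooth (D : LD) : ContDiffOn ℝ (⊤ : ℕ∞) (ww D) D.Out :=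
  (IdI_R_smooth D 0).pow 2

theorem IdI_xx_smooth (D : LD) : ContDiffOn ℝ (⊤ : ℕ∞) (xx D) D.Out :=
  IdI_R_smooth D 1

theorem IdI_den_pos {δ : ℝ} (hδ : 0 < δ) (ξ : ℂ) : 0 < ‖ξ‖ ^ 2 + δ := by positivity

theorem IdI_TT_smooth (D : LD) {δ : ℝ} (hδ : 0 < δ) :
    ContDiffOn ℝ (⊤ : ℕ∞) (TT D δ) D.Out := by
  have hx := IdI_xx_smooth D
  have h1 : ContDiffOn ℝ (⊤ : ℕ∞) (fun z => (starRingEnd ℂ) (xx D z)) D.Out :=
    Complex.conjCLE.contDiff.comp_contDiffOn hx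
  have h2 : ContDiffOn ℝ (⊤ : ℕ∞) (fun z => ‖xx D z‖ ^ 2 + δ) D.Out :=
    (hx.norm_sq ℝ).add contDiffOn_const
  have h3 : ContDiffOn ℝ (⊤ : ℕ∞) (fun z => (((‖xx D z‖ ^ 2 + δ : ℝ)) : ℂ)) D.Out :=
    Complex.ofRealCLM.contDiff.comp_contDiffOn h2
  have h4 : ContDiffOn ℝ (⊤ : ℕ∞) (fun z => (((‖xx D z‖ ^ 2 + δ : ℝ)) : ℂ)⁻¹) D.Out :=
    h3.inv fun z _ => by
      have := IdI_den_pos hδ (xx D z)
      exact_mod_cast this.ne'
  have h5 := h1.mul h4
  refine h5.congr fun z _ => ?_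
  simp only [TT, div_eq_mul_inv]

theorem IdI_CD_zero (A B : V2 × ℂ) (f : V2 × ℂ → ℂ) (z : V2 × ℂ)
    (h : ∀ᶠ z' in nhds z, f z' = 0) : CD A B f z = 0 := by
  have h1 : f =ᶠ[nhds z] fun _ => (0 : ℂ) := h
  have h2 : fderiv ℝ f z = 0 := by
    rw [h1.fderiv_eq]
    simp
  simp [CD, h2]

theorem IdI_ev (f : V2 × ℂ → ℂ) (z : V2 × ℂ) (hz : z ∉ tsupport f) :
    ∀ᶠ z' in nhds z, f z' = 0 := by
  have h1 : (tsupport f)ᶜ ∈ nhds z := (isClosed_tsupport f).isOpen_compl.mem_nhds hz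
  filter_upwards [h1] with z' hz'
  exact image_eq_zero_of_notMem_tsupport hz'

theorem IdI_VV_zero (A B : Fin 4 → V2 × ℂ) (w xi f : V2 × ℂ → ℂ) (z : V2 × ℂ)
    (h : ∀ᶠ z' in nhds z, f z' = 0) : VV A B w xi f z = 0 := by
  simp only [VV, IdI_CD_zero _ _ f z h, mul_zero, add_zero]

/-- The complex integrand. -/
noncomputable def IdI_F (D : LD) (s ε C δ : ℝ) (z : V2 × ℂ) : ℂ :=
  CD (opA D.al 3) (opB D.al 3) (NN D s ε C) z
      * VV (opA D.al) (opB D.al) (ww D) (xx D) (TT D δ) z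
    - CD (opA D.al 3) (opB D.al 3) (TT D δ) z
      * VV (opA D.al) (opB D.al) (ww D) (xx D) (NN D s ε C) z

theorem IdI_F_zero (D : LD) (s ε C δ : ℝ) (z : V2 × ℂ)
    (hz : z ∉ tsupport (NN D s ε C)) : IdI_F D s ε C δ z = 0 := by
  have h := IdI_ev _ z hz
  simp only [IdI_F, IdI_CD_zero _ _ _ z h, IdI_VV_zero _ _ _ _ _ z h, zero_mul, mul_zero, sub_zero]

theorem IdI_CD_cont (A B : V2 × ℂ) {f : V2 × ℂ → ℂ} (hf : ContDiff ℝ 1 f) :
    Continuous (CD A B f) := by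
  have h1 : Continuous (fderiv ℝ f) := hf.continuous_fderiv (by simp)
  have h2 : Continuous fun z => fderiv ℝ f z A := h1.clm_apply continuous_const
  have h3 : Continuous fun z => fderiv ℝ f z B := h1.clm_apply continuous_const
  exact h2.add (continuous_const.mul h3)

theorem IdI_F_cont (D : LD) (s ε C δ : ℝ) (hs : |s| ≤ 1) (hε : 0 < ε) (hδ : 0 < δ) :
    Continuous (IdI_F D s ε C δ) := by
  rw [continuous_iff_continuousAt]
  intro z
  by_cases hz : z ∈ D.Out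
  · have hO := D.isOpen_Out
    have hN := NN_contDiff D s ε C hs hε
    have hn : D.Out ∈ nhds z := hO.mem_nhds hz
    have cN : ∀ A B, ContinuousAt (CD A B (NN D s ε C)) z :=
      fun A B => (IdI_CD_cont A B hN).continuousAt
    have cw : ∀ A B, ContinuousAt (CD A B (ww D)) z := fun A B =>
      (CD_contDiffOn A B hO (IdI_ww_smooth D)).continuousOn.continuousAt hn
    have cx : ∀ A B, ContinuousAt (CD A B (xx D)) z := fun A B =>
      (CD_contDiffOn A B hO (IdI_xx_smooth D)).continuousOn.continuousAt hn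
    have cT : ∀ A B, ContinuousAt (CD A B (TT D δ)) z := fun A B =>
      (CD_contDiffOn A B hO (IdI_TT_smooth D hδ)).continuousOn.continuousAt hn
    have cVT : ContinuousAt (VV (opA D.al) (opB D.al) (ww D) (xx D) (TT D δ)) z := by
      unfold VV
      exact ((((cw _ _).mul (cx _ _)).sub ((cw _ _).mul (cx _ _))).mul (cT _ _)).add
        ((((cw _ _).mul (cx _ _)).sub ((cw _ _).mul (cx _ _))).mul (cT _ _)) |>.add
        ((((cw _ _).mul (cx _ _)).sub ((cw _ _).mul (cx _ _))).mul (cT _ _))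
    have cVN : ContinuousAt (VV (opA D.al) (opB D.al) (ww D) (xx D) (NN D s ε C)) z := by
      unfold VV
      exact ((((cw _ _).mul (cx _ _)).sub ((cw _ _).mul (cx _ _))).mul (cN _ _)).add
        ((((cw _ _).mul (cx _ _)).sub ((cw _ _).mul (cx _ _))).mul (cN _ _)) |>.add
        ((((cw _ _).mul (cx _ _)).sub ((cw _ _).mul (cx _ _))).mul (cN _ _))
    unfold IdI_F
    exact ((cN _ _).mul cVT).sub ((cT _ _).mul cVN)
  · have hz' : z ∉ tsupport (NN D s ε C) := fun h => hz (NN_tsupport D s ε C hs hε h)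
    have h1 : (tsupport (NN D s ε C))ᶜ ∈ nhds z :=
      (isClosed_tsupport _).isOpen_compl.mem_nhds hz'
    have h2 : IdI_F D s ε C δ =ᶠ[nhds z] fun _ => (0 : ℂ) := by
      filter_upwards [h1] with z' h3
      exact IdI_F_zero D s ε C δ z' h3
    exact h2.continuousAt

theorem IdI_large (D : LD) (s ε C : ℝ) : ∃ ρ : ℝ, ∀ z : V2 × ℂ, ρ ≤ ‖z.2‖ →
    z ∉ tsupport (NN D s ε C) := by
  obtain ⟨ρ, _, hρ⟩ := NN_large D s ε C
  refine ⟨ρ + 1, fun z hz hmem => ?_⟩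
  have h1 : IsOpen {z' : V2 × ℂ | ρ < ‖z'.2‖} :=
    isOpen_lt continuous_const continuous_snd.norm
  have h2 : {z' : V2 × ℂ | ρ < ‖z'.2‖} ∈ nhds z := h1.mem_nhds (by
    show ρ < ‖z.2‖
    linarith)
  have h3 := mem_closure_iff_nhds.mp hmem _ h2
  obtain ⟨z', hz1, hz2⟩ := h3
  exact hz2 (hρ z' (le_of_lt hz1))

/-- TASK IdI (1).  Outside of `tsupport N` the integrand vanishes: `N = 0` near `z`, so all
`CD _ _ N z` are `0`; use `pt`. -/
theorem GG_zero (D : LD) (s ε C δ : ℝ) (hs : |s| ≤ 1) (hε : 0 < ε) (hδ : 0 < δ) (z : V2 × ℂ)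
    (hz : z ∉ tsupport (NN D s ε C)) : GG D s ε C δ z = 0 := by
  rw [pt D s ε C δ hs hε hδ z]
  have h := IdI_F_zero D s ε C δ z hz
  unfold IdI_F at h
  rw [h]
  simp

/-- The integrand is continuous: on the open set `Out` it is a product of continuous functions
(`Psi` is `C¹`, `R, R1, R2` are continuous on `p ≠ 0`), and near a point `z ∉ Out` it vanishes
(`NN_tsupport` and `GG_zero`, `tsupport` is closed). -/
theorem GG_cont (D : LD) (s ε C δ : ℝ) (hs : |s| ≤ 1) (hε : 0 < ε) (hδ : 0 < δ) :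
    Continuous (GG D s ε C δ) := by
  have h1 : GG D s ε C δ = fun z => 2 * s * (IdI_F D s ε C δ z).im := by
    funext z
    exact pt D s ε C δ hs hε hδ z
  rw [h1]
  exact continuous_const.mul (Complex.continuous_im.comp (IdI_F_cont D s ε C δ hs hε hδ))

/-- The integrand is integrable on the cell. -/
theorem GG_int (D : LD) (s ε C δ : ℝ) (hs : |s| ≤ 1) (hε : 0 < ε) (hδ : 0 < δ) (y : V2) :
    IntegrableOn (GG D s ε C δ) (Cell y) := by
  obtain ⟨ρ, hρ⟩ := IdI_large D s ε C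
  exact integrableOn_cell _ (GG_cont D s ε C δ hs hε hδ) ρ
    (fun z hz => GG_zero D s ε C δ hs hε hδ z (hρ z hz)) y

theorem IdI_w4 (D : LD) (z : V2 × ℂ) (hz : z ∈ D.Out) :
    CD (opA D.al 3) (opB D.al 3) (ww D) z = 0 := by
  have hp := D.ne_zero_of_Out hz
  have hO := D.isOpen_Out
  have h1 : DifferentiableAt ℝ (fun z : V2 × ℂ => D.R 0 z.1 z.2) z :=
    ((IdI_R_smooth D 0).contDiffAt (hO.mem_nhds hz)).differentiableAt (by simp)
  have h2 : Dq (fun z : V2 × ℂ => D.R 0 z.1 z.2) z = 0 := Dq_Lk D.d D.c D.csm 0 z hp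
  have h3 : CD (0, 1 / 2) (0, Complex.I / 2) (fun z : V2 × ℂ => D.R 0 z.1 z.2) z = 0 := h2
  have h4 : ww D = fun z : V2 × ℂ => D.R 0 z.1 z.2 * D.R 0 z.1 z.2 := by
    funext z
    simp [ww, pow_two]
  have h5 : opA D.al 3 = (0, 1 / 2) := rfl
  have h6 : opB D.al 3 = (0, Complex.I / 2) := rfl
  rw [h5, h6, h4, CD_mul _ _ h1 h1, h3]
  simp

theorem IdI_x4 (D : LD) (z : V2 × ℂ) (hz : z ∈ D.Out) :
    CD (opA D.al 3) (opB D.al 3) (xx D) z = 0 :=
  Dq_Lk D.d D.c D.csm 1 z (D.ne_zero_of_Out hz)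

/-- TASK IdI (2).  Identity (I): apply `null_lemma` with `O = Out`, the operators `opA, opB`,
`w = ww`, `xi = xx`, `T = TT`, `N = NN`; take the imaginary part of the integral
(`integral_im`, integrability from `GG_int`-type arguments: the complex integrand is continuous and
vanishes for large `p`), and use `pt`. -/
theorem idI (D : LD) (s ε C δ : ℝ) (hs : |s| ≤ 1) (hε : 0 < ε) (hδ : 0 < δ) (y : V2) :
    ∫ z in Cell y, GG D s ε C δ z = 0 := by
  obtain ⟨ρ, _, hρ⟩ := NN_large D s ε C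
  have hwper : ∀ (z : V2 × ℂ) (k : Fin 2 → ℤ),
      ww D (z.1 + fun i => (k i : ℝ), z.2) = ww D z := fun z k => by
    simp only [ww, D.R_per]
  have hxper : ∀ (z : V2 × ℂ) (k : Fin 2 → ℤ),
      xx D (z.1 + fun i => (k i : ℝ), z.2) = xx D z := fun z k => by
    simp only [xx, D.R_per]
  have hTper : ∀ (z : V2 × ℂ) (k : Fin 2 → ℤ),
      TT D δ (z.1 + fun i => (k i : ℝ), z.2) = TT D δ z := fun z k => by
    simp only [TT, hxper]
  have h1 := null_lemma (opA D.al) (opB D.al) D.Out D.isOpen_Out (ww D) (xx D) (TT D δ)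
    (NN D s ε C) (IdI_ww_smooth D) (IdI_xx_smooth D) (IdI_TT_smooth D hδ)
    (NN_contDiff D s ε C hs hε) (NN_tsupport D s ε C hs hε) (fun z k hz => D.Out_per z k hz)
    hwper hxper hTper (NN_per D s ε C) ρ hρ (IdI_w4 D) (IdI_x4 D) y
  have h2 : ∫ z in Cell y, IdI_F D s ε C δ z = 0 := h1
  obtain ⟨ρ', hρ'⟩ := IdI_large D s ε C
  have hint : IntegrableOn (IdI_F D s ε C δ) (Cell y) :=
    integrableOn_cell _ (IdI_F_cont D s ε C δ hs hε hδ) ρ'
      (fun z hz => IdI_F_zero D s ε C δ z (hρ' z hz)) y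
  have h3 : ∀ z, GG D s ε C δ z = 2 * s * (IdI_F D s ε C δ z).im := fun z =>
    pt D s ε C δ hs hε hδ z
  simp only [h3]
  rw [integral_const_mul]
  have h4 : ∫ z in Cell y, (IdI_F D s ε C δ z).im = (∫ z in Cell y, IdI_F D s ε C δ z).im := by
    exact integral_im hint
  rw [h4, h2]
  simp

end Pool.W4b1b5d.H3
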