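import Pool.Agent.W_4b1b5d_h3.AlgXY

set_option autoImplicit false

namespace Pool.W4b1b5d.H3

theorem Ineq_R_cont (D : LD) (k : ℕ) :
    ContinuousOn (fun z : V2 × ℂ => D.R k z.1 z.2) D.Out :=
  ((Lk_contDiffOn D.d D.c D.csm k).continuousOn).mono fun _ hz => D.ne_zero_of_Out hz

theorem Ineq_R1_cont (D : LD) (k : ℕ) :
    ContinuousOn (fun z : V2 × ℂ => D.R1 k z.1 z.2) D.Out :=
  ((Lk_contDiffOn D.d (fun j => dd D.al (D.c j)) (fun j => dd_contDiff _ (D.csm j))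
    k).continuousOn).mono fun _ hz => D.ne_zero_of_Out hz

theorem Ineq_R2_cont (D : LD) (k : ℕ) :
    ContinuousOn (fun z : V2 × ℂ => D.R2 k z.1 z.2) D.Out :=
  ((Lk_contDiffOn D.d (fun j => dd (cj D.al) (D.c j)) (fun j => dd_contDiff _ (D.csm j))
    k).continuousOn).mono fun _ hz => D.ne_zero_of_Out hz

theorem Ineq_l_cont (D : LD) : Continuous (fun z : V2 × ℂ => (D.l z.1 : ℂ)) :=
  Complex.continuous_ofReal.comp (D.lsm.continuous.comp continuous_fst)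

theorem Ineq_dl_cont (D : LD) :
    Continuous (fun z : V2 × ℂ => dd D.al (fun y => (D.l y : ℂ)) z.1) := by
  have h1 : ContDiff ℝ (⊤ : ℕ∞) (fun y : V2 => (D.l y : ℂ)) :=
    Complex.ofRealCLM.contDiff.comp D.lsm
  exact (dd_contDiff D.al h1).continuous.comp continuous_fst

theorem Ineq_EE_cont (D : LD) : ContinuousOn (EE D) D.Out := by
  have hne : ∀ n : ℕ, ∀ z ∈ D.Out, z.2 ^ n ≠ 0 := fun n z hz => pow_ne_zero n (D.ne_zero_of_Out hz)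
  have h2 : Continuous fun z : V2 × ℂ => z.2 := continuous_snd
  unfold EE
  refine ContinuousOn.sub ?_ ?_
  · refine ContinuousOn.mul ?_ (Ineq_R1_cont D 0)
    refine ContinuousOn.neg ?_
    exact ContinuousOn.div (continuous_const.mul (Ineq_l_cont D)).continuousOn
      (h2.pow 3).continuousOn (hne 3)
  · exact ContinuousOn.div ((Ineq_dl_cont D).continuousOn.mul (Ineq_R_cont D 1))
      (h2.pow 2).continuousOn (hne 2)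

theorem Ineq_XX_cont (D : LD) : ContinuousOn (XX D) D.Out := by
  unfold XX
  exact ((Ineq_R1_cont D 0).mul (Ineq_R_cont D 2)).sub ((Ineq_R_cont D 1).mul (Ineq_R1_cont D 1))

theorem Ineq_YY_cont (D : LD) : ContinuousOn (YY D) D.Out := by
  unfold YY
  exact ((Ineq_R2_cont D 0).mul (Ineq_R_cont D 2)).sub ((Ineq_R_cont D 1).mul (Ineq_R2_cont D 1))

theorem Ineq_mu (D : LD) (S : Set (V2 × ℂ)) (hS : IsCompact S) (hSO : S ⊆ D.Out) :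
    ∃ κ : ℝ, 0 < κ ∧ κ ≤ 1 ∧ ∀ z ∈ S, ‖-(D.l z.1 : ℂ) / z.2 ^ 2‖ ^ 2 ≤ 1 - κ := by
  have hlt : ∀ z ∈ S, ‖-(D.l z.1 : ℂ) / z.2 ^ 2‖ ^ 2 < 1 := by
    intro z hz
    have h1 := D.ne_zero_of_Out (hSO hz)
    have h2 : |D.l z.1| < ‖z.2‖ ^ 2 := hSO hz
    have h3 : 0 < ‖z.2‖ := norm_pos_iff.2 h1
    have h4 : ‖-(D.l z.1 : ℂ) / z.2 ^ 2‖ < 1 := by
      rw [norm_div, norm_neg, Complex.norm_real, norm_pow, Real.norm_eq_abs,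
        div_lt_one (by positivity)]
      exact h2
    exact pow_lt_one₀ (norm_nonneg _) h4 two_ne_zero
  have hc : ContinuousOn (fun z : V2 × ℂ => -(D.l z.1 : ℂ) / z.2 ^ 2) S :=
    ContinuousOn.div (Ineq_l_cont D).neg.continuousOn (continuous_snd.pow 2).continuousOn
      fun z hz => pow_ne_zero 2 (D.ne_zero_of_Out (hSO hz))
  have hc2 : ContinuousOn (fun z : V2 × ℂ => (1 - ‖-(D.l z.1 : ℂ) / z.2 ^ 2‖ ^ 2)⁻¹) S := by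
    refine ContinuousOn.inv₀ (continuousOn_const.sub (hc.norm.pow 2)) ?_
    intro z hz
    have := hlt z hz
    exact (sub_pos.2 this).ne'
  obtain ⟨B, hB⟩ := hS.exists_bound_of_continuousOn hc2
  have hm : 0 < max B 1 := lt_max_of_lt_right one_pos
  refine ⟨(max B 1)⁻¹, by positivity, inv_le_one_of_one_le₀ (le_max_right _ _), fun z hz => ?_⟩
  have h1 := hB z hz
  have h2 := sub_pos.2 (hlt z hz)
  have h3 : (1 - ‖-(D.l z.1 : ℂ) / z.2 ^ 2‖ ^ 2)⁻¹ ≤ max B 1 :=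
    ((le_abs_self _).trans h1).trans (le_max_left _ _)
  have h4 := (inv_le_comm₀ h2 hm).1 h3
  linarith

theorem Ineq_xx (D : LD) (C : ℝ)
    (hC : ∀ (x : V2) (p : ℂ), |D.l x| < ‖p‖ ^ 2 → D.R 1 x p = 0 → ‖(D.R 0 x p) ^ 2‖ ^ 2 < C)
    (S : Set (V2 × ℂ)) (hS : IsCompact S) (hSO : S ⊆ D.Out) :
    ∃ c0 : ℝ, 0 < c0 ∧ ∀ z ∈ S, C ≤ ‖ww D z‖ ^ 2 → c0 ≤ ‖xx D z‖ := by
  have hw : ContinuousOn (fun z => ‖ww D z‖ ^ 2) S := by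
    unfold ww
    exact ((((Ineq_R_cont D 0).mono hSO).pow 2).norm).pow 2
  have hcl : IsClosed (S ∩ (fun z => ‖ww D z‖ ^ 2) ⁻¹' (Set.Ici C)) :=
    hw.preimage_isClosed_of_isClosed hS.isClosed isClosed_Ici
  have hcp : IsCompact (S ∩ (fun z => ‖ww D z‖ ^ 2) ⁻¹' (Set.Ici C)) :=
    hS.of_isClosed_subset hcl Set.inter_subset_left
  have hne : ∀ z ∈ S ∩ (fun z => ‖ww D z‖ ^ 2) ⁻¹' (Set.Ici C), ‖xx D z‖ ≠ 0 := by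
    rintro z ⟨hz, hz2⟩ h0
    have h1 : D.R 1 z.1 z.2 = 0 := norm_eq_zero.1 h0
    have h2 := hC z.1 z.2 (hSO hz) h1
    have h3 : C ≤ ‖(D.R 0 z.1 z.2) ^ 2‖ ^ 2 := hz2
    linarith
  have hx : ContinuousOn (fun z => ‖xx D z‖⁻¹) (S ∩ (fun z => ‖ww D z‖ ^ 2) ⁻¹' (Set.Ici C)) := by
    refine ContinuousOn.inv₀ ?_ hne
    have h5 : ContinuousOn (xx D) D.Out := Ineq_R_cont D 1
    exact (h5.mono (Set.inter_subset_left.trans hSO)).norm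
  obtain ⟨B, hB⟩ := hcp.exists_bound_of_continuousOn hx
  have hm : 0 < max B 1 := lt_max_of_lt_right one_pos
  refine ⟨(max B 1)⁻¹, by positivity, fun z hz hzC => ?_⟩
  have h1 := hB z ⟨hz, hzC⟩
  have h2 : 0 < ‖xx D z‖ := lt_of_le_of_ne (norm_nonneg _) (Ne.symm (hne z ⟨hz, hzC⟩))
  have h3 : ‖xx D z‖⁻¹ ≤ max B 1 := ((le_abs_self _).trans h1).trans (le_max_left _ _)
  exact (inv_le_comm₀ h2 hm).1 h3

theorem Ineq_alg {κ m x e y : ℝ} (hκ : 0 < κ) (hm0 : 0 ≤ m) (hm : m ^ 2 ≤ 1 - κ) (hx : 0 ≤ x)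
    (he : 0 ≤ e) (hy0 : 0 ≤ y) (hy : y ≤ m * x + e) :
    κ / 2 * x ^ 2 - (2 / κ + 1) * e ^ 2 ≤ x ^ 2 - y ^ 2 := by
  have hm1 : m ≤ 1 := by nlinarith
  have h1 : y ^ 2 ≤ (m * x + e) ^ 2 := pow_le_pow_left₀ hy0 hy 2
  have h2 : m ^ 2 * x ^ 2 ≤ (1 - κ) * x ^ 2 := mul_le_mul_of_nonneg_right hm (by positivity)
  have h3 : m * (x * e) ≤ 1 * (x * e) := mul_le_mul_of_nonneg_right hm1 (by positivity)
  have h4 : 0 ≤ κ / 2 * (x - 2 / κ * e) ^ 2 := by positivity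
  have h5 : κ / 2 * (x - 2 / κ * e) ^ 2 = κ / 2 * x ^ 2 - 2 * (x * e) + 2 / κ * e ^ 2 := by
    field_simp
    ring
  rw [h5] at h4
  nlinarith

/-- TASK Ineq (1).  Constants on a compact subset `S` of `Out`.

Proof.  On the compact set `S` all the continuous functions `R k, R1 k, XX, YY, EE` are bounded and
`‖l/p²‖ < 1`, so `‖l/p²‖² ≤ 1 - κ` for some `κ ∈ (0,1]`.  With `Y = μ X + ξ E` (`Y_eq`),
`‖Y‖² ≤ ‖μ‖²‖X‖² + 2 ‖μ‖‖X‖‖ξ‖‖E‖ + ‖ξ‖²‖E‖² ≤ (1-κ)‖X‖² + (κ/2)‖X‖² + (2/κ + 1)‖ξ‖²‖E‖²`.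
(a) follows with `M ≥ (2/κ+1) sup ‖E‖²`.  (b), (c) boundedness.  (d): on the compact set
`S ∩ {‖w‖² ≥ C}` the continuous function `‖R_p‖` has no zero (`hC`), so it is bounded below. -/
theorem consts (D : LD) (C : ℝ)
    (hC : ∀ (x : V2) (p : ℂ), |D.l x| < ‖p‖ ^ 2 → D.R 1 x p = 0 → ‖(D.R 0 x p) ^ 2‖ ^ 2 < C)
    (S : Set (V2 × ℂ)) (hS : IsCompact S) (hSO : S ⊆ D.Out) :
    ∃ κ : ℝ, 0 < κ ∧ ∃ M : ℝ, 0 < M ∧ ∃ c0 : ℝ, 0 < c0 ∧ ∀ z ∈ S,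
      (κ / 2 * ‖XX D z‖ ^ 2 - M * ‖xx D z‖ ^ 2 ≤ ‖XX D z‖ ^ 2 - ‖YY D z‖ ^ 2) ∧
      (4 * ‖D.R 0 z.1 z.2‖ ^ 2 ≤ M) ∧
      (|4 * ‖D.R 0 z.1 z.2‖ ^ 2 * (‖XX D z‖ ^ 2 - ‖YY D z‖ ^ 2)| ≤ M) ∧
      (C ≤ ‖ww D z‖ ^ 2 → c0 ≤ ‖xx D z‖) ∧
      (‖D.R1 1 z.1 z.2‖ ^ 2 ≤ M) := by
  obtain ⟨κ, hκ, hκ1, hmu⟩ := Ineq_mu D S hS hSO
  obtain ⟨c0, hc0, hxx⟩ := Ineq_xx D C hC S hS hSO
  obtain ⟨BE, hBE⟩ := hS.exists_bound_of_continuousOn ((Ineq_EE_cont D).mono hSO)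
  obtain ⟨BX, hBX⟩ := hS.exists_bound_of_continuousOn ((Ineq_XX_cont D).mono hSO)
  obtain ⟨BY, hBY⟩ := hS.exists_bound_of_continuousOn ((Ineq_YY_cont D).mono hSO)
  obtain ⟨BR, hBR⟩ := hS.exists_bound_of_continuousOn ((Ineq_R_cont D 0).mono hSO)
  obtain ⟨B1, hB1⟩ := hS.exists_bound_of_continuousOn ((Ineq_R1_cont D 1).mono hSO)
  have hk2 : 0 < 2 / κ + 1 := by positivity
  refine ⟨κ, hκ, (2 / κ + 1) * BE ^ 2 + 4 * BR ^ 2 + 4 * BR ^ 2 * (BX ^ 2 + BY ^ 2) + B1 ^ 2 + 1,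
    by positivity, c0, hc0, fun z hz => ⟨?_, ?_, ?_, hxx z hz, ?_⟩⟩
  · have h1 := hBE z hz
    have h2 : ‖YY D z‖ ≤ ‖-(D.l z.1 : ℂ) / z.2 ^ 2‖ * ‖XX D z‖ + ‖xx D z‖ * ‖EE D z‖ := by
      rw [Y_eq D z (D.ne_zero_of_Out (hSO hz))]
      refine (norm_add_le _ _).trans ?_
      rw [norm_mul, norm_mul]
      rfl
    have h3 := Ineq_alg hκ (norm_nonneg _) (hmu z hz) (norm_nonneg (XX D z))
      (mul_nonneg (norm_nonneg (xx D z)) (norm_nonneg (EE D z))) (norm_nonneg _) h2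
    refine le_trans ?_ h3
    have h4 : ‖EE D z‖ ^ 2 ≤ BE ^ 2 := pow_le_pow_left₀ (norm_nonneg _) h1 2
    have h5 : (2 / κ + 1) * (‖xx D z‖ * ‖EE D z‖) ^ 2 ≤
        (2 / κ + 1) * BE ^ 2 * ‖xx D z‖ ^ 2 := by
      have h6 : (2 / κ + 1) * ‖xx D z‖ ^ 2 * ‖EE D z‖ ^ 2 ≤
          (2 / κ + 1) * ‖xx D z‖ ^ 2 * BE ^ 2 := mul_le_mul_of_nonneg_left h4 (by positivity)
      nlinarith
    have h7 : 0 ≤ (4 * BR ^ 2 + 4 * BR ^ 2 * (BX ^ 2 + BY ^ 2) + B1 ^ 2 + 1) * ‖xx D z‖ ^ 2 := by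
      positivity
    nlinarith
  · have h1 : ‖D.R 0 z.1 z.2‖ ^ 2 ≤ BR ^ 2 := pow_le_pow_left₀ (norm_nonneg _) (hBR z hz) 2
    have h2 : 0 ≤ (2 / κ + 1) * BE ^ 2 + 4 * BR ^ 2 * (BX ^ 2 + BY ^ 2) + B1 ^ 2 + 1 := by
      positivity
    linarith
  · have h1 : ‖D.R 0 z.1 z.2‖ ^ 2 ≤ BR ^ 2 := pow_le_pow_left₀ (norm_nonneg _) (hBR z hz) 2
    have h2 : ‖XX D z‖ ^ 2 ≤ BX ^ 2 := pow_le_pow_left₀ (norm_nonneg _) (hBX z hz) 2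
    have h3 : ‖YY D z‖ ^ 2 ≤ BY ^ 2 := pow_le_pow_left₀ (norm_nonneg _) (hBY z hz) 2
    have h4 : |‖XX D z‖ ^ 2 - ‖YY D z‖ ^ 2| ≤ BX ^ 2 + BY ^ 2 := by
      rw [abs_le]
      constructor
      · nlinarith [sq_nonneg ‖XX D z‖, sq_nonneg BX]
      · nlinarith [sq_nonneg ‖YY D z‖, sq_nonneg BY]
    rw [abs_mul, abs_of_nonneg (by positivity : 0 ≤ 4 * ‖D.R 0 z.1 z.2‖ ^ 2)]
    have h5 : 4 * ‖D.R 0 z.1 z.2‖ ^ 2 * |‖XX D z‖ ^ 2 - ‖YY D z‖ ^ 2| ≤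
        4 * BR ^ 2 * (BX ^ 2 + BY ^ 2) :=
      mul_le_mul (by linarith) h4 (abs_nonneg _) (by positivity)
    have h6 : 0 ≤ (2 / κ + 1) * BE ^ 2 + 4 * BR ^ 2 + B1 ^ 2 + 1 := by
      positivity
    linarith
  · have h1 : ‖D.R1 1 z.1 z.2‖ ^ 2 ≤ B1 ^ 2 := pow_le_pow_left₀ (norm_nonneg _) (hB1 z hz) 2
    have h2 : 0 ≤ (2 / κ + 1) * BE ^ 2 + 4 * BR ^ 2 + 4 * BR ^ 2 * (BX ^ 2 + BY ^ 2) + 1 := by
      positivity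
    linarith

theorem Ineq_tau_nonneg {δ : ℝ} (hδ : 0 < δ) (ξ : ℂ) : 0 ≤ tau δ ξ := by
  unfold tau
  positivity

theorem Ineq_tau_le {δ c0 : ℝ} (hδ : 0 < δ) (hc : 0 < c0) {ξ : ℂ} (h : c0 ≤ ‖ξ‖) :
    tau δ ξ ≤ δ * (c0 ^ 4)⁻¹ := by
  unfold tau
  rw [div_eq_mul_inv]
  refine mul_le_mul_of_nonneg_left ?_ hδ.le
  refine inv_anti₀ (by positivity) ?_
  have h1 : c0 ^ 2 ≤ ‖ξ‖ ^ 2 + δ := by
    have := pow_le_pow_left₀ hc.le h 2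
    linarith
  calc c0 ^ 4 = (c0 ^ 2) ^ 2 := by ring
    _ ≤ (‖ξ‖ ^ 2 + δ) ^ 2 := pow_le_pow_left₀ (by positivity) h1 2

theorem Ineq_sub_sq (u v : ℂ) : 1 / 2 * ‖u‖ ^ 2 - ‖v‖ ^ 2 ≤ ‖u - v‖ ^ 2 := by
  have h1 : ‖u‖ ≤ ‖u - v‖ + ‖v‖ := by
    have := norm_add_le (u - v) v
    rwa [sub_add_cancel] at this
  have h2 : ‖u‖ ^ 2 ≤ (‖u - v‖ + ‖v‖) ^ 2 := pow_le_pow_left₀ (norm_nonneg _) h1 2
  nlinarith [sq_nonneg (‖u - v‖ - ‖v‖)]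

theorem Ineq_core {m τ r x y ξ u v κ M B : ℝ} (hm : 0 ≤ m) (hmB : m ≤ B) (hτ : 0 ≤ τ)
    (hr : 0 ≤ r) (hrM : r ≤ M) (hκ : 0 < κ)
    (ha : κ / 2 * x - M * ξ ≤ x - y) (hξ : 0 ≤ ξ) (hM : 0 < M)
    (hx : 1 / 2 * u - ξ * v ≤ x) (hv0 : 0 ≤ v) (hv : v ≤ M) :
    m * r * (κ / 4) * (u * τ) - (B * M * M + B * M * M * κ) * (ξ * τ) ≤ m * τ * (r * (x - y)) := by
  have h0 : 0 ≤ m * τ * r := by positivity
  have hB : 0 ≤ B := hm.trans hmB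
  have h1 : m * τ * r * (κ / 2 * x - M * ξ) ≤ m * τ * r * (x - y) :=
    mul_le_mul_of_nonneg_left ha h0
  have h2 : m * τ * r * (κ / 2) * (1 / 2 * u - ξ * v) ≤ m * τ * r * (κ / 2) * x :=
    mul_le_mul_of_nonneg_left hx (by positivity)
  have h3 : m * r ≤ B * M := mul_le_mul hmB hrM hr hB
  have h4 : (m * r) * (ξ * τ) ≤ (B * M) * (ξ * τ) :=
    mul_le_mul_of_nonneg_right h3 (by positivity)
  have h5 : ((m * r) * (ξ * τ)) * M ≤ ((B * M) * (ξ * τ)) * M :=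
    mul_le_mul_of_nonneg_right h4 hM.le
  have h6 : ((m * r) * (ξ * τ)) * v ≤ ((B * M) * (ξ * τ)) * M :=
    mul_le_mul h4 hv hv0 (by positivity)
  have h7 : ((m * r) * (ξ * τ)) * v * (κ / 2) ≤ ((B * M) * (ξ * τ)) * M * (κ / 2) :=
    mul_le_mul_of_nonneg_right h6 (by positivity)
  have h8 : 0 ≤ ((B * M) * (ξ * τ)) * M * (κ / 2) := by positivity
  nlinarith

/-- TASK Ineq (2).  Lower bound of the integrand.  `s = ±1`.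

Proof.  Take the constants of `consts` and `B` with `|Psi_v| ≤ B` (`Psi_deriv_bdd`).
Case `‖w‖² < C`: `s * Psi_v = s * s * 2 max (s Im w - ε) 0 = 2 max(..) ≥ 0` (`Psi_deriv`), so
`GG ≥ s Psi_v τ 4‖R‖² (κ/2 ‖X‖² - M ‖ξ‖²) ≥ s Psi_v τ 4 ‖R‖² κ/2 ‖X‖² - B M M ‖ξ‖² τ`, and
`‖X‖² ≥ ½ ‖R1_0‖² ‖R_2‖² - ‖ξ‖² ‖R1_1‖²` (because `‖u - v‖² ≥ ½‖u‖² - ‖v‖²`).
Case `C ≤ ‖w‖²`: `|GG| ≤ B τ M` and `τ = δ/(‖ξ‖²+δ)² ≤ δ / c0⁴`; and the first term on the right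
hand side is absent. -/
theorem GG_lower (D : LD) (s ε C : ℝ) (hs : s = 1 ∨ s = -1) (hε : 0 < ε)
    (hC : ∀ (x : V2) (p : ℂ), |D.l x| < ‖p‖ ^ 2 → D.R 1 x p = 0 → ‖(D.R 0 x p) ^ 2‖ ^ 2 < C)
    (S : Set (V2 × ℂ)) (hS : IsCompact S) (hSO : S ⊆ D.Out) :
    ∃ κ : ℝ, 0 < κ ∧ ∃ K : ℝ, 0 < K ∧ ∀ δ : ℝ, 0 < δ → ∀ z ∈ S,
      (‖ww D z‖ ^ 2 < C →
        2 * max (s * (ww D z).im - ε) 0 * (4 * ‖D.R 0 z.1 z.2‖ ^ 2) * (κ / 4)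
            * ‖D.R1 0 z.1 z.2‖ ^ 2 * (‖D.R 2 z.1 z.2‖ ^ 2 * tau δ (xx D z))
          - K * (‖xx D z‖ ^ 2 * tau δ (xx D z)) ≤ GG D s ε C δ z) ∧
      (-K * (‖xx D z‖ ^ 2 * tau δ (xx D z)) - K * δ ≤ GG D s ε C δ z) := by
  obtain ⟨κ, hκ, M, hM, c0, hc0, hall⟩ := consts D C hC S hS hSO
  obtain ⟨B, hB⟩ := Psi_deriv_bdd s ε C
  have hB0 : 0 ≤ B := (abs_nonneg _).trans (hB 0)
  have hss : s * s = 1 := by rcases hs with rfl | rfl <;> norm_num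
  have hsa : |s| = 1 := by rcases hs with rfl | rfl <;> norm_num
  have hKp : 0 < B * M * M + B * M * M * κ + B * M * (c0 ^ 4)⁻¹ + 1 := by positivity
  refine ⟨κ, hκ, B * M * M + B * M * M * κ + B * M * (c0 ^ 4)⁻¹ + 1, hKp,
    fun δ hδ z hz => ?_⟩
  obtain ⟨ha, hb, hc, hd, he⟩ := hall z hz
  have hτ := Ineq_tau_nonneg hδ (xx D z)
  have hGG : GG D s ε C δ z = s * fderiv ℝ (Psi s ε C) (ww D z) Complex.I * tau δ (xx D z)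
      * (4 * ‖D.R 0 z.1 z.2‖ ^ 2 * (‖XX D z‖ ^ 2 - ‖YY D z‖ ^ 2)) := by
    unfold GG
    rw [if_pos (hSO hz)]
  have hξτ : 0 ≤ ‖xx D z‖ ^ 2 * tau δ (xx D z) := by positivity
  have hfirst : ‖ww D z‖ ^ 2 < C →
        2 * max (s * (ww D z).im - ε) 0 * (4 * ‖D.R 0 z.1 z.2‖ ^ 2) * (κ / 4)
            * ‖D.R1 0 z.1 z.2‖ ^ 2 * (‖D.R 2 z.1 z.2‖ ^ 2 * tau δ (xx D z))
          - (B * M * M + B * M * M * κ + B * M * (c0 ^ 4)⁻¹ + 1)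
            * (‖xx D z‖ ^ 2 * tau δ (xx D z)) ≤ GG D s ε C δ z := by
    intro hw
    have hder := Psi_deriv s ε C hw
    have hm0 : 0 ≤ 2 * max (s * (ww D z).im - ε) 0 := by positivity
    have hsm : s * fderiv ℝ (Psi s ε C) (ww D z) Complex.I =
        2 * max (s * (ww D z).im - ε) 0 := by
      rw [hder, ← mul_assoc, hss, one_mul]
    have hmB : 2 * max (s * (ww D z).im - ε) 0 ≤ B := by
      rw [← hsm]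
      refine (le_abs_self _).trans ?_
      rw [abs_mul, hsa, one_mul]
      exact hB _
    have hX : 1 / 2 * (‖D.R1 0 z.1 z.2‖ ^ 2 * ‖D.R 2 z.1 z.2‖ ^ 2)
        - ‖xx D z‖ ^ 2 * ‖D.R1 1 z.1 z.2‖ ^ 2 ≤ ‖XX D z‖ ^ 2 := by
      have h1 := Ineq_sub_sq (D.R1 0 z.1 z.2 * D.R 2 z.1 z.2) (D.R 1 z.1 z.2 * D.R1 1 z.1 z.2)
      rw [norm_mul, norm_mul, mul_pow, mul_pow] at h1
      exact h1
    have hcore := Ineq_core (m := 2 * max (s * (ww D z).im - ε) 0) (τ := tau δ (xx D z))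
      (r := 4 * ‖D.R 0 z.1 z.2‖ ^ 2) (x := ‖XX D z‖ ^ 2) (y := ‖YY D z‖ ^ 2)
      (ξ := ‖xx D z‖ ^ 2) (u := ‖D.R1 0 z.1 z.2‖ ^ 2 * ‖D.R 2 z.1 z.2‖ ^ 2)
      (v := ‖D.R1 1 z.1 z.2‖ ^ 2) (κ := κ) (M := M) (B := B) hm0 hmB hτ (by positivity) hb hκ ha
      (by positivity) hM hX (by positivity) he
    rw [hGG, hsm]
    have h2 : 0 ≤ (B * M * (c0 ^ 4)⁻¹ + 1) * (‖xx D z‖ ^ 2 * tau δ (xx D z)) := by positivity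
    calc _ = 2 * max (s * (ww D z).im - ε) 0 * (4 * ‖D.R 0 z.1 z.2‖ ^ 2) * (κ / 4)
            * (‖D.R1 0 z.1 z.2‖ ^ 2 * ‖D.R 2 z.1 z.2‖ ^ 2 * tau δ (xx D z))
          - (B * M * M + B * M * M * κ) * (‖xx D z‖ ^ 2 * tau δ (xx D z))
          - (B * M * (c0 ^ 4)⁻¹ + 1) * (‖xx D z‖ ^ 2 * tau δ (xx D z)) := by ring
      _ ≤ 2 * max (s * (ww D z).im - ε) 0 * (4 * ‖D.R 0 z.1 z.2‖ ^ 2) * (κ / 4)
            * (‖D.R1 0 z.1 z.2‖ ^ 2 * ‖D.R 2 z.1 z.2‖ ^ 2 * tau δ (xx D z))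
          - (B * M * M + B * M * M * κ) * (‖xx D z‖ ^ 2 * tau δ (xx D z)) := by linarith
      _ ≤ _ := hcore
  refine ⟨hfirst, ?_⟩
  rcases lt_or_ge (‖ww D z‖ ^ 2) C with hw | hw
  · have h1 := hfirst hw
    have h2 : 0 ≤ 2 * max (s * (ww D z).im - ε) 0 * (4 * ‖D.R 0 z.1 z.2‖ ^ 2) * (κ / 4)
            * ‖D.R1 0 z.1 z.2‖ ^ 2 * (‖D.R 2 z.1 z.2‖ ^ 2 * tau δ (xx D z)) := by positivity
    have h3 : 0 ≤ (B * M * M + B * M * M * κ + B * M * (c0 ^ 4)⁻¹ + 1) * δ := by positivity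
    linarith
  · have h1 := Ineq_tau_le hδ hc0 (hd hw)
    have h2 : |GG D s ε C δ z| ≤ B * (δ * (c0 ^ 4)⁻¹) * M := by
      rw [hGG, abs_mul, abs_mul, abs_mul, hsa, one_mul, abs_of_nonneg hτ]
      exact mul_le_mul (mul_le_mul (hB _) h1 hτ hB0) hc (abs_nonneg _) (by positivity)
    have h3 := neg_abs_le (GG D s ε C δ z)
    have h4 : 0 ≤ (B * M * M + B * M * M * κ + B * M * (c0 ^ 4)⁻¹ + 1)
        * (‖xx D z‖ ^ 2 * tau δ (xx D z)) := by positivity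
    have h5 : 0 ≤ (B * M * M + B * M * M * κ + 1) * δ := by positivity
    nlinarith

end Pool.W4b1b5d.H3
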