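import Pool.Agent.W_4b1b5d_h3.Lim
import Pool.Agent.W_4b1b5d_h3.Ineq
import Pool.Agent.W_4b1b5d_h3.IdI

set_option autoImplicit false

namespace Pool.W4b1b5d.H3

open MeasureTheory Set Metric Filter

theorem IntLow_tau_nonneg {δ : ℝ} (hδ : 0 < δ) (ξ : ℂ) : 0 ≤ tau δ ξ := by
  unfold tau
  positivity

theorem IntLow_tau_cont (D : LD) {δ : ℝ} (hδ : 0 < δ) :
    ContinuousOn (fun z => tau δ (xx D z)) D.Out := by
  have h1 : ContinuousOn (fun z => ‖xx D z‖ ^ 2 + δ) D.Out :=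
    (((IdI_xx_smooth D).continuousOn.norm).pow 2).add continuousOn_const
  unfold tau
  refine ContinuousOn.div continuousOn_const (h1.pow 2) fun z _ => ?_
  have : 0 ≤ ‖xx D z‖ ^ 2 := sq_nonneg _
  positivity

/-- TASK IntLow.  Integrated form of `GG_lower`.

Proof.  Let `S = tsupport N ∩ Cell y` (compact by `NN_compact`, `⊆ Out` by `NN_tsupport`), `κ, K` from
`GG_lower`.  By `idI` and `GG_zero`, `0 = ∫_Cell GG = ∫_S GG`
(`setIntegral_eq_of_subset_of_forall_diff_eq_zero`).  Pointwise on `S`: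
on `W`: `c4 ‖R_2‖² τ - K ‖ξ‖² τ - K δ ≤ GG` (first clause of `GG_lower`), on `S \ W`:
`- K ‖ξ‖² τ - K δ ≤ GG` (second clause).  Integrate over `S` (all the functions are continuous on
the compact set `S` (as `S ⊆ Out`), the indicator of `W` times a continuous function is integrable):
`0 ≥ c4 ∫_W ‖R_2‖² τ - K ∫_S ‖ξ‖² τ - K δ vol S`. -/
theorem int_lower (D : LD) (s ε C : ℝ) (hs : s = 1 ∨ s = -1) (hε : 0 < ε)
    (hC : ∀ (x : V2) (p : ℂ), |D.l x| < ‖p‖ ^ 2 → D.R 1 x p = 0 → ‖(D.R 0 x p) ^ 2‖ ^ 2 < C)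
    (y : V2) :
    ∃ κ : ℝ, 0 < κ ∧ ∃ K : ℝ, 0 < K ∧ ∀ δ : ℝ, 0 < δ →
      ∀ W : Set (V2 × ℂ), MeasurableSet W → W ⊆ tsupport (NN D s ε C) ∩ Cell y →
      ∀ c4 : ℝ, 0 ≤ c4 →
      (∀ z ∈ W, ‖ww D z‖ ^ 2 < C ∧
        c4 ≤ 2 * max (s * (ww D z).im - ε) 0 * (4 * ‖D.R 0 z.1 z.2‖ ^ 2) * (κ / 4)
            * ‖D.R1 0 z.1 z.2‖ ^ 2) →
      c4 * ∫ z in W, ‖D.R 2 z.1 z.2‖ ^ 2 * tau δ (xx D z) ≤
        K * (∫ z in tsupport (NN D s ε C) ∩ Cell y, ‖xx D z‖ ^ 2 * tau δ (xx D z))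
          + K * δ * (volume (tsupport (NN D s ε C) ∩ Cell y)).toReal := by
  have hs1 : |s| ≤ 1 := by rcases hs with rfl | rfl <;> simp
  have hSc : IsCompact (tsupport (NN D s ε C) ∩ Cell y) := NN_compact D s ε C y
  have hSO : tsupport (NN D s ε C) ∩ Cell y ⊆ D.Out :=
    fun z hz => NN_tsupport D s ε C hs1 hε hz.1
  obtain ⟨κ, hκ, K, hK, h⟩ := GG_lower D s ε C hs hε hC _ hSc hSO
  refine ⟨κ, hκ, K, hK, fun δ hδ W hWm hWS c4 hc4 hW => ?_⟩
  have hSm : MeasurableSet (tsupport (NN D s ε C) ∩ Cell y) := hSc.measurableSet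
  have hCm : MeasurableSet (Cell y) := measurableSet_Icc.prod MeasurableSet.univ
  -- the integral of `GG` over `S` is zero
  have hG0 : ∫ z in tsupport (NN D s ε C) ∩ Cell y, GG D s ε C δ z = 0 := by
    rw [← idI D s ε C δ hs1 hε hδ y]
    refine (setIntegral_eq_of_subset_of_forall_sdiff_eq_zero hCm inter_subset_right ?_).symm
    intro z hz
    exact GG_zero D s ε C δ hs1 hε hδ z fun h' => hz.2 ⟨h', hz.1⟩
  have hGi : IntegrableOn (GG D s ε C δ) (tsupport (NN D s ε C) ∩ Cell y) :=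
    (GG_int D s ε C δ hs1 hε hδ y).mono_set inter_subset_right
  -- continuity
  have hτ : ContinuousOn (fun z => tau δ (xx D z)) (tsupport (NN D s ε C) ∩ Cell y) :=
    (IntLow_tau_cont D hδ).mono hSO
  have hR2 : ContinuousOn (fun z : V2 × ℂ => ‖D.R 2 z.1 z.2‖ ^ 2 * tau δ (xx D z))
      (tsupport (NN D s ε C) ∩ Cell y) :=
    ((((IdI_R_smooth D 2).continuousOn.mono hSO).norm).pow 2).mul hτ
  have hxx : ContinuousOn (fun z : V2 × ℂ => ‖xx D z‖ ^ 2 * tau δ (xx D z))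
      (tsupport (NN D s ε C) ∩ Cell y) :=
    ((((IdI_xx_smooth D).continuousOn.mono hSO).norm).pow 2).mul hτ
  have hR2i : IntegrableOn (fun z : V2 × ℂ => ‖D.R 2 z.1 z.2‖ ^ 2 * tau δ (xx D z))
      (tsupport (NN D s ε C) ∩ Cell y) := hR2.integrableOn_compact hSc
  have hxxi : IntegrableOn (fun z : V2 × ℂ => ‖xx D z‖ ^ 2 * tau δ (xx D z))
      (tsupport (NN D s ε C) ∩ Cell y) := hxx.integrableOn_compact hSc
  have hci : IntegrableOn (fun _ : V2 × ℂ => K * δ) (tsupport (NN D s ε C) ∩ Cell y) :=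
    integrableOn_const hSc.measure_lt_top.ne
  have hIi : IntegrableOn (W.indicator fun z : V2 × ℂ =>
      c4 * (‖D.R 2 z.1 z.2‖ ^ 2 * tau δ (xx D z))) (tsupport (NN D s ε C) ∩ Cell y) :=
    (hR2i.const_mul c4).indicator hWm
  have hBi : IntegrableOn (fun z : V2 × ℂ => K * (‖xx D z‖ ^ 2 * tau δ (xx D z)) + K * δ)
      (tsupport (NN D s ε C) ∩ Cell y) := (hxxi.const_mul K).add hci
  have hpt : ∀ z ∈ tsupport (NN D s ε C) ∩ Cell y,
      (W.indicator fun z : V2 × ℂ => c4 * (‖D.R 2 z.1 z.2‖ ^ 2 * tau δ (xx D z))) z -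
        (K * (‖xx D z‖ ^ 2 * tau δ (xx D z)) + K * δ) ≤ GG D s ε C δ z := by
    intro z hz
    obtain ⟨h1, h2⟩ := h δ hδ z hz
    have hKδ : 0 ≤ K * δ := by positivity
    by_cases hzW : z ∈ W
    · rw [indicator_of_mem hzW]
      obtain ⟨h3, h4⟩ := hW z hzW
      have h5 := h1 h3
      have h6 : 0 ≤ ‖D.R 2 z.1 z.2‖ ^ 2 * tau δ (xx D z) :=
        mul_nonneg (sq_nonneg _) (IntLow_tau_nonneg hδ _)
      have h7 := mul_le_mul_of_nonneg_right h4 h6
      linarith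
    · rw [indicator_of_notMem hzW]
      linarith
  have hmono := setIntegral_mono_on (hIi.sub hBi) hGi hSm hpt
  rw [hG0] at hmono
  have e1 : ∫ z in tsupport (NN D s ε C) ∩ Cell y,
      ((W.indicator fun z : V2 × ℂ => c4 * (‖D.R 2 z.1 z.2‖ ^ 2 * tau δ (xx D z))) -
        fun z : V2 × ℂ => K * (‖xx D z‖ ^ 2 * tau δ (xx D z)) + K * δ) z =
      c4 * (∫ z in W, ‖D.R 2 z.1 z.2‖ ^ 2 * tau δ (xx D z)) -
        (K * (∫ z in tsupport (NN D s ε C) ∩ Cell y, ‖xx D z‖ ^ 2 * tau δ (xx D z)) +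
          K * δ * (volume (tsupport (NN D s ε C) ∩ Cell y)).toReal) := by
    rw [integral_sub' hIi hBi]
    congr 1
    · rw [setIntegral_indicator hWm, inter_eq_right.2 hWS, integral_const_mul]
    · rw [integral_add (hxxi.const_mul K) hci, integral_const_mul, setIntegral_const]
      simp only [Measure.real, smul_eq_mul]
      ring
  rw [e1] at hmono
  linarith

end Pool.W4b1b5d.H3
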