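import Pool.Agent.W_4b1b5d_h3.LkDer

set_option autoImplicit false

namespace Pool.W4b1b5d.H3

open Metric Set

/-- TASK LocLow (1).  A chain of complex derivatives `u 0, u 1, ..., u m` on a ball with
`u i q = 0` for `i < m` and `‖u m‖ ≤ M`: then `‖u 0 p‖ ≤ M ‖p - q‖^m`.
Proof.  By induction on `m` (for all chains): `‖u 1 p‖ ≤ M ‖p-q‖^(m-1)` on the ball; apply the mean value
inequality (`Convex.norm_image_sub_le_of_norm_hasDerivWithin_le` or the `ball` version) to `u 0` on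
the ball of radius `‖p - q‖` (or on the segment from `q` to `p`), where
`‖u 1‖ ≤ M ‖p-q‖^(m-1)`. -/
theorem taylor_upper (m : ℕ) (u : ℕ → ℂ → ℂ) (q : ℂ) (r M : ℝ) (hM : 0 ≤ M)
    (hu : ∀ i, i < m → ∀ p ∈ ball q r, HasDerivAt (u i) (u (i + 1) p) p)
    (h0 : ∀ i, i < m → u i q = 0) (hb : ∀ p ∈ ball q r, ‖u m p‖ ≤ M) :
    ∀ p ∈ ball q r, ‖u 0 p‖ ≤ M * ‖p - q‖ ^ m := by
  induction m generalizing u with
  | zero =>
    intro p hp
    simpa using hb p hp
  | succ m ih =>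
    intro p hp
    have h1 : ∀ p ∈ ball q r, ‖u 1 p‖ ≤ M * ‖p - q‖ ^ m := by
      refine ih (fun i => u (i + 1)) (fun i hi => hu (i + 1) (by omega))
        (fun i hi => h0 (i + 1) (by omega)) hb
    have hsub : closedBall q ‖p - q‖ ⊆ ball q r := by
      refine closedBall_subset_ball ?_
      rwa [mem_ball_iff_norm] at hp
    have h2 := Convex.norm_image_sub_le_of_norm_hasDerivWithin_le (f := u 0) (f' := u 1)
      (C := M * ‖p - q‖ ^ m) (s := closedBall q ‖p - q‖) (x := q) (y := p)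
      (fun x hx => (hu 0 (by omega) x (hsub hx)).hasDerivWithinAt)
      (fun x hx => (h1 x (hsub hx)).trans
        (mul_le_mul_of_nonneg_left (pow_le_pow_left₀ (norm_nonneg _)
          (by rwa [mem_closedBall_iff_norm] at hx) m) hM))
      (convex_closedBall _ _) (mem_closedBall_self (norm_nonneg _))
      (by rw [mem_closedBall_iff_norm])
    rw [h0 0 (by omega), sub_zero] at h2
    rw [pow_succ, ← mul_assoc]
    exact h2

/-- TASK LocLow (2).  Lower bound.  If `u i q = 0` for `i < k`, `‖u k q‖ ≥ A > 0` and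
`‖u (k+1)‖ ≤ M` on the ball, then
`‖u 0 p‖ ≥ (A / k!) ‖p - q‖^k - M ‖p - q‖^(k+1)`.
Proof.  Apply `taylor_upper` (with `m = k+1`) to the chain
`v i p = u i p - u k q * (p - q)^(k-i) / (k-i)!` for `i ≤ k`, `v (k+1) p = u (k+1) p`. -/
theorem taylor_lower (k : ℕ) (u : ℕ → ℂ → ℂ) (q : ℂ) (r M A : ℝ) (hM : 0 ≤ M)
    (hu : ∀ i, i < k + 1 → ∀ p ∈ ball q r, HasDerivAt (u i) (u (i + 1) p) p)
    (h0 : ∀ i, i < k → u i q = 0) (hA : A ≤ ‖u k q‖)
    (hb : ∀ p ∈ ball q r, ‖u (k + 1) p‖ ≤ M) :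
    ∀ p ∈ ball q r, A / (k.factorial : ℝ) * ‖p - q‖ ^ k - M * ‖p - q‖ ^ (k + 1) ≤ ‖u 0 p‖ := by
  intro p hp
  set v : ℕ → ℂ → ℂ := fun i p =>
    if i ≤ k then u i p - u k q * ((p - q) ^ (k - i) / ((k - i).factorial : ℂ)) else u i p with hv
  have hvd : ∀ i, i < k + 1 → ∀ p ∈ ball q r, HasDerivAt (v i) (v (i + 1) p) p := by
    intro i hi p hp
    rcases Nat.lt_or_ge i k with h | h
    · have e1 : v i = fun p => u i p - u k q * ((p - q) ^ (k - i) / ((k - i).factorial : ℂ)) := by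
        funext p
        simp only [hv]
        rw [if_pos h.le]
      have e2 : v (i + 1) p = u (i + 1) p -
          u k q * ((p - q) ^ (k - (i + 1)) / ((k - (i + 1)).factorial : ℂ)) := by
        simp only [hv]
        rw [if_pos (show i + 1 ≤ k from h)]
      rw [e1, e2]
      obtain ⟨j, hj⟩ : ∃ j, k = i + 1 + j := ⟨k - (i + 1), by omega⟩
      have e3 : k - i = j + 1 := by omega
      have e4 : k - (i + 1) = j := by omega
      rw [e3, e4]
      have h3 : HasDerivAt (fun p : ℂ => (p - q) ^ (j + 1)) (((j + 1 : ℕ) : ℂ) * (p - q) ^ j * 1) p :=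
        ((hasDerivAt_id p).sub_const q).pow (j + 1)
      have h4 := (hu i hi p hp).sub
        ((h3.div_const (((j + 1).factorial : ℕ) : ℂ)).const_mul (u k q))
      refine h4.congr_deriv ?_
      rw [Nat.factorial_succ]
      have h5 : ((j + 1 : ℕ) : ℂ) ≠ 0 := by exact_mod_cast Nat.succ_ne_zero j
      have h6 : ((j.factorial : ℕ) : ℂ) ≠ 0 := by exact_mod_cast Nat.factorial_ne_zero j
      push_cast at h5 ⊢
      field_simp
    · have hik : i = k := by omega
      subst hik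
      have e1 : v i = fun p => u i p - u i q * 1 := by
        funext p
        simp [hv]
      have e2 : v (i + 1) p = u (i + 1) p := by
        simp only [hv]
        rw [if_neg (by omega)]
      rw [e1, e2]
      exact (hu i hi p hp).sub_const _
  have hv0 : ∀ i, i < k + 1 → v i q = 0 := by
    intro i hi
    rcases Nat.lt_or_ge i k with h | h
    · simp only [hv]
      rw [if_pos h.le, h0 i h, sub_self, zero_pow (by omega), zero_div, mul_zero, sub_zero]
    · have hik : i = k := by omega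
      subst hik
      simp [hv]
  have hvb : ∀ p ∈ ball q r, ‖v (k + 1) p‖ ≤ M := by
    intro p hp
    simp only [hv]
    rw [if_neg (by omega)]
    exact hb p hp
  have h1 := taylor_upper (k + 1) v q r M hM hvd hv0 hvb p hp
  have h2 : v 0 p = u 0 p - u k q * ((p - q) ^ k / (k.factorial : ℂ)) := by
    simp only [hv]
    rw [if_pos (Nat.zero_le k), Nat.sub_zero]
  rw [h2] at h1
  have h3 : ‖u k q * ((p - q) ^ k / (k.factorial : ℂ))‖
      = ‖u k q‖ / (k.factorial : ℝ) * ‖p - q‖ ^ k := by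
    rw [norm_mul, norm_div, norm_pow, Complex.norm_natCast]
    ring
  have h4 : ‖u k q * ((p - q) ^ k / (k.factorial : ℂ))‖ ≤
      ‖u 0 p - u k q * ((p - q) ^ k / (k.factorial : ℂ))‖ + ‖u 0 p‖ := by
    have h5 := norm_sub_le (u 0 p) (u 0 p - u k q * ((p - q) ^ k / (k.factorial : ℂ)))
    rw [sub_sub_cancel] at h5
    linarith
  have h5 : A / (k.factorial : ℝ) * ‖p - q‖ ^ k ≤ ‖u k q‖ / (k.factorial : ℝ) * ‖p - q‖ ^ k := by
    have h6 : (0 : ℝ) < k.factorial := by exact_mod_cast Nat.factorial_pos k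
    gcongr
  rw [h3] at h4
  linarith

/-- TASK LocLow (3).  Uniform bounds near a smooth branch of bad points of order exactly `m`.

Proof.  `q x2 ≠ 0`.  Choose a small closed product neighbourhood of `(x2, q x2)` (compact, in
`p ≠ 0`) on which all `R k`, `k ≤ m + 2`, are bounded by `M` and, by continuity of
`R (m+1)` and `R (m+1) x2 (q x2) ≠ 0`, `‖R (m+1) x (q x)‖ ≥ A > 0`.  Apply
`taylor_upper` to the chain `u i = R (i+1) x` (`i ≤ m`; `R (i+1) x (q x) = 0` for `i < m`) and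
`taylor_lower` with `k = m - 1` to the chain `u i = R (i+2) x`
(`R (i+2) x (q x) = 0` for `i < m-1`, `R (m+1) x (q x)` has norm at least `A`); then shrink `r'`
so that `M (3 r') ≤ A / (2 (m-1)!)`. -/
theorem locLow (D : LD) (m : ℕ) (hm : 1 ≤ m) (x2 : V2) (r0 : ℝ) (hr0 : 0 < r0) (q : V2 → ℂ)
    (hq : ContinuousOn q (ball x2 r0)) (hb : ∀ x ∈ ball x2 r0, D.Bad x (q x) m)
    (η : ℝ) (hη : 0 < η) :
    ∃ r : ℝ, 0 < r ∧ r < η ∧ r < r0 ∧ ∃ r' : ℝ, 0 < r' ∧ r' < η ∧
      ∃ c3 : ℝ, 0 < c3 ∧ ∃ c2 : ℝ, 0 < c2 ∧ ∀ x ∈ ball x2 r, ‖q x - q x2‖ < r' ∧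
        ∀ p ∈ ball (q x) r', c3 * ‖p - q x‖ ^ (m - 1) ≤ ‖D.R 2 x p‖ ∧
          ‖D.R 1 x p‖ ≤ c2 * ‖p - q x‖ ^ m := by
  obtain ⟨k, rfl⟩ : ∃ k, m = k + 1 := ⟨m - 1, by omega⟩
  have hb2 := hb x2 (mem_ball_self hr0)
  have hq0 : q x2 ≠ 0 := by
    intro h
    have h1 := hb2.1
    rw [h, norm_zero] at h1
    have h2 := abs_nonneg (D.l x2)
    norm_num at h1
    linarith
  have hcont : ∀ j, ContinuousAt (fun z : V2 × ℂ => D.R j z.1 z.2) (x2, q x2) := fun j =>
    (LkDer_contDiffAt D.d D.c D.csm j (z := (x2, q x2)) hq0).continuousAt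
  set A : ℝ := ‖D.R (k + 1 + 1) x2 (q x2)‖ / 2 with hA
  have hA0 : 0 < A := half_pos (norm_pos_iff.2 hb2.2.2.1)
  set M : ℝ := ‖D.R (k + 1 + 1) x2 (q x2)‖ + ‖D.R (k + 1 + 2) x2 (q x2)‖ + 1 with hM
  have hM0 : 0 < M := by positivity
  have e1 : ∀ᶠ z : V2 × ℂ in nhds (x2, q x2), A < ‖D.R (k + 1 + 1) z.1 z.2‖ := by
    have h1 := (hcont (k + 1 + 1)).norm
    refine h1.eventually_const_lt ?_
    have : 0 < ‖D.R (k + 1 + 1) x2 (q x2)‖ := norm_pos_iff.2 hb2.2.2.1
    change A < ‖D.R (k + 1 + 1) x2 (q x2)‖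
    rw [hA]
    linarith
  have e2 : ∀ᶠ z : V2 × ℂ in nhds (x2, q x2), ‖D.R (k + 1 + 1) z.1 z.2‖ < M := by
    have h1 := (hcont (k + 1 + 1)).norm
    refine h1.eventually_lt_const ?_
    change ‖D.R (k + 1 + 1) x2 (q x2)‖ < M
    rw [hM]
    have := norm_nonneg (D.R (k + 1 + 2) x2 (q x2))
    linarith
  have e3 : ∀ᶠ z : V2 × ℂ in nhds (x2, q x2), ‖D.R (k + 1 + 2) z.1 z.2‖ < M := by
    have h1 := (hcont (k + 1 + 2)).norm
    refine h1.eventually_lt_const ?_
    change ‖D.R (k + 1 + 2) x2 (q x2)‖ < M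
    rw [hM]
    have := norm_nonneg (D.R (k + 1 + 1) x2 (q x2))
    linarith
  have e4 : ∀ᶠ z : V2 × ℂ in nhds (x2, q x2), z.2 ≠ 0 :=
    (continuous_snd.continuousAt (x := (x2, q x2))).eventually_ne hq0
  obtain ⟨ε, hε, hball⟩ := Metric.eventually_nhds_iff_ball.1 (e1.and (e2.and (e3.and e4)))
  have hfac : (0 : ℝ) < k.factorial := by exact_mod_cast Nat.factorial_pos k
  set B : ℝ := A / (2 * k.factorial) with hB
  have hB0 : 0 < B := by positivity
  set r' : ℝ := min (η / 2) (min (ε / 2) (B / M)) with hr'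
  have hr'0 : 0 < r' := by
    refine lt_min (half_pos hη) (lt_min (half_pos hε) (div_pos hB0 hM0))
  have hr'η : r' < η := (min_le_left _ _).trans_lt (half_lt_self hη)
  have hr'ε : r' ≤ ε / 2 := (min_le_right _ _).trans (min_le_left _ _)
  have hr'B : M * r' ≤ B := by
    have h1 : r' ≤ B / M := (min_le_right _ _).trans (min_le_right _ _)
    calc M * r' ≤ M * (B / M) := mul_le_mul_of_nonneg_left h1 hM0.le
      _ = B := by field_simp
  have hqc : ContinuousAt q x2 := (hq x2 (mem_ball_self hr0)).continuousAt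
    (ball_mem_nhds x2 hr0)
  obtain ⟨δ, hδ, hqδ⟩ := Metric.continuousAt_iff.1 hqc r' hr'0
  set r : ℝ := min (min (η / 2) (r0 / 2)) (min δ ε) with hr
  have hr_pos : 0 < r := lt_min (lt_min (half_pos hη) (half_pos hr0)) (lt_min hδ hε)
  refine ⟨r, hr_pos, ((min_le_left _ _).trans (min_le_left _ _)).trans_lt (half_lt_self hη),
    ((min_le_left _ _).trans (min_le_right _ _)).trans_lt (half_lt_self hr0), r', hr'0, hr'η,
    B, hB0, M, hM0, ?_⟩
  intro x hx
  have hxr0 : x ∈ ball x2 r0 := ball_subset_ball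
    (((min_le_left _ _).trans (min_le_right _ _)).trans (half_le_self hr0.le)) hx
  have hxδ : dist x x2 < δ := (mem_ball.1 hx).trans_le ((min_le_right _ _).trans (min_le_left _ _))
  have hxε : dist x x2 < ε := (mem_ball.1 hx).trans_le ((min_le_right _ _).trans (min_le_right _ _))
  have hqx : dist (q x) (q x2) < r' := hqδ hxδ
  refine ⟨by rwa [dist_eq_norm] at hqx, ?_⟩
  have hmem : ∀ p ∈ ball (q x) r', (x, p) ∈ ball (x2, q x2) ε := by
    intro p hp
    rw [mem_ball, Prod.dist_eq]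
    refine max_lt hxε ?_
    calc dist p (q x2) ≤ dist p (q x) + dist (q x) (q x2) := dist_triangle _ _ _
      _ < r' + r' := add_lt_add (mem_ball.1 hp) hqx
      _ ≤ ε := by linarith
  obtain ⟨-, hz1, hz2, -⟩ := hb x hxr0
  have hder : ∀ j, ∀ p ∈ ball (q x) r', HasDerivAt (D.R j x) (D.R (j + 1) x p) p := fun j p hp =>
    Lk_hasDerivAt D.d (fun i => D.c i x) j (hball _ (hmem p hp)).2.2.2
  intro p hp
  constructor
  · have h1 := taylor_lower k (fun i => D.R (i + 2) x) (q x) r' M A hM0.le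
      (fun i _ p hp => hder (i + 2) p hp) (fun i hi => hz1 (i + 2) (by omega) (by omega))
      (hball _ (hmem (q x) (mem_ball_self hr'0))).1.le
      (fun p hp => (hball _ (hmem p hp)).2.2.1.le) p hp
    have h2 : M * ‖p - q x‖ ^ (k + 1) ≤ B * ‖p - q x‖ ^ k := by
      rw [mem_ball_iff_norm] at hp
      calc M * ‖p - q x‖ ^ (k + 1) = (M * ‖p - q x‖) * ‖p - q x‖ ^ k := by ring
        _ ≤ B * ‖p - q x‖ ^ k := by
            refine mul_le_mul_of_nonneg_right ?_ (by positivity)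
            exact (mul_le_mul_of_nonneg_left hp.le hM0.le).trans hr'B
    have h3 : A / (k.factorial : ℝ) = 2 * B := by
      rw [hB]
      field_simp
    rw [h3] at h1
    rw [Nat.add_sub_cancel]
    change B * ‖p - q x‖ ^ k ≤ ‖D.R 2 x p‖
    have h4 : 2 * B * ‖p - q x‖ ^ k - M * ‖p - q x‖ ^ (k + 1) ≤ ‖D.R 2 x p‖ := h1
    linarith
  · exact taylor_upper (k + 1) (fun i => D.R (i + 1) x) (q x) r' M hM0.le
      (fun i _ p hp => hder (i + 1) p hp) (fun i hi => hz1 (i + 1) (by omega) (by omega))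
      (fun p hp => (hball _ (hmem p hp)).2.1.le) p hp

end Pool.W4b1b5d.H3
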