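import Pool.Agent.W_4b1b5d_h3.Pt

set_option autoImplicit false

namespace Pool.W4b1b5d.H3

open MeasureTheory Set Metric

theorem Radial_pt {m : ℕ} (hm : 1 ≤ m) {c2 c3 t δ : ℝ} (hc2 : 0 < c2) (hc3 : 0 < c3) (ht : 0 < t)
    (hδ : 0 < δ) (htm : t ^ (2 * m) = δ / c2 ^ 2) {a : ℝ} (ha1 : t / 2 ≤ a) (ha2 : a ≤ t)
    {x y : ℂ} (hg : c3 * a ^ (m - 1) ≤ ‖y‖) (hf : ‖x‖ ≤ c2 * a ^ m) :
    (c3 * (t / 2) ^ (m - 1)) ^ 2 * (1 / (4 * δ)) ≤ ‖y‖ ^ 2 * tau δ x := by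
  have ha0 : 0 ≤ a := by linarith
  have h1 : ‖x‖ ^ 2 ≤ δ := by
    have h2 : ‖x‖ ≤ c2 * t ^ m :=
      hf.trans (mul_le_mul_of_nonneg_left (pow_le_pow_left₀ ha0 ha2 m) hc2.le)
    calc ‖x‖ ^ 2 ≤ (c2 * t ^ m) ^ 2 := pow_le_pow_left₀ (norm_nonneg _) h2 2
      _ = c2 ^ 2 * t ^ (2 * m) := by rw [mul_pow, ← pow_mul, mul_comm m 2]
      _ = δ := by rw [htm]; field_simp
  have h3 : c3 * (t / 2) ^ (m - 1) ≤ ‖y‖ :=
    (mul_le_mul_of_nonneg_left (pow_le_pow_left₀ (by positivity) ha1 _) hc3.le).trans hg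
  have h4 : (c3 * (t / 2) ^ (m - 1)) ^ 2 ≤ ‖y‖ ^ 2 := pow_le_pow_left₀ (by positivity) h3 2
  have h5 : 1 / (4 * δ) ≤ tau δ x := by
    unfold tau
    rw [div_le_div_iff₀ (by positivity) (by positivity), one_mul]
    have h6 : ‖x‖ ^ 2 + δ ≤ 2 * δ := by linarith
    have h7 : (‖x‖ ^ 2 + δ) ^ 2 ≤ (2 * δ) ^ 2 := pow_le_pow_left₀ (by positivity) h6 2
    linarith
  exact mul_le_mul h4 h5 (by positivity) (by positivity)

/-- TASK Radial.  Lower bound of the radial integral, uniformly in the centre.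

Proof.  Let `t > 0` be defined by `c2² t^(2m) = δ` (`t = (δ/c2²)^(1/(2m))`, real power); for `δ`
smaller than `δ0 := c2² (r/2)^(2m)` we have `t < r`.  On the annulus
`t/2 < ‖p - q0‖ < t` (contained in `ball q0 r`) we have `‖f p‖² ≤ c2² t^(2m) = δ`, so
`tau δ (f p) ≥ δ/(2δ)² = 1/(4δ)`, and `‖g p‖² ≥ c3² (t/2)^(2m-2)`.  So the integrand is at least
`c3² (t/2)^(2m-2) / (4δ)` there, and the area of the annulus is `π t² - π t²/4 = (3/4) π t²`
(`Complex.volume_ball`, or in Mathlib `volume (ball q0 t) = π t²`).  The product is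
`c3² (3π/16) t^(2m) / (2^(2m-2) δ) = c3² (3π/16) / (2^(2m-2) c2²) =: c`.
(`∫⁻` over the ball is at least the integral over the annulus, at least const * volume.) -/
theorem radial (m : ℕ) (hm : 1 ≤ m) (c2 c3 r : ℝ) (hc2 : 0 < c2) (hc3 : 0 < c3) (hr : 0 < r) :
    ∃ c : ℝ, 0 < c ∧ ∃ δ0 : ℝ, 0 < δ0 ∧ ∀ δ : ℝ, 0 < δ → δ < δ0 →
      ∀ (q0 : ℂ) (f g : ℂ → ℂ),
        (∀ p ∈ ball q0 r, c3 * ‖p - q0‖ ^ (m - 1) ≤ ‖g p‖ ∧ ‖f p‖ ≤ c2 * ‖p - q0‖ ^ m) →
        ENNReal.ofReal c ≤ ∫⁻ p in ball q0 r, ENNReal.ofReal (‖g p‖ ^ 2 * tau δ (f p)) := by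
  refine ⟨c3 ^ 2 * Real.pi / (64 * (2 ^ (m - 1)) ^ 2 * c2 ^ 2), by positivity,
    c2 ^ 2 * r ^ (2 * m), by positivity, fun δ hδ hδ0 q0 f g h => ?_⟩
  obtain ⟨t, ht0, htm⟩ : ∃ t : ℝ, 0 < t ∧ t ^ (2 * m) = δ / c2 ^ 2 := by
    refine ⟨(δ / c2 ^ 2) ^ (((2 * m : ℕ) : ℝ)⁻¹), Real.rpow_pos_of_pos (by positivity) _, ?_⟩
    exact Real.rpow_inv_natCast_pow (by positivity) (by omega)
  have htr : t < r := by
    have h1 : t ^ (2 * m) < r ^ (2 * m) := by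
      rw [htm, div_lt_iff₀ (by positivity), mul_comm]
      exact hδ0
    exact lt_of_pow_lt_pow_left₀ (2 * m) hr.le h1
  have hdist : ∀ p ∈ ball (q0 + ((3 * t / 4 : ℝ) : ℂ)) (t / 4), t / 2 ≤ ‖p - q0‖ ∧ ‖p - q0‖ < t := by
    intro p hp
    rw [mem_ball, dist_eq_norm] at hp
    have h1 : ‖((3 * t / 4 : ℝ) : ℂ)‖ = 3 * t / 4 := by
      rw [Complex.norm_real, Real.norm_eq_abs, abs_of_pos (by positivity)]
    have h2 := norm_add_le (p - (q0 + ((3 * t / 4 : ℝ) : ℂ))) ((3 * t / 4 : ℝ) : ℂ)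
    have h3 := norm_sub_norm_le ((3 * t / 4 : ℝ) : ℂ) (-(p - (q0 + ((3 * t / 4 : ℝ) : ℂ))))
    have e1 : p - (q0 + ((3 * t / 4 : ℝ) : ℂ)) + ((3 * t / 4 : ℝ) : ℂ) = p - q0 := by ring
    have e2 : ((3 * t / 4 : ℝ) : ℂ) - (-(p - (q0 + ((3 * t / 4 : ℝ) : ℂ)))) = p - q0 := by ring
    rw [e1, h1] at h2
    rw [e2, h1, norm_neg] at h3
    constructor <;> linarith
  have hsub : ball (q0 + ((3 * t / 4 : ℝ) : ℂ)) (t / 4) ⊆ ball q0 r := by
    intro p hp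
    rw [mem_ball, dist_eq_norm]
    exact (hdist p hp).2.trans htr
  have hK : ∀ p ∈ ball (q0 + ((3 * t / 4 : ℝ) : ℂ)) (t / 4),
      ENNReal.ofReal ((c3 * (t / 2) ^ (m - 1)) ^ 2 * (1 / (4 * δ))) ≤
        ENNReal.ofReal (‖g p‖ ^ 2 * tau δ (f p)) := by
    intro p hp
    apply ENNReal.ofReal_le_ofReal
    obtain ⟨h1, h2⟩ := hdist p hp
    obtain ⟨h3, h4⟩ := h p (hsub hp)
    exact Radial_pt hm hc2 hc3 ht0 hδ htm h1 h2.le h3 h4
  calc ENNReal.ofReal (c3 ^ 2 * Real.pi / (64 * (2 ^ (m - 1)) ^ 2 * c2 ^ 2))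
      = ENNReal.ofReal ((c3 * (t / 2) ^ (m - 1)) ^ 2 * (1 / (4 * δ))) *
          volume (ball (q0 + ((3 * t / 4 : ℝ) : ℂ)) (t / 4)) := by
        have hv : volume (ball (q0 + ((3 * t / 4 : ℝ) : ℂ)) (t / 4)) =
            ENNReal.ofReal ((t / 4) ^ 2 * Real.pi) := by
          rw [Complex.volume_ball, ENNReal.ofReal_mul (by positivity),
            ENNReal.ofReal_pow (by positivity)]
          congr 1
          exact (ENNReal.ofReal_coe_nnreal (p := NNReal.pi)).symm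
        rw [hv, ← ENNReal.ofReal_mul (by positivity)]
        congr 1
        have h5 : δ = c2 ^ 2 * (t ^ (m - 1)) ^ 2 * t ^ 2 := by
          have h6 : t ^ (2 * m) = (t ^ (m - 1)) ^ 2 * t ^ 2 := by
            rw [← pow_mul, ← pow_add]
            congr 1
            omega
          rw [mul_assoc, ← h6, htm]
          field_simp
        rw [h5, mul_pow, div_pow]
        have h7 : t ^ (m - 1) ≠ 0 := pow_ne_zero _ ht0.ne'
        have h8 : (2 : ℝ) ^ (m - 1) ≠ 0 := by positivity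
        field_simp
        norm_num
    _ = ∫⁻ _ in ball (q0 + ((3 * t / 4 : ℝ) : ℂ)) (t / 4),
          ENNReal.ofReal ((c3 * (t / 2) ^ (m - 1)) ^ 2 * (1 / (4 * δ))) :=
        (setLIntegral_const _ _).symm
    _ ≤ ∫⁻ p in ball (q0 + ((3 * t / 4 : ℝ) : ℂ)) (t / 4),
          ENNReal.ofReal (‖g p‖ ^ 2 * tau δ (f p)) := setLIntegral_mono' measurableSet_ball hK
    _ ≤ ∫⁻ p in ball q0 r, ENNReal.ofReal (‖g p‖ ^ 2 * tau δ (f p)) := lintegral_mono_set hsub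

/-- TASK Radial (2).  The version integrated over `x` (Tonelli).
`W = ball x2 r ×ˢ ball q2 (2 r')`, the centre `q x` of the inner ball depends on `x` and satisfies
`‖q x - q2‖ < r'`, so that `ball (q x) r' ⊆ ball q2 (2 r')`.
Proof.  `∫⁻_W = ∫⁻_x ∫⁻_p` (`MeasureTheory.lintegral_prod` for the continuous nonnegative
integrand, restricted measures: `Measure.prod_restrict`), the inner integral is at least
`ENNReal.ofReal c` by `radial` for each `x`, and `volume (ball x2 r)` is positive and finite. -/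
theorem radial_prod (m : ℕ) (hm : 1 ≤ m) (c2 c3 r r' : ℝ) (hc2 : 0 < c2) (hc3 : 0 < c3)
    (hr : 0 < r) (hr' : 0 < r') (x2 : V2) (q2 : ℂ) :
    ∃ c : ℝ, 0 < c ∧ ∃ δ0 : ℝ, 0 < δ0 ∧ ∀ δ : ℝ, 0 < δ → δ < δ0 →
      ∀ (q : V2 → ℂ) (f g : V2 × ℂ → ℂ),
        ContinuousOn f (closedBall x2 r ×ˢ closedBall q2 (2 * r')) →
        ContinuousOn g (closedBall x2 r ×ˢ closedBall q2 (2 * r')) →
        (∀ x ∈ ball x2 r, ‖q x - q2‖ < r' ∧ ∀ p ∈ ball (q x) r',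
          c3 * ‖p - q x‖ ^ (m - 1) ≤ ‖g (x, p)‖ ∧ ‖f (x, p)‖ ≤ c2 * ‖p - q x‖ ^ m) →
        c ≤ ∫ z in ball x2 r ×ˢ ball q2 (2 * r'), ‖g z‖ ^ 2 * tau δ (f z) := by
  obtain ⟨c, hc, δ0, hδ0, hmain⟩ := radial m hm c2 c3 r' hc2 hc3 hr'
  have hvpos : 0 < volume (ball x2 r) := measure_ball_pos _ _ hr
  have hvtop : volume (ball x2 r) ≠ ⊤ := measure_ball_lt_top.ne
  have hv : 0 < (volume (ball x2 r)).toReal := ENNReal.toReal_pos hvpos.ne' hvtop
  refine ⟨c * (volume (ball x2 r)).toReal, by positivity, δ0, hδ0,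
    fun δ hδ hδ1 q f g hf hg h => ?_⟩
  have htau : ∀ z, 0 ≤ ‖g z‖ ^ 2 * tau δ (f z) := by
    intro z
    unfold tau
    positivity
  have hcont : ContinuousOn (fun z => ‖g z‖ ^ 2 * tau δ (f z))
      (closedBall x2 r ×ˢ closedBall q2 (2 * r')) := by
    unfold tau
    refine (hg.norm.pow 2).mul (continuousOn_const.div ((hf.norm.pow 2).add continuousOn_const |>.pow 2)
      fun z _ => ?_)
    positivity
  have hsub : ball x2 r ×ˢ ball q2 (2 * r') ⊆ closedBall x2 r ×ˢ closedBall q2 (2 * r') :=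
    Set.prod_mono ball_subset_closedBall ball_subset_closedBall
  have hint : IntegrableOn (fun z => ‖g z‖ ^ 2 * tau δ (f z)) (ball x2 r ×ˢ ball q2 (2 * r')) :=
    (hcont.integrableOn_compact ((isCompact_closedBall _ _).prod (isCompact_closedBall _ _))).mono_set
      hsub
  rw [← ENNReal.ofReal_le_ofReal_iff (integral_nonneg htau),
    ofReal_integral_eq_lintegral_ofReal hint (Filter.Eventually.of_forall htau)]
  have hmeas : AEMeasurable (fun z => ENNReal.ofReal (‖g z‖ ^ 2 * tau δ (f z)))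
      ((volume.restrict (ball x2 r)).prod (volume.restrict (ball q2 (2 * r')))) := by
    rw [Measure.prod_restrict, ← Measure.volume_eq_prod]
    exact ((hcont.mono hsub).aemeasurable (measurableSet_ball.prod measurableSet_ball)).ennreal_ofReal
  rw [Measure.volume_eq_prod, ← Measure.prod_restrict, lintegral_prod _ hmeas]
  calc ENNReal.ofReal (c * (volume (ball x2 r)).toReal)
      = ENNReal.ofReal c * volume (ball x2 r) := by
        rw [ENNReal.ofReal_mul hc.le, ENNReal.ofReal_toReal hvtop]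
    _ = ∫⁻ _ in ball x2 r, ENNReal.ofReal c := (setLIntegral_const _ _).symm
    _ ≤ ∫⁻ x in ball x2 r, ∫⁻ p in ball q2 (2 * r'),
          ENNReal.ofReal (‖g (x, p)‖ ^ 2 * tau δ (f (x, p))) := by
        refine setLIntegral_mono' measurableSet_ball fun x hx => ?_
        obtain ⟨h1, h2⟩ := h x hx
        refine (hmain δ hδ hδ1 (q x) (fun p => f (x, p)) (fun p => g (x, p)) h2).trans ?_
        refine lintegral_mono_set (ball_subset_ball' ?_)
        rw [dist_eq_norm]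
        linarith

end Pool.W4b1b5d.H3
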