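import Pool.Agent.W_4b1b5d_h3.Branch
import Pool.Agent.W_4b1b5d_h3.LocLow
import Pool.Agent.W_4b1b5d_h3.Radial
import Pool.Agent.W_4b1b5d_h3.IntLow

set_option autoImplicit false

namespace Pool.W4b1b5d.H3

open MeasureTheory Set Metric Filter

theorem Contra_R_cont (D : LD) (k : ℕ) :
    ContinuousOn (fun z : V2 × ℂ => D.R k z.1 z.2) D.Out :=
  ((Lk_contDiffOn D.d D.c D.csm k).mono fun _ hz => D.ne_zero_of_Out hz).continuousOn

theorem Contra_R1_cont (D : LD) (k : ℕ) :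
    ContinuousOn (fun z : V2 × ℂ => D.R1 k z.1 z.2) D.Out :=
  ((Lk_contDiffOn D.d (fun j => dd D.al (D.c j)) (fun j => dd_contDiff _ (D.csm j)) k).mono
    fun _ hz => D.ne_zero_of_Out hz).continuousOn

theorem Contra_ww_cont (D : LD) : ContinuousOn (ww D) D.Out := (Contra_R_cont D 0).pow 2

/-- `N ≠ 0` where `s Im w > ε` and `‖w‖² < C`. -/
theorem Contra_NN_ne (D : LD) (s ε C : ℝ) (z : V2 × ℂ) (hz : z ∈ D.Out)
    (h1 : ε < s * (ww D z).im) (h2 : ‖ww D z‖ ^ 2 < C) : NN D s ε C z ≠ 0 := by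
  unfold NN
  rw [if_pos hz]
  have h3 : Psi s ε C ((D.R 0 z.1 z.2) ^ 2) ≠ 0 := by
    change Psi s ε C (ww D z) ≠ 0
    unfold Psi posq thet
    rw [Real.smoothTransition.zero_of_nonpos (by linarith), sub_zero, mul_one,
      max_eq_left (by linarith)]
    have : 0 < s * (ww D z).im - ε := by linarith
    positivity
  exact_mod_cast h3

/-- TASK Contra (1).  The analytic contradiction: a differentiable branch of bad points of order `m`
with `Im R² ≠ 0` and `dd R ≠ 0` at one point is impossible.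

Proof.  Let `z2 = (x2, q x2)`, `s = ±1` the sign of `Im w(z2)` (`w = ww D`), `ε = |Im w(z2)|/2`, `C`
from `crit_bdd`, `N = NN D s ε C`, `y = x2 - 1/2` (so `x2` is interior to `Icc y (y+1)`),
`S = tsupport N ∩ Cell y`.  Let `κ, K` be as in `int_lower`.
`h z := 2 * max (s * (ww D z).im - ε) 0 * (4 * ‖R‖²) * (κ/4) * ‖R1 0‖²` is continuous at
`z2` and positive there (`s Im w(z2) - ε = ε`; `R ≠ 0` as `Im R² ≠ 0`; `R1 0 ≠ 0`), `‖ww z2‖² < C`
(`hC`, since `R_p = 0` on the branch: `m ≥ 1`), `N z2 = Psi .. ≠ 0`.  So there are `η > 0`, `c4 > 0`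
with `h ≥ c4`, `‖ww‖² < C`, `N ≠ 0`, `z ∈ Out`, `z ∈ Cell y` on
`closedBall x2 η ×ˢ closedBall (q x2) (2η)`.  Take `r, r', c2, c3` from `locLow` with this `η` and
`c, δ0` from `radial_prod` (`f = xx D`, `g = fun z => D.R 2 z.1 z.2`),
`W = ball x2 r ×ˢ ball (q x2) (2 r')`.  For `0 < δ < δ0`, by `int_lower`,
`c4 * c ≤ K ∫_S ‖ξ‖² τ_δ + K δ vol(S)`,
and the right hand side tends to `0` as `δ → 0+` (`lim`, `S` compact, `vol S < ∞`).
Contradiction. -/
theorem contra (D : LD) (m : ℕ) (x2 : V2) (r0 : ℝ) (hr0 : 0 < r0) (q : V2 → ℂ)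
    (h : ∀ x ∈ ball x2 r0, DifferentiableAt ℝ q x ∧ D.Bad x (q x) m)
    (hR1 : D.R1 0 x2 (q x2) ≠ 0) (him : ((D.R 0 x2 (q x2)) ^ 2).im ≠ 0) : False := by
  have hB := (h x2 (mem_ball_self hr0)).2
  obtain ⟨hout, hRi, hRm, i0, hi0, -⟩ := hB
  have hm : 1 ≤ m := by omega
  have hzO : ((x2, q x2) : V2 × ℂ) ∈ D.Out := hout
  -- the sign
  obtain ⟨s, hs, hsw⟩ : ∃ s : ℝ, (s = 1 ∨ s = -1) ∧ 0 < s * (ww D (x2, q x2)).im := by
    rcases lt_or_gt_of_ne him with h1 | h1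
    · refine ⟨-1, Or.inr rfl, ?_⟩
      have h2 : (ww D (x2, q x2)).im < 0 := h1
      linarith
    · refine ⟨1, Or.inl rfl, ?_⟩
      have h2 : 0 < (ww D (x2, q x2)).im := h1
      linarith
  have hs1 : |s| ≤ 1 := by
    rcases hs with rfl | rfl <;> simp
  obtain ⟨ε, hεdef⟩ : ∃ ε : ℝ, ε = s * (ww D (x2, q x2)).im / 2 := ⟨_, rfl⟩
  have hε : 0 < ε := by rw [hεdef]; linarith
  obtain ⟨C, hC0, hC⟩ := D.crit_bdd
  obtain ⟨y, hy⟩ : ∃ y : V2, y = fun i => x2 i - 1 / 2 := ⟨_, rfl⟩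
  obtain ⟨κ, hκ, K, hK, hint⟩ := int_lower D s ε C hs hε hC y
  -- the function h
  obtain ⟨H, hH⟩ : ∃ H : V2 × ℂ → ℝ, H = fun z => 2 * max (s * (ww D z).im - ε) 0 *
    (4 * ‖D.R 0 z.1 z.2‖ ^ 2) * (κ / 4) * ‖D.R1 0 z.1 z.2‖ ^ 2 := ⟨_, rfl⟩
  have hOn := (D.isOpen_Out).mem_nhds hzO
  have cw : ContinuousAt (ww D) (x2, q x2) := (Contra_ww_cont D).continuousAt hOn
  have c0 : ContinuousAt (fun z : V2 × ℂ => D.R 0 z.1 z.2) (x2, q x2) :=
    (Contra_R_cont D 0).continuousAt hOn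
  have c1 : ContinuousAt (fun z : V2 × ℂ => D.R1 0 z.1 z.2) (x2, q x2) :=
    (Contra_R1_cont D 0).continuousAt hOn
  have cwi : ContinuousAt (fun z => s * (ww D z).im) (x2, q x2) :=
    continuousAt_const.mul (Complex.continuous_im.continuousAt.comp cw)
  have cH : ContinuousAt H (x2, q x2) := by
    rw [hH]
    exact (((continuousAt_const.mul ((cwi.sub continuousAt_const).max continuousAt_const)).mul
      (continuousAt_const.mul (c0.norm.pow 2))).mul continuousAt_const).mul (c1.norm.pow 2)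
  have hR0 : D.R 0 x2 (q x2) ≠ 0 := by
    intro h1
    rw [h1] at him
    simp at him
  have hHpos : 0 < H (x2, q x2) := by
    rw [hH]
    have h1 : 0 < s * (ww D (x2, q x2)).im - ε := by rw [hεdef]; linarith
    have h2 : 0 < max (s * (ww D (x2, q x2)).im - ε) 0 := lt_max_of_lt_left h1
    have h3 : 0 < ‖D.R 0 x2 (q x2)‖ := norm_pos_iff.2 hR0
    have h4 : 0 < ‖D.R1 0 x2 (q x2)‖ := norm_pos_iff.2 hR1
    change 0 < 2 * max (s * (ww D (x2, q x2)).im - ε) 0 * (4 * ‖D.R 0 x2 (q x2)‖ ^ 2) *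
      (κ / 4) * ‖D.R1 0 x2 (q x2)‖ ^ 2
    positivity
  have hCz : ‖ww D (x2, q x2)‖ ^ 2 < C := hC x2 (q x2) hout (hRi 1 le_rfl hm)
  -- the good neighbourhood
  have hgood : ∀ᶠ z in nhds ((x2, q x2) : V2 × ℂ), z ∈ D.Out ∧ ε < s * (ww D z).im ∧
      ‖ww D z‖ ^ 2 < C ∧ H (x2, q x2) / 2 < H z := by
    have h1 : ∀ᶠ z in nhds ((x2, q x2) : V2 × ℂ), ε < s * (ww D z).im :=
      cwi.eventually (lt_mem_nhds (by rw [hεdef]; linarith))
    have h2 : ∀ᶠ z in nhds ((x2, q x2) : V2 × ℂ), ‖ww D z‖ ^ 2 < C :=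
      (cw.norm.pow 2).eventually (gt_mem_nhds hCz)
    have h3 : ∀ᶠ z in nhds ((x2, q x2) : V2 × ℂ), H (x2, q x2) / 2 < H z :=
      cH.eventually (lt_mem_nhds (by linarith))
    filter_upwards [hOn, h1, h2, h3] with z a b c d using ⟨a, b, c, d⟩
  obtain ⟨ρ, hρ, hball⟩ := Metric.eventually_nhds_iff.1 hgood
  obtain ⟨η, hηdef⟩ : ∃ η : ℝ, η = min (ρ / 3) (1 / 2) := ⟨_, rfl⟩
  have hη : 0 < η := by rw [hηdef]; exact lt_min (by linarith) (by norm_num)
  have hηρ : η ≤ ρ / 3 := by rw [hηdef]; exact min_le_left _ _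
  have hη2 : η ≤ 1 / 2 := by rw [hηdef]; exact min_le_right _ _
  have hprod : ∀ z : V2 × ℂ, dist z.1 x2 ≤ η → dist z.2 (q x2) ≤ 2 * η →
      z ∈ D.Out ∧ ε < s * (ww D z).im ∧ ‖ww D z‖ ^ 2 < C ∧ H (x2, q x2) / 2 < H z := by
    intro z h1 h2
    apply hball
    rw [Prod.dist_eq]
    exact max_lt (by linarith) (by linarith)
  have hcell : ∀ z : V2 × ℂ, dist z.1 x2 ≤ η → z ∈ Cell y := by
    intro z h1
    refine ⟨⟨fun i => ?_, fun i => ?_⟩, mem_univ _⟩
    · have h2 := (dist_le_pi_dist z.1 x2 i).trans h1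
      rw [Real.dist_eq, abs_le] at h2
      rw [hy]
      change x2 i - 1 / 2 ≤ z.1 i
      linarith [h2.1]
    · have h2 := (dist_le_pi_dist z.1 x2 i).trans h1
      rw [Real.dist_eq, abs_le] at h2
      rw [hy]
      change z.1 i ≤ x2 i - 1 / 2 + 1
      linarith [h2.2]
  -- local bounds
  have hqc : ContinuousOn q (ball x2 r0) := fun x hx =>
    (h x hx).1.continuousAt.continuousWithinAt
  obtain ⟨r, hr, hrη, -, r', hr', hr'η, c3, hc3, c2, hc2, hloc⟩ :=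
    locLow D m hm x2 r0 hr0 q hqc (fun x hx => (h x hx).2) η hη
  obtain ⟨c, hc, δ0, hδ0, hrad⟩ := radial_prod m hm c2 c3 r r' hc2 hc3 hr hr' x2 (q x2)
  have hclosed : closedBall x2 r ×ˢ closedBall (q x2) (2 * r') ⊆ D.Out := by
    intro z hz
    exact (hprod z ((mem_closedBall.1 hz.1).trans hrη.le)
      ((mem_closedBall.1 hz.2).trans (by linarith))).1
  have hWgood : ∀ z ∈ ball x2 r ×ˢ ball (q x2) (2 * r'),
      z ∈ D.Out ∧ ε < s * (ww D z).im ∧ ‖ww D z‖ ^ 2 < C ∧ H (x2, q x2) / 2 < H z := by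
    intro z hz
    exact hprod z ((mem_ball.1 hz.1).le.trans hrη.le)
      ((mem_ball.1 hz.2).le.trans (by linarith))
  have hWS : ball x2 r ×ˢ ball (q x2) (2 * r') ⊆ tsupport (NN D s ε C) ∩ Cell y := by
    intro z hz
    obtain ⟨g1, g2, g3, -⟩ := hWgood z hz
    refine ⟨subset_tsupport _ (Contra_NN_ne D s ε C z g1 g2 g3), hcell z ?_⟩
    exact (mem_ball.1 hz.1).le.trans hrη.le
  have hWm : MeasurableSet (ball x2 r ×ˢ ball (q x2) (2 * r')) :=
    measurableSet_ball.prod measurableSet_ball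
  -- the inequality for small δ
  have hineq : ∀ δ : ℝ, 0 < δ → δ < δ0 → H (x2, q x2) / 2 * c ≤
      K * (∫ z in tsupport (NN D s ε C) ∩ Cell y, ‖xx D z‖ ^ 2 * tau δ (xx D z))
          + K * δ * (volume (tsupport (NN D s ε C) ∩ Cell y)).toReal := by
    intro δ hδ hδ'
    have h1 := hint δ hδ (ball x2 r ×ˢ ball (q x2) (2 * r')) hWm hWS (H (x2, q x2) / 2)
      (by linarith) (fun z hz => by
        obtain ⟨-, -, g3, g4⟩ := hWgood z hz
        refine ⟨g3, ?_⟩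
        rw [hH] at g4
        rw [hH]
        exact g4.le)
    have h2 := hrad δ hδ hδ' q (xx D) (fun z => D.R 2 z.1 z.2)
      ((Contra_R_cont D 1).mono hclosed) ((Contra_R_cont D 2).mono hclosed)
      (fun x hx => ⟨(hloc x hx).1, fun p hp => (hloc x hx).2 p hp⟩)
    exact (mul_le_mul_of_nonneg_left h2 (by linarith)).trans h1
  -- the limit
  have hScomp := NN_compact D s ε C y
  have hSO : tsupport (NN D s ε C) ∩ Cell y ⊆ D.Out :=
    inter_subset_left.trans (NN_tsupport D s ε C hs1 hε)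
  have hlim := lim (xx D) _ hScomp ((Contra_R_cont D 1).mono hSO)
  have hlim2 : Tendsto (fun δ : ℝ =>
      K * (∫ z in tsupport (NN D s ε C) ∩ Cell y, ‖xx D z‖ ^ 2 * tau δ (xx D z))
          + K * δ * (volume (tsupport (NN D s ε C) ∩ Cell y)).toReal)
      (nhdsWithin 0 (Ioi 0)) (nhds 0) := by
    have h1 : Tendsto (fun δ : ℝ => K * δ * (volume (tsupport (NN D s ε C) ∩ Cell y)).toReal)
        (nhdsWithin 0 (Ioi 0)) (nhds (K * 0 *
          (volume (tsupport (NN D s ε C) ∩ Cell y)).toReal)) :=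
      ((tendsto_id.mono_left nhdsWithin_le_nhds).const_mul K).mul_const _
    have h2 := (hlim.const_mul K).add h1
    simpa using h2
  have hev : ∀ᶠ δ in nhdsWithin (0 : ℝ) (Ioi 0), H (x2, q x2) / 2 * c ≤
      K * (∫ z in tsupport (NN D s ε C) ∩ Cell y, ‖xx D z‖ ^ 2 * tau δ (xx D z))
          + K * δ * (volume (tsupport (NN D s ε C) ∩ Cell y)).toReal := by
    have h1 : Ioo (0 : ℝ) δ0 ∈ nhdsWithin (0 : ℝ) (Ioi 0) := Ioo_mem_nhdsGT hδ0
    filter_upwards [h1] with δ hδ using hineq δ hδ.1 hδ.2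
  have hfin := ge_of_tendsto hlim2 hev
  have hpos : 0 < H (x2, q x2) / 2 * c := by positivity
  linarith

/-- There are no bad points. -/
theorem no_bad (D : LD) : ∀ x p m, ¬ D.Bad x p m := by
  intro x p m hb
  have hex : ∃ m, ∃ x p, D.Bad x p m := ⟨m, x, p, hb⟩
  classical
  obtain ⟨x1, p1, hb1⟩ := Nat.find_spec hex
  have hmin : ∀ x p m', D.Bad x p m' → Nat.find hex ≤ m' :=
    fun x p m' h => Nat.find_min' hex ⟨x, p, h⟩
  obtain ⟨r, q, hr, hq⟩ := branch D _ x1 p1 hb1 hmin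
  obtain ⟨x2, hx2, him⟩ := branch_im D _ x1 r hr q hq
  have hR1 := branch_R1 D _ x1 r q hq x2 hx2
  have hx2' : dist x2 x1 < r := hx2
  refine contra D (Nat.find hex) x2 (r - dist x2 x1) (by linarith) q ?_ hR1 him
  intro x hx
  refine hq x ?_
  have : dist x x2 < r - dist x2 x1 := hx
  have h3 := dist_triangle x x2 x1
  show dist x x1 < r
  linarith

/-- Proposition 2. -/
theorem prop2 (D : LD) (x : V2) (p : ℂ) (hp : |D.l x| < ‖p‖ ^ 2) (m : ℕ)
    (h : ∀ i, 1 ≤ i → i ≤ m → D.R i x p = 0) : ∀ i, i < m → D.R1 i x p = 0 := by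
  intro i hi
  by_contra hne
  have hp0 : p ≠ 0 := by
    rintro rfl
    have h1 : (0 : ℝ) ≤ |D.l x| := abs_nonneg _
    simp at hp
    exact absurd hp (not_lt.mpr h1)
  have hex := D.exists_ne x p hp0
  classical
  have hs := Nat.find_spec hex
  have hmin := fun k => @Nat.find_min' _ _ hex k
  set k := Nat.find hex with hk
  have hk1 : 1 ≤ k := hs.1
  have hmk : m < k := by
    by_contra hlt
    exact hs.2 (h k hk1 (not_lt.mp hlt))
  refine no_bad D x p (k - 1) ⟨hp, ?_, ?_, i, by omega, hne⟩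
  · intro j hj1 hj2
    by_contra hj
    have := hmin j ⟨hj1, hj⟩
    omega
  · have : k - 1 + 1 = k := by omega
    rw [this]
    exact hs.2

end Pool.W4b1b5d.H3
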