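import Pool.Agent.W_4b1b5d_h3.BetaA

set_option autoImplicit false

namespace Pool.W4b1b5d.H3

theorem BetaT_shift (g : ℕ → ℂ) (n : ℕ) (h0 : g 0 = 0) :
    ∑ b ∈ Finset.range (n + 2), g b = ∑ b ∈ Finset.range (n + 1), g (b + 1) := by
  rw [Finset.sum_range_succ', h0, add_zero]

theorem BetaT_drop (g : ℕ → ℂ) (n : ℕ) (h0 : g (n + 1) = 0) :
    ∑ b ∈ Finset.range (n + 2), g b = ∑ b ∈ Finset.range (n + 1), g b := by
  rw [Finset.sum_range_succ, h0, add_zero]

theorem BetaT_dd_zero (a : Fin 2 → ℂ) (x : V2) : dd a (fun _ => (0 : ℂ)) x = 0 := by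
  simp [dd]

namespace ID

theorem BetaT_big (I : ID) (a b : ℤ) (hb : (I.n : ℤ) < b) (x : V2) : I.f a b x = 0 := by
  by_cases ha : a < 0
  · exact I.f_neg a b x ha
  · exact I.f_big a b x (by omega)

/-- TASK BetaT.  The transport equation for the coefficients.

Proof.  Let `l = ell h`.  By `dd_sum`, `dd_mul`, `dd_pow`:
`dd β_{s+1} = ∑_b dd f_{s+1+b,b} l^b + ∑_b b f_{s+1+b,b} l^(b-1) dd l` and
`db β_{s-1} = ∑_b db f_{s-1+b,b} l^b + ∑_b b f_{s-1+b,b} l^(b-1) db l`.
Take `eqn` with `(A,B) = (s+b, b)`, multiply by `l^b` and sum over `b = 0, ..., n+1`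
(the terms with out of range indices vanish by `f_neg'`, `f_big`; derivatives of the identically zero
functions vanish):
`mu ∑ dd f_{s+b,b-1} l^b + mu ∑ db f_{s+b-1,b} l^b - dd mu ∑ (s+b) f_{s+b,b-1} l^b
  - db mu ∑ b f_{s+b-1,b} l^b - dd U ∑ (s+b+1) f_{s+b+1,b} l^b - db U ∑ (b+1) f_{s+b,b+1} l^b = 0`.
Shift `b → b+1` in the first, third sums and `b+1 → b` in the last:
`mu [ l ∑ dd f_{s+1+b,b} l^b + ∑ db f_{s-1+b,b} l^b ] - (dd U + l dd mu) ∑ (s+1+b) f_{s+1+b,b} l^b
  - (db U + l db mu) ∑ b f_{s-1+b,b} l^(b-1) = 0`.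
By `ddr_ell`, `dd U + l dd mu = - mu dd l`, same for `db`; divide by `mu ≠ 0`. -/
theorem beta_trans (I : ID) (h : ℝ) (s : ℤ) (x : V2) :
    dd (cj I.al) (I.beta h (s - 1)) x + (I.ell h x : ℂ) * dd I.al (I.beta h (s + 1)) x
      + ((s : ℂ) + 1) * ddr I.al (I.ell h) x * I.beta h (s + 1) x = 0 := by
  have hm : (I.mu x : ℂ) ≠ 0 := by exact_mod_cast (I.mupos x).ne'
  set al := I.al with hal
  set l : ℂ := (I.ell h x : ℂ) with hl
  set n := I.n with hn
  set P : ℂ := ∑ b ∈ Finset.range (n + 1), dd al (I.f (s + 1 + b) b) x * l ^ b with hP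
  set Q : ℂ := ∑ b ∈ Finset.range (n + 1), dd (cj al) (I.f (s - 1 + b) b) x * l ^ b with hQ
  set T : ℂ := ∑ b ∈ Finset.range (n + 1), ((s : ℂ) + 1 + b) * I.f (s + 1 + b) b x * l ^ b with hT
  set V : ℂ := ∑ b ∈ Finset.range (n + 1), (b : ℂ) * I.f (s - 1 + b) b x * l ^ (b - 1) with hV
  -- the sum of the equations
  have key : (I.mu x : ℂ) * (l * P + Q) - (ddr al I.mu x * (l * T) + ddr (cj al) I.mu x * (l * V))
      - (ddr al I.U x * T + ddr (cj al) I.U x * V) = 0 := by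
    have h0 : ∑ b ∈ Finset.range (n + 2), l ^ b * ((I.mu x : ℂ) *
        (dd al (I.f (s + b) ((b : ℤ) - 1)) x + dd (cj al) (I.f (s + b - 1) b) x)
        - ((((s + b : ℤ) : ℂ)) * ddr al I.mu x * I.f (s + b) ((b : ℤ) - 1) x
          + (((b : ℤ) : ℂ)) * ddr (cj al) I.mu x * I.f (s + b - 1) b x)
        - (((((s + b : ℤ) : ℂ)) + 1) * ddr al I.U x * I.f (s + b + 1) b x
          + ((((b : ℤ) : ℂ)) + 1) * ddr (cj al) I.U x * I.f (s + b) ((b : ℤ) + 1) x)) = 0 := by
      refine Finset.sum_eq_zero fun b _ => ?_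
      rw [I.eqn (s + b) b x, mul_zero]
    have e1 : ∑ b ∈ Finset.range (n + 2), l ^ b * dd al (I.f (s + b) ((b : ℤ) - 1)) x = l * P := by
      rw [BetaT_shift, hP, Finset.mul_sum]
      · refine Finset.sum_congr rfl fun b _ => ?_
        have a1 : s + ((b + 1 : ℕ) : ℤ) = s + 1 + b := by push_cast; ring
        have a2 : ((b + 1 : ℕ) : ℤ) - 1 = b := by push_cast; ring
        rw [a1, a2]
        ring
      · have : I.f (s + ((0 : ℕ) : ℤ)) (((0 : ℕ) : ℤ) - 1) = fun _ => 0 := by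
          funext y
          exact I.f_neg' _ _ _ (by norm_num)
        rw [this, BetaT_dd_zero, mul_zero]
    have e2 : ∑ b ∈ Finset.range (n + 2), l ^ b * dd (cj al) (I.f (s + b - 1) b) x = Q := by
      rw [BetaT_drop, hQ]
      · refine Finset.sum_congr rfl fun b _ => ?_
        have a1 : s + (b : ℤ) - 1 = s - 1 + b := by ring
        rw [a1]
        ring
      · have : I.f (s + ((n + 1 : ℕ) : ℤ) - 1) ((n + 1 : ℕ) : ℤ) = fun _ => 0 := by
          funext y
          exact I.BetaT_big _ _ (by omega) y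
        rw [this, BetaT_dd_zero, mul_zero]
    have e3 : ∑ b ∈ Finset.range (n + 2), l ^ b * (((s + b : ℤ) : ℂ) *
        I.f (s + b) ((b : ℤ) - 1) x) = l * T := by
      rw [BetaT_shift, hT, Finset.mul_sum]
      · refine Finset.sum_congr rfl fun b _ => ?_
        have a1 : s + ((b + 1 : ℕ) : ℤ) = s + 1 + b := by push_cast; ring
        have a2 : ((b + 1 : ℕ) : ℤ) - 1 = b := by push_cast; ring
        rw [a1, a2]
        push_cast
        ring
      · rw [I.f_neg' _ _ _ (by norm_num), mul_zero, mul_zero]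
    have e4 : ∑ b ∈ Finset.range (n + 2), l ^ b * (((b : ℤ) : ℂ) * I.f (s + b - 1) b x) =
        l * V := by
      rw [BetaT_drop, hV, Finset.mul_sum]
      · refine Finset.sum_congr rfl fun b _ => ?_
        have a1 : s + (b : ℤ) - 1 = s - 1 + b := by ring
        rw [a1]
        rcases b with _ | c
        · simp
        · rw [Nat.add_sub_cancel]
          push_cast
          ring
      · rw [I.BetaT_big _ _ (by omega) x, mul_zero, mul_zero]
    have e5 : ∑ b ∈ Finset.range (n + 2), l ^ b * ((((s + b : ℤ) : ℂ) + 1) *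
        I.f (s + b + 1) b x) = T := by
      rw [BetaT_drop, hT]
      · refine Finset.sum_congr rfl fun b _ => ?_
        have a1 : s + (b : ℤ) + 1 = s + 1 + b := by ring
        rw [a1]
        push_cast
        ring
      · rw [I.BetaT_big _ _ (by omega) x, mul_zero, mul_zero]
    have e6 : ∑ b ∈ Finset.range (n + 2), l ^ b * ((((b : ℤ) : ℂ) + 1) *
        I.f (s + b) ((b : ℤ) + 1) x) = V := by
      have h1 : ∑ b ∈ Finset.range (n + 2), l ^ b * ((((b : ℤ) : ℂ) + 1) *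
          I.f (s + b) ((b : ℤ) + 1) x) = ∑ b ∈ Finset.range (n + 2),
            (((b + 1 : ℕ) : ℂ) * I.f (s - 1 + ((b + 1 : ℕ) : ℤ)) ((b + 1 : ℕ) : ℤ) x *
              l ^ (b + 1 - 1)) := by
        refine Finset.sum_congr rfl fun b _ => ?_
        have a1 : s - 1 + ((b + 1 : ℕ) : ℤ) = s + b := by push_cast; ring
        have a2 : ((b + 1 : ℕ) : ℤ) = (b : ℤ) + 1 := by push_cast; ring
        rw [a1, a2, Nat.add_sub_cancel]
        push_cast
        ring
      rw [h1]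
      have h2 := Finset.sum_range_succ' (fun b : ℕ => (b : ℂ) * I.f (s - 1 + (b : ℤ)) (b : ℤ) x *
        l ^ (b - 1)) (n + 2)
      have h3 := Finset.sum_range_succ (fun b : ℕ => (b : ℂ) * I.f (s - 1 + (b : ℤ)) (b : ℤ) x *
        l ^ (b - 1)) (n + 2)
      have h4 := Finset.sum_range_succ (fun b : ℕ => (b : ℂ) * I.f (s - 1 + (b : ℤ)) (b : ℤ) x *
        l ^ (b - 1)) (n + 1)
      have h5 : I.f (s - 1 + ((n + 2 : ℕ) : ℤ)) ((n + 2 : ℕ) : ℤ) x = 0 :=
        I.BetaT_big _ _ (by omega) x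
      have h6 : I.f (s - 1 + ((n + 1 : ℕ) : ℤ)) ((n + 1 : ℕ) : ℤ) x = 0 :=
        I.BetaT_big _ _ (by omega) x
      simp only [h5, h6, mul_zero, zero_mul, add_zero, Nat.cast_zero] at h2 h3 h4
      rw [← h2, h3, h4]
    have h7 : ∀ b : ℕ, l ^ b * ((I.mu x : ℂ) *
        (dd al (I.f (s + b) ((b : ℤ) - 1)) x + dd (cj al) (I.f (s + b - 1) b) x)
        - ((((s + b : ℤ) : ℂ)) * ddr al I.mu x * I.f (s + b) ((b : ℤ) - 1) x
          + (((b : ℤ) : ℂ)) * ddr (cj al) I.mu x * I.f (s + b - 1) b x)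
        - (((((s + b : ℤ) : ℂ)) + 1) * ddr al I.U x * I.f (s + b + 1) b x
          + ((((b : ℤ) : ℂ)) + 1) * ddr (cj al) I.U x * I.f (s + b) ((b : ℤ) + 1) x)) =
        (I.mu x : ℂ) * (l ^ b * dd al (I.f (s + b) ((b : ℤ) - 1)) x)
        + (I.mu x : ℂ) * (l ^ b * dd (cj al) (I.f (s + b - 1) b) x)
        - ddr al I.mu x * (l ^ b * (((s + b : ℤ) : ℂ) * I.f (s + b) ((b : ℤ) - 1) x))
        - ddr (cj al) I.mu x * (l ^ b * (((b : ℤ) : ℂ) * I.f (s + b - 1) b x))
        - ddr al I.U x * (l ^ b * ((((s + b : ℤ) : ℂ) + 1) * I.f (s + b + 1) b x))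
        - ddr (cj al) I.U x * (l ^ b * ((((b : ℤ) : ℂ) + 1) * I.f (s + b) ((b : ℤ) + 1) x)) := by
      intro b
      ring
    simp only [h7] at h0
    simp only [Finset.sum_add_distrib, Finset.sum_sub_distrib, ← Finset.mul_sum] at h0
    rw [e1, e2, e3, e4, e5, e6] at h0
    linear_combination h0
  -- derivatives of `beta`
  have hld : DifferentiableAt ℝ (fun y => (I.ell h y : ℂ)) x :=
    (Complex.ofRealCLM.contDiff.comp (I.ell_smooth h)).differentiable (by simp) x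
  have hfd : ∀ a b, DifferentiableAt ℝ (I.f a b) x := fun a b =>
    (I.fsm a b).differentiable (by simp) x
  have hpw : ∀ b : ℕ, DifferentiableAt ℝ (fun y => (I.ell h y : ℂ) ^ b) x := fun b =>
    hld.pow b
  have hdd : ∀ (a : Fin 2 → ℂ) (r : ℤ), dd a (I.beta h r) x =
      ∑ b ∈ Finset.range (n + 1), (dd a (I.f (r + b) b) x * l ^ b +
        I.f (r + b) b x * ((b : ℂ) * l ^ (b - 1) * ddr a (I.ell h) x)) := by
    intro a r
    have h1 : I.beta h r = fun y => ∑ b ∈ Finset.range (n + 1),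
        I.f (r + b) b y * (I.ell h y : ℂ) ^ b := rfl
    rw [h1, dd_sum]
    · refine Finset.sum_congr rfl fun b _ => ?_
      rw [dd_mul a (hfd _ _) (hpw b), dd_pow a hld]
      rfl
    · intro b _
      exact (hfd _ _).mul (hpw b)
  have hA := I.ddr_ell h al x
  have hB := I.ddr_ell h (cj al) x
  rw [hdd, hdd]
  have g1 : ∑ b ∈ Finset.range (n + 1), (dd (cj al) (I.f (s - 1 + b) b) x * l ^ b +
      I.f (s - 1 + b) b x * ((b : ℂ) * l ^ (b - 1) * ddr (cj al) (I.ell h) x)) =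
      Q + ddr (cj al) (I.ell h) x * V := by
    rw [Finset.sum_add_distrib, hQ, hV, Finset.mul_sum]
    congr 1
    refine Finset.sum_congr rfl fun b _ => ?_
    ring
  have g2 : l * ∑ b ∈ Finset.range (n + 1), (dd al (I.f (s + 1 + b) b) x * l ^ b +
      I.f (s + 1 + b) b x * ((b : ℂ) * l ^ (b - 1) * ddr al (I.ell h) x)) +
      ((s : ℂ) + 1) * ddr al (I.ell h) x * I.beta h (s + 1) x =
      l * P + ddr al (I.ell h) x * T := by
    have h1 : I.beta h (s + 1) x = ∑ b ∈ Finset.range (n + 1),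
        I.f (s + 1 + b) b x * l ^ b := rfl
    rw [h1, hP, hT, Finset.mul_sum, Finset.mul_sum, Finset.mul_sum, Finset.mul_sum,
      ← Finset.sum_add_distrib, ← Finset.sum_add_distrib]
    refine Finset.sum_congr rfl fun b _ => ?_
    rcases b with _ | c
    · simp
      ring
    · rw [Nat.add_sub_cancel]
      push_cast
      ring
  rw [g1, add_assoc, g2]
  refine mul_left_cancel₀ hm ?_
  linear_combination key + T * hA + V * hB

end ID

end Pool.W4b1b5d.H3
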