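import Pool.Agent.W_4b1b5d_h3.BetaT
import Pool.Agent.W_4b1b5d_h3.Liou

set_option autoImplicit false

namespace Pool.W4b1b5d.H3

theorem Build_dd_zero (a : Fin 2 → ℂ) {f : V2 → ℂ} (h : ∀ x, f x = 0) (x : V2) :
    dd a f x = 0 :=
  dd_zero_of_open a isOpen_univ (fun y _ => h y) x (Set.mem_univ x)

theorem Build_fall_zero (s : ℤ) : fall s 0 = 1 := by
  unfold fall
  rw [Finset.prod_range_zero]

theorem Build_fall_one (s : ℤ) : fall s 1 = s := by
  unfold fall
  rw [Finset.prod_range_one, Nat.cast_zero, sub_zero]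

/-- the coefficients of `p ^ s` in the transport equation sum to zero -/
theorem Build_trans (I : ID) (h : ℝ) (d : ℕ)
    (hz : ∀ s : ℤ, (d : ℤ) < |s| → ∀ x, I.beta h s x = 0) (x : V2) (p : ℂ) (hp : p ≠ 0) :
    ((I.ell h x : ℂ) / p) * Lk d (fun j => dd I.al (I.beta h ((j : ℤ) - d)) x) 0 p
      + p * Lk d (fun j => dd (cj I.al) (I.beta h ((j : ℤ) - d)) x) 0 p
      + ddr I.al (I.ell h) x * Lk d (fun j => I.beta h ((j : ℤ) - d) x) 1 p = 0 := by
  have hA0 : ∀ (a : Fin 2 → ℂ) (s : ℤ), (d : ℤ) < |s| → dd a (I.beta h s) x = 0 :=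
    fun a s hs => Build_dd_zero a (hz s hs) x
  have key : ∑ i ∈ Finset.range (2 * d + 1 + 1 + 1),
      (dd (cj I.al) (I.beta h ((i : ℤ) - d - 2)) x * p ^ ((i : ℤ) - d - 1) +
        ((I.ell h x : ℂ) * dd I.al (I.beta h ((i : ℤ) - d)) x +
          ((i : ℂ) - d) * ddr I.al (I.ell h) x * I.beta h ((i : ℤ) - d) x) *
            p ^ ((i : ℤ) - d - 1)) = 0 := by
    refine Finset.sum_eq_zero fun i _ => ?_
    have h1 := I.beta_trans h ((i : ℤ) - d - 1) x
    rw [show (i : ℤ) - d - 1 - 1 = (i : ℤ) - d - 2 by ring,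
      show (i : ℤ) - d - 1 + 1 = (i : ℤ) - d by ring] at h1
    push_cast at h1
    linear_combination p ^ ((i : ℤ) - d - 1) * h1
  rw [Finset.sum_add_distrib] at key
  have eA : ∑ i ∈ Finset.range (2 * d + 1 + 1 + 1),
      dd (cj I.al) (I.beta h ((i : ℤ) - d - 2)) x * p ^ ((i : ℤ) - d - 1) =
      p * Lk d (fun j => dd (cj I.al) (I.beta h ((j : ℤ) - d)) x) 0 p := by
    rw [Finset.sum_range_succ', Finset.sum_range_succ']
    have z0 : dd (cj I.al) (I.beta h (((0 : ℕ) : ℤ) - d - 2)) x = 0 := hA0 _ _ (by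
      rw [lt_abs]; right; push_cast; omega)
    have z1 : dd (cj I.al) (I.beta h (((0 + 1 : ℕ) : ℤ) - d - 2)) x = 0 := hA0 _ _ (by
      rw [lt_abs]; right; push_cast; omega)
    rw [z0, z1, zero_mul, zero_mul, add_zero, add_zero]
    unfold Lk
    rw [Finset.mul_sum]
    refine Finset.sum_congr rfl fun j _ => ?_
    rw [Build_fall_zero, mul_one]
    have e1 : ((j + 1 + 1 : ℕ) : ℤ) - d - 2 = (j : ℤ) - d := by push_cast; ring
    have e2 : ((j + 1 + 1 : ℕ) : ℤ) - d - 1 = ((j : ℤ) - d - (0 : ℕ)) + 1 := by push_cast; ring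
    rw [e1, e2, zpow_add_one₀ hp]
    ring
  have eB : ∑ i ∈ Finset.range (2 * d + 1 + 1 + 1),
      ((I.ell h x : ℂ) * dd I.al (I.beta h ((i : ℤ) - d)) x +
          ((i : ℂ) - d) * ddr I.al (I.ell h) x * I.beta h ((i : ℤ) - d) x) *
            p ^ ((i : ℤ) - d - 1) =
      ((I.ell h x : ℂ) / p) * Lk d (fun j => dd I.al (I.beta h ((j : ℤ) - d)) x) 0 p +
        ddr I.al (I.ell h) x * Lk d (fun j => I.beta h ((j : ℤ) - d) x) 1 p := by
    rw [Finset.sum_range_succ, Finset.sum_range_succ]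
    have h1 : (d : ℤ) < |((2 * d + 1 : ℕ) : ℤ) - d| := by
      rw [lt_abs]; left; push_cast; omega
    have h2 : (d : ℤ) < |((2 * d + 1 + 1 : ℕ) : ℤ) - d| := by
      rw [lt_abs]; left; push_cast; omega
    rw [hA0 _ _ h1, hA0 _ _ h2, hz _ h1, hz _ h2]
    simp only [mul_zero, add_zero, zero_mul]
    unfold Lk
    rw [Finset.mul_sum, Finset.mul_sum, ← Finset.sum_add_distrib]
    refine Finset.sum_congr rfl fun j _ => ?_
    rw [Build_fall_zero, Build_fall_one]
    have e1 : (j : ℤ) - d - ((0 : ℕ) : ℤ) = ((j : ℤ) - d - 1) + 1 := by push_cast; ring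
    have e2 : (j : ℤ) - d - ((1 : ℕ) : ℤ) = (j : ℤ) - d - 1 := by push_cast; ring
    rw [e1, e2, zpow_add_one₀ hp]
    push_cast
    field_simp
  rw [eA, eB] at key
  rw [← key]
  ring

/-- TASK Build.  Construction of the data `LD` for an energy `h`.

Proof.  By `beta_big` there is a largest integer `d` such that `beta h d` is not identically zero,
`1 ≤ s0 ≤ d ≤ n`.  `beta_par` gives that `d + n` is even.
`beta_trans` with `s = d + 1`: `db β_d = 0` (as `β_{d+2} = 0` identically), so `β_d` is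
a constant `a` by `liou`, `a ≠ 0`.  Put `c j = beta h (j - d)`.
`top`: `c (2d) = β_d = a`.  `symm`: `beta_conj`.  `par`: for odd `j`, `(j - d) + n` is odd because
`d + n` is even.  `trans`: expand the `Lk`'s; the coefficient of `p^s` in the transport equation is
`beta_trans` (write everything as a sum over `s`; note that
`l/p * ∑_j dd c_j p^(j-d) = ∑ l dd β_{s+1} p^s` with `s = j - d - 1`,
`p * ∑_j db c_j p^(j-d) = ∑ db β_{s-1} p^s` with `s = j - d + 1`, and
`dd l * ∑_j c_j (j-d) p^(j-d-1) = ∑ (s+1) dd l β_{s+1} p^s` with `s = j - d - 1`; the missing terms are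
those with `β = 0` identically (`|s| > d`, for negative `s` by `beta_conj`)).  For example prove
`(l/p) * ∑_j dd c_j p^(j-d) + ... = ∑_{s ∈ Icc (-d-1) (d+1)} (beta_trans s) * p^s`. -/
theorem build (I : ID) (h : ℝ) (x0 : V2) (s0 : ℤ) (hs0 : 1 ≤ s0) (hne : I.beta h s0 x0 ≠ 0) :
    ∃ D : LD, D.al = I.al ∧ (∀ x, D.l x = I.ell h x) ∧
      (∀ (j : ℕ) x, D.c j x = I.beta h ((j : ℤ) - D.d) x) ∧
      (∀ s : ℤ, (D.d : ℤ) < s → ∀ x, I.beta h s x = 0) := by
  classical
  obtain ⟨k, rfl⟩ : ∃ k : ℕ, s0 = k := ⟨s0.toNat, by omega⟩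
  set P : ℕ → Prop := fun d => ∃ x, I.beta h (d : ℤ) x ≠ 0 with hP
  have hkP : P k := ⟨x0, hne⟩
  have hkn : k ≤ I.n := by
    by_contra hcon
    apply hne
    apply I.beta_big
    rw [Nat.abs_cast]
    omega
  set d : ℕ := Nat.findGreatest P I.n with hd
  have hdP : P d := Nat.findGreatest_spec hkn hkP
  have hkd : k ≤ d := Nat.le_findGreatest hkn hkP
  have hpos : ∀ s : ℕ, d < s → ∀ x, I.beta h (s : ℤ) x = 0 := by
    intro s hs x
    rcases Nat.lt_or_ge I.n s with h1 | h1
    · apply I.beta_big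
      rw [Nat.abs_cast]
      omega
    · by_contra hcon
      exact Nat.findGreatest_is_greatest hs h1 ⟨x, hcon⟩
  have hz : ∀ s : ℤ, (d : ℤ) < |s| → ∀ x, I.beta h s x = 0 := by
    intro s hs x
    obtain ⟨m, rfl | rfl⟩ := s.eq_nat_or_neg
    · rw [Nat.abs_cast] at hs
      exact hpos m (by omega) x
    · rw [abs_neg, Nat.abs_cast] at hs
      rw [I.beta_conj, hpos m (by omega) x, map_zero, mul_zero]
  have heven : Even (d + I.n) := by
    by_contra hcon
    rw [Nat.not_even_iff_odd] at hcon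
    obtain ⟨x, hx⟩ := hdP
    apply hx
    apply I.beta_par
    exact_mod_cast hcon
  have hdb : ∀ x, dd (cj I.al) (I.beta h (d : ℤ)) x = 0 := by
    intro x
    have h1 := I.beta_trans h ((d : ℤ) + 1) x
    have h2 : (d : ℤ) < |(d : ℤ) + 1 + 1| := by
      rw [lt_abs]; left; omega
    rw [Build_dd_zero I.al (hz _ h2) x, hz _ h2 x, mul_zero, mul_zero, add_zero, add_zero,
      add_sub_cancel_right] at h1
    exact h1
  obtain ⟨a, ha⟩ := liou I.al I.hal (I.beta h (d : ℤ)) (I.beta_smooth h _) (I.beta_per h _) hdb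
  refine ⟨{ al := I.al
            hal := I.hal
            d := d
            hd := by omega
            c := fun j => I.beta h ((j : ℤ) - d)
            l := I.ell h
            a := a
            ha := ?_
            csm := fun j => I.beta_smooth h _
            cper := fun j => I.beta_per h _
            lsm := I.ell_smooth h
            lper := I.ell_per h
            top := ?_
            symm := ?_
            par := ?_
            trans := ?_ }, rfl, fun x => rfl, fun j x => rfl, ?_⟩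
  · obtain ⟨x, hx⟩ := hdP
    rwa [ha x] at hx
  · intro x
    rw [← ha x]
    have e1 : ((2 * d : ℕ) : ℤ) - d = d := by push_cast; ring
    rw [e1]
  · intro x j hj
    have e1 : ((d - j : ℕ) : ℤ) - d = -(j : ℤ) := by
      rw [Nat.cast_sub hj]; ring
    have e2 : ((d + j : ℕ) : ℤ) - d = (j : ℤ) := by push_cast; ring
    rw [e1, e2]
    exact I.beta_conj h j x
  · intro x j hj
    apply I.beta_par
    obtain ⟨u, hu⟩ := hj
    obtain ⟨v, hv⟩ := heven
    refine ⟨(u : ℤ) + v - d, ?_⟩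
    have h1 : (d : ℤ) + I.n = v + v := by exact_mod_cast hv
    rw [hu]
    push_cast
    linarith
  · intro x p hp
    exact Build_trans I h d hz x p hp
  · intro s hs x
    exact hz s (lt_abs.2 (Or.inl hs)) x

end Pool.W4b1b5d.H3
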