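import Pool.Agent.W_4b1b5d_h3.RealId
import Pool.Agent.W_4b1b5d_h3.BetaA

set_option autoImplicit false

namespace Pool.W4b1b5d.H3

open MvPolynomial

open Classical in
/-- The complex coefficient functions. -/
noncomputable def fco (om : Fin 2 → ℂ) (n : ℕ) (F : V2 → RP) (a b : ℤ) (x : V2) : ℂ :=
  if 0 ≤ a ∧ 0 ≤ b ∧ Even (a + b + n) then (Ph om (F x)).coeff (mk2 a.toNat b.toNat) else 0


/-- linearity: coefficients of the image of a monomial -/
theorem ToID_mon (om : Fin 2 → ℂ) (s : Fin 2 →₀ ℕ) (c : ℝ) (m : Fin 2 →₀ ℕ) :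
    (Ph om (monomial s c)).coeff m = (c : ℂ) * (Ph om (monomial s 1)).coeff m := by
  have h1 : (monomial s c : RP) = c • monomial s 1 := by
    rw [smul_monomial, smul_eq_mul, mul_one]
  rw [h1, map_smul, coeff_smul, Complex.real_smul]

theorem ToID_coeff (om : Fin 2 → ℂ) (n : ℕ) (P : RP) (h : P.totalDegree ≤ n)
    (m : Fin 2 →₀ ℕ) :
    (Ph om P).coeff m = ∑ q ∈ Finset.range (n + 1) ×ˢ Finset.range (n + 1),
      ((P.coeff (mk2 q.1 q.2) : ℝ) : ℂ) * (Ph om (monomial (mk2 q.1 q.2) 1)).coeff m := by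
  conv_lhs => rw [eq_sum_box n P h]
  rw [map_sum, coeff_sum]
  exact Finset.sum_congr rfl fun q _ => ToID_mon om _ _ m

/-- coefficient extended by zero to integer exponents -/
noncomputable def ToID_cz (P : CP) (a b : ℤ) : ℂ :=
  if 0 ≤ a ∧ 0 ≤ b then P.coeff (mk2 a.toNat b.toNat) else 0

theorem ToID_cz_neg (P : CP) (a b : ℤ) (h : a < 0 ∨ b < 0) : ToID_cz P a b = 0 := by
  unfold ToID_cz
  rw [if_neg]
  rintro ⟨h1, h2⟩
  omega

theorem ToID_cz_nat (P : CP) (a b : ℕ) : ToID_cz P a b = P.coeff (mk2 a b) := by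
  unfold ToID_cz
  rw [if_pos ⟨Int.natCast_nonneg _, Int.natCast_nonneg _⟩, Int.toNat_natCast, Int.toNat_natCast]

theorem ToID_cz_zero (a b : ℤ) : ToID_cz 0 a b = 0 := by
  unfold ToID_cz
  split_ifs <;> simp

theorem ToID_cz_add (P Q : CP) (a b : ℤ) :
    ToID_cz (P + Q) a b = ToID_cz P a b + ToID_cz Q a b := by
  unfold ToID_cz
  split_ifs <;> simp

theorem ToID_cz_sub (P Q : CP) (a b : ℤ) :
    ToID_cz (P - Q) a b = ToID_cz P a b - ToID_cz Q a b := by
  unfold ToID_cz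
  split_ifs <;> simp

theorem ToID_cz_C (c : ℂ) (P : CP) (a b : ℤ) :
    ToID_cz (C c * P) a b = c * ToID_cz P a b := by
  unfold ToID_cz
  split_ifs <;> simp [coeff_C_mul]

theorem ToID_mk0 (a b : ℕ) : mk2 (a + 1) b = Finsupp.single 0 1 + mk2 a b := by
  unfold mk2
  rw [← add_assoc, ← Finsupp.single_add, add_comm 1 a]

theorem ToID_mk1 (a b : ℕ) : mk2 a (b + 1) = Finsupp.single 1 1 + mk2 a b := by
  unfold mk2
  rw [add_left_comm, ← Finsupp.single_add, add_comm 1 b]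

theorem ToID_cz_X0 (P : CP) (a b : ℤ) : ToID_cz (X 0 * P) a b = ToID_cz P (a - 1) b := by
  rcases lt_or_ge b 0 with hb | hb
  · rw [ToID_cz_neg _ _ _ (Or.inr hb), ToID_cz_neg _ _ _ (Or.inr hb)]
  rcases lt_or_ge a 0 with ha | ha
  · rw [ToID_cz_neg _ _ _ (Or.inl ha), ToID_cz_neg _ _ _ (Or.inl (by omega))]
  obtain ⟨m, rfl⟩ := Int.eq_ofNat_of_zero_le ha
  obtain ⟨k, rfl⟩ := Int.eq_ofNat_of_zero_le hb
  rcases m with _ | m
  · rw [ToID_cz_neg P _ _ (Or.inl (by omega)), ToID_cz_nat, coeff_X_mul', if_neg]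
    rw [Finsupp.mem_support_iff, not_not]
    simp [mk2]
  · rw [show ((m + 1 : ℕ) : ℤ) - 1 = (m : ℤ) by push_cast; ring, ToID_cz_nat, ToID_cz_nat,
      ToID_mk0, coeff_X_mul]

theorem ToID_cz_X1 (P : CP) (a b : ℤ) : ToID_cz (X 1 * P) a b = ToID_cz P a (b - 1) := by
  rcases lt_or_ge a 0 with ha | ha
  · rw [ToID_cz_neg _ _ _ (Or.inl ha), ToID_cz_neg _ _ _ (Or.inl ha)]
  rcases lt_or_ge b 0 with hb | hb
  · rw [ToID_cz_neg _ _ _ (Or.inr hb), ToID_cz_neg _ _ _ (Or.inr (by omega))]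
  obtain ⟨m, rfl⟩ := Int.eq_ofNat_of_zero_le ha
  obtain ⟨k, rfl⟩ := Int.eq_ofNat_of_zero_le hb
  rcases k with _ | k
  · rw [ToID_cz_neg P _ _ (Or.inr (by omega)), ToID_cz_nat, coeff_X_mul', if_neg]
    rw [Finsupp.mem_support_iff, not_not]
    simp [mk2]
  · rw [show ((k + 1 : ℕ) : ℤ) - 1 = (k : ℤ) by push_cast; ring, ToID_cz_nat, ToID_cz_nat,
      ToID_mk1, coeff_X_mul]

theorem ToID_cz_d0 (P : CP) (a b : ℤ) :
    ToID_cz (pderiv 0 P) a b = ((a : ℂ) + 1) * ToID_cz P (a + 1) b := by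
  rcases lt_or_ge b 0 with hb | hb
  · rw [ToID_cz_neg _ _ _ (Or.inr hb), ToID_cz_neg _ _ _ (Or.inr hb), mul_zero]
  rcases lt_or_ge a 0 with ha | ha
  · rw [ToID_cz_neg _ _ _ (Or.inl ha)]
    rcases lt_or_ge (a + 1) 0 with ha' | ha'
    · rw [ToID_cz_neg _ _ _ (Or.inl ha'), mul_zero]
    · have : a = -1 := by omega
      rw [this]
      push_cast
      ring
  obtain ⟨m, rfl⟩ := Int.eq_ofNat_of_zero_le ha
  obtain ⟨k, rfl⟩ := Int.eq_ofNat_of_zero_le hb
  rw [show (m : ℤ) + 1 = ((m + 1 : ℕ) : ℤ) by push_cast; ring, ToID_cz_nat, ToID_cz_nat,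
    coeff_pderiv, ToID_mk0, add_comm (mk2 m k)]
  simp [mk2]
  ring

theorem ToID_cz_d1 (P : CP) (a b : ℤ) :
    ToID_cz (pderiv 1 P) a b = ((b : ℂ) + 1) * ToID_cz P a (b + 1) := by
  rcases lt_or_ge a 0 with ha | ha
  · rw [ToID_cz_neg _ _ _ (Or.inl ha), ToID_cz_neg _ _ _ (Or.inl ha), mul_zero]
  rcases lt_or_ge b 0 with hb | hb
  · rw [ToID_cz_neg _ _ _ (Or.inr hb)]
    rcases lt_or_ge (b + 1) 0 with hb' | hb'
    · rw [ToID_cz_neg _ _ _ (Or.inr hb'), mul_zero]
    · have : b = -1 := by omega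
      rw [this]
      push_cast
      ring
  obtain ⟨m, rfl⟩ := Int.eq_ofNat_of_zero_le ha
  obtain ⟨k, rfl⟩ := Int.eq_ofNat_of_zero_le hb
  rw [show (k : ℤ) + 1 = ((k + 1 : ℕ) : ℤ) by push_cast; ring, ToID_cz_nat, ToID_cz_nat,
    coeff_pderiv, ToID_mk1, add_comm (mk2 m k)]
  simp [mk2]
  ring

/-- TASK ToID (1).  Smoothness of the coefficient functions: by `eq_sum_box` and linearity,
`(Ph om (F x)).coeff m = ∑_q (F x).coeff (mk2 q) * (Ph om (monomial (mk2 q) 1)).coeff m`. -/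
theorem fco_smooth (om : Fin 2 → ℂ) (n : ℕ) (F : V2 → RP)
    (hF : ∀ m, ContDiff ℝ (⊤ : ℕ∞) (fun x => (F x).coeff m))
    (hdeg : ∀ x, (F x).totalDegree ≤ n) (a b : ℤ) : ContDiff ℝ (⊤ : ℕ∞) (fco om n F a b) := by
  by_cases h : 0 ≤ a ∧ 0 ≤ b ∧ Even (a + b + n)
  · have h1 : fco om n F a b = fun x => ∑ q ∈ Finset.range (n + 1) ×ˢ Finset.range (n + 1),
        (((F x).coeff (mk2 q.1 q.2) : ℝ) : ℂ) *
          (Ph om (monomial (mk2 q.1 q.2) 1)).coeff (mk2 a.toNat b.toNat) := by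
      funext x
      unfold fco
      rw [if_pos h, ToID_coeff om n (F x) (hdeg x)]
    rw [h1]
    refine ContDiff.sum fun q _ => ?_
    exact (Complex.ofRealCLM.contDiff.comp (hF _)).mul contDiff_const
  · have h1 : fco om n F a b = fun _ => 0 := by
      funext x
      unfold fco
      rw [if_neg h]
    rw [h1]
    exact contDiff_const

/-- TASK ToID (2).  Derivatives of the coefficient functions (same formula). -/
theorem fco_deriv (om : Fin 2 → ℂ) (n : ℕ) (F : V2 → RP)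
    (hF : ∀ m, ContDiff ℝ (⊤ : ℕ∞) (fun x => (F x).coeff m))
    (hdeg : ∀ x, (F x).totalDegree ≤ n) (a b : ℤ) (ha : 0 ≤ a) (hb : 0 ≤ b)
    (hab : Even (a + b + n)) (i : Fin 2) (x : V2) :
    fderiv ℝ (fco om n F a b) x (Pi.single i 1)
      = (Ph om (Fd n F i x)).coeff (mk2 a.toNat b.toNat) := by
  have h1 : fco om n F a b = fun x => ∑ q ∈ Finset.range (n + 1) ×ˢ Finset.range (n + 1),
      (((F x).coeff (mk2 q.1 q.2) : ℝ) : ℂ) *
        (Ph om (monomial (mk2 q.1 q.2) 1)).coeff (mk2 a.toNat b.toNat) := by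
    funext x
    unfold fco
    rw [if_pos ⟨ha, hb, hab⟩, ToID_coeff om n (F x) (hdeg x)]
  have h2 : HasFDerivAt (fco om n F a b)
      (∑ q ∈ Finset.range (n + 1) ×ˢ Finset.range (n + 1),
        ((Ph om (monomial (mk2 q.1 q.2) 1)).coeff (mk2 a.toNat b.toNat)) •
          (Complex.ofRealCLM.comp
            (fderiv ℝ (fun y => (F y).coeff (mk2 q.1 q.2)) x))) x := by
    rw [h1]
    refine HasFDerivAt.fun_sum fun q _ => ?_
    have h3 : HasFDerivAt (fun y => (F y).coeff (mk2 q.1 q.2))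
        (fderiv ℝ (fun y => (F y).coeff (mk2 q.1 q.2)) x) x :=
      (((hF (mk2 q.1 q.2)).differentiable (by simp)).differentiableAt).hasFDerivAt
    exact (Complex.ofRealCLM.hasFDerivAt.comp x h3).mul_const _
  rw [h2.fderiv]
  unfold Fd
  rw [map_sum, coeff_sum, sum_apply]
  refine Finset.sum_congr rfl fun q _ => ?_
  rw [ToID_mon om _ (fderiv ℝ (fun y => (F y).coeff (mk2 q.1 q.2)) x (Pi.single i 1))]
  simp only [smul_apply, ContinuousLinearMap.comp_apply, Complex.ofRealCLM_apply, smul_eq_mul]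
  ring


theorem ToID_fco (om : Fin 2 → ℂ) (n : ℕ) (F : V2 → RP) (a b : ℤ) (x : V2)
    (h : Even (a + b + n)) : fco om n F a b x = ToID_cz (Ph om (F x)) a b := by
  unfold fco ToID_cz
  by_cases h1 : 0 ≤ a ∧ 0 ≤ b
  · rw [if_pos h1, if_pos ⟨h1.1, h1.2, h⟩]
  · rw [if_neg h1, if_neg fun h2 => h1 ⟨h2.1, h2.2.1⟩]

theorem ToID_fco_zero (om : Fin 2 → ℂ) (n : ℕ) (F : V2 → RP) (a b : ℤ)
    (h : ¬ (0 ≤ a ∧ 0 ≤ b ∧ Even (a + b + n))) : fco om n F a b = fun _ => 0 := by
  funext x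
  unfold fco
  rw [if_neg h]

theorem ToID_dd (om : Fin 2 → ℂ) (n : ℕ) (F : V2 → RP)
    (hF : ∀ m, ContDiff ℝ (⊤ : ℕ∞) (fun x => (F x).coeff m))
    (hdeg : ∀ x, (F x).totalDegree ≤ n) (be : Fin 2 → ℂ) (a b : ℤ) (x : V2)
    (h : Even (a + b + n)) :
    dd be (fco om n F a b) x = be 0 * ToID_cz (Ph om (Fd n F 0 x)) a b
      + be 1 * ToID_cz (Ph om (Fd n F 1 x)) a b := by
  unfold dd
  rw [Fin.sum_univ_two]
  by_cases h1 : 0 ≤ a ∧ 0 ≤ b
  · rw [fco_deriv om n F hF hdeg a b h1.1 h1.2 h, fco_deriv om n F hF hdeg a b h1.1 h1.2 h]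
    unfold ToID_cz
    rw [if_pos h1, if_pos h1]
  · rw [ToID_fco_zero om n F a b fun h2 => h1 ⟨h2.1, h2.2.1⟩]
    unfold ToID_cz
    rw [if_neg h1, if_neg h1]
    simp

theorem ToID_dd_zero (om : Fin 2 → ℂ) (n : ℕ) (F : V2 → RP) (be : Fin 2 → ℂ) (a b : ℤ)
    (x : V2) (h : ¬ Even (a + b + n)) : dd be (fco om n F a b) x = 0 := by
  rw [ToID_fco_zero om n F a b fun h2 => h h2.2.2]
  simp [dd]

theorem ToID_cz_id (μ a a' m u : ℂ) (Q R : CP) (A B : ℤ) :
    ToID_cz (C μ * (C a * X 1 + C a' * X 0) * Q -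
      (C m * (X 0 * X 1) + C u) * (C a * pderiv 0 R + C a' * pderiv 1 R)) A B =
      μ * (a * ToID_cz Q A (B - 1) + a' * ToID_cz Q (A - 1) B)
      - (m * (a * ((A : ℂ) * ToID_cz R A (B - 1)) + a' * ((B : ℂ) * ToID_cz R (A - 1) B))
        + u * (a * (((A : ℂ) + 1) * ToID_cz R (A + 1) B)
          + a' * (((B : ℂ) + 1) * ToID_cz R A (B + 1)))) := by
  have h : C μ * (C a * X 1 + C a' * X 0) * Q -
      (C m * (X 0 * X 1) + C u) * (C a * pderiv 0 R + C a' * pderiv 1 R) =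
      (C μ * (C a * (X 1 * Q)) + C μ * (C a' * (X 0 * Q)))
      - ((C m * (C a * (X 0 * (X 1 * pderiv 0 R))) + C m * (C a' * (X 0 * (X 1 * pderiv 1 R))))
        + (C u * (C a * pderiv 0 R) + C u * (C a' * pderiv 1 R))) := by
    ring
  rw [h]
  simp only [ToID_cz_add, ToID_cz_sub, ToID_cz_C, ToID_cz_X0, ToID_cz_X1, ToID_cz_d0,
    ToID_cz_d1, sub_add_cancel]
  push_cast
  ring

theorem ToID_PhC (om : Fin 2 → ℂ) (r : ℝ) : Ph om (C r) = C (r : ℂ) := by
  unfold Ph
  rw [MvPolynomial.aeval_C]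
  rfl

/-- TASK ToID (3).  The coefficient equation.

Proof.  Apply `Ph om` to `real_id` and use `Ph_lin`, `Ph_quad`, `Ph_pderiv`: with `Ψ = Ph om (F x)`,
`Ψ_i = Ph om (Fd n F i x)`,
`∑_i [ mu (al_i X1 + conj(al_i) X0) Ψ_i - (∂_i mu X0 X1 + ∂_i U)(al_i ∂_0 Ψ + conj(al_i) ∂_1 Ψ) ] = 0`.
If `A + B + n` is even all the `fco` in the equation vanish (parity), and so do their derivatives.
If `A + B + n` is odd, take the coefficient at `(A,B)` when `A, B ≥ 0`
(`MvPolynomial.coeff_X_mul`-type lemmas, `coeff_pderiv`), using `fco_deriv`.  When `A < 0` or `B < 0`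
every term of the equation is `0`: for `B < 0`: `fco A (B-1)`, `fco (A-1) B`, `fco (A+1) B` are zero
functions and `(B+1) fco A (B+1)` is zero (if `B = -1` the factor is `0`), same for `A`. -/
theorem fco_eqn (G : Matrix (Fin 2) (Fin 2) ℝ) (hG : G.PosDef) (mu U : V2 → ℝ)
    (hmu : ContDiff ℝ (⊤ : ℕ∞) mu) (hU : ContDiff ℝ (⊤ : ℕ∞) U)
    (H : V2 → V2 → ℝ)
    (hH : ∀ x p, H x p = (1 / 2 : ℝ) * ∑ i, ∑ j, (mu x * G i j) * p i * p j + U x)
    (F : V2 → RP) (hF : ∀ m, ContDiff ℝ (⊤ : ℕ∞) (fun x => (F x).coeff m)) (n : ℕ)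
    (hdeg : ∀ x, (F x).totalDegree ≤ n)
    (hbr : ∀ x p : V2, ∑ i : Fin 2,
          (deriv (fun t => H x (Function.update p i t)) (p i) *
              deriv (fun t => MvPolynomial.eval p (F (Function.update x i t))) (x i) -
            deriv (fun t => H (Function.update x i t) p) (x i) *
              deriv (fun t => MvPolynomial.eval (Function.update p i t) (F x)) (p i)) = 0)
    (al om : Fin 2 → ℂ)
    (hal : ∀ i j, ((G i j : ℝ) : ℂ)
      = al i * (starRingEnd ℂ) (al j) + al j * (starRingEnd ℂ) (al i))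
    (h1 : ∑ i, al i * om i = 1) (h2 : ∑ i, (starRingEnd ℂ) (al i) * om i = 0)
    (h3 : ∀ i j, om i * al j + (starRingEnd ℂ) (om i * al j) = if i = j then 1 else 0)
    (A B : ℤ) (x : V2) :
    (mu x : ℂ) * (dd al (fco om n F A (B - 1)) x + dd (cj al) (fco om n F (A - 1) B) x)
      - ((A : ℂ) * ddr al mu x * fco om n F A (B - 1) x
          + (B : ℂ) * ddr (cj al) mu x * fco om n F (A - 1) B x)
      - (((A : ℂ) + 1) * ddr al U x * fco om n F (A + 1) B x
          + ((B : ℂ) + 1) * ddr (cj al) U x * fco om n F A (B + 1) x) = 0 := by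
  by_cases hpar : Even (A + B + n)
  · have hno : ∀ k : ℤ, Odd k → ¬ Even (A + B + n + k) := by
      intro k hk
      rw [Int.not_even_iff_odd]
      exact hpar.add_odd hk
    have e1 : ¬ Even (A + (B - 1) + n) := by
      have := hno (-1) (by decide)
      rwa [show A + (B - 1) + (n : ℤ) = A + B + n + -1 by ring]
    have e2 : ¬ Even (A - 1 + B + n) := by
      have := hno (-1) (by decide)
      rwa [show A - 1 + B + (n : ℤ) = A + B + n + -1 by ring]
    have e3 : ¬ Even (A + 1 + B + n) := by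
      have := hno 1 (by decide)
      rwa [show A + 1 + B + (n : ℤ) = A + B + n + 1 by ring]
    have e4 : ¬ Even (A + (B + 1) + n) := by
      have := hno 1 (by decide)
      rwa [show A + (B + 1) + (n : ℤ) = A + B + n + 1 by ring]
    rw [ToID_dd_zero om n F al _ _ x e1, ToID_dd_zero om n F (cj al) _ _ x e2,
      ToID_fco_zero om n F A (B - 1) fun h => e1 h.2.2,
      ToID_fco_zero om n F (A - 1) B fun h => e2 h.2.2,
      ToID_fco_zero om n F (A + 1) B fun h => e3 h.2.2,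
      ToID_fco_zero om n F A (B + 1) fun h => e4 h.2.2]
    ring
  · rw [Int.not_even_iff_odd] at hpar
    have e1 : Even (A + (B - 1) + n) := by
      have : Even (A + B + n + -1) := hpar.add_odd (by decide)
      rwa [show A + (B - 1) + (n : ℤ) = A + B + n + -1 by ring]
    have e2 : Even (A - 1 + B + n) := by
      have : Even (A + B + n + -1) := hpar.add_odd (by decide)
      rwa [show A - 1 + B + (n : ℤ) = A + B + n + -1 by ring]
    have e3 : Even (A + 1 + B + n) := by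
      have : Even (A + B + n + 1) := hpar.add_odd (by decide)
      rwa [show A + 1 + B + (n : ℤ) = A + B + n + 1 by ring]
    have e4 : Even (A + (B + 1) + n) := by
      have : Even (A + B + n + 1) := hpar.add_odd (by decide)
      rwa [show A + (B + 1) + (n : ℤ) = A + B + n + 1 by ring]
    rw [ToID_dd om n F hF hdeg al A (B - 1) x e1, ToID_dd om n F hF hdeg (cj al) (A - 1) B x e2,
      ToID_fco om n F A (B - 1) x e1, ToID_fco om n F (A - 1) B x e2,
      ToID_fco om n F (A + 1) B x e3, ToID_fco om n F A (B + 1) x e4,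
      ddr_eq al ((hmu.differentiable (by simp)).differentiableAt),
      ddr_eq (cj al) ((hmu.differentiable (by simp)).differentiableAt),
      ddr_eq al ((hU.differentiable (by simp)).differentiableAt),
      ddr_eq (cj al) ((hU.differentiable (by simp)).differentiableAt)]
    have hid := congrArg (Ph om) (real_id G hG mu U hmu hU H hH F hF n hdeg hbr x)
    have key : ∀ (c1 c2 c3 : ℝ) (L Q qd D : RP),
        Ph om (C c1 * L * Q - (C c2 * qd + C c3) * D) =
          C (c1 : ℂ) * Ph om L * Ph om Q - (C (c2 : ℂ) * Ph om qd + C (c3 : ℂ)) * Ph om D := by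
      intro c1 c2 c3 L Q qd D
      simp only [map_sub, map_mul, map_add, ToID_PhC]
    rw [map_sum, map_zero, Fin.sum_univ_two, key, key, Ph_quad G al om hal h1 h2,
      Ph_lin G al om hal h1 h2, Ph_lin G al om hal h1 h2, Ph_pderiv al om h3,
      Ph_pderiv al om h3] at hid
    have hcz := congrArg (fun P => ToID_cz P A B) hid
    simp only [ToID_cz_zero] at hcz
    rw [ToID_cz_add, ToID_cz_id, ToID_cz_id] at hcz
    simp only [cj]
    linear_combination hcz

/-- TASK ToID (4).  Assembly of the data `ID` from a polynomial integral of degree `n ≥ 1`. -/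
theorem toID (G : Matrix (Fin 2) (Fin 2) ℝ) (hG : G.PosDef) (mu U : V2 → ℝ)
    (hmu0 : ∀ x, 0 < mu x)
    (hmu : ContDiff ℝ (⊤ : ℕ∞) mu) (hU : ContDiff ℝ (⊤ : ℕ∞) U) (hmuper : Per mu) (hUper : Per U)
    (H : V2 → V2 → ℝ)
    (hH : ∀ x p, H x p = (1 / 2 : ℝ) * ∑ i, ∑ j, (mu x * G i j) * p i * p j + U x)
    (F : V2 → RP) (hF : ∀ m, ContDiff ℝ (⊤ : ℕ∞) (fun x => (F x).coeff m)) (hFper : Per F)
    (n : ℕ) (hn1 : 1 ≤ n) (hdeg : ∀ x, (F x).totalDegree ≤ n)
    (htop : ∃ x, (F x).totalDegree = n)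
    (hbr : ∀ x p : V2, ∑ i : Fin 2,
          (deriv (fun t => H x (Function.update p i t)) (p i) *
              deriv (fun t => MvPolynomial.eval p (F (Function.update x i t))) (x i) -
            deriv (fun t => H (Function.update x i t) p) (x i) *
              deriv (fun t => MvPolynomial.eval (Function.update p i t) (F x)) (p i)) = 0) :
    ∃ I : ID, I.n = n ∧ I.U = U ∧ I.mu = mu ∧ ∃ a b x, I.f a b x ≠ 0 := by
  obtain ⟨al, hal0, hal⟩ := exists_alpha G hG
  obtain ⟨om, h1, h2, h3⟩ := exists_dual al hal0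
  refine ⟨{
    al := al
    hal := hal0
    n := n
    mu := mu
    U := U
    f := fco om n F
    mupos := hmu0
    musm := hmu
    Usm := hU
    muper := hmuper
    Uper := hUper
    fsm := fco_smooth om n F hF hdeg
    fper := ?_
    f_neg := ?_
    f_neg' := ?_
    f_big := ?_
    conj := ?_
    par := ?_
    eqn := fco_eqn G hG mu U hmu hU H hH F hF n hdeg hbr al om hal h1 h2 h3 }, rfl, rfl, rfl, ?_⟩
  · intro a b x k
    unfold fco
    rw [hFper x k]
  · intro a b x ha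
    rw [ToID_fco_zero om n F a b fun h => by omega]
  · intro a b x hb
    rw [ToID_fco_zero om n F a b fun h => by omega]
  · intro a b x hab
    unfold fco
    split_ifs with h
    · exact Ph_degree om (F x) n (hdeg x) _ _ (by omega)
    · rfl
  · intro a b x
    unfold fco
    by_cases h : 0 ≤ a ∧ 0 ≤ b ∧ Even (a + b + n)
    · rw [if_pos h, if_pos ⟨h.2.1, h.1, by rw [add_comm b a]; exact h.2.2⟩]
      exact Ph_conj om (F x) _ _
    · rw [if_neg h, if_neg fun h' => h ⟨h'.2.1, h'.1, by rw [add_comm a b]; exact h'.2.2⟩,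
        map_zero]
  · intro a b x hab
    rw [ToID_fco_zero om n F a b fun h => by
      have h4 := h.2.2
      rw [← Int.not_odd_iff_even] at h4
      exact h4 (by exact_mod_cast hab)]
  · obtain ⟨x, hx⟩ := htop
    obtain ⟨a, b, hab, hne⟩ := Ph_top al om h3 (F x) n hn1 hx
    refine ⟨a, b, x, ?_⟩
    show fco om n F a b x ≠ 0
    have hev : Even ((a : ℤ) + b + n) := ⟨n, by omega⟩
    rw [ToID_fco om n F a b x hev, ToID_cz_nat]
    exact hne

end Pool.W4b1b5d.H3
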