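import Pool.Agent.W_4b1b5d_h3.MainI
import Pool.Agent.W_4b1b5d_h3.ToID

set_option autoImplicit false

namespace Pool.W4b1b5d.H3

open MvPolynomial

theorem Final_lin {E : Type*} [NormedAddCommGroup E] [NormedSpace ℝ E] (L : V2 →L[ℝ] E) (v : V2) :
    L v = v 0 • L (Pi.single 0 1) + v 1 • L (Pi.single 1 1) := by
  have h : v = v 0 • (Pi.single 0 1 : V2) + v 1 • (Pi.single 1 1 : V2) := by
    funext i
    fin_cases i <;> simp
  conv_lhs => rw [h]
  rw [map_add, map_smul, map_smul]

theorem Final_upd {g : V2 → ℝ} (x : V2) (hg : DifferentiableAt ℝ g x) (i : Fin 2) :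
    HasDerivAt (fun t => g (Function.update x i t)) (fderiv ℝ g x (Pi.single i 1)) (x i) := by
  have h1 : HasDerivAt (Function.update x i) (Pi.single i (1 : ℝ)) (x i) := hasDerivAt_update x i _
  have h2 : HasFDerivAt g (fderiv ℝ g x) (Function.update x i (x i)) := by
    rw [Function.update_eq_self]
    exact hg.hasFDerivAt
  exact h2.comp_hasDerivAt (x i) h1

/-- TASK Final (1).  A direction `e` along which `mu` and `U` are invariant gives the linear integral
`p(e) = ∑ e_i p_i`: `F x = ∑ C (e i) * X i` does not depend on `x`, so the first terms of the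
bracket vanish, `deriv` of `eval (update p i t) F` is `e i`, and
`∑_i deriv (fun t => H (update x i t) p) (x i) * e i` is the derivative of
`t ↦ H (x + t e) p` (constant) at `0`. -/
theorem lin_int (G : Matrix (Fin 2) (Fin 2) ℝ) (mu U : V2 → ℝ)
    (hmu : ContDiff ℝ (⊤ : ℕ∞) mu) (hU : ContDiff ℝ (⊤ : ℕ∞) U)
    (H : V2 → V2 → ℝ)
    (hH : ∀ x p, H x p = (1 / 2 : ℝ) * ∑ i, ∑ j, (mu x * G i j) * p i * p j + U x)
    (e : V2) (h1 : ∀ x, fderiv ℝ mu x e = 0) (h2 : ∀ x, fderiv ℝ U x e = 0) (x p : V2) :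
    ∑ i : Fin 2,
      (deriv (fun t => H x (Function.update p i t)) (p i) *
          deriv (fun t => MvPolynomial.eval p
            ((fun _ : V2 => (∑ j, C (e j) * X j : RP)) (Function.update x i t))) (x i) -
        deriv (fun t => H (Function.update x i t) p) (x i) *
          deriv (fun t => MvPolynomial.eval (Function.update p i t)
            ((fun _ : V2 => (∑ j, C (e j) * X j : RP)) x)) (p i)) = 0 := by
  have hmud : DifferentiableAt ℝ mu x := (hmu.differentiable (by simp)) x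
  have hUd : DifferentiableAt ℝ U x := (hU.differentiable (by simp)) x
  have e1 : ∀ i : Fin 2, deriv (fun t => MvPolynomial.eval p
      ((fun _ : V2 => (∑ j, C (e j) * X j : RP)) (Function.update x i t))) (x i) = 0 :=
    fun i => deriv_const _ _
  have e2 : ∀ i : Fin 2, deriv (fun t => MvPolynomial.eval (Function.update p i t)
      ((fun _ : V2 => (∑ j, C (e j) * X j : RP)) x)) (p i) = e i := by
    intro i
    have h3 : (fun t => MvPolynomial.eval (Function.update p i t)
        ((fun _ : V2 => (∑ j, C (e j) * X j : RP)) x)) =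
        fun t => e 0 * Function.update p i t 0 + e 1 * Function.update p i t 1 := by
      funext t
      simp
    rw [h3]
    fin_cases i
    · have h4 : (fun t => e 0 * Function.update p (0 : Fin 2) t 0 +
          e 1 * Function.update p (0 : Fin 2) t 1) = fun t => e 0 * t + e 1 * p 1 := by
        funext t
        simp
      show deriv (fun t => e 0 * Function.update p (0 : Fin 2) t 0 +
          e 1 * Function.update p (0 : Fin 2) t 1) (p 0) = e 0
      rw [h4]
      have h5 : HasDerivAt (fun t : ℝ => e 0 * t + e 1 * p 1) (e 0 * 1) (p 0) :=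
        ((hasDerivAt_id (p 0)).const_mul (e 0)).add_const _
      rw [h5.deriv, mul_one]
    · have h4 : (fun t => e 0 * Function.update p (1 : Fin 2) t 0 +
          e 1 * Function.update p (1 : Fin 2) t 1) = fun t => e 0 * p 0 + e 1 * t := by
        funext t
        simp
      show deriv (fun t => e 0 * Function.update p (1 : Fin 2) t 0 +
          e 1 * Function.update p (1 : Fin 2) t 1) (p 1) = e 1
      rw [h4]
      have h5 : HasDerivAt (fun t : ℝ => e 0 * p 0 + e 1 * t) (e 1 * 1) (p 1) :=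
        ((hasDerivAt_id (p 1)).const_mul (e 1)).const_add _
      rw [h5.deriv, mul_one]
  obtain ⟨Q, hQ⟩ : ∃ Q : ℝ, Q = (1 / 2 : ℝ) * ∑ i, ∑ j, G i j * p i * p j := ⟨_, rfl⟩
  have hH' : ∀ y, H y p = Q * mu y + U y := by
    intro y
    rw [hH, hQ]
    congr 1
    simp only [Fin.sum_univ_two]
    ring
  have e3 : ∀ i : Fin 2, deriv (fun t => H (Function.update x i t) p) (x i) =
      Q * fderiv ℝ mu x (Pi.single i 1) + fderiv ℝ U x (Pi.single i 1) := by
    intro i
    have h4 : (fun t => H (Function.update x i t) p) =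
        fun t => Q * mu (Function.update x i t) + U (Function.update x i t) := funext fun t => hH' _
    rw [h4]
    exact (((Final_upd x hmud i).const_mul Q).add (Final_upd x hUd i)).deriv
  have h5 := h1 x
  have h6 := h2 x
  rw [Final_lin] at h5 h6
  simp only [smul_eq_mul] at h5 h6
  rw [Fin.sum_univ_two, e1 0, e1 1, e2 0, e2 1, e3 0, e3 1]
  linear_combination (-Q) * h5 - h6

/-- TASK Final (2).  If `U` is not constant on any nonempty open set, a continuous function which
vanishes where `dU ≠ 0` vanishes identically. -/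
theorem dense_zero (U : V2 → ℝ) (hU : ContDiff ℝ (⊤ : ℕ∞) U)
    (hd : ∀ O : Set V2, IsOpen O → O.Nonempty → ∃ x ∈ O, ∃ y ∈ O, U x ≠ U y)
    (g : V2 → ℝ) (hg : Continuous g) (h : ∀ x, fderiv ℝ U x ≠ 0 → g x = 0) : ∀ x, g x = 0 := by
  intro x
  by_contra hx
  have hO : IsOpen {y : V2 | g y ≠ 0} := isOpen_ne_fun hg continuous_const
  obtain ⟨r, hr, hball⟩ := Metric.isOpen_iff.1 hO x hx
  obtain ⟨y, hy, z, hz, hyz⟩ := hd (Metric.ball x r) Metric.isOpen_ball ⟨x, Metric.mem_ball_self hr⟩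
  apply hyz
  refine Metric.isOpen_ball.is_const_of_fderiv_eq_zero (𝕜 := ℝ)
    (convex_ball x r).isPreconnected (hU.differentiable (by simp)).differentiableOn ?_ hy hz
  intro w hw
  by_contra hcon
  exact hball hw (h w hcon)

/-- The final theorem. -/
theorem final :
  ∀ (G : Matrix (Fin 2) (Fin 2) ℝ) (mu U : (Fin 2 → ℝ) → ℝ)
    (H : (Fin 2 → ℝ) → (Fin 2 → ℝ) → ℝ)
    (IsInt : ((Fin 2 → ℝ) → MvPolynomial (Fin 2) ℝ) → Prop),
    G.PosDef →
    (∀ x, 0 < mu x) →
    ContDiff ℝ (⊤ : ℕ∞) mu →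
    (∀ (x : Fin 2 → ℝ) (k : Fin 2 → ℤ), mu (x + fun i => (k i : ℝ)) = mu x) →
    ContDiff ℝ (⊤ : ℕ∞) U →
    (∀ (x : Fin 2 → ℝ) (k : Fin 2 → ℤ), U (x + fun i => (k i : ℝ)) = U x) →
    (∀ x p, H x p = (1 / 2 : ℝ) * ∑ i, ∑ j, (mu x * G i j) * p i * p j + U x) →
    (∀ F : (Fin 2 → ℝ) → MvPolynomial (Fin 2) ℝ, IsInt F ↔
      ((∀ m, ContDiff ℝ (⊤ : ℕ∞) (fun x => (F x).coeff m)) ∧
       (∀ (x : Fin 2 → ℝ) (k : Fin 2 → ℤ), F (x + fun i => (k i : ℝ)) = F x) ∧
       (∃ N : ℕ, ∀ x, (F x).totalDegree ≤ N) ∧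
       (∀ x p : Fin 2 → ℝ, ∑ i : Fin 2,
          (deriv (fun t => H x (Function.update p i t)) (p i) *
              deriv (fun t => MvPolynomial.eval p (F (Function.update x i t))) (x i) -
            deriv (fun t => H (Function.update x i t) p) (x i) *
              deriv (fun t => MvPolynomial.eval (Function.update p i t) (F x)) (p i)) = 0))) →
    (∃ (F : (Fin 2 → ℝ) → MvPolynomial (Fin 2) ℝ) (n : ℕ), IsInt F ∧ Odd n ∧
          (∀ x, (F x).totalDegree ≤ n) ∧ (∃ x, (F x).totalDegree = n)) →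
    ∃ e : Fin 2 → ℝ, e ≠ 0 ∧ (∀ x (t : ℝ), U (x + t • e) = U x) ∧
      (∀ x, fderiv ℝ U x ≠ 0 → ∀ t : ℝ, mu (x + t • e) = mu x) ∧
      ((∀ O : Set (Fin 2 → ℝ), IsOpen O → O.Nonempty → ∃ x ∈ O, ∃ y ∈ O, U x ≠ U y) →
        (∀ x (t : ℝ), mu (x + t • e) = mu x) ∧
        IsInt (fun _ => ∑ i, MvPolynomial.C (e i) * MvPolynomial.X i)) := by
  intro G mu U H IsInt hG hmu0 hmu hmuper hU hUper hH hInt
  rintro ⟨F, n, hF, hn, hdeg, htop⟩
  obtain ⟨hFsm, hFper, -, hbr⟩ := (hInt F).1 hF
  have hn1 : 1 ≤ n := hn.pos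
  obtain ⟨I, hIn, hIU, hImu, hIF⟩ := toID G hG mu U hmu0 hmu hU hmuper hUper H hH F hFsm hFper n
    hn1 hdeg htop hbr
  obtain ⟨e, he0, heU, hemu⟩ := mainI I (hIn ▸ hn) hIF
  rw [hIU] at heU hemu
  rw [hImu] at hemu
  have hUd : Differentiable ℝ U := hU.differentiable (by simp)
  have hmud : Differentiable ℝ mu := hmu.differentiable (by simp)
  have hUc : ∀ x (t : ℝ), U (x + t • e) = U x := fun x t =>
    const_on_line U hUd x e (fun s => heU _) t
  refine ⟨e, he0, hUc, ?_, ?_⟩
  · intro x hx t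
    refine const_on_line mu hmud x e (fun s => hemu _ ?_) t
    have h1 : (fun y => U (y + s • e)) = U := funext fun y => hUc y s
    have h2 : fderiv ℝ (fun y => U (y + s • e)) x = fderiv ℝ U (x + s • e) :=
      fderiv_comp_add_right _
    rw [h1] at h2
    rw [← h2]
    exact hx
  · intro hd
    have hcont : Continuous fun x => fderiv ℝ mu x e :=
      (hmu.continuous_fderiv (by simp)).clm_apply continuous_const
    have h3 : ∀ x, fderiv ℝ mu x e = 0 := dense_zero U hU hd _ hcont hemu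
    refine ⟨fun x t => const_on_line mu hmud x e (fun s => h3 _) t, ?_⟩
    rw [hInt]
    refine ⟨fun m => contDiff_const, fun x k => rfl, ⟨_, fun x => le_rfl⟩, fun x p => ?_⟩
    exact lin_int G mu U hmu hU H hH e h3 heU x p

end Pool.W4b1b5d.H3
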