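import Mathlib

set_option autoImplicit false

namespace Pool.W4b1b5d.H3

theorem AlgJ_sum_lin (n : ℕ) : ∑ B ∈ Finset.range (n + 1), (2 * (B : ℂ) - n) = 0 := by
  have h : ∀ k : ℕ, ∑ B ∈ Finset.range (k + 1), (B : ℂ) = (k : ℂ) * (k + 1) / 2 := by
    intro k
    induction k with
    | zero => simp
    | succ k ih => rw [Finset.sum_range_succ, ih]; push_cast; ring
  rw [Finset.sum_sub_distrib, ← Finset.mul_sum, h n, Finset.sum_const, Finset.card_range,
    nsmul_eq_mul]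
  push_cast
  ring

theorem AlgJ_sum_quad (n : ℕ) :
    ∑ B ∈ Finset.range (n + 1), (B : ℂ) * ((n : ℂ) - B) = (n : ℂ) * (n + 1) * (n - 1) / 6 := by
  have h : ∀ (k : ℕ) (x : ℂ), ∑ B ∈ Finset.range (k + 1), (B : ℂ) * (x - B) =
      x * ((k : ℂ) * (k + 1) / 2) - (k : ℂ) * (k + 1) * (2 * k + 1) / 6 := by
    intro k x
    induction k with
    | zero => simp
    | succ k ih => rw [Finset.sum_range_succ, ih]; push_cast; ring
  rw [h n n]
  ring

theorem AlgJ_step (J B : ℕ) (hB : B ≤ J + 1) (u : ℕ → ℂ) (w G m : ℂ)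
    (h : w * (((J : ℂ) + 2 - B) * u B - ((B : ℂ) + 1) * u (B + 1))
        = G * ((if B = 0 then 0 else (J.choose (B - 1) : ℂ)) - (J.choose B : ℂ))
          - m * (B : ℂ) * (J.choose B : ℂ)) :
    w * ((J : ℂ) + 2) * (u B / ((J + 2).choose B : ℂ) - u (B + 1) / ((J + 2).choose (B + 1) : ℂ)) =
      (G * (2 * (B : ℂ) - (J + 1 : ℕ)) - m * ((B : ℂ) * (((J + 1 : ℕ) : ℂ) - B))) /
        ((J : ℂ) + 1) := by
  have hc : ((J + 1).choose B : ℂ) ≠ 0 := by
    have := Nat.choose_pos hB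
    exact_mod_cast this.ne'
  have hc1 : ((J + 2).choose B : ℂ) ≠ 0 := by
    have := Nat.choose_pos (show B ≤ J + 2 by omega)
    exact_mod_cast this.ne'
  have hc2 : ((J + 2).choose (B + 1) : ℂ) ≠ 0 := by
    have := Nat.choose_pos (show B + 1 ≤ J + 2 by omega)
    exact_mod_cast this.ne'
  have hJ1 : (J : ℂ) + 1 ≠ 0 := by exact_mod_cast Nat.succ_ne_zero J
  have hJ2 : (J : ℂ) + 2 ≠ 0 := by
    have : ((J + 2 : ℕ) : ℂ) ≠ 0 := by exact_mod_cast (Nat.succ_ne_zero (J + 1))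
    exact_mod_cast this
  have e1 : ((J : ℂ) + 2 - B) * ((J + 2).choose B : ℂ) =
      ((J : ℂ) + 2) * ((J + 1).choose B : ℂ) := by
    have h1 := Nat.choose_mul_succ_eq (J + 1) B
    have h2 : (((J + 1).choose B * (J + 1 + 1) : ℕ) : ℂ) =
        (((J + 1 + 1).choose B * (J + 1 + 1 - B) : ℕ) : ℂ) := by rw [h1]
    rw [Nat.cast_mul, Nat.cast_mul, Nat.cast_sub (show B ≤ J + 1 + 1 by omega)] at h2
    push_cast at h2
    linear_combination -h2
  have e2 : ((B : ℂ) + 1) * ((J + 2).choose (B + 1) : ℂ) =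
      ((J : ℂ) + 2) * ((J + 1).choose B : ℂ) := by
    have h1 := Nat.add_one_mul_choose_eq (J + 1) B
    have h2 : (((J + 1 + 1) * (J + 1).choose B : ℕ) : ℂ) =
        (((J + 1 + 1).choose (B + 1) * (B + 1) : ℕ) : ℂ) := by rw [h1]
    push_cast at h2
    linear_combination -h2
  have e3 : (if B = 0 then 0 else (J.choose (B - 1) : ℂ)) * ((J : ℂ) + 1) =
      (B : ℂ) * ((J + 1).choose B : ℂ) := by
    rcases B with _ | B
    · simp
    · rw [if_neg (Nat.succ_ne_zero B), Nat.add_sub_cancel]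
      have h1 := Nat.add_one_mul_choose_eq J B
      have h2 : (((J + 1) * J.choose B : ℕ) : ℂ) =
        (((J + 1).choose (B + 1) * (B + 1) : ℕ) : ℂ) := by rw [h1]
      push_cast at h2 ⊢
      linear_combination h2
  have e4 : (J.choose B : ℂ) * ((J : ℂ) + 1) =
      (((J + 1 : ℕ) : ℂ) - B) * ((J + 1).choose B : ℂ) := by
    have h1 := Nat.choose_mul_succ_eq J B
    have h2 : ((J.choose B * (J + 1) : ℕ) : ℂ) =
        (((J + 1).choose B * (J + 1 - B) : ℕ) : ℂ) := by rw [h1]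
    rw [Nat.cast_mul, Nat.cast_mul, Nat.cast_sub hB] at h2
    push_cast at h2 ⊢
    linear_combination h2
  have i1 : u B / ((J + 2).choose B : ℂ) =
      ((J : ℂ) + 2 - B) * u B / (((J : ℂ) + 2) * ((J + 1).choose B : ℂ)) := by
    rw [div_eq_div_iff hc1 (mul_ne_zero hJ2 hc)]
    linear_combination (-u B) * e1
  have i2 : u (B + 1) / ((J + 2).choose (B + 1) : ℂ) =
      ((B : ℂ) + 1) * u (B + 1) / (((J : ℂ) + 2) * ((J + 1).choose B : ℂ)) := by
    rw [div_eq_div_iff hc2 (mul_ne_zero hJ2 hc)]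
    linear_combination (-u (B + 1)) * e2
  have i3 : w * ((J : ℂ) + 2) * (u B / ((J + 2).choose B : ℂ) -
      u (B + 1) / ((J + 2).choose (B + 1) : ℂ)) =
      (w * (((J : ℂ) + 2 - B) * u B - ((B : ℂ) + 1) * u (B + 1))) / ((J + 1).choose B : ℂ) := by
    rw [i1, i2]
    field_simp
  rw [i3, h, div_eq_div_iff hc hJ1]
  linear_combination G * e3 - G * e4 - m * (B : ℂ) * e4

/-- TASK AlgJ.  Summation identity.

Proof.  Put `v B = u B / (J+2 choose B)` for `B ≤ J + 2`.  Because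
`(J+2-B) (J+2 choose B) = (B+1) (J+2 choose (B+1)) = (J+2) (J+1 choose B)`, the hypothesis divided by
`(J+1 choose B)` reads `w (J+2) (v B - v (B+1)) = [G (2B - J - 1) - m B (J+1-B)] / (J+1)`:
use `(J choose (B-1)) (J+1) = B (J+1 choose B)` (for `B ≥ 1`; both sides `0` in the convention for
`B = 0`) and `(J choose B) (J+1) = (J+1-B) (J+1 choose B)`.  Sum over `B = 0, ..., J+1`:
`∑ (2B - J - 1) = 0`, `∑ B (J+1-B) = J (J+1) (J+2) / 6`, so
`w (J+2) (v 0 - v (J+2)) = - m J (J+2) / 6`, and `v 0 = u 0`, `v (J+2) = u (J+2)`. -/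
theorem algJ (J : ℕ) (hJ : 1 ≤ J) (u : ℕ → ℂ) (w G m : ℂ)
    (h : ∀ B : ℕ, B ≤ J + 1 →
      w * (((J : ℂ) + 2 - B) * u B - ((B : ℂ) + 1) * u (B + 1))
        = G * ((if B = 0 then 0 else (J.choose (B - 1) : ℂ)) - (J.choose B : ℂ))
          - m * (B : ℂ) * (J.choose B : ℂ)) :
    w * (u 0 - u (J + 2)) = -(m * J / 6) := by
  have hJ1 : (J : ℂ) + 1 ≠ 0 := by exact_mod_cast Nat.succ_ne_zero J
  have hJ2 : (J : ℂ) + 2 ≠ 0 := by
    have : ((J + 2 : ℕ) : ℂ) ≠ 0 := by exact_mod_cast (Nat.succ_ne_zero (J + 1))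
    exact_mod_cast this
  have h1 : ∑ B ∈ Finset.range (J + 1 + 1), (w * ((J : ℂ) + 2) * (u B / ((J + 2).choose B : ℂ) -
      u (B + 1) / ((J + 2).choose (B + 1) : ℂ))) =
      ∑ B ∈ Finset.range (J + 1 + 1),
        (G * (2 * (B : ℂ) - (J + 1 : ℕ)) - m * ((B : ℂ) * (((J + 1 : ℕ) : ℂ) - B))) /
        ((J : ℂ) + 1) := by
    refine Finset.sum_congr rfl fun B hB => ?_
    have hB' : B ≤ J + 1 := by
      have := Finset.mem_range.1 hB
      omega
    exact AlgJ_step J B hB' u w G m (h B hB')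
  rw [← Finset.mul_sum, Finset.sum_range_sub' (fun B => u B / ((J + 2).choose B : ℂ)),
    ← Finset.sum_div, Finset.sum_sub_distrib, ← Finset.mul_sum, ← Finset.mul_sum,
    AlgJ_sum_lin, AlgJ_sum_quad] at h1
  have h2 : (J + 1 + 1) = J + 2 := rfl
  rw [h2] at h1
  rw [Nat.choose_zero_right, Nat.choose_self, Nat.cast_one, div_one, div_one, mul_zero,
    zero_sub, eq_div_iff hJ1] at h1
  have h3 : ((J : ℂ) + 1) * ((J : ℂ) + 2) * (w * (u 0 - u (J + 2))) =
      ((J : ℂ) + 1) * ((J : ℂ) + 2) * (-(m * J / 6)) := by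
    push_cast at h1
    linear_combination h1
  exact mul_left_cancel₀ (mul_ne_zero hJ1 hJ2) h3

end Pool.W4b1b5d.H3
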