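import Pool.Agent.W_4b1b5d_h3.Pt

set_option autoImplicit false

namespace Pool.W4b1b5d.H3

/-- TASK AlgXY (1).  The transport equation solved for `db R`. -/
theorem R2_zero (D : LD) (x : V2) (p : ℂ) (hp : p ≠ 0) :
    D.R2 0 x p = (-(D.l x : ℂ) / p ^ 2) * D.R1 0 x p
      - dd D.al (fun y => (D.l y : ℂ)) x * D.R 1 x p / p := by
  have h := D.trans x p hp
  have h1 : Lk D.d (fun j => dd D.al (D.c j) x) 0 p = D.R1 0 x p := rfl
  have h2 : Lk D.d (fun j => dd (cj D.al) (D.c j) x) 0 p = D.R2 0 x p := rfl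
  have h3 : Lk D.d (fun j => D.c j x) 1 p = D.R 1 x p := rfl
  rw [h1, h2, h3] at h
  field_simp
  field_simp at h
  linear_combination h

/-- Its `p`-derivative: both sides of `R2_zero` are holomorphic functions of `p ≠ 0`
(`Lk_hasDerivAt`); differentiate. -/
theorem R2_one (D : LD) (x : V2) (p : ℂ) (hp : p ≠ 0) :
    D.R2 1 x p = (-(D.l x : ℂ) / p ^ 2) * D.R1 1 x p + (2 * (D.l x : ℂ) / p ^ 3) * D.R1 0 x p
      - dd D.al (fun y => (D.l y : ℂ)) x * D.R 2 x p / p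
      + dd D.al (fun y => (D.l y : ℂ)) x * D.R 1 x p / p ^ 2 := by
  have hf : HasDerivAt (fun q => D.R2 0 x q) (D.R2 1 x p) p :=
    Lk_hasDerivAt D.d (fun j => dd (cj D.al) (D.c j) x) 0 hp
  have hR1 : HasDerivAt (fun q => D.R1 0 x q) (D.R1 1 x p) p :=
    Lk_hasDerivAt D.d (fun j => dd D.al (D.c j) x) 0 hp
  have hR : HasDerivAt (fun q => D.R 1 x q) (D.R 2 x p) p :=
    Lk_hasDerivAt D.d (fun j => D.c j x) 1 hp
  have hpow : HasDerivAt (fun q : ℂ => q ^ 2) (2 * p) p := by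
    simpa using hasDerivAt_pow 2 p
  have hinv : HasDerivAt (fun q : ℂ => -(D.l x : ℂ) / q ^ 2) (2 * (D.l x : ℂ) / p ^ 3) p := by
    have h := (hasDerivAt_const p (-(D.l x : ℂ))).div hpow (pow_ne_zero 2 hp)
    refine h.congr_deriv ?_
    field_simp
    ring
  have h1 := hinv.mul hR1
  have h2 := ((hR.const_mul (dd D.al (fun y => (D.l y : ℂ)) x)).div (hasDerivAt_id p) hp)
  have hg := h1.sub h2
  have heq : (fun q => D.R2 0 x q) =ᶠ[nhds p] fun q =>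
      (-(D.l x : ℂ) / q ^ 2) * D.R1 0 x q
        - dd D.al (fun y => (D.l y : ℂ)) x * D.R 1 x q / q := by
    filter_upwards [isOpen_ne.mem_nhds hp] with q hq
    exact R2_zero D x q hq
  have hf2 := hf.congr_of_eventuallyEq heq.symm
  have := hf2.unique hg
  rw [this]
  simp only [id]
  field_simp
  ring

/-- The factor `E` in `Y = μ_B X + R_p E`. -/
noncomputable def EE (D : LD) (z : V2 × ℂ) : ℂ :=
  -(2 * (D.l z.1 : ℂ) / z.2 ^ 3) * D.R1 0 z.1 z.2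
    - dd D.al (fun y => (D.l y : ℂ)) z.1 * D.R 1 z.1 z.2 / z.2 ^ 2

/-- TASK AlgXY (2).  `Y = -(l/p²) X + R_p E`. -/
theorem Y_eq (D : LD) (z : V2 × ℂ) (hz : z.2 ≠ 0) :
    YY D z = (-(D.l z.1 : ℂ) / z.2 ^ 2) * XX D z + D.R 1 z.1 z.2 * EE D z := by
  unfold YY XX EE
  rw [R2_zero D z.1 z.2 hz, R2_one D z.1 z.2 hz]
  ring

end Pool.W4b1b5d.H3
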