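import Pool.Agent.W_4b1b5d_h3.Defs

set_option autoImplicit false

namespace Pool.W4b1b5d.H3

/-- TASK Alpha (1).  A positive definite quadratic form is `|al·p|²`.

Proof.  `G` is symmetric with `G 0 0 > 0` and `det G > 0`.  Take `al 0 = √(G00/2)`,
`al 1 = √(G00/2) * G01/G00 - i √(det G / (2 G00))`. -/
theorem exists_alpha (G : Matrix (Fin 2) (Fin 2) ℝ) (hG : G.PosDef) :
    ∃ al : Fin 2 → ℂ, ((starRingEnd ℂ) (al 0) * al 1).im ≠ 0 ∧
      (∀ i j, ((G i j : ℝ) : ℂ) = al i * (starRingEnd ℂ) (al j) + al j * (starRingEnd ℂ) (al i)) := by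
  have h00 : 0 < G 0 0 := hG.diag_pos
  have hdet : 0 < G 0 0 * G 1 1 - G 0 1 * G 1 0 := by
    have := hG.det_pos
    rwa [Matrix.det_fin_two] at this
  have hsym : G 1 0 = G 0 1 := by
    have := hG.isHermitian.apply 0 1
    simpa using this
  rw [hsym] at hdet
  obtain ⟨a, ha, ha2⟩ : ∃ a : ℝ, 0 < a ∧ a ^ 2 = G 0 0 / 2 :=
    ⟨Real.sqrt (G 0 0 / 2), Real.sqrt_pos.2 (by positivity), Real.sq_sqrt (by positivity)⟩
  obtain ⟨c, hc, hc2⟩ : ∃ c : ℝ, 0 < c ∧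
      c ^ 2 = (G 0 0 * G 1 1 - G 0 1 * G 0 1) / (2 * G 0 0) :=
    ⟨Real.sqrt ((G 0 0 * G 1 1 - G 0 1 * G 0 1) / (2 * G 0 0)), Real.sqrt_pos.2 (by positivity),
      Real.sq_sqrt (by positivity)⟩
  obtain ⟨b, hb⟩ : ∃ b : ℝ, 2 * a * b = G 0 1 :=
    ⟨G 0 1 / (2 * a), by field_simp⟩
  have hG00 : G 0 0 = 2 * a ^ 2 := by rw [ha2]; ring
  have hG11 : G 1 1 = 2 * (b ^ 2 + c ^ 2) := by
    rw [eq_div_iff (by positivity), ← hb, hG00] at hc2
    have h1 : a ^ 2 * (G 1 1) = a ^ 2 * (2 * (b ^ 2 + c ^ 2)) := by linear_combination -hc2 / 2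
    exact mul_left_cancel₀ (by positivity) h1
  refine ⟨![(a : ℂ), ⟨b, -c⟩], ?_, ?_⟩
  · simp [ha.ne', hc.ne']
  · have e00 : ((G 0 0 : ℝ) : ℂ) = (a : ℂ) * (starRingEnd ℂ) (a : ℂ)
        + (a : ℂ) * (starRingEnd ℂ) (a : ℂ) := by
      rw [hG00, Complex.conj_ofReal]
      push_cast
      ring
    have e01 : ((G 0 1 : ℝ) : ℂ) = (a : ℂ) * (starRingEnd ℂ) (⟨b, -c⟩ : ℂ)
        + (⟨b, -c⟩ : ℂ) * (starRingEnd ℂ) (a : ℂ) := by
      rw [← hb]
      apply Complex.ext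
      · simp
        ring
      · simp
        ring
    have e11 : ((G 1 1 : ℝ) : ℂ) = (⟨b, -c⟩ : ℂ) * (starRingEnd ℂ) (⟨b, -c⟩ : ℂ)
        + (⟨b, -c⟩ : ℂ) * (starRingEnd ℂ) (⟨b, -c⟩ : ℂ) := by
      rw [hG11]
      apply Complex.ext
      · rw [Complex.ofReal_re]
        simp only [Complex.add_re, Complex.mul_re, Complex.conj_re, Complex.conj_im]
        ring
      · rw [Complex.ofReal_im]
        simp only [Complex.add_im, Complex.mul_im, Complex.conj_re, Complex.conj_im]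
        ring
    intro i j
    fin_cases i <;> fin_cases j
    · exact e00
    · exact e01
    · change ((G 1 0 : ℝ) : ℂ) = (⟨b, -c⟩ : ℂ) * (starRingEnd ℂ) (a : ℂ)
        + (a : ℂ) * (starRingEnd ℂ) (⟨b, -c⟩ : ℂ)
      rw [hsym, e01]
      ring
    · exact e11

/-- TASK Alpha (2).  The dual vector: `∑ al i * om i = 1`, `∑ conj (al i) * om i = 0`; equivalently
`om i * al j + conj (om i * al j) = δ_ij`.  (Explicitly, with `δ = al 0 conj(al 1) - al 1 conj(al 0)`,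
`om 0 = conj(al 1)/δ`, `om 1 = -conj(al 0)/δ`.) -/
theorem exists_dual (al : Fin 2 → ℂ) (hal : ((starRingEnd ℂ) (al 0) * al 1).im ≠ 0) :
    ∃ om : Fin 2 → ℂ, (∑ i, al i * om i = 1) ∧ (∑ i, (starRingEnd ℂ) (al i) * om i = 0) ∧
      (∀ i j, om i * al j + (starRingEnd ℂ) (om i * al j) = if i = j then 1 else 0) := by
  have hδ : al 0 * (starRingEnd ℂ) (al 1) - al 1 * (starRingEnd ℂ) (al 0) ≠ 0 := by
    intro h0
    apply hal
    have h1 := congrArg Complex.im h0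
    simp only [Complex.sub_im, Complex.mul_im, Complex.conj_im, Complex.conj_re,
      Complex.zero_im] at h1 ⊢
    linarith
  have hcδ : (starRingEnd ℂ) (al 0 * (starRingEnd ℂ) (al 1) - al 1 * (starRingEnd ℂ) (al 0)) =
      -(al 0 * (starRingEnd ℂ) (al 1) - al 1 * (starRingEnd ℂ) (al 0)) := by
    simp only [map_sub, map_mul, Complex.conj_conj]
    ring
  set δ : ℂ := al 0 * (starRingEnd ℂ) (al 1) - al 1 * (starRingEnd ℂ) (al 0) with hδd
  have h0 : ((![(starRingEnd ℂ) (al 1) / δ, -(starRingEnd ℂ) (al 0) / δ] : Fin 2 → ℂ)) 0 =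
    (starRingEnd ℂ) (al 1) / δ := rfl
  have h1 : ((![(starRingEnd ℂ) (al 1) / δ, -(starRingEnd ℂ) (al 0) / δ] : Fin 2 → ℂ)) 1 =
    -(starRingEnd ℂ) (al 0) / δ := rfl
  refine ⟨![(starRingEnd ℂ) (al 1) / δ, -(starRingEnd ℂ) (al 0) / δ], ?_, ?_, ?_⟩
  · rw [Fin.sum_univ_two, h0, h1]
    field_simp
    rw [hδd]
    ring
  · rw [Fin.sum_univ_two, h0, h1]
    field_simp
    ring
  · intro i j
    fin_cases i <;> fin_cases j
    · change (starRingEnd ℂ) (al 1) / δ * al 0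
        + (starRingEnd ℂ) ((starRingEnd ℂ) (al 1) / δ * al 0) = 1
      rw [map_mul, map_div₀, hcδ, Complex.conj_conj]
      field_simp
      rw [hδd]
      ring
    · change (starRingEnd ℂ) (al 1) / δ * al 1
        + (starRingEnd ℂ) ((starRingEnd ℂ) (al 1) / δ * al 1) = 0
      rw [map_mul, map_div₀, hcδ, Complex.conj_conj]
      field_simp
      ring
    · change -(starRingEnd ℂ) (al 0) / δ * al 0
        + (starRingEnd ℂ) (-(starRingEnd ℂ) (al 0) / δ * al 0) = 0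
      rw [map_mul, map_div₀, hcδ, map_neg, Complex.conj_conj]
      field_simp
      ring
    · change -(starRingEnd ℂ) (al 0) / δ * al 1
        + (starRingEnd ℂ) (-(starRingEnd ℂ) (al 0) / δ * al 1) = 1
      rw [map_mul, map_div₀, hcδ, map_neg, Complex.conj_conj]
      field_simp
      rw [hδd]
      ring

end Pool.W4b1b5d.H3
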