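import Pool.Agent.W_4b1b5d_h3.Symm
import Pool.Agent.W_4b1b5d_h3.LkDer

set_option autoImplicit false

namespace Pool.W4b1b5d.H3

namespace LD

theorem Bdry_dist (D : LD) {z : V2 × ℂ} (hz : z ∈ D.Out) :
    ‖D.R 0 z.1 z.2 - D.c D.d z.1‖ ≤
      ∑ j ∈ Finset.Icc 1 D.d, 2 * (‖D.c (D.d + j) z.1‖ * ‖z.2‖ ^ j) := by
  have hz' : |D.l z.1| < ‖z.2‖ ^ 2 := hz
  have hp : 0 < ‖z.2‖ := by
    rcases (norm_nonneg z.2).lt_or_eq with h | h
    · exact h
    · rw [← h] at hz'
      have := abs_nonneg (D.l z.1)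
      norm_num at hz'
      linarith
  rw [R_sum, add_sub_cancel_left]
  refine (norm_sum_le _ _).trans (Finset.sum_le_sum fun j _ => ?_)
  refine (norm_add_le _ _).trans ?_
  have h1 : ‖D.c (D.d + j) z.1 * z.2 ^ j‖ = ‖D.c (D.d + j) z.1‖ * ‖z.2‖ ^ j := by
    rw [norm_mul, norm_pow]
  have h2 : ‖(D.l z.1 : ℂ) ^ j * (starRingEnd ℂ) (D.c (D.d + j) z.1) * (z.2 ^ j)⁻¹‖ ≤
      ‖D.c (D.d + j) z.1‖ * ‖z.2‖ ^ j := by
    rw [norm_mul, norm_mul, norm_inv, norm_pow, norm_pow, RCLike.norm_conj, Complex.norm_real,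
      Real.norm_eq_abs]
    have h3 : |D.l z.1| ^ j ≤ (‖z.2‖ ^ j) * (‖z.2‖ ^ j) := by
      rw [← pow_add, ← two_mul, pow_mul]
      exact pow_le_pow_left₀ (abs_nonneg _) hz'.le j
    have h4 : 0 < ‖z.2‖ ^ j := by positivity
    calc |D.l z.1| ^ j * ‖D.c (D.d + j) z.1‖ * (‖z.2‖ ^ j)⁻¹
        ≤ ((‖z.2‖ ^ j) * (‖z.2‖ ^ j)) * ‖D.c (D.d + j) z.1‖ * (‖z.2‖ ^ j)⁻¹ := by
          gcongr
      _ = ‖D.c (D.d + j) z.1‖ * ‖z.2‖ ^ j := by
          field_simp
  rw [h1]
  linarith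

/-- TASK Bdry.  At every point outside of `Out` the imaginary part of `R²` is small on the nearby
part of `Out`.

Proof.  Let `z0 = (x0,p0)` with `‖p0‖² ≤ |l x0|`.
Case `‖p0‖² < |l x0|`: a neighbourhood of `z0` does not meet `Out` (continuity of `l`).
Case `‖p0‖² = |l x0|` and `p0 ≠ 0`: `R²` is continuous at `z0` (`Lk_contDiffOn`) and has imaginary
part `0` at `z0` (`sq_real`).
Case `p0 = 0`, `l x0 = 0`: by `R_sum`, at a point `z = (x,p)` of `Out` (so `p ≠ 0`),
`‖R(x,p) - c_d(x)‖ ≤ 2 ∑_{1≤j≤d} ‖c_{d+j}(x)‖ ‖p‖^j` since `|l|^j ‖p‖^{-j} ≤ ‖p‖^{2j-j}`; the right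
hand side tends to `0` as `z → z0`, and `c_d(x)` is real (`c_d_real`) and bounded near `x0`
(continuity), so `Im R² = Im (R² - c_d²) = Im ((R - c_d)(R + c_d)) → 0`. -/
theorem im_small (D : LD) (ε : ℝ) (hε : 0 < ε) (z0 : V2 × ℂ) (hz0 : z0 ∉ D.Out) :
    ∀ᶠ z in nhds z0, z ∈ D.Out → |((D.R 0 z.1 z.2) ^ 2).im| < ε := by
  have hlc : Continuous D.l := D.lsm.continuous
  have hz0' : ‖z0.2‖ ^ 2 ≤ |D.l z0.1| := not_lt.1 hz0
  rcases hz0'.lt_or_eq with hlt | heq
  · have h1 : ∀ᶠ z in nhds z0, ‖z.2‖ ^ 2 < |D.l z.1| := by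
      have h2 : IsOpen {z : V2 × ℂ | ‖z.2‖ ^ 2 < |D.l z.1|} :=
        isOpen_lt (by fun_prop) (by fun_prop)
      exact h2.mem_nhds hlt
    filter_upwards [h1] with z hz hzO
    exact absurd hzO (not_lt.2 hz.le)
  · by_cases hp : z0.2 = 0
    · have hcc : ∀ j, Continuous (D.c j) := fun j => (D.csm j).continuous
      let G : V2 × ℂ → ℝ := fun z =>
        ∑ j ∈ Finset.Icc 1 D.d, 2 * (‖D.c (D.d + j) z.1‖ * ‖z.2‖ ^ j)
      have hG : Continuous G := by
        apply continuous_finsetSum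
        intro j _
        exact continuous_const.mul
          (((hcc _).comp continuous_fst).norm.mul (continuous_snd.norm.pow j))
      have hG0 : G z0 = 0 := by
        apply Finset.sum_eq_zero
        intro j hj
        have hj1 : j ≠ 0 := by
          have := (Finset.mem_Icc.1 hj).1
          omega
        rw [hp, norm_zero, zero_pow hj1]
        simp
      let H : V2 × ℂ → ℝ := fun z => G z * (G z + 2 * ‖D.c D.d z.1‖)
      have hH : Continuous H :=
        hG.mul (hG.add (continuous_const.mul ((hcc _).comp continuous_fst).norm))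
      have hH0 : H z0 = 0 := by
        change G z0 * (G z0 + 2 * ‖D.c D.d z0.1‖) = 0
        rw [hG0, zero_mul]
      have h1 : ∀ᶠ z in nhds z0, H z < ε := by
        have h2 : IsOpen {z : V2 × ℂ | H z < ε} := isOpen_lt hH continuous_const
        apply h2.mem_nhds
        change H z0 < ε
        rw [hH0]
        exact hε
      filter_upwards [h1] with z hz hzO
      refine lt_of_le_of_lt ?_ hz
      have h3 := Bdry_dist D hzO
      have h4 : ((D.c D.d z.1) ^ 2).im = 0 := by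
        have h5 : (starRingEnd ℂ) ((D.c D.d z.1) ^ 2) = (D.c D.d z.1) ^ 2 := by
          rw [map_pow, c_d_real]
        exact Complex.conj_eq_iff_im.1 h5
      have h6 : (D.R 0 z.1 z.2) ^ 2 = (D.R 0 z.1 z.2 - D.c D.d z.1) *
          ((D.R 0 z.1 z.2 - D.c D.d z.1) + 2 * D.c D.d z.1) + (D.c D.d z.1) ^ 2 := by
        ring
      rw [h6, Complex.add_im, h4, add_zero]
      refine (Complex.abs_im_le_norm _).trans ?_
      rw [norm_mul]
      have h7 : ‖(D.R 0 z.1 z.2 - D.c D.d z.1) + 2 * D.c D.d z.1‖ ≤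
          G z + 2 * ‖D.c D.d z.1‖ := by
        refine (norm_add_le _ _).trans ?_
        rw [norm_mul]
        have h8 : ‖(2 : ℂ)‖ = 2 := by norm_num
        rw [h8]
        exact add_le_add h3 le_rfl
      exact mul_le_mul h3 h7 (norm_nonneg _) ((norm_nonneg _).trans h3)
    · have h1 : ContinuousAt (fun z : V2 × ℂ => D.R 0 z.1 z.2) z0 := by
        have h2 := Lk_contDiffOn D.d D.c D.csm 0
        have h3 : IsOpen {z : V2 × ℂ | z.2 ≠ 0} :=
          isOpen_ne_fun continuous_snd continuous_const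
        exact (h2.continuousOn).continuousAt (h3.mem_nhds hp)
      have h4 : ContinuousAt (fun z : V2 × ℂ => |((D.R 0 z.1 z.2) ^ 2).im|) z0 :=
        (Complex.continuous_im.continuousAt.comp (h1.pow 2)).abs
      have h5 : |((D.R 0 z0.1 z0.2) ^ 2).im| < ε := by
        rw [sq_real D z0.1 z0.2 hp heq, abs_zero]
        exact hε
      have h6 := h4.eventually (isOpen_Iio.mem_nhds h5)
      filter_upwards [h6] with z hz _
      exact hz

/-- `Out` is open. -/
theorem isOpen_Out (D : LD) : IsOpen D.Out := by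
  have hlc : Continuous D.l := D.lsm.continuous
  exact isOpen_lt (f := fun z : V2 × ℂ => |D.l z.1|) (g := fun z : V2 × ℂ => ‖z.2‖ ^ 2)
    (by fun_prop) (by fun_prop)

/-- points of `Out` have `p ≠ 0`. -/
theorem ne_zero_of_Out (D : LD) {z : V2 × ℂ} (hz : z ∈ D.Out) : z.2 ≠ 0 := by
  intro h
  have hz' : |D.l z.1| < ‖z.2‖ ^ 2 := hz
  rw [h, norm_zero] at hz'
  have := abs_nonneg (D.l z.1)
  norm_num at hz'
  linarith

end LD

end Pool.W4b1b5d.H3
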