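import Pool.Agent.W_4b1b5d_h3.Near

set_option autoImplicit false

namespace Pool.W4b1b5d.H3

open Metric Set

/-- the function `(x,p) ↦ Lk d (u x) k p`. -/
noncomputable def Branch_F (d : ℕ) (u : ℕ → V2 → ℂ) (k : ℕ) (z : V2 × ℂ) : ℂ :=
  Lk d (fun j => u j z.1) k z.2

theorem Branch_isOpen : IsOpen {z : V2 × ℂ | z.2 ≠ 0} :=
  isOpen_ne_fun continuous_snd continuous_const

theorem Branch_contDiffAt (d : ℕ) (u : ℕ → V2 → ℂ) (hu : ∀ j, ContDiff ℝ (⊤ : ℕ∞) (u j)) (k : ℕ)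
    {z : V2 × ℂ} (hz : z.2 ≠ 0) : ContDiffAt ℝ (⊤ : ℕ∞) (Branch_F d u k) z :=
  (Lk_contDiffOn d u hu k).contDiffAt (Branch_isOpen.mem_nhds hz)

theorem Branch_diff (d : ℕ) (u : ℕ → V2 → ℂ) (hu : ∀ j, ContDiff ℝ (⊤ : ℕ∞) (u j)) (k : ℕ)
    {z : V2 × ℂ} (hz : z.2 ≠ 0) : DifferentiableAt ℝ (Branch_F d u k) z :=
  (Branch_contDiffAt d u hu k hz).differentiableAt (by simp)

theorem Branch_fderiv_inr (d : ℕ) (u : ℕ → V2 → ℂ) (hu : ∀ j, ContDiff ℝ (⊤ : ℕ∞) (u j)) (k : ℕ)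
    {z : V2 × ℂ} (hz : z.2 ≠ 0) :
    fderiv ℝ (Branch_F d u k) z ∘L ContinuousLinearMap.inr ℝ V2 ℂ
      = ContinuousLinearMap.mul ℝ ℂ (Branch_F d u (k + 1) z) := by
  have h1 : HasFDerivAt (fun q : ℂ => (z.1, q)) (ContinuousLinearMap.inr ℝ V2 ℂ) z.2 :=
    hasFDerivAt_prodMk_right z.1 z.2
  have h2 : HasFDerivAt (Branch_F d u k) (fderiv ℝ (Branch_F d u k) z) (z.1, z.2) :=
    (Branch_diff d u hu k hz).hasFDerivAt
  have h3 := HasFDerivAt.comp z.2 h2 h1
  have h4 : HasDerivAt (fun q => Lk d (fun j => u j z.1) k q)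
      (Lk d (fun j => u j z.1) (k + 1) z.2) z.2 := Lk_hasDerivAt d _ k hz
  have h5 := h4.hasFDerivAt.restrictScalars ℝ
  have h6 : ((Branch_F d u k) ∘ fun q : ℂ => (z.1, q)) = fun q => Lk d (fun j => u j z.1) k q := rfl
  rw [h6] at h3
  rw [h3.unique h5]
  ext w
  simp [Branch_F, mul_comm]

theorem Branch_fderiv_zero (d : ℕ) (u : ℕ → V2 → ℂ) (hu : ∀ j, ContDiff ℝ (⊤ : ℕ∞) (u j)) (k : ℕ)
    {z : V2 × ℂ} (hz : z.2 ≠ 0) (w : ℂ) :
    fderiv ℝ (Branch_F d u k) z (0, w) = Branch_F d u (k + 1) z * w := by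
  have := congrArg (fun L => L w) (Branch_fderiv_inr d u hu k hz)
  simpa using this

theorem Branch_sum_single (v : V2) :
    ((v, 0) : V2 × ℂ) = ∑ i, v i • ((Pi.single i 1, 0) : V2 × ℂ) := by
  refine Prod.ext ?_ ?_
  · rw [Prod.fst_sum]
    ext j
    simp [Finset.sum_apply, Pi.single_apply]
  · rw [Prod.snd_sum]
    simp

theorem Branch_fderiv_x (a : Fin 2 → ℂ) (d : ℕ) (u : ℕ → V2 → ℂ)
    (hu : ∀ j, ContDiff ℝ (⊤ : ℕ∞) (u j)) (k : ℕ) {z : V2 × ℂ} (hz : z.2 ≠ 0) :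
    ∑ i, a i * fderiv ℝ (Branch_F d u k) z (Pi.single i 1, 0)
      = Lk d (fun j => dd a (u j) z.1) k z.2 := by
  rw [← Dx_Lk a d u hu k z hz]
  change _ = CD _ _ (Branch_F d u k) z
  unfold CD
  rw [Branch_sum_single (fun i => (a i).re), Branch_sum_single (fun i => (a i).im), map_sum,
    map_sum, Finset.mul_sum, ← Finset.sum_add_distrib]
  refine Finset.sum_congr rfl fun i _ => ?_
  rw [map_smul, map_smul, Complex.real_smul, Complex.real_smul]
  conv_lhs => rw [← Complex.re_add_im (a i)]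
  ring

/-- chain rule along a graph. -/
theorem Branch_chain (a : Fin 2 → ℂ) (d : ℕ) (u : ℕ → V2 → ℂ)
    (hu : ∀ j, ContDiff ℝ (⊤ : ℕ∞) (u j)) (k : ℕ) {q : V2 → ℂ} {x : V2}
    (hq : DifferentiableAt ℝ q x) (hx : q x ≠ 0) :
    dd a (fun y => Lk d (fun j => u j y) k (q y)) x
      = Lk d (fun j => dd a (u j) x) k (q x)
        + Lk d (fun j => u j x) (k + 1) (q x) * dd a q x := by
  have hz : ((x, q x) : V2 × ℂ).2 ≠ 0 := hx
  have h1 : HasFDerivAt (fun y => (y, q y)) ((ContinuousLinearMap.id ℝ V2).prod (fderiv ℝ q x)) x :=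
    (hasFDerivAt_id x).prodMk hq.hasFDerivAt
  have h2 : HasFDerivAt (Branch_F d u k) (fderiv ℝ (Branch_F d u k) (x, q x)) (x, q x) :=
    (Branch_diff d u hu k hz).hasFDerivAt
  have h3 := (HasFDerivAt.comp x h2 h1).fderiv
  have h4 : ((Branch_F d u k) ∘ fun y => (y, q y)) = fun y => Lk d (fun j => u j y) k (q y) := rfl
  rw [h4] at h3
  unfold dd
  rw [h3]
  have h5 := Branch_fderiv_x a d u hu k hz
  have h6 : Lk d (fun j => u j x) (k + 1) (q x) = Branch_F d u (k + 1) (x, q x) := rfl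
  have h7 : Lk d (fun j => dd a (u j) x) k (q x)
      = ∑ i, a i * fderiv ℝ (Branch_F d u k) (x, q x) (Pi.single i 1, 0) := h5.symm
  unfold dd at h7
  rw [h7, h6, Finset.mul_sum, ← Finset.sum_add_distrib]
  refine Finset.sum_congr rfl fun i _ => ?_
  have h8 : ((ContinuousLinearMap.id ℝ V2).prod (fderiv ℝ q x)) (Pi.single i 1)
      = ((Pi.single i 1, 0) : V2 × ℂ) + (0, fderiv ℝ q x (Pi.single i 1)) := by
    simp
  rw [ContinuousLinearMap.comp_apply, h8, map_add, Branch_fderiv_zero d u hu k hz]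
  ring

theorem Branch_p_ne {D : LD} {x : V2} {p : ℂ} {m : ℕ} (h : D.Bad x p m) : p ≠ 0 := by
  rintro rfl
  have := h.1
  simp at this
  exact absurd this (not_lt.mpr (abs_nonneg _))

theorem Branch_m_pos {D : LD} {x : V2} {p : ℂ} {m : ℕ} (h : D.Bad x p m) : 1 ≤ m := by
  obtain ⟨_, _, _, i, hi, _⟩ := h
  omega

/-- TASK Branch.  If `(x1,p1)` is a bad point of minimal order `m`, the bad points near it form a
differentiable graph.

Proof.  `m ≥ 1` (last clause of `Bad`), so `R m x1 p1 = 0` and `R (m+1) x1 p1 ≠ 0`.  The function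
`(x,p) ↦ R m x p` is smooth near `(x1,p1)` (`Lk_contDiffOn`, `p1 ≠ 0`) and its partial derivative
in `p` is multiplication by `R (m+1)`, which is invertible at `(x1,p1)`.  By the implicit function theorem
there are neighbourhoods `U` of `x1`, `V` of `p1` and a smooth `q : U → V` such that for
`x ∈ U`, `p ∈ V`: `R m x p = 0 ↔ p = q x`.  (Or avoid the implicit function theorem: existence of
zeros comes from `near`, uniqueness from the fact that `R m x` is injective on a small ball because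
`R (m+1)` is close to a nonzero constant, and differentiability of `q` from the same estimates.)
By `near` (with `ball p1 ε ⊆ V`) for `x` near `x1` there is a bad `(x,p')` of some order `m'` with
`p' ∈ V`; by minimality `m ≤ m'`, so `R m x p' = 0` and `p' = q x`.  Shrinking, `R (m+1) x (q x) ≠ 0`,
so `m' = m`. -/
theorem branch (D : LD) (m : ℕ) (x1 : V2) (p1 : ℂ) (hb : D.Bad x1 p1 m)
    (hmin : ∀ x p m', D.Bad x p m' → m ≤ m') :
    ∃ (r : ℝ) (q : V2 → ℂ), 0 < r ∧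
      ∀ x ∈ ball x1 r, DifferentiableAt ℝ q x ∧ D.Bad x (q x) m := by
  have hp1 : p1 ≠ 0 := Branch_p_ne hb
  have hm : 1 ≤ m := Branch_m_pos hb
  have hz : ((x1, p1) : V2 × ℂ).2 ≠ 0 := hp1
  have hcd : ContDiffAt ℝ 1 (Branch_F D.d D.c m) (x1, p1) :=
    (Branch_contDiffAt D.d D.c D.csm m hz).of_le (by exact_mod_cast le_top)
  have hcd1 : ContDiffAt ℝ 1 (Branch_F D.d D.c (m + 1)) (x1, p1) :=
    (Branch_contDiffAt D.d D.c D.csm (m + 1) hz).of_le (by exact_mod_cast le_top)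
  have ha : Branch_F D.d D.c (m + 1) (x1, p1) ≠ 0 := hb.2.2.1
  have hinv : (fderiv ℝ (Branch_F D.d D.c m) (x1, p1) ∘L
      ContinuousLinearMap.inr ℝ V2 ℂ).IsInvertible := by
    rw [Branch_fderiv_inr D.d D.c D.csm m hz]
    refine ContinuousLinearMap.IsInvertible.of_inverse
      (g := ContinuousLinearMap.mul ℝ ℂ (Branch_F D.d D.c (m + 1) (x1, p1))⁻¹) ?_ ?_
    · ext w
      simp [ha]
    · ext w
      simp [ha]
  have h0 : Branch_F D.d D.c m (x1, p1) = 0 := hb.2.1 m hm le_rfl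
  set ψ := hcd.implicitFunction one_ne_zero hinv with hψ
  have e1 := hcd.eventually_apply_eq_iff_implicitFunction one_ne_zero hinv
  rw [h0, ← hψ] at e1
  have e2 : ∀ᶠ v in nhds ((x1, p1) : V2 × ℂ), Branch_F D.d D.c (m + 1) v ≠ 0 :=
    hcd1.continuousAt.eventually_ne ha
  have e3 : ∀ᶠ x in nhds x1, DifferentiableAt ℝ ψ x := by
    have h1 : ContDiffAt ℝ 1 ψ x1 := hcd.contDiffAt_implicitFunction one_ne_zero hinv
    filter_upwards [h1.eventually (by simp)] with x hx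
    exact hx.differentiableAt one_ne_zero
  obtain ⟨ε, hε, h12⟩ := Metric.eventually_nhds_iff.mp (e1.and e2)
  obtain ⟨η, hη, h3⟩ := Metric.eventually_nhds_iff.mp e3
  obtain ⟨δ, hδ, h4⟩ := near D m x1 p1 hb ε hε
  refine ⟨min (min ε η) δ, ψ, lt_min (lt_min hε hη) hδ, fun x hx => ?_⟩
  rw [mem_ball] at hx
  have hx1 : dist x x1 < ε := hx.trans_le ((min_le_left _ _).trans (min_le_left _ _))
  have hx2 : dist x x1 < η := hx.trans_le ((min_le_left _ _).trans (min_le_right _ _))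
  have hx3 : dist x x1 < δ := hx.trans_le (min_le_right _ _)
  refine ⟨h3 hx2, ?_⟩
  obtain ⟨p', hp', m', hbad⟩ := h4 x hx3
  have hmm := hmin x p' m' hbad
  have hd : dist ((x, p') : V2 × ℂ) (x1, p1) < ε := by
    rw [Prod.dist_eq]
    exact max_lt hx1 hp'
  obtain ⟨h5, h6⟩ := h12 hd
  have h7 : Branch_F D.d D.c m (x, p') = 0 := hbad.2.1 m hm hmm
  have h8 : ψ x = p' := h5.mp h7
  have h9 : m' = m := by
    by_contra hne
    exact h6 (hbad.2.1 (m + 1) (by omega) (by omega))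
  rw [h8, ← h9]
  exact hbad

theorem Branch_eventually {x1 : V2} {r : ℝ} {x : V2} (hx : x ∈ ball x1 r) {P : V2 → Prop}
    (h : ∀ y ∈ ball x1 r, P y) : ∀ᶠ y in nhds x, P y :=
  Filter.eventually_of_mem (isOpen_ball.mem_nhds hx) h

theorem Branch_dd_congr {a : Fin 2 → ℂ} {f g : V2 → ℂ} {x : V2} (h : f =ᶠ[nhds x] g) :
    dd a f x = dd a g x := by
  unfold dd
  rw [h.fderiv_eq]

theorem Branch_dd_const (a : Fin 2 → ℂ) (c : ℂ) (x : V2) : dd a (fun _ => c) x = 0 := by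
  unfold dd
  simp

/-- TASK BranchD (1).  On the branch `dd R ≠ 0`.

Proof.  For `1 ≤ i ≤ m - 1` differentiate `R i x (q x) = 0` in the direction `v`: by the chain rule
`(∂_v R i)(x, q x) + R (i+1) x (q x) * dq(v) = 0` and `R (i+1) x (q x) = 0` since `i + 1 ≤ m`; taking
the complex combination with `D.al` gives `R1 i x (q x) = 0`.  As `(x, q x)` is bad there is `i < m`
with `R1 i x (q x) ≠ 0`, so `i = 0`. -/
theorem branch_R1 (D : LD) (m : ℕ) (x1 : V2) (r : ℝ) (q : V2 → ℂ)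
    (h : ∀ x ∈ ball x1 r, DifferentiableAt ℝ q x ∧ D.Bad x (q x) m) :
    ∀ x ∈ ball x1 r, D.R1 0 x (q x) ≠ 0 := by
  intro x hx
  obtain ⟨hq, hb⟩ := h x hx
  obtain ⟨i, him, hi⟩ := hb.2.2.2
  rcases Nat.eq_zero_or_pos i with h0 | h0
  · rwa [h0] at hi
  · exfalso
    apply hi
    have h1 : (fun y => Lk D.d (fun j => D.c j y) i (q y)) =ᶠ[nhds x] fun _ => (0 : ℂ) :=
      Branch_eventually hx fun y hy => (h y hy).2.2.1 i h0 him.le
    have h2 := Branch_chain D.al D.d D.c D.csm i hq (Branch_p_ne hb)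
    rw [Branch_dd_congr h1, Branch_dd_const] at h2
    have h3 : Lk D.d (fun j => D.c j x) (i + 1) (q x) = 0 := hb.2.1 (i + 1) (by omega) (by omega)
    rw [h3, zero_mul, add_zero] at h2
    exact h2.symm

theorem Branch_dd_conj (a : Fin 2 → ℂ) {f : V2 → ℂ} {x : V2} (hf : DifferentiableAt ℝ f x) :
    dd a (fun y => (starRingEnd ℂ) (f y)) x = (starRingEnd ℂ) (dd (cj a) f x) := by
  have h1 : HasFDerivAt (fun y => (starRingEnd ℂ) (f y))
      ((Complex.conjCLE : ℂ →L[ℝ] ℂ).comp (fderiv ℝ f x)) x :=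
    (Complex.conjCLE : ℂ →L[ℝ] ℂ).hasFDerivAt.comp x hf.hasFDerivAt
  unfold dd
  rw [h1.fderiv, map_sum]
  refine Finset.sum_congr rfl fun i _ => ?_
  simp [cj]

theorem Branch_dd_sq (a : Fin 2 → ℂ) {f : V2 → ℂ} {x : V2} (hf : DifferentiableAt ℝ f x) :
    dd a (fun y => f y ^ 2) x = 2 * f x * dd a f x := by
  have h1 : HasFDerivAt (fun y => f y ^ 2) ((2 * f x) • fderiv ℝ f x) x := by
    have := hf.hasFDerivAt.pow 2
    simpa using this
  unfold dd
  rw [h1.fderiv, Finset.mul_sum]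
  refine Finset.sum_congr rfl fun i _ => ?_
  simp
  ring

theorem Branch_cj_cj (a : Fin 2 → ℂ) : cj (cj a) = a := by
  ext i
  simp [cj]

/-- TASK BranchD (2).  `R²` is not real on the whole branch.

Proof.  Put `v x = R 0 x (q x)`, `w = v²`.  Since `m ≥ 1`, `R 1 x (q x) = 0`, so
`dd v = R1 0 x (q x)`, `dd (cj al) v = R2 0 x (q x)` and by the transport equation `D.trans` at
`p = q x` (`R 1 = 0`) `R2 0 = -(l/p²) R1 0` with `|l/p²| < 1`.  If `w` were real on the ball, then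
`conj (dd al w) = dd (cj al) w` (`w` real valued), i.e. `|2 v R1_0| = |2 v R2_0| = |l/p²| |2 v R1_0|`, hence
`v * R1_0 = 0`, hence `v = 0` on the ball by `branch_R1`, hence `dd al v = 0`, i.e. `R1 0 x (q x) = 0`,
contradiction. -/
theorem branch_im (D : LD) (m : ℕ) (x1 : V2) (r : ℝ) (hr : 0 < r) (q : V2 → ℂ)
    (h : ∀ x ∈ ball x1 r, DifferentiableAt ℝ q x ∧ D.Bad x (q x) m) :
    ∃ x ∈ ball x1 r, ((D.R 0 x (q x)) ^ 2).im ≠ 0 := by
  by_contra hcon
  push Not at hcon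
  have hR1 := branch_R1 D m x1 r q h
  -- differentiability of v
  have hv : ∀ x ∈ ball x1 r, DifferentiableAt ℝ (fun y => D.R 0 y (q y)) x := by
    intro x hx
    obtain ⟨hq, hb⟩ := h x hx
    have hz : ((x, q x) : V2 × ℂ).2 ≠ 0 := Branch_p_ne hb
    have h1 : DifferentiableAt ℝ (Branch_F D.d D.c 0) (x, q x) := Branch_diff D.d D.c D.csm 0 hz
    have h2 : DifferentiableAt ℝ (fun y => (y, q y)) x := differentiableAt_id.prodMk hq
    have h3 : DifferentiableAt ℝ ((Branch_F D.d D.c 0) ∘ fun y => (y, q y)) x :=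
      DifferentiableAt.comp x h1 h2
    exact h3
  have hd1 : ∀ x ∈ ball x1 r, dd D.al (fun y => D.R 0 y (q y)) x = D.R1 0 x (q x) := by
    intro x hx
    obtain ⟨hq, hb⟩ := h x hx
    have h2 := Branch_chain D.al D.d D.c D.csm 0 hq (Branch_p_ne hb)
    have h3 : Lk D.d (fun j => D.c j x) (0 + 1) (q x) = 0 := hb.2.1 1 le_rfl (Branch_m_pos hb)
    rw [h3, zero_mul, add_zero] at h2
    exact h2
  have hd2 : ∀ x ∈ ball x1 r, dd (cj D.al) (fun y => D.R 0 y (q y)) x = D.R2 0 x (q x) := by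
    intro x hx
    obtain ⟨hq, hb⟩ := h x hx
    have h2 := Branch_chain (cj D.al) D.d D.c D.csm 0 hq (Branch_p_ne hb)
    have h3 : Lk D.d (fun j => D.c j x) (0 + 1) (q x) = 0 := hb.2.1 1 le_rfl (Branch_m_pos hb)
    rw [h3, zero_mul, add_zero] at h2
    exact h2
  have hv0 : ∀ x ∈ ball x1 r, D.R 0 x (q x) = 0 := by
    intro x hx
    obtain ⟨hq, hb⟩ := h x hx
    have hp := Branch_p_ne hb
    -- transport equation
    have ht := D.trans x (q x) hp
    have ht1 : Lk D.d (fun j => dd D.al (D.c j) x) 0 (q x) = D.R1 0 x (q x) := rfl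
    have ht2 : Lk D.d (fun j => dd (cj D.al) (D.c j) x) 0 (q x) = D.R2 0 x (q x) := rfl
    have ht3 : Lk D.d (fun j => D.c j x) 1 (q x) = 0 := hb.2.1 1 le_rfl (Branch_m_pos hb)
    rw [ht1, ht2, ht3, mul_zero, add_zero] at ht
    have ht4 : q x ^ 2 * D.R2 0 x (q x) = -((D.l x : ℂ) * D.R1 0 x (q x)) := by
      field_simp at ht
      linear_combination ht
    -- w is real near x
    have hw : (fun y => (D.R 0 y (q y)) ^ 2) =ᶠ[nhds x]
        fun y => (starRingEnd ℂ) ((D.R 0 y (q y)) ^ 2) :=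
      Branch_eventually hx fun y hy => (Complex.conj_eq_iff_im.mpr (hcon y hy)).symm
    have hsq : DifferentiableAt ℝ (fun y => (D.R 0 y (q y)) ^ 2) x := (hv x hx).pow 2
    have h5 := Branch_dd_congr (a := cj D.al) hw
    rw [Branch_dd_conj (cj D.al) hsq, Branch_cj_cj, Branch_dd_sq _ (hv x hx),
      Branch_dd_sq _ (hv x hx), hd1 x hx, hd2 x hx] at h5
    have h6 := congrArg norm h5
    rw [RCLike.norm_conj, norm_mul, norm_mul, norm_mul, norm_mul] at h6
    by_contra hne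
    have hvn : 0 < ‖D.R 0 x (q x)‖ := norm_pos_iff.mpr hne
    have h7 : ‖D.R2 0 x (q x)‖ = ‖D.R1 0 x (q x)‖ := by
      have h8 : 0 < ‖(2 : ℂ)‖ * ‖D.R 0 x (q x)‖ := by
        have : 0 < ‖(2 : ℂ)‖ := by simp
        positivity
      exact mul_left_cancel₀ h8.ne' h6
    have h9 := congrArg norm ht4
    rw [norm_mul, norm_pow, norm_neg, norm_mul, h7, Complex.norm_real, Real.norm_eq_abs] at h9
    have h10 : 0 < ‖D.R1 0 x (q x)‖ := norm_pos_iff.mpr (hR1 x hx)
    have h11 : ‖q x‖ ^ 2 = |D.l x| := mul_right_cancel₀ h10.ne' h9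
    exact absurd hb.1 (by rw [h11]; exact lt_irrefl _)
  have hx1 : x1 ∈ ball x1 r := mem_ball_self hr
  have h12 : (fun y => D.R 0 y (q y)) =ᶠ[nhds x1] fun _ => (0 : ℂ) :=
    Branch_eventually hx1 hv0
  have h13 := hd1 x1 hx1
  rw [Branch_dd_congr h12, Branch_dd_const] at h13
  exact hR1 x1 hx1 h13.symm

end Pool.W4b1b5d.H3
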