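import Pool.Agent.W_4b1b5d_h3.Defs

set_option autoImplicit false

namespace Pool.W4b1b5d.H3

/-- TASK CDcalc.  Elementary rules for the operators `CD A B f = ∂_A f + i ∂_B f`. -/
theorem CD_add (A B : V2 × ℂ) {f g : V2 × ℂ → ℂ} {z : V2 × ℂ} (hf : DifferentiableAt ℝ f z)
    (hg : DifferentiableAt ℝ g z) : CD A B (fun z => f z + g z) z = CD A B f z + CD A B g z := by
  have h : fderiv ℝ (fun z => f z + g z) z = fderiv ℝ f z + fderiv ℝ g z :=
    (hf.hasFDerivAt.add hg.hasFDerivAt).fderiv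
  simp only [CD, h, add_apply]
  ring

theorem CD_sub (A B : V2 × ℂ) {f g : V2 × ℂ → ℂ} {z : V2 × ℂ} (hf : DifferentiableAt ℝ f z)
    (hg : DifferentiableAt ℝ g z) : CD A B (fun z => f z - g z) z = CD A B f z - CD A B g z := by
  have h : fderiv ℝ (fun z => f z - g z) z = fderiv ℝ f z - fderiv ℝ g z :=
    (hf.hasFDerivAt.sub hg.hasFDerivAt).fderiv
  simp only [CD, h, sub_apply]
  ring

theorem CD_mul (A B : V2 × ℂ) {f g : V2 × ℂ → ℂ} {z : V2 × ℂ} (hf : DifferentiableAt ℝ f z)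
    (hg : DifferentiableAt ℝ g z) :
    CD A B (fun z => f z * g z) z = CD A B f z * g z + f z * CD A B g z := by
  have h : fderiv ℝ (fun z => f z * g z) z = f z • fderiv ℝ g z + g z • fderiv ℝ f z :=
    (hf.hasFDerivAt.mul hg.hasFDerivAt).fderiv
  simp only [CD, h, add_apply, smul_apply, smul_eq_mul]
  ring

theorem CDcalc_fconj {f : V2 × ℂ → ℂ} {z : V2 × ℂ} (hf : DifferentiableAt ℝ f z) (A : V2 × ℂ) :
    fderiv ℝ (fun z => (starRingEnd ℂ) (f z)) z A = (starRingEnd ℂ) (fderiv ℝ f z A) := by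
  have h : HasFDerivAt (fun z => (starRingEnd ℂ) (f z))
      ((Complex.conjCLE : ℂ →L[ℝ] ℂ).comp (fderiv ℝ f z)) z :=
    ((Complex.conjCLE : ℂ →L[ℝ] ℂ).hasFDerivAt (x := f z)).comp z hf.hasFDerivAt
  rw [h.fderiv]
  rfl

theorem CDcalc_dconj {f : V2 × ℂ → ℂ} {z : V2 × ℂ} (hf : DifferentiableAt ℝ f z) :
    DifferentiableAt ℝ (fun z => (starRingEnd ℂ) (f z)) z :=
  (((Complex.conjCLE : ℂ →L[ℝ] ℂ).hasFDerivAt (x := f z)).comp z hf.hasFDerivAt).differentiableAt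

theorem CD_conj (A B : V2 × ℂ) {f : V2 × ℂ → ℂ} {z : V2 × ℂ} (hf : DifferentiableAt ℝ f z) :
    CD A B (fun z => (starRingEnd ℂ) (f z)) z = (starRingEnd ℂ) (CD A (-B) f z) := by
  simp only [CD, CDcalc_fconj hf, map_add, map_mul, map_neg, Complex.conj_I]
  ring

theorem Dx_conj (a : Fin 2 → ℂ) {f : V2 × ℂ → ℂ} {z : V2 × ℂ} (hf : DifferentiableAt ℝ f z) :
    Dx a (fun z => (starRingEnd ℂ) (f z)) z = (starRingEnd ℂ) (Dx (cj a) f z) := by
  unfold Dx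
  rw [CD_conj _ _ hf]
  have h1 : (fun i => (cj a i).re : V2) = fun i => (a i).re := by
    funext i
    simp [cj]
  have h2 : ((fun i => (cj a i).im, 0) : V2 × ℂ) = -(fun i => (a i).im, 0) := by
    ext i
    · simp [cj]
    · simp
  rw [h1, h2]

theorem Dp_conj {f : V2 × ℂ → ℂ} {z : V2 × ℂ} (hf : DifferentiableAt ℝ f z) :
    Dp (fun z => (starRingEnd ℂ) (f z)) z = (starRingEnd ℂ) (Dq f z) := by
  unfold Dp Dq
  rw [CD_conj _ _ hf]
  congr 2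
  simp

theorem Dq_conj {f : V2 × ℂ → ℂ} {z : V2 × ℂ} (hf : DifferentiableAt ℝ f z) :
    Dq (fun z => (starRingEnd ℂ) (f z)) z = (starRingEnd ℂ) (Dp f z) := by
  unfold Dp Dq
  rw [CD_conj _ _ hf]
  congr 2
  simp

/-- Chain rule for a real function `P : ℂ → ℝ` composed with `w`: with
`P_w = (P_u - i P_v)/2` and `P_{conj w} = (P_u + i P_v)/2` (`P_u = fderiv P w 1`,
`P_v = fderiv P w I`),
`CD A B (P ∘ w) = P_w * CD A B w + P_{conj w} * CD A B (conj w)`. -/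
theorem CD_comp_real (A B : V2 × ℂ) (P : ℂ → ℝ) {w : V2 × ℂ → ℂ} {z : V2 × ℂ}
    (hP : DifferentiableAt ℝ P (w z)) (hw : DifferentiableAt ℝ w z) :
    CD A B (fun z => ((P (w z) : ℝ) : ℂ)) z
      = (((fderiv ℝ P (w z) 1 : ℝ) : ℂ) - Complex.I * (fderiv ℝ P (w z) Complex.I : ℝ)) / 2
          * CD A B w z
        + (((fderiv ℝ P (w z) 1 : ℝ) : ℂ) + Complex.I * (fderiv ℝ P (w z) Complex.I : ℝ)) / 2
          * CD A B (fun z => (starRingEnd ℂ) (w z)) z := by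
  have h : HasFDerivAt (fun z => ((P (w z) : ℝ) : ℂ))
      (Complex.ofRealCLM.comp ((fderiv ℝ P (w z)).comp (fderiv ℝ w z))) z :=
    (Complex.ofRealCLM.hasFDerivAt (x := P (w z))).comp z
      (hP.hasFDerivAt.comp z hw.hasFDerivAt)
  have hl : ∀ v : ℂ, fderiv ℝ P (w z) v =
      v.re * fderiv ℝ P (w z) 1 + v.im * fderiv ℝ P (w z) Complex.I := by
    intro v
    have h1 : v = v.re • (1 : ℂ) + v.im • Complex.I := by
      apply Complex.ext <;> simp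
    conv_lhs => rw [h1, map_add, map_smul, map_smul]
    rfl
  have h2 : ∀ C : V2 × ℂ, fderiv ℝ (fun z => ((P (w z) : ℝ) : ℂ)) z C =
      (((fderiv ℝ w z C).re * fderiv ℝ P (w z) 1 +
        (fderiv ℝ w z C).im * fderiv ℝ P (w z) Complex.I : ℝ) : ℂ) := by
    intro C
    rw [h.fderiv, ← hl]
    rfl
  simp only [CD, h2, CDcalc_fconj hw]
  apply Complex.ext <;> simp <;> ring

/-- Chain rule for `T = conj ξ / (|ξ|² + δ)`:
`CD T = - (conj ξ)² / (|ξ|²+δ)² * CD ξ + δ / (|ξ|²+δ)² * CD (conj ξ)`. -/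
theorem CD_T (A B : V2 × ℂ) {xi : V2 × ℂ → ℂ} {z : V2 × ℂ} (δ : ℝ) (hδ : 0 < δ)
    (hxi : DifferentiableAt ℝ xi z) :
    CD A B (fun z => (starRingEnd ℂ) (xi z) / ((‖xi z‖ ^ 2 + δ : ℝ) : ℂ)) z
      = - ((starRingEnd ℂ) (xi z)) ^ 2 / ((‖xi z‖ ^ 2 + δ : ℝ) : ℂ) ^ 2 * CD A B xi z
        + (δ : ℂ) / ((‖xi z‖ ^ 2 + δ : ℝ) : ℂ) ^ 2
          * CD A B (fun z => (starRingEnd ℂ) (xi z)) z := by
  have hN : ∀ z, ((‖xi z‖ ^ 2 + δ : ℝ) : ℂ) = xi z * (starRingEnd ℂ) (xi z) + δ := by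
    intro z
    rw [Complex.mul_conj, Complex.normSq_eq_norm_sq]
    push_cast
    ring
  have hN0 : ∀ z, ((‖xi z‖ ^ 2 + δ : ℝ) : ℂ) ≠ 0 := by
    intro z
    have h1 : (0 : ℝ) < ‖xi z‖ ^ 2 + δ := by positivity
    exact_mod_cast h1.ne'
  have hc := CDcalc_dconj hxi
  have hd : DifferentiableAt ℝ (fun z => xi z * (starRingEnd ℂ) (xi z) + (δ : ℂ)) z :=
    (hxi.mul hc).add (differentiableAt_const _)
  have hT : DifferentiableAt ℝ
      (fun z => (starRingEnd ℂ) (xi z) / (xi z * (starRingEnd ℂ) (xi z) + (δ : ℂ))) z := by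
    have hi : DifferentiableAt ℝ (fun z => (xi z * (starRingEnd ℂ) (xi z) + (δ : ℂ))⁻¹) z := by
      refine hd.inv ?_
      rw [← hN]
      exact hN0 z
    simp only [div_eq_mul_inv]
    exact hc.mul hi
  have e1 : (fun z => (starRingEnd ℂ) (xi z) / ((‖xi z‖ ^ 2 + δ : ℝ) : ℂ)) =
      fun z => (starRingEnd ℂ) (xi z) / (xi z * (starRingEnd ℂ) (xi z) + (δ : ℂ)) := by
    funext z
    rw [hN]
  rw [e1]
  have h1 := CD_mul A B hT hd
  have e2 : (fun z => (starRingEnd ℂ) (xi z) / (xi z * (starRingEnd ℂ) (xi z) + (δ : ℂ)) *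
      (xi z * (starRingEnd ℂ) (xi z) + (δ : ℂ))) = fun z => (starRingEnd ℂ) (xi z) := by
    funext z
    rw [div_mul_cancel₀]
    rw [← hN]
    exact hN0 z
  rw [e2] at h1
  have h2 : CD A B (fun z => xi z * (starRingEnd ℂ) (xi z) + (δ : ℂ)) z =
      CD A B xi z * (starRingEnd ℂ) (xi z) +
        xi z * CD A B (fun z => (starRingEnd ℂ) (xi z)) z := by
    have h3 := CD_add A B (hxi.mul hc) (differentiableAt_const (δ : ℂ) (x := z))
    have h4 : CD A B (fun _ => (δ : ℂ)) z = 0 := by simp [CD]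
    have h5 := CD_mul A B hxi hc
    rw [h4, add_zero] at h3
    exact h3.trans h5
  rw [h2] at h1
  rw [hN z]
  have hN1 : xi z * (starRingEnd ℂ) (xi z) + (δ : ℂ) ≠ 0 := by
    rw [← hN]
    exact hN0 z
  set X := xi z
  set Xb := (starRingEnd ℂ) X
  set CT := CD A B (fun z => (starRingEnd ℂ) (xi z) /
    (xi z * (starRingEnd ℂ) (xi z) + (δ : ℂ))) z
  set CX := CD A B xi z
  set CXb := CD A B (fun z => (starRingEnd ℂ) (xi z)) z
  have h6 : CT * (X * Xb + δ) = CXb - Xb / (X * Xb + δ) * (CX * Xb + X * CXb) := by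
    linear_combination -h1
  have h7 : CT = (CXb - Xb / (X * Xb + δ) * (CX * Xb + X * CXb)) / (X * Xb + δ) :=
    eq_div_of_mul_eq hN1 h6
  rw [h7]
  clear h7 h6 h1 h2
  generalize hNN : X * Xb + (δ : ℂ) = N at hN1 ⊢
  have hδ' : (δ : ℂ) = N - X * Xb := by rw [← hNN]; ring
  rw [hδ']
  field_simp
  ring

theorem CDcalc_snd {f : V2 × ℂ → ℂ} {z : V2 × ℂ} (hf : DifferentiableAt ℝ (fderiv ℝ f) z)
    (A C : V2 × ℂ) :
    fderiv ℝ (fun z => fderiv ℝ f z C) z A = fderiv ℝ (fderiv ℝ f) z A C ∧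
      DifferentiableAt ℝ (fun z => fderiv ℝ f z C) z := by
  have h : HasFDerivAt (fun z => fderiv ℝ f z C)
      ((ContinuousLinearMap.apply ℝ ℂ C).comp (fderiv ℝ (fderiv ℝ f) z)) z :=
    ((ContinuousLinearMap.apply ℝ ℂ C).hasFDerivAt (x := fderiv ℝ f z)).comp z hf.hasFDerivAt
  exact ⟨by rw [h.fderiv]; rfl, h.differentiableAt⟩

theorem CDcalc_CD2 {f : V2 × ℂ → ℂ} {z : V2 × ℂ} (hf : DifferentiableAt ℝ (fderiv ℝ f) z)
    (A B A' B' : V2 × ℂ) :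
    CD A B (CD A' B' f) z = (fderiv ℝ (fderiv ℝ f) z A A' +
      Complex.I * fderiv ℝ (fderiv ℝ f) z A B') + Complex.I *
      (fderiv ℝ (fderiv ℝ f) z B A' + Complex.I * fderiv ℝ (fderiv ℝ f) z B B') := by
  have h1 := fun A => CDcalc_snd hf A A'
  have h2 := fun A => CDcalc_snd hf A B'
  have h3 : ∀ C, fderiv ℝ (CD A' B' f) z C = fderiv ℝ (fderiv ℝ f) z C A' +
      Complex.I * fderiv ℝ (fderiv ℝ f) z C B' := by
    intro C
    have h4 : HasFDerivAt (fun z => fderiv ℝ f z A' + Complex.I * fderiv ℝ f z B')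
        (fderiv ℝ (fun z => fderiv ℝ f z A') z +
          Complex.I • fderiv ℝ (fun z => fderiv ℝ f z B') z) z :=
      (h1 0).2.hasFDerivAt.add ((h2 0).2.hasFDerivAt.const_mul Complex.I)
    have h5 : fderiv ℝ (CD A' B' f) z = _ := h4.fderiv
    rw [h5, add_apply, smul_apply, (h1 C).1, (h2 C).1]
    rfl
  simp only [CD] at h3 ⊢
  rw [h3, h3]

/-- The operators commute on smooth functions (symmetry of second derivatives). -/
theorem CD_comm (A B A' B' : V2 × ℂ) {f : V2 × ℂ → ℂ} {O : Set (V2 × ℂ)} (hO : IsOpen O)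
    (hf : ContDiffOn ℝ (⊤ : ℕ∞) f O) {z : V2 × ℂ} (hz : z ∈ O) :
    CD A B (CD A' B' f) z = CD A' B' (CD A B f) z := by
  have hz' : O ∈ nhds z := hO.mem_nhds hz
  have hfa : ContDiffAt ℝ (⊤ : ℕ∞) f z := hf.contDiffAt hz'
  have h1 : DifferentiableAt ℝ (fderiv ℝ f) z := by
    have h2 : ContDiffAt ℝ 1 (fderiv ℝ f) z :=
      hfa.fderiv_right (m := 1) (by norm_cast)
    exact h2.differentiableAt one_ne_zero
  have hs : IsSymmSndFDerivAt ℝ f z := hfa.isSymmSndFDerivAt (by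
    rw [minSmoothness_of_isRCLikeNormedField]
    change ((2 : ℕ∞) : WithTop ℕ∞) ≤ ((⊤ : ℕ∞) : WithTop ℕ∞)
    exact WithTop.coe_le_coe.2 le_top)
  rw [CDcalc_CD2 h1, CDcalc_CD2 h1, hs.eq A A', hs.eq A B', hs.eq B A', hs.eq B B']
  ring

/-- `CD A B f` is smooth on `O` if `f` is. -/
theorem CD_contDiffOn (A B : V2 × ℂ) {f : V2 × ℂ → ℂ} {O : Set (V2 × ℂ)} (hO : IsOpen O)
    (hf : ContDiffOn ℝ (⊤ : ℕ∞) f O) : ContDiffOn ℝ (⊤ : ℕ∞) (CD A B f) O := by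
  have h1 : ContDiffOn ℝ (⊤ : ℕ∞) (fderiv ℝ f) O :=
    hf.fderiv_of_isOpen hO (by simp)
  unfold CD
  exact (h1.clm_apply contDiffOn_const).add (contDiffOn_const.mul (h1.clm_apply contDiffOn_const))

end Pool.W4b1b5d.H3
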