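import Mathlib

set_option autoImplicit false

namespace Pool.W4b1b5d.H3

/-- The plane. -/
abbrev V2 := Fin 2 → ℝ

/-- `ℤ²`-periodicity. -/
def Per {E : Type*} (f : V2 → E) : Prop :=
  ∀ (x : V2) (k : Fin 2 → ℤ), f (x + fun i => (k i : ℝ)) = f x

/-- The constant coefficient complex derivation `a 0 * ∂₀ + a 1 * ∂₁` acting on complex functions
on the plane. -/
noncomputable def dd (a : Fin 2 → ℂ) (f : V2 → ℂ) (x : V2) : ℂ :=
  ∑ i, a i * fderiv ℝ f x (Pi.single i 1)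

/-- Conjugate of a complex vector. -/
noncomputable def cj (a : Fin 2 → ℂ) : Fin 2 → ℂ := fun i => (starRingEnd ℂ) (a i)

/-- falling factorial `s (s-1) ... (s-k+1)` as a complex number. -/
noncomputable def fall (s : ℤ) (k : ℕ) : ℂ := ∏ i ∈ Finset.range k, ((s : ℂ) - (i : ℂ))

/-- `Lk d u k p` is the `k`-th derivative at `p` of the Laurent polynomial
`∑_{j ≤ 2d} u j * p^(j-d)`. -/
noncomputable def Lk (d : ℕ) (u : ℕ → ℂ) (k : ℕ) (p : ℂ) : ℂ :=
  ∑ j ∈ Finset.range (2 * d + 1), u j * fall ((j : ℤ) - d) k * p ^ ((j : ℤ) - d - k)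

/-- The data used in Proposition 2: a family `R(x,p) = ∑_{j ≤ 2d} c j x * p^(j-d)` of Laurent
polynomials over the torus which satisfies the transport equation
`(l/p) dd R + p db R + (dd l) R_p = 0`, where `dd = al·∇`, `db = conj(al)·∇`, with constant top
coefficient `a ≠ 0` and the reality condition `c (d-j) = l^j conj (c (d+j))`. -/
structure LD where
  al : Fin 2 → ℂ
  hal : ((starRingEnd ℂ) (al 0) * al 1).im ≠ 0
  d : ℕ
  hd : 1 ≤ d
  c : ℕ → V2 → ℂ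
  l : V2 → ℝ
  a : ℂ
  ha : a ≠ 0
  csm : ∀ j, ContDiff ℝ (⊤ : ℕ∞) (c j)
  cper : ∀ j, Per (c j)
  lsm : ContDiff ℝ (⊤ : ℕ∞) l
  lper : Per l
  top : ∀ x, c (2 * d) x = a
  symm : ∀ x j, j ≤ d → c (d - j) x = (l x : ℂ) ^ j * (starRingEnd ℂ) (c (d + j) x)
  par : ∀ x j, Odd j → c j x = 0
  trans : ∀ (x : V2) (p : ℂ), p ≠ 0 →
    ((l x : ℂ) / p) * Lk d (fun j => dd al (c j) x) 0 p
      + p * Lk d (fun j => dd (cj al) (c j) x) 0 p
      + dd al (fun y => (l y : ℂ)) x * Lk d (fun j => c j x) 1 p = 0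

namespace LD

/-- `R D k x p` is the `k`-th `p`-derivative of `R(x,p)`. -/
noncomputable def R (D : LD) (k : ℕ) (x : V2) (p : ℂ) : ℂ := Lk D.d (fun j => D.c j x) k p

/-- `R1 D k x p` is the `k`-th `p`-derivative of `dd R (x,p)`. -/
noncomputable def R1 (D : LD) (k : ℕ) (x : V2) (p : ℂ) : ℂ :=
  Lk D.d (fun j => dd D.al (D.c j) x) k p

/-- `R2 D k x p` is the `k`-th `p`-derivative of `db R (x,p)`. -/
noncomputable def R2 (D : LD) (k : ℕ) (x : V2) (p : ℂ) : ℂ :=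
  Lk D.d (fun j => dd (cj D.al) (D.c j) x) k p

/-- A bad point of order `m`: a point `p` outside the circle `|p|² = |l|` where `R_p` vanishes to
order exactly `m` but `dd R` does not vanish to order `m`. -/
def Bad (D : LD) (x : V2) (p : ℂ) (m : ℕ) : Prop :=
  |D.l x| < ‖p‖ ^ 2 ∧ (∀ i, 1 ≤ i → i ≤ m → D.R i x p = 0) ∧ D.R (m + 1) x p ≠ 0 ∧
    ∃ i, i < m ∧ D.R1 i x p ≠ 0

/-- The open set outside of the circles `|p|² = |l(x)|`. -/
def Out (D : LD) : Set (V2 × ℂ) := {z | |D.l z.1| < ‖z.2‖ ^ 2}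

end LD

/-- Complex combination of two real directional derivatives of a function on `V2 × ℂ`:
`CD A B f z = ∂_A f + i ∂_B f`. -/
noncomputable def CD (A B : V2 × ℂ) (f : V2 × ℂ → ℂ) (z : V2 × ℂ) : ℂ :=
  fderiv ℝ f z A + Complex.I * fderiv ℝ f z B

/-- `∂_x`-type operator: `a 0 ∂₀ + a 1 ∂₁` in the variable `x`. -/
noncomputable def Dx (a : Fin 2 → ℂ) (f : V2 × ℂ → ℂ) (z : V2 × ℂ) : ℂ :=
  CD (fun i => (a i).re, 0) (fun i => (a i).im, 0) f z

/-- `∂/∂p`. -/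
noncomputable def Dp (f : V2 × ℂ → ℂ) (z : V2 × ℂ) : ℂ :=
  CD (0, 1 / 2) (0, -(Complex.I / 2)) f z

/-- `∂/∂(conj p)`. -/
noncomputable def Dq (f : V2 × ℂ → ℂ) (z : V2 × ℂ) : ℂ :=
  CD (0, 1 / 2) (0, Complex.I / 2) f z

end Pool.W4b1b5d.H3
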