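import Pool.Agent.W_4b1b5d_h3.Defs

set_option autoImplicit false

namespace Pool.W4b1b5d.H3

/-- derivative of a real function -/
noncomputable def ddr (a : Fin 2 → ℂ) (g : V2 → ℝ) (x : V2) : ℂ := dd a (fun y => (g y : ℂ)) x

/-- A polynomial integral of `H = mu P Q + U` written in the complex momenta `P = al·p`,
`Q = conj(al)·p`:  `F = ∑ f a b P^a Q^b`.  The field `eqn` is the coefficient of `P^A Q^B` in
`{H,F} = 0`, that is in
`mu Q dd F + mu P db F - (dd H) F_P - (db H) F_Q = 0`. -/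
structure ID where
  al : Fin 2 → ℂ
  hal : ((starRingEnd ℂ) (al 0) * al 1).im ≠ 0
  n : ℕ
  mu : V2 → ℝ
  U : V2 → ℝ
  f : ℤ → ℤ → V2 → ℂ
  mupos : ∀ x, 0 < mu x
  musm : ContDiff ℝ (⊤ : ℕ∞) mu
  Usm : ContDiff ℝ (⊤ : ℕ∞) U
  muper : Per mu
  Uper : Per U
  fsm : ∀ a b, ContDiff ℝ (⊤ : ℕ∞) (f a b)
  fper : ∀ a b, Per (f a b)
  f_neg : ∀ a b x, a < 0 → f a b x = 0
  f_neg' : ∀ a b x, b < 0 → f a b x = 0
  f_big : ∀ a b x, (n : ℤ) < a + b → f a b x = 0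
  conj : ∀ a b x, f b a x = (starRingEnd ℂ) (f a b x)
  par : ∀ a b x, Odd (a + b + n) → f a b x = 0
  eqn : ∀ (A B : ℤ) (x : V2),
    (mu x : ℂ) * (dd al (f A (B - 1)) x + dd (cj al) (f (A - 1) B) x)
      - ((A : ℂ) * ddr al mu x * f A (B - 1) x + (B : ℂ) * ddr (cj al) mu x * f (A - 1) B x)
      - (((A : ℂ) + 1) * ddr al U x * f (A + 1) B x
          + ((B : ℂ) + 1) * ddr (cj al) U x * f A (B + 1) x) = 0

namespace ID

/-- `ell h x = (h - U x) / mu x`. -/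
noncomputable def ell (I : ID) (h : ℝ) (x : V2) : ℝ := (h - I.U x) / I.mu x

/-- The coefficient of `p^s` of `F(x; p, ell/p)`. -/
noncomputable def beta (I : ID) (h : ℝ) (s : ℤ) (x : V2) : ℂ :=
  ∑ b ∈ Finset.range (I.n + 1), I.f (s + b) b x * (I.ell h x : ℂ) ^ b

end ID

/-- partial derivative -/
noncomputable def pd (i : Fin 2) (g : V2 → ℝ) (x : V2) : ℝ := fderiv ℝ g x (Pi.single i 1)

/-- `K[U] = U_00 U_1² - 2 U_01 U_0 U_1 + U_11 U_0²`, the second derivative of `U` in the direction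
tangent to its level line, times `|∇U|²`. -/
noncomputable def KK (g : V2 → ℝ) (x : V2) : ℝ :=
  pd 0 (pd 0 g) x * (pd 1 g x) ^ 2 - 2 * pd 0 (pd 1 g) x * pd 0 g x * pd 1 g x
    + pd 1 (pd 1 g) x * (pd 0 g x) ^ 2

end Pool.W4b1b5d.H3
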