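import Pool.Agent.W_4b1b5d_h3.BetaA

set_option autoImplicit false

namespace Pool.W4b1b5d.H3

/-- TASK Lowest (1).  The lowest part `F_J` on an open set `S` where all parts of lower degree
vanish: the coefficient relation of `{U, F_J} = 0`.

Proof.  `eqn` at `(A,B)` with `A + B = J - 1`: `f A (B-1)` and `f (A-1) B` have total degree `J - 2 < J`
and vanish on the open set `S` together with their derivatives (`hlow` for nonnegative indices,
`f_neg`, `f_neg'`; `dd_zero_of_open`). -/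
theorem lowest_rel (I : ID) (S : Set V2) (hS : IsOpen S) (J : ℕ)
    (hlow : ∀ a b : ℤ, a + b < J → ∀ x ∈ S, I.f a b x = 0) (x : V2) (hx : x ∈ S) (A B : ℤ)
    (hAB : A + B = (J : ℤ) - 1) :
    ((A : ℂ) + 1) * ddr I.al I.U x * I.f (A + 1) B x
      + ((B : ℂ) + 1) * ddr (cj I.al) I.U x * I.f A (B + 1) x = 0 := by
  have h := I.eqn A B x
  have h1 : I.f A (B - 1) x = 0 := hlow A (B - 1) (by omega) x hx
  have h2 : I.f (A - 1) B x = 0 := hlow (A - 1) B (by omega) x hx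
  have h3 : dd I.al (I.f A (B - 1)) x = 0 :=
    dd_zero_of_open I.al hS (hlow A (B - 1) (by omega)) x hx
  have h4 : dd (cj I.al) (I.f (A - 1) B) x = 0 :=
    dd_zero_of_open (cj I.al) hS (hlow (A - 1) B (by omega)) x hx
  rw [h1, h2, h3, h4] at h
  linear_combination -h

/-- TASK Lowest (2).  `f (J-b) b * (db U)^b = (J choose b) * (-dd U)^b * f J 0`, by induction on `b`
from `lowest_rel` with `(A,B) = (J - b - 1, b)`:
`(J-b) dd U f (J-b) b + (b+1) db U f (J-b-1) (b+1) = 0`, and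
`(b+1) (J choose (b+1)) = (J-b) (J choose b)`. -/
theorem lowest_form (I : ID) (S : Set V2) (hS : IsOpen S) (J : ℕ)
    (hlow : ∀ a b : ℤ, a + b < J → ∀ x ∈ S, I.f a b x = 0) (x : V2) (hx : x ∈ S) (b : ℕ)
    (hb : b ≤ J) :
    I.f ((J : ℤ) - b) b x * (ddr (cj I.al) I.U x) ^ b
      = (J.choose b : ℂ) * (-(ddr I.al I.U x)) ^ b * I.f J 0 x := by
  induction b with
  | zero => simp
  | succ b ih =>
    have h1 := ih (by omega)
    have h2 := lowest_rel I S hS J hlow x hx ((J : ℤ) - b - 1) b (by ring)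
    have h3 : (J : ℤ) - b - 1 + 1 = (J : ℤ) - b := by ring
    have h4 : (J : ℤ) - ((b + 1 : ℕ) : ℤ) = (J : ℤ) - b - 1 := by push_cast; ring
    have h5 : ((b + 1 : ℕ) : ℤ) = (b : ℤ) + 1 := by push_cast; ring
    rw [h3] at h2
    rw [h4, h5]
    have h6 : ((J.choose (b + 1) : ℕ) : ℂ) * ((b : ℂ) + 1) =
        ((J.choose b : ℕ) : ℂ) * ((J : ℂ) - b) := by
      have h7 := Nat.choose_succ_right_eq J b
      have h8 : (((J.choose (b + 1) * (b + 1) : ℕ)) : ℂ) = ((J.choose b * (J - b) : ℕ) : ℂ) := by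
        rw [h7]
      rw [Nat.cast_mul, Nat.cast_mul, Nat.cast_sub (by omega : b ≤ J)] at h8
      push_cast at h8
      exact h8
    have h9 : ((b : ℂ) + 1) ≠ 0 := by exact_mod_cast Nat.succ_ne_zero b
    refine mul_left_cancel₀ h9 ?_
    push_cast at h2
    rw [pow_succ, pow_succ]
    linear_combination (ddr (cj I.al) I.U x) ^ b * h2 - ((J : ℂ) - b) * ddr I.al I.U x * h1
      + ddr I.al I.U x * (-(ddr I.al I.U x)) ^ b * I.f J 0 x * h6

/-- TASK Lowest (3).  Reality (from `lowest_form` with `b = J`, `f 0 J = conj (f J 0)`,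
`db U = conj (dd U)`). -/
theorem lowest_real (I : ID) (S : Set V2) (hS : IsOpen S) (J : ℕ)
    (hlow : ∀ a b : ℤ, a + b < J → ∀ x ∈ S, I.f a b x = 0) (x : V2) (hx : x ∈ S) :
    (starRingEnd ℂ) (I.f J 0 x * (ddr I.al I.U x) ^ J)
      = (-1) ^ J * (I.f J 0 x * (ddr I.al I.U x) ^ J) := by
  have h1 := lowest_form I S hS J hlow x hx J le_rfl
  rw [sub_self, Nat.choose_self, Nat.cast_one, one_mul, I.conj J 0 x,
    ddr_conj I.al (I.Usm.differentiable (by simp) x), ← map_pow, ← map_mul] at h1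
  rw [h1, neg_pow]
  ring

theorem Lowest_ddr_ne (al : Fin 2 → ℂ) (hal : ((starRingEnd ℂ) (al 0) * al 1).im ≠ 0)
    (g : V2 → ℝ) (x : V2) (hg : DifferentiableAt ℝ g x) (h : fderiv ℝ g x ≠ 0) :
    ddr al g x ≠ 0 := by
  intro h0
  rw [ddr_eq al hg] at h0
  have h1 : (starRingEnd ℂ) (al 0) * (al 0 * (pd 0 g x : ℂ) + al 1 * (pd 1 g x : ℂ)) = 0 := by
    rw [h0, mul_zero]
  have h2 : (starRingEnd ℂ) (al 0) * (al 0 * (pd 0 g x : ℂ) + al 1 * (pd 1 g x : ℂ)) =
      ((Complex.normSq (al 0) * pd 0 g x : ℝ) : ℂ)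
        + ((starRingEnd ℂ) (al 0) * al 1) * (pd 1 g x : ℂ) := by
    rw [Complex.ofReal_mul, Complex.normSq_eq_conj_mul_self]
    ring
  rw [h2] at h1
  have h3 := congrArg Complex.im h1
  rw [Complex.add_im, Complex.ofReal_im, zero_add, Complex.im_mul_ofReal, Complex.zero_im] at h3
  have hv : pd 1 g x = 0 := (mul_eq_zero.1 h3).resolve_left hal
  have ha0 : al 0 ≠ 0 := by
    intro h4
    rw [h4] at hal
    simp at hal
  rw [hv, Complex.ofReal_zero, mul_zero, add_zero] at h0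
  have hu : pd 0 g x = 0 := by exact_mod_cast (mul_eq_zero.1 h0).resolve_left ha0
  apply h
  apply ContinuousLinearMap.coe_injective
  refine (Pi.basisFun ℝ (Fin 2)).ext fun i => ?_
  rw [Pi.basisFun_apply]
  fin_cases i
  · exact hu
  · exact hv

/-- TASK Lowest (4).  If `dU(x) ≠ 0` (so `db U ≠ 0`) and `f J 0 x = 0` then all `f a b x`,
`a + b = J`, vanish. -/
theorem lowest_zero (I : ID) (S : Set V2) (hS : IsOpen S) (J : ℕ)
    (hlow : ∀ a b : ℤ, a + b < J → ∀ x ∈ S, I.f a b x = 0) (x : V2) (hx : x ∈ S)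
    (hdU : fderiv ℝ I.U x ≠ 0) (hJ : I.f J 0 x = 0) :
    ∀ a b : ℤ, a + b = J → I.f a b x = 0 := by
  intro a b hab
  by_cases ha : a < 0
  · exact I.f_neg a b x ha
  by_cases hb : b < 0
  · exact I.f_neg' a b x hb
  obtain ⟨b', rfl⟩ := Int.eq_ofNat_of_zero_le (not_lt.1 hb)
  have ha' : a = (J : ℤ) - b' := by omega
  subst ha'
  have h1 := lowest_form I S hS J hlow x hx b' (by omega)
  rw [hJ, mul_zero] at h1
  refine (mul_eq_zero.1 h1).resolve_right (pow_ne_zero _ ?_)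
  have hd : DifferentiableAt ℝ I.U x := I.Usm.differentiable (by simp) x
  rw [ddr_conj I.al hd]
  intro h2
  exact Lowest_ddr_ne I.al I.hal I.U x hd hdU ((map_eq_zero _).1 h2)

/-- `ddr al U x ≠ 0` when `dU(x) ≠ 0` (`al 0 u + al 1 v = 0` with real `u, v` forces `u = v = 0`
because `Im (conj (al 0) * al 1) ≠ 0`). -/
theorem ddr_ne (al : Fin 2 → ℂ) (hal : ((starRingEnd ℂ) (al 0) * al 1).im ≠ 0) (g : V2 → ℝ)
    (x : V2) (hg : DifferentiableAt ℝ g x) (h : fderiv ℝ g x ≠ 0) : ddr al g x ≠ 0 := 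
  Lowest_ddr_ne al hal g x hg h

end Pool.W4b1b5d.H3
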