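import Pool.Agent.W_4b1b5d_h3.Tang
import Pool.Agent.W_4b1b5d_h3.Lowest
import Pool.Agent.W_4b1b5d_h3.AlgJ

set_option autoImplicit false

namespace Pool.W4b1b5d.H3

theorem EndA_lin (al : Fin 2 → ℂ) (e : V2) (he : ∀ i, (e i : ℂ) = al i + (starRingEnd ℂ) (al i))
    (f : V2 → ℂ) (x : V2) :
    fderiv ℝ f x e = dd al f x + dd (cj al) f x := by
  have h1 : e = ∑ i, e i • (Pi.single i (1 : ℝ) : V2) := by
    funext j
    simp [Finset.sum_apply, Pi.single_apply]
  conv_lhs => rw [h1]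
  rw [map_sum]
  unfold dd
  rw [← Finset.sum_add_distrib]
  refine Finset.sum_congr rfl fun i _ => ?_
  rw [map_smul, Complex.real_smul, he i]
  unfold cj
  ring

theorem EndA_ofReal (g : V2 → ℝ) (x v : V2) (hg : DifferentiableAt ℝ g x) :
    fderiv ℝ (fun y => (g y : ℂ)) x v = ((fderiv ℝ g x v : ℝ) : ℂ) := by
  have h1 : HasFDerivAt (fun y => (g y : ℂ)) (Complex.ofRealCLM.comp (fderiv ℝ g x)) x :=
    Complex.ofRealCLM.hasFDerivAt.comp x hg.hasFDerivAt
  rw [h1.fderiv]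
  rfl

theorem EndA_ddr (al : Fin 2 → ℂ) (e : V2) (he : ∀ i, (e i : ℂ) = al i + (starRingEnd ℂ) (al i))
    (g : V2 → ℝ) (x : V2) (hg : DifferentiableAt ℝ g x) :
    ddr al g x + ddr (cj al) g x = ((fderiv ℝ g x e : ℝ) : ℂ) := by
  unfold ddr
  rw [← EndA_lin al e he, EndA_ofReal g x e hg]

theorem EndA_dd_of_open (a : Fin 2 → ℂ) {f g : V2 → ℂ} {S : Set V2} (hS : IsOpen S) (c : ℂ)
    (h : ∀ x ∈ S, f x = c * g x) (x : V2) (hx : x ∈ S) (hg : DifferentiableAt ℝ g x) :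
    dd a f x = c * dd a g x := by
  have h1 : f =ᶠ[nhds x] fun y => c * g y := by
    filter_upwards [hS.mem_nhds hx] with y hy using h y hy
  unfold dd
  rw [h1.fderiv_eq, fderiv_const_mul hg, Finset.mul_sum]
  refine Finset.sum_congr rfl fun i _ => ?_
  change a i * (c • (fderiv ℝ g x) (Pi.single i 1)) = _
  rw [smul_eq_mul]
  ring

/-- the coefficients of the lowest part -/
theorem EndA_low (I : ID) (S : Set V2) (hS : IsOpen S)
    (hSU : ∀ x ∈ S, fderiv ℝ I.U x ≠ 0) (J : ℕ)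
    (hlow : ∀ a b : ℤ, a + b < J → ∀ x ∈ S, I.f a b x = 0) (x : V2) (hx : x ∈ S)
    (hdb : ddr (cj I.al) I.U x = - ddr I.al I.U x) (b : ℕ) :
    I.f ((J : ℤ) - b) b x = (J.choose b : ℂ) * I.f J 0 x := by
  rcases le_or_gt b J with hb | hb
  · have h1 := lowest_form I S hS J hlow x hx b hb
    have h2 : ddr I.al I.U x ≠ 0 :=
      ddr_ne I.al I.hal I.U x (I.Usm.differentiable (by simp) x) (hSU x hx)
    rw [hdb] at h1
    have h3 : (-(ddr I.al I.U x)) ^ b ≠ 0 := pow_ne_zero _ (neg_ne_zero.2 h2)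
    have h4 : (I.f ((J : ℤ) - b) b x - (J.choose b : ℂ) * I.f J 0 x) *
      (-(ddr I.al I.U x)) ^ b = 0 := by linear_combination h1
    rcases mul_eq_zero.1 h4 with h5 | h5
    · linear_combination h5
    · exact absurd h5 h3
  · rw [Nat.choose_eq_zero_of_lt hb, I.f_neg _ _ _ (by omega)]
    simp

/-- TASK EndA (1).  If `e = al + conj al` and `D_e U = 0`, then `D_e = dd + db`, so
`db U = - dd U` and `dd U` is imaginary. -/
theorem db_eq_neg (I : ID) (e : V2) (he : ∀ i, (e i : ℂ) = I.al i + (starRingEnd ℂ) (I.al i))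
    (hU : ∀ x, fderiv ℝ I.U x e = 0) (x : V2) :
    ddr (cj I.al) I.U x = - ddr I.al I.U x ∧
      (starRingEnd ℂ) (ddr I.al I.U x) = - ddr I.al I.U x := by
  have hd : DifferentiableAt ℝ I.U x := I.Usm.differentiable (by simp) x
  have h1 := EndA_ddr I.al e he I.U x hd
  rw [hU x, Complex.ofReal_zero] at h1
  have h2 := ddr_conj I.al hd
  refine ⟨by linear_combination h1, ?_⟩
  rw [← h2]
  linear_combination h1

/-- TASK EndA (2).  The relation in degree `J + 1` at the points of an open set `S` where `dU ≠ 0`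
and the lowest degree is `J`.

Proof.  Put `g = f J 0`.  By `lowest_form`, `db_eq_neg` and `ddr_ne`,
`f (J-b) b = (J choose b) g` on `S` (`0 ≤ b ≤ J`); `g` is real on `S` (`lowest_real`: `conj g (-1)^J u^J
= (-1)^J g u^J`).  By `tang`, `fderiv g y e = 0` on `S` (`fderiv U y e = 0`), i.e. `db g = - dd g`.  Use `eqn` with
`(A,B) = (J+1-B, B)`, `0 ≤ B ≤ J+1`: on `S`, `f A (B-1) = (J choose (B-1)) g` (`0` for `B = 0`),
`f (A-1) B = (J choose B) g` (`0` for `B = J+1`), and the same for their derivatives (open set).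
`A (J choose (B-1)) = (J+1-B)(J choose (B-1)) = B (J choose B)`.  With `u b = f (J+2-b) b y`,
`w = dd U`, `G = mu * dd g`, `m = g * (dd mu + db mu) = g * fderiv mu y e` this is the hypothesis of
`algJ`; its conclusion is `w (u 0 - u (J+2)) = - m J / 6` and `u (J+2) = f 0 (J+2) y =
conj (f (J+2) 0 y)`. -/
theorem endA (I : ID) (hn : Odd I.n) (e : V2)
    (he : ∀ i, (e i : ℂ) = I.al i + (starRingEnd ℂ) (I.al i))
    (hU : ∀ x, fderiv ℝ I.U x e = 0) (S : Set V2) (hS : IsOpen S)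
    (hSU : ∀ x ∈ S, fderiv ℝ I.U x ≠ 0) (J : ℕ) (hJ : 1 ≤ J)
    (hlow : ∀ a b : ℤ, a + b < J → ∀ x ∈ S, I.f a b x = 0) (y : V2) (hy : y ∈ S) :
    ddr I.al I.U y * (I.f (J + 2) 0 y - (starRingEnd ℂ) (I.f (J + 2) 0 y))
      = -(I.f J 0 y * (fderiv ℝ I.mu y e : ℂ) * J / 6) := by
  have hdf : ∀ a b : ℤ, DifferentiableAt ℝ (I.f a b) y := fun a b =>
    (I.fsm a b).differentiable (by simp) y
  have hlowS : ∀ b : ℕ, ∀ x ∈ S, I.f ((J : ℤ) - b) b x = (J.choose b : ℂ) * I.f J 0 x :=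
    fun b x hx => EndA_low I S hS hSU J hlow x hx (db_eq_neg I e he hU x).1 b
  have hdb := (db_eq_neg I e he hU y).1
  have hmu := EndA_ddr I.al e he I.mu y (I.musm.differentiable (by simp) y)
  have hg : dd I.al (I.f J 0) y + dd (cj I.al) (I.f J 0) y = 0 := by
    rw [← EndA_lin I.al e he]
    exact tang I hn y (hSU y hy) e (hU y) J
  have hmain := algJ J hJ (fun b => I.f ((J : ℤ) + 2 - b) b y) (ddr I.al I.U y)
    ((I.mu y : ℂ) * dd I.al (I.f J 0) y) (I.f J 0 y * (fderiv ℝ I.mu y e : ℂ)) ?_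
  · have h0 : I.f ((J : ℤ) + 2 - (0 : ℕ)) (0 : ℕ) y = I.f (J + 2) 0 y := by
      simp
    have h1 : I.f ((J : ℤ) + 2 - ((J + 2 : ℕ) : ℤ)) ((J + 2 : ℕ) : ℤ) y =
        (starRingEnd ℂ) (I.f (J + 2) 0 y) := by
      rw [← I.conj]
      congr 1
      push_cast
      ring
    simp only [h0, h1] at hmain
    exact hmain
  · intro B hB
    have he1 := I.eqn ((J : ℤ) + 1 - B) B y
    -- the two lowest coefficients
    have hc2 : ∀ x ∈ S, I.f ((J : ℤ) + 1 - B - 1) B x = (J.choose B : ℂ) * I.f J 0 x := by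
      intro x hx
      rw [← hlowS B x hx]
      congr 1
      ring
    obtain ⟨c1, hc1d⟩ : ∃ c : ℂ, c = if B = 0 then 0 else (J.choose (B - 1) : ℂ) := ⟨_, rfl⟩
    have hc1 : ∀ x ∈ S, I.f ((J : ℤ) + 1 - B) ((B : ℤ) - 1) x = c1 * I.f J 0 x := by
      intro x hx
      rcases Nat.eq_zero_or_pos B with h0 | h0
      · subst h0
        rw [hc1d, if_pos rfl, I.f_neg' _ _ _ (by norm_num), zero_mul]
      · rw [hc1d, if_neg (by omega), ← hlowS (B - 1) x hx]
        have h2 : ((B - 1 : ℕ) : ℤ) = (B : ℤ) - 1 := by omega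
        rw [h2]
        congr 1
        ring
    have hrel : ((J : ℂ) + 1 - B) * c1 = (B : ℂ) * (J.choose B : ℂ) := by
      rcases Nat.eq_zero_or_pos B with h0 | h0
      · subst h0
        rw [hc1d, if_pos rfl]
        simp
      · rw [hc1d, if_neg (by omega)]
        obtain ⟨k, rfl⟩ : ∃ k, B = k + 1 := ⟨B - 1, by omega⟩
        have hk : k ≤ J := by omega
        have h3 : J.choose (k + 1) * (k + 1) = J.choose k * (J - k) :=
          Nat.choose_succ_right_eq J k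
        have h4 : ((J.choose (k + 1) : ℂ)) * ((k : ℂ) + 1) = (J.choose k : ℂ) * ((J : ℂ) - k) := by
          rw [← Nat.cast_sub hk]
          exact_mod_cast h3
        rw [Nat.add_sub_cancel]
        push_cast
        linear_combination -h4
    rw [EndA_dd_of_open I.al hS c1 hc1 y hy (hdf J 0),
      EndA_dd_of_open (cj I.al) hS _ hc2 y hy (hdf J 0), hc1 y hy, hc2 y hy] at he1
    have hu0 : I.f ((J : ℤ) + 1 - B + 1) B y = I.f ((J : ℤ) + 2 - B) B y := by
      congr 1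
      ring
    have hu1 : I.f ((J : ℤ) + 1 - B) ((B : ℤ) + 1) y =
        I.f ((J : ℤ) + 2 - ((B + 1 : ℕ) : ℤ)) ((B + 1 : ℕ) : ℤ) y := by
      push_cast
      congr 1
      ring
    rw [hu0, hu1, hdb] at he1
    push_cast at he1
    change ddr I.al I.U y * (((J : ℂ) + 2 - B) * I.f ((J : ℤ) + 2 - B) B y -
      ((B : ℂ) + 1) * I.f ((J : ℤ) + 2 - ((B + 1 : ℕ) : ℤ)) ((B + 1 : ℕ) : ℤ) y) = _
    rw [← hc1d, ← hmu]
    push_cast
    linear_combination -he1 + (-(I.mu y : ℂ)) * (J.choose B : ℂ) * (-hg) - (ddr I.al I.mu y * I.f J 0 y) * hrel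

end Pool.W4b1b5d.H3
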