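import Pool.Agent.W_4b1b5d_h3.Build

set_option autoImplicit false

namespace Pool.W4b1b5d.H3

/-- TASK NonVan.  A nonzero odd integral does not vanish on a nonempty open set.

Proof.  Suppose all `f a b` vanish on the nonempty set `S` (openness not needed for this argument).
Then `beta h s = 0` on `S` for all `h, s`.  If `beta h s0 x0 ≠ 0` for some `s0 ≥ 1`, `build` gives
`D` with `D.c (2 * D.d) x = beta h D.d x = D.a ≠ 0` for all `x` (`D.top`, `D.ha`), in particular for
`x ∈ S`, a contradiction.  So `beta h s = 0` everywhere for all `h` and `s ≥ 1`, for `s ≤ -1` by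
`beta_conj`, and for `s = 0` by parity (`beta_par`, `n` odd).  Fix `x` and `s`: for all real `h`,
`∑_{b ≤ n} f (s+b) b x * (ell h x)^b = 0`, and `ell h x` takes all real values as `h` varies, so
all the coefficients `f (s+b) b x` vanish (a polynomial with infinitely many zeros).  Hence
`f a b x = 0` for all `b ≥ 0` (`b ≤ n`), and all `f` vanish identically. -/
theorem nonvan (I : ID) (hn : Odd I.n) (hF : ∃ a b x, I.f a b x ≠ 0) (S : Set V2)
    (hS : S.Nonempty) : ∃ a b : ℤ, ∃ x ∈ S, I.f a b x ≠ 0 := by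
  by_contra hcon
  push Not at hcon
  obtain ⟨xS, hxS⟩ := hS
  have hS0 : ∀ h s, I.beta h s xS = 0 := by
    intro h s
    unfold ID.beta
    refine Finset.sum_eq_zero fun b _ => ?_
    rw [hcon _ _ xS hxS, zero_mul]
  have hpos : ∀ (h : ℝ) (s : ℤ) (x : V2), 1 ≤ s → I.beta h s x = 0 := by
    intro h s x hs
    by_contra hne
    obtain ⟨D, -, -, hc, -⟩ := build I h x s hs hne
    have h1 := D.top xS
    rw [hc, hS0] at h1
    exact D.ha h1.symm
  have hall : ∀ (h : ℝ) (s : ℤ) (x : V2), I.beta h s x = 0 := by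
    intro h s x
    rcases lt_trichotomy s 0 with hs | hs | hs
    · obtain ⟨m, hm⟩ : ∃ m : ℕ, s = -(m : ℤ) := ⟨s.natAbs, by omega⟩
      rw [hm, I.beta_conj, hpos h m x (by omega), map_zero, mul_zero]
    · subst hs
      refine I.beta_par h 0 ?_ x
      rw [zero_add]
      exact_mod_cast hn
    · exact hpos h s x (by omega)
  have hf : ∀ (s : ℤ) (b : ℕ) (x : V2), b ≤ I.n → I.f (s + b) b x = 0 := by
    intro s b x hb
    have hmu : I.mu x ≠ 0 := (I.mupos x).ne'
    let P : Polynomial ℂ := ∑ b ∈ Finset.range (I.n + 1),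
      Polynomial.C (I.f (s + b) b x) * Polynomial.X ^ b
    have hev : ∀ t : ℝ, P.eval (t : ℂ) = 0 := by
      intro t
      have h1 := hall (I.mu x * t + I.U x) s x
      unfold ID.beta at h1
      have h2 : I.ell (I.mu x * t + I.U x) x = t := by
        unfold ID.ell
        field_simp
        ring
      rw [h2] at h1
      rw [← h1]
      simp [P, Polynomial.eval_finset_sum]
    have hP : P = 0 := by
      refine Polynomial.eq_zero_of_infinite_isRoot P ?_
      refine Set.Infinite.mono (s := Set.range fun t : ℝ => (t : ℂ)) ?_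
        (Set.infinite_range_of_injective Complex.ofReal_injective)
      rintro z ⟨t, rfl⟩
      exact hev t
    have h3 := congrArg (fun Q : Polynomial ℂ => Q.coeff b) hP
    simp only [P, Polynomial.finset_sum_coeff, Polynomial.coeff_C_mul_X_pow,
      Polynomial.coeff_zero] at h3
    rwa [Finset.sum_ite_eq, if_pos (Finset.mem_range.2 (by omega))] at h3
  obtain ⟨a, b, x, hne⟩ := hF
  apply hne
  rcases lt_or_ge b 0 with hb | hb
  · exact I.f_neg' a b x hb
  rcases lt_or_ge a 0 with ha | ha
  · exact I.f_neg a b x ha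
  obtain ⟨m, rfl⟩ := Int.eq_ofNat_of_zero_le hb
  rcases le_or_gt m I.n with hm | hm
  · have h4 := hf (a - m) m x hm
    rwa [sub_add_cancel] at h4
  · exact I.f_big a m x (by omega)

/-- The least degree `J` of the integral on a nonempty set `S`. -/
theorem exists_lowest (I : ID) (hn : Odd I.n) (hF : ∃ a b x, I.f a b x ≠ 0) (S : Set V2)
    (hS : S.Nonempty) : ∃ J : ℕ, 1 ≤ J ∧ (∀ a b : ℤ, a + b < J → ∀ x ∈ S, I.f a b x = 0) ∧
      ∃ a b : ℤ, a + b = J ∧ ∃ x ∈ S, I.f a b x ≠ 0 := by
  classical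
  have hge : ∀ a b x, I.f a b x ≠ 0 → 0 ≤ a ∧ 0 ≤ b := by
    intro a b x hne
    constructor
    · by_contra h
      exact hne (I.f_neg a b x (by omega))
    · by_contra h
      exact hne (I.f_neg' a b x (by omega))
  have hex : ∃ m : ℕ, ∃ a b : ℤ, a + b = m ∧ ∃ x ∈ S, I.f a b x ≠ 0 := by
    obtain ⟨a, b, x, hx, hne⟩ := nonvan I hn hF S hS
    obtain ⟨h1, h2⟩ := hge a b x hne
    exact ⟨(a + b).toNat, a, b, by omega, x, hx, hne⟩
  refine ⟨Nat.find hex, ?_, ?_, Nat.find_spec hex⟩
  · by_contra hlt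
    have h0 : Nat.find hex = 0 := by omega
    obtain ⟨a, b, hab, x, hx, hne⟩ := Nat.find_spec hex
    rw [h0] at hab
    obtain ⟨h1, h2⟩ := hge a b x hne
    have ha : a = 0 := by omega
    have hb : b = 0 := by omega
    subst ha hb
    exact hne (by simpa using I.par 0 0 x (by simpa using hn))
  · intro a b hab x hx
    by_contra hne
    obtain ⟨h1, h2⟩ := hge a b x hne
    exact Nat.find_min hex (m := (a + b).toNat) (by omega) ⟨a, b, by omega, x, hx, hne⟩

end Pool.W4b1b5d.H3
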