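import Pool.Agent.W_4b1b5d_h3.EndA
import Pool.Agent.W_4b1b5d_h3.NonVan

set_option autoImplicit false

namespace Pool.W4b1b5d.H3

/-- A function with zero derivative in direction `e` along a line is constant on the line. -/
theorem const_on_line {E : Type*} [NormedAddCommGroup E] [NormedSpace ℝ E] (f : V2 → E)
    (hf : Differentiable ℝ f) (x e : V2)
    (h : ∀ t : ℝ, fderiv ℝ f (x + t • e) e = 0) (t : ℝ) : f (x + t • e) = f x := by
  have h1 : ∀ t : ℝ, HasDerivAt (fun t : ℝ => f (x + t • e)) 0 t := by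
    intro t
    have h2 : HasDerivAt (fun t : ℝ => x + t • e) e t := by
      have h3 := ((hasDerivAt_id t).smul_const e).const_add x
      rwa [one_smul] at h3
    have h4 := ((hf (x + t • e)).hasFDerivAt).comp_hasDerivAt t h2
    rwa [h t] at h4
  have h5 := is_const_of_deriv_eq_zero (f := fun t : ℝ => f (x + t • e))
    (fun t => (h1 t).differentiableAt) (fun t => (h1 t).deriv) t 0
  simpa using h5

theorem EndE_bdd (g : V2 → ℝ) (hg : Continuous g) (hp : Per g) : ∃ B : ℝ, ∀ x, |g x| ≤ B := by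
  have hK : IsCompact (Set.Icc (0 : V2) 1) := isCompact_Icc
  obtain ⟨B, hB⟩ := hK.exists_bound_of_continuousOn hg.continuousOn
  refine ⟨B, fun x => ?_⟩
  have h1 : g x = g (fun i => Int.fract (x i)) := by
    have h2 := hp (fun i => Int.fract (x i)) (fun i => ⌊x i⌋)
    rw [← h2]
    congr 1
    funext i
    exact (Int.fract_add_floor (x i)).symm
  rw [h1, ← Real.norm_eq_abs]
  apply hB
  exact ⟨fun i => Int.fract_nonneg _, fun i => (Int.fract_lt_one _).le⟩

theorem EndE_fderiv_shift {E : Type*} [NormedAddCommGroup E] [NormedSpace ℝ E] (f : V2 → E)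
    (a : V2) (h : ∀ x, f (x + a) = f x) (x : V2) : fderiv ℝ f (x + a) = fderiv ℝ f x := by
  rw [← fderiv_comp_add_right]
  congr 1
  funext y
  exact h y

/-- TASK EndE.  `D_e mu = 0` where `dU ≠ 0`, in the normalised case `e = al + conj al`.

Proof.  Suppose `dU(x0) ≠ 0`, `fderiv mu x0 e ≠ 0`.  `U (x + t e) = U x` for all `x, t`
(`const_on_line`), so `dU (x + t e) = dU x` (as continuous linear maps).
`S = {x : fderiv U x ≠ 0 ∧ ∃ t, fderiv mu (x + t • e) e ≠ 0}` is open and invariant under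
translations by `t • e`, contains `x0`.  Let `J` be the lowest degree on `S` (`exists_lowest`); by
`lowest_zero` there is `x ∈ S` with `g := f J 0 x ≠ 0`.  On the line `x + t e` (in `S`): by `tang`
the derivatives of `f J 0` and `f (J+2) 0` in direction `e` vanish, so these functions are constant
on the line (`const_on_line`), `ddr al U` is constant on the line.  So by `endA`
`fderiv mu (x + t e) e = κ` is the same for all `t` (`g ≠ 0`, `J ≥ 1`).  Then `mu (x + t e) = mu x + κ t`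
is bounded in `t` (`mu` is periodic and continuous, hence bounded), so `κ = 0`, contradicting
`x ∈ S`. -/
theorem endE_norm (I : ID) (hn : Odd I.n) (hF : ∃ a b x, I.f a b x ≠ 0) (e : V2)
    (he : ∀ i, (e i : ℂ) = I.al i + (starRingEnd ℂ) (I.al i))
    (hU : ∀ x, fderiv ℝ I.U x e = 0) (x : V2) (hx : fderiv ℝ I.U x ≠ 0) :
    fderiv ℝ I.mu x e = 0 := by
  by_contra hmu
  have hUd : Differentiable ℝ I.U := I.Usm.differentiable (by simp)
  have hmd : Differentiable ℝ I.mu := I.musm.differentiable (by simp)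
  have hfd : ∀ a b, Differentiable ℝ (I.f a b) := fun a b => (I.fsm a b).differentiable (by simp)
  have hUf : Continuous (fderiv ℝ I.U) := I.Usm.continuous_fderiv (by simp)
  have hmf : Continuous (fderiv ℝ I.mu) := I.musm.continuous_fderiv (by simp)
  have hUc : ∀ (s : ℝ) (y : V2), I.U (y + s • e) = I.U y := fun s y =>
    const_on_line I.U hUd y e (fun t => hU _) s
  let S : Set V2 := {x | fderiv ℝ I.U x ≠ 0 ∧ ∃ t : ℝ, fderiv ℝ I.mu (x + t • e) e ≠ 0}
  have hSo : IsOpen S := by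
    have h1 : IsOpen {x | fderiv ℝ I.U x ≠ 0} := isOpen_ne_fun hUf continuous_const
    have h2 : IsOpen (⋃ t : ℝ, {x : V2 | fderiv ℝ I.mu (x + t • e) e ≠ 0}) := by
      apply isOpen_iUnion
      intro t
      refine isOpen_ne_fun ?_ continuous_const
      exact (hmf.comp (continuous_id.add continuous_const)).clm_apply continuous_const
    have h3 : S = {x | fderiv ℝ I.U x ≠ 0} ∩ ⋃ t : ℝ, {x : V2 | fderiv ℝ I.mu (x + t • e) e ≠ 0} := by
      ext y
      simp [S]
    rw [h3]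
    exact h1.inter h2
  have hSn : S.Nonempty := ⟨x, hx, 0, by rwa [zero_smul, add_zero]⟩
  obtain ⟨J, hJ, hlow, a, b, hab, x1, hx1, hne⟩ := exists_lowest I hn hF S hSn
  have hg : I.f J 0 x1 ≠ 0 := fun h0 =>
    hne (lowest_zero I S hSo J hlow x1 hx1 hx1.1 h0 a b hab)
  have hShift : ∀ s : ℝ, x1 + s • e ∈ S := by
    intro s
    refine ⟨?_, ?_⟩
    · rw [EndE_fderiv_shift I.U (s • e) (hUc s) x1]
      exact hx1.1
    · obtain ⟨t, ht⟩ := hx1.2
      refine ⟨t - s, ?_⟩
      have h1 : x1 + s • e + (t - s) • e = x1 + t • e := by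
        rw [add_assoc, ← add_smul, add_sub_cancel]
      rw [h1]
      exact ht
  have hfc : ∀ (k : ℤ) (t : ℝ), I.f k 0 (x1 + t • e) = I.f k 0 x1 := fun k t =>
    const_on_line (I.f k 0) (hfd k 0) x1 e
      (fun t => tang I hn (x1 + t • e) (hShift t).1 e (hU _) k) t
  have hdc : ∀ t : ℝ, ddr I.al I.U (x1 + t • e) = ddr I.al I.U x1 := by
    intro t
    unfold ddr dd
    rw [EndE_fderiv_shift (fun y => ((I.U y : ℝ) : ℂ)) (t • e)
      (fun y => congrArg (fun r : ℝ => (r : ℂ)) (hUc t y)) x1]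
  have hκ : ∀ t : ℝ, fderiv ℝ I.mu (x1 + t • e) e = fderiv ℝ I.mu x1 e := by
    intro t
    have e1 := endA I hn e he hU S hSo (fun y hy => hy.1) J hJ hlow (x1 + t • e) (hShift t)
    have e2 := endA I hn e he hU S hSo (fun y hy => hy.1) J hJ hlow x1 hx1
    rw [hfc, hfc, hdc, e2, neg_inj] at e1
    have hJ0 : (J : ℂ) ≠ 0 := by
      have : J ≠ 0 := by omega
      exact_mod_cast this
    have e3 : I.f J 0 x1 * ((fderiv ℝ I.mu x1 e : ℝ) : ℂ) =
        I.f J 0 x1 * ((fderiv ℝ I.mu (x1 + t • e) e : ℝ) : ℂ) := by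
      have h6 : (6 : ℂ) ≠ 0 := by norm_num
      have e4 := (div_left_inj' h6).1 e1
      exact mul_right_cancel₀ hJ0 e4
    have e5 := mul_left_cancel₀ hg e3
    exact_mod_cast e5.symm
  have hlin : ∀ t : ℝ, I.mu (x1 + t • e) = I.mu x1 + fderiv ℝ I.mu x1 e * t := by
    intro t
    have h1 : ∀ t : ℝ, HasDerivAt
        (fun t : ℝ => I.mu (x1 + t • e) - fderiv ℝ I.mu x1 e * t) 0 t := by
      intro t
      have h2 : HasDerivAt (fun t : ℝ => x1 + t • e) e t := by
        have h3 := ((hasDerivAt_id t).smul_const e).const_add x1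
        rwa [one_smul] at h3
      have h4 := ((hmd (x1 + t • e)).hasFDerivAt).comp_hasDerivAt t h2
      have h5 := h4.sub ((hasDerivAt_id t).const_mul (fderiv ℝ I.mu x1 e))
      rw [hκ, mul_one, sub_self] at h5
      exact h5
    have h5 := is_const_of_deriv_eq_zero
      (f := fun t : ℝ => I.mu (x1 + t • e) - fderiv ℝ I.mu x1 e * t)
      (fun t => (h1 t).differentiableAt) (fun t => (h1 t).deriv) t 0
    simp only [zero_smul, add_zero, mul_zero, sub_zero] at h5
    linarith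
  obtain ⟨B, hB⟩ := EndE_bdd I.mu I.musm.continuous I.muper
  have hzero : fderiv ℝ I.mu x1 e = 0 := by
    by_contra hk
    have h1 := hB (x1 + ((B + |I.mu x1| + 1) / fderiv ℝ I.mu x1 e) • e)
    rw [hlin, mul_div_cancel₀ _ hk] at h1
    have h2 := le_abs_self (I.mu x1 + (B + |I.mu x1| + 1))
    have h3 := neg_abs_le (I.mu x1)
    linarith
  obtain ⟨t, ht⟩ := hx1.2
  exact ht ((hκ t).trans hzero)

theorem EndE_dd_smul (c : ℂ) (a : Fin 2 → ℂ) (f : V2 → ℂ) (x : V2) :
    dd (fun i => c * a i) f x = c * dd a f x := by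
  unfold dd
  rw [Finset.mul_sum]
  refine Finset.sum_congr rfl fun i _ => ?_
  ring

theorem EndE_dd_const (c : ℂ) (a : Fin 2 → ℂ) {f : V2 → ℂ} {x : V2}
    (hf : DifferentiableAt ℝ f x) : dd a (fun y => c * f y) x = c * dd a f x := by
  unfold dd
  rw [fderiv_const_mul hf, Finset.mul_sum]
  refine Finset.sum_congr rfl fun i _ => ?_
  rw [ContinuousLinearMap.smul_apply, smul_eq_mul]
  ring

theorem EndE_alg (L M P Q mu X1 X2 m1 m2 F1 F2 F3 F4 u1 u2 A B : ℂ) (hL : L ≠ 0) (hM : M ≠ 0)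
    (hP : P ≠ 0) (hQ : Q ≠ 0)
    (h : mu * (X1 + X2) - (A * m1 * F1 + B * m2 * F2) - ((A + 1) * u1 * F3 + (B + 1) * u2 * F4)
      = 0) :
    (L * M)⁻¹ * mu * (L * ((P * (Q / M))⁻¹ * X1) + M * ((P / L * Q)⁻¹ * X2))
      - (A * (L * ((L * M)⁻¹ * m1)) * ((P * (Q / M))⁻¹ * F1)
        + B * (M * ((L * M)⁻¹ * m2)) * ((P / L * Q)⁻¹ * F2))
      - ((A + 1) * (L * u1) * ((P * L * Q)⁻¹ * F3) + (B + 1) * (M * u2) * ((P * (Q * M))⁻¹ * F4))
      = 0 := by
  have h1 : (L * M)⁻¹ * mu * (L * ((P * (Q / M))⁻¹ * X1) + M * ((P / L * Q)⁻¹ * X2))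
      - (A * (L * ((L * M)⁻¹ * m1)) * ((P * (Q / M))⁻¹ * F1)
        + B * (M * ((L * M)⁻¹ * m2)) * ((P / L * Q)⁻¹ * F2))
      - ((A + 1) * (L * u1) * ((P * L * Q)⁻¹ * F3) + (B + 1) * (M * u2) * ((P * (Q * M))⁻¹ * F4))
      = (P * Q)⁻¹ * (mu * (X1 + X2) - (A * m1 * F1 + B * m2 * F2)
        - ((A + 1) * u1 * F3 + (B + 1) * u2 * F4)) := by
    field_simp
  rw [h1, h, mul_zero]

/-- TASK Rescale.  Rescaling the complex momenta by `lam ≠ 0`:
`al' = lam al`, `mu' = mu / |lam|²`, `f' a b = f a b / (lam^a conj(lam)^b)` (integer powers).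
`eqn`: `dd al' = lam dd al`, `dd (cj al') = conj lam dd (cj al)`, and every term of `eqn` for the new
data is the old one divided by `lam^A conj(lam)^B`. -/
theorem rescale (I : ID) (lam : ℂ) (hlam : lam ≠ 0) :
    ∃ I' : ID, (∀ i, I'.al i = lam * I.al i) ∧ I'.n = I.n ∧ I'.U = I.U ∧
      (∀ x, I'.mu x = I.mu x / ‖lam‖ ^ 2) ∧ (∀ a b x, I'.f a b x ≠ 0 ↔ I.f a b x ≠ 0) := by
  have hM : (starRingEnd ℂ) lam ≠ 0 := by
    rwa [Ne, map_eq_zero]
  have hn2 : lam * (starRingEnd ℂ) lam = ((‖lam‖ ^ 2 : ℝ) : ℂ) := by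
    rw [Complex.mul_conj, Complex.normSq_eq_norm_sq]
  have hn0 : 0 < ‖lam‖ ^ 2 := by positivity
  have hcne : ∀ a b : ℤ, (lam ^ a * (starRingEnd ℂ) lam ^ b)⁻¹ ≠ 0 := fun a b =>
    inv_ne_zero (mul_ne_zero (zpow_ne_zero _ hlam) (zpow_ne_zero _ hM))
  have hcj : cj (fun i => lam * I.al i) = fun i => (starRingEnd ℂ) lam * cj I.al i := by
    funext i
    exact map_mul _ _ _
  have hmuc : (fun y => ((I.mu y / ‖lam‖ ^ 2 : ℝ) : ℂ)) =
      fun y => (lam * (starRingEnd ℂ) lam)⁻¹ * ((I.mu y : ℝ) : ℂ) := by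
    funext y
    rw [hn2, Complex.ofReal_div, div_eq_inv_mul]
  have hmd : Differentiable ℝ fun y => ((I.mu y : ℝ) : ℂ) := fun y =>
    (Complex.ofRealCLM.differentiableAt).comp y (I.musm.differentiable (by simp) y)
  refine ⟨{ al := fun i => lam * I.al i
            hal := ?_
            n := I.n
            mu := fun x => I.mu x / ‖lam‖ ^ 2
            U := I.U
            f := fun a b x => (lam ^ a * (starRingEnd ℂ) lam ^ b)⁻¹ * I.f a b x
            mupos := fun x => div_pos (I.mupos x) hn0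
            musm := I.musm.div_const _
            Usm := I.Usm
            muper := ?_
            Uper := I.Uper
            fsm := fun a b => contDiff_const.mul (I.fsm a b)
            fper := ?_
            f_neg := ?_
            f_neg' := ?_
            f_big := ?_
            conj := ?_
            par := ?_
            eqn := ?_ }, fun i => rfl, rfl, rfl, fun x => rfl, ?_⟩
  · have h1 : (starRingEnd ℂ) (lam * I.al 0) * (lam * I.al 1) =
        ((‖lam‖ ^ 2 : ℝ) : ℂ) * ((starRingEnd ℂ) (I.al 0) * I.al 1) := by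
      rw [← hn2, map_mul]
      ring
    rw [h1, Complex.im_ofReal_mul]
    exact mul_ne_zero hn0.ne' I.hal
  · intro x k
    change I.mu _ / _ = _
    rw [I.muper]
  · intro a b x k
    change _ * I.f a b _ = _
    rw [I.fper]
  · intro a b x h
    change _ * I.f a b x = 0
    rw [I.f_neg a b x h, mul_zero]
  · intro a b x h
    change _ * I.f a b x = 0
    rw [I.f_neg' a b x h, mul_zero]
  · intro a b x h
    change _ * I.f a b x = 0
    rw [I.f_big a b x h, mul_zero]
  · intro a b x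
    change (lam ^ b * (starRingEnd ℂ) lam ^ a)⁻¹ * I.f b a x =
      (starRingEnd ℂ) ((lam ^ a * (starRingEnd ℂ) lam ^ b)⁻¹ * I.f a b x)
    rw [map_mul, map_inv₀, map_mul, map_zpow₀, map_zpow₀, Complex.conj_conj, I.conj,
      mul_comm (lam ^ b)]
  · intro a b x h
    change _ * I.f a b x = 0
    rw [I.par a b x h, mul_zero]
  · intro A B x
    have hfd : ∀ a b, DifferentiableAt ℝ (I.f a b) x := fun a b =>
      (I.fsm a b).differentiable (by simp) x
    have h0 := I.eqn A B x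
    have h1 := EndE_alg lam ((starRingEnd ℂ) lam) (lam ^ A) ((starRingEnd ℂ) lam ^ B) (I.mu x)
      (dd I.al (I.f A (B - 1)) x) (dd (cj I.al) (I.f (A - 1) B) x) (ddr I.al I.mu x)
      (ddr (cj I.al) I.mu x) (I.f A (B - 1) x) (I.f (A - 1) B x) (I.f (A + 1) B x)
      (I.f A (B + 1) x) (ddr I.al I.U x) (ddr (cj I.al) I.U x) A B hlam hM
      (zpow_ne_zero _ hlam) (zpow_ne_zero _ hM) h0
    have hm : ((I.mu x / ‖lam‖ ^ 2 : ℝ) : ℂ) =
        (lam * (starRingEnd ℂ) lam)⁻¹ * ((I.mu x : ℝ) : ℂ) := congrFun hmuc x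
    have k1 : (starRingEnd ℂ) lam ^ (B - 1) = (starRingEnd ℂ) lam ^ B / (starRingEnd ℂ) lam := by
      rw [zpow_sub₀ hM, zpow_one]
    have k2 : lam ^ (A - 1) = lam ^ A / lam := by
      rw [zpow_sub₀ hlam, zpow_one]
    have k3 : lam ^ (A + 1) = lam ^ A * lam := by
      rw [zpow_add₀ hlam, zpow_one]
    have k4 : (starRingEnd ℂ) lam ^ (B + 1) = (starRingEnd ℂ) lam ^ B * (starRingEnd ℂ) lam := by
      rw [zpow_add₀ hM, zpow_one]
    simp only [ddr] at h1 ⊢
    rw [hcj, hmuc]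
    simp only [EndE_dd_smul]
    rw [EndE_dd_const _ _ (hfd A (B - 1)), EndE_dd_const _ _ (hfd (A - 1) B),
      EndE_dd_const _ _ (hmd x), EndE_dd_const _ _ (hmd x), hm, k1, k2, k3, k4]
    exact h1
  · intro a b x
    change (lam ^ a * (starRingEnd ℂ) lam ^ b)⁻¹ * I.f a b x ≠ 0 ↔ _
    constructor
    · intro h h1
      exact h (by rw [h1, mul_zero])
    · intro h
      exact mul_ne_zero (hcne a b) h

end Pool.W4b1b5d.H3
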