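import Pool.Agent.W_4b1b5d_h3.Final
import Pool.Agent.W_4b1b5d_h76.Reduction

set_option autoImplicit false

namespace Pool.W4b1b5d.H3

open Pool.Agent.U4b Matrix

/-- The bracket of `H = ½ μ pᵀGp + U` with the linear function `p(e)` vanishes at the points where
`dμ(e) = 0` and `dU(e) = 0`. -/
theorem lin_PB (G : Matrix (Fin 2) (Fin 2) ℝ) (mu U : V2 → ℝ)
    (hmu : ContDiff ℝ (⊤ : ℕ∞) mu) (hU : ContDiff ℝ (⊤ : ℕ∞) U)
    (e x p : V2) (h5 : fderiv ℝ mu x e = 0) (h6 : fderiv ℝ U x e = 0) :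
    PB (Ham (fun x => mu x • G) U) (fun _ p => ∑ j, e j * p j) x p = 0 := by
  have hmud : DifferentiableAt ℝ mu x := (hmu.differentiable (by simp)) x
  have hUd : DifferentiableAt ℝ U x := (hU.differentiable (by simp)) x
  have e1 : ∀ i : Fin 2, dX (fun _ p : V2 => ∑ j, e j * p j) x p i = 0 :=
    fun i => deriv_const _ _
  have e2 : ∀ i : Fin 2, dP (fun _ p : V2 => ∑ j, e j * p j) x p i = e i := by
    intro i
    rw [dP]
    simp only [Fin.sum_univ_two]
    fin_cases i
    · have h4 : (fun t => e 0 * Function.update p (0 : Fin 2) t 0 +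
          e 1 * Function.update p (0 : Fin 2) t 1) = fun t => e 0 * t + e 1 * p 1 := by
        funext t
        simp
      show deriv (fun t => e 0 * Function.update p (0 : Fin 2) t 0 +
          e 1 * Function.update p (0 : Fin 2) t 1) (p 0) = e 0
      rw [h4]
      have h5 : HasDerivAt (fun t : ℝ => e 0 * t + e 1 * p 1) (e 0 * 1) (p 0) :=
        ((hasDerivAt_id (p 0)).const_mul (e 0)).add_const _
      rw [h5.deriv, mul_one]
    · have h4 : (fun t => e 0 * Function.update p (1 : Fin 2) t 0 +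
          e 1 * Function.update p (1 : Fin 2) t 1) = fun t => e 0 * p 0 + e 1 * t := by
        funext t
        simp
      show deriv (fun t => e 0 * Function.update p (1 : Fin 2) t 0 +
          e 1 * Function.update p (1 : Fin 2) t 1) (p 1) = e 1
      rw [h4]
      have h5 : HasDerivAt (fun t : ℝ => e 0 * p 0 + e 1 * t) (e 1 * 1) (p 1) :=
        ((hasDerivAt_id (p 1)).const_mul (e 1)).const_add _
      rw [h5.deriv, mul_one]
  obtain ⟨Q, hQ⟩ : ∃ Q : ℝ, Q = (1 / 2 : ℝ) * ∑ i, ∑ j, G i j * p i * p j := ⟨_, rfl⟩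
  have hH' : ∀ y, Ham (fun x => mu x • G) U y p = Q * mu y + U y := by
    intro y
    rw [Ham, hQ]
    congr 1
    simp only [Fin.sum_univ_two, Matrix.smul_apply, smul_eq_mul]
    ring
  have e3 : ∀ i : Fin 2, dX (Ham (fun x => mu x • G) U) x p i =
      Q * fderiv ℝ mu x (Pi.single i 1) + fderiv ℝ U x (Pi.single i 1) := by
    intro i
    rw [dX]
    have h4 : (fun t => Ham (fun x => mu x • G) U (Function.update x i t) p) =
        fun t => Q * mu (Function.update x i t) + U (Function.update x i t) := funext fun t => hH' _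
    rw [h4]
    exact (((Final_upd x hmud i).const_mul Q).add (Final_upd x hUd i)).deriv
  rw [Final_lin] at h5 h6
  simp only [smul_eq_mul] at h5 h6
  rw [PB, Fin.sum_univ_two, e1 0, e1 1, e2 0, e2 1, e3 0, e3 1]
  linear_combination (-Q) * h5 - h6

/-- Part (i) for all metrics: the vector field. -/
theorem finalG (ginv : V2 → Matrix (Fin 2) (Fin 2) ℝ) (U : V2 → ℝ)
    (hpos : ∀ x, (ginv x).PosDef) (hsm : ∀ i j, ContDiff ℝ (⊤ : ℕ∞) (fun x => ginv x i j))
    (hper : ∀ (x : V2) (k : Fin 2 → ℤ), ginv (x + fun i => (k i : ℝ)) = ginv x)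
    (hU : ContDiff ℝ (⊤ : ℕ∞) U)
    (hUp : ∀ (x : V2) (k : Fin 2 → ℤ), U (x + fun i => (k i : ℝ)) = U x)
    (hUn : ∃ x y, U x ≠ U y)
    (hodd : ∃ (F : V2 → MvPolynomial (Fin 2) ℝ) (n : ℕ), Agent.U4b.IsInt (Ham ginv U) F ∧ Odd n ∧
      (∀ x, (F x).totalDegree ≤ n) ∧ (∃ x, (F x).totalDegree = n)) :
    ∃ V : V2 → V2, ContDiff ℝ (⊤ : ℕ∞) V ∧
      (∀ (x : V2) (k : Fin 2 → ℤ), V (x + fun i => (k i : ℝ)) = V x) ∧ (∀ x, V x ≠ 0) ∧
      ∀ x ∈ closure {y | fderiv ℝ U y ≠ 0}, ∀ p,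
        PB (Ham ginv U) (fun x p => ∑ i, V x i * p i) x p = 0 := by
  obtain ⟨Φ, Ψ, μ, G, U', hd, h1, h2, h3, h4, h5, h6, h7, hUU, h8, h9, h10⟩ :=
    uniformisation hpos hsm hper hU hUp hUn
  obtain ⟨F, n, hF, hn, hle, x0, hx0⟩ := hodd
  have hF' := hd.isInt_push h8 h9 h10 hF
  obtain ⟨I, hIn, hIU, hImu, hIF⟩ := toID G h4 μ U' h2 h1 h5 h3 h6 (Ham (fun x => μ x • G) U')
    (fun x p => by rw [Ham]; rfl) (push Φ Ψ F) hF'.1 hF'.2.1 n hn.pos
    (fun y => (push_degree_le Φ Ψ F y).trans (hle _)) ⟨Φ x0, by rw [hd.push_degree, hx0]⟩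
    hF'.2.2.2
  obtain ⟨e, he0, heU, hemu⟩ := mainI I (hIn ▸ hn) hIF
  rw [hIU] at heU hemu
  rw [hImu] at hemu
  have hUd : Differentiable ℝ U' := h5.differentiable (by simp)
  have hΦd : Differentiable ℝ Φ := hd.sm.differentiable (by simp)
  -- the exceptional set
  have hcl : ∀ y ∈ closure {y | fderiv ℝ U' y ≠ 0}, fderiv ℝ μ y e = 0 := by
    have hcont : Continuous fun x => fderiv ℝ μ x e :=
      (h1.continuous_fderiv (by simp)).clm_apply continuous_const
    have hclosed : IsClosed {y | fderiv ℝ μ y e = 0} := isClosed_eq hcont continuous_const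
    exact fun y hy => (closure_minimal (fun z hz => hemu z hz) hclosed) hy
  have hmap : ∀ x ∈ closure {y | fderiv ℝ U y ≠ 0}, Φ x ∈ closure {y | fderiv ℝ U' y ≠ 0} := by
    intro x hx
    refine map_mem_closure hΦd.continuous hx ?_
    intro y hy hcon
    apply hy
    have h11 : U = fun x => U' (Φ x) := funext fun x => (hUU x).symm
    have h12 : HasFDerivAt U ((fderiv ℝ U' (Φ y)).comp (fderiv ℝ Φ y)) y := by
      rw [h11]
      exact (hUd (Φ y)).hasFDerivAt.comp y (hΦd y).hasFDerivAt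
    rw [h12.fderiv, hcon]
    exact ContinuousLinearMap.zero_comp _
  obtain ⟨V, hV⟩ : ∃ V : V2 → V2, V = fun x => jacM Ψ (Φ x) *ᵥ e := ⟨_, rfl⟩
  have hsmV : ∀ i j, ContDiff ℝ (⊤ : ℕ∞) (fun x => jacM Ψ (Φ x) i j) := fun i j =>
    (contDiff_jacM hd.sm' i j).comp hd.sm
  have hVsm : ContDiff ℝ (⊤ : ℕ∞) V := by
    rw [hV, contDiff_pi]
    intro i
    simp only [Matrix.mulVec, dotProduct]
    exact ContDiff.sum fun j _ => (hsmV i j).mul contDiff_const
  refine ⟨V, hVsm, ?_, ?_, ?_⟩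
  · intro x k
    rw [hV]
    show jacM Ψ (Φ (x + fun i => (k i : ℝ))) *ᵥ e = jacM Ψ (Φ x) *ᵥ e
    rw [hd.eqv, hd.symm.jac_periodic]
  · intro x hx
    apply he0
    have h11 := congrArg (fun w => jacM Φ x *ᵥ w) hx
    simp only [hV, Matrix.mulVec_mulVec, hd.symm.jac_mul, Matrix.one_mulVec,
      Matrix.mulVec_zero] at h11
    exact h11
  · intro x hx p
    have hB : Differentiable ℝ (fun z : V2 × V2 => (fun (_ : V2) (p : V2) => ∑ j, e j * p j) z.1 z.2) := by
      fun_prop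
    have hB' : Differentiable ℝ (fun z : V2 × V2 => (fun (x : V2) (p : V2) => ∑ j, V x j * p j)
        z.1 z.2) := by
      have hVd : ∀ j, Differentiable ℝ (fun z : V2 × V2 => V z.1 j) := fun j =>
        (((contDiff_apply ℝ ℝ j).comp hVsm).differentiable (by simp)).comp differentiable_fst
      show Differentiable ℝ (fun z : V2 × V2 => ∑ j, V z.1 j * z.2 j)
      refine Differentiable.fun_sum fun j _ => (hVd j).mul ?_
      fun_prop
    have hrel : ∀ (y q : V2), (fun (x : V2) (p : V2) => ∑ j, V x j * p j) (Ψ y) q =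
        (fun (_ : V2) (p : V2) => ∑ j, e j * p j) y (q ᵥ* jacM Ψ y) := by
      intro y q
      simp only [hV, hd.right, Fin.sum_univ_two, Matrix.mulVec, Matrix.vecMul, dotProduct]
      ring
    have h12 := PB_lift (B := fun (_ : V2) (p : V2) => ∑ j, e j * p j)
      (B' := fun (x : V2) (p : V2) => ∑ j, V x j * p j) hd.sm' h10 h9 hB hB' (hd.rel_symm h8) hrel (Φ x) p
    rw [hd.left] at h12
    rw [h12]
    have hx' := hmap x hx
    refine lin_PB G μ U' h1 h5 e (Φ x) _ (hcl _ hx') (heU _)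

/-- If `U` is not constant on any nonempty open set, `{dU ≠ 0}` is dense. -/
theorem closure_univ (U : V2 → ℝ) (hU : ContDiff ℝ (⊤ : ℕ∞) U)
    (hd : ∀ O : Set V2, IsOpen O → O.Nonempty → ∃ x ∈ O, ∃ y ∈ O, U x ≠ U y) (x : V2) :
    x ∈ closure {y | fderiv ℝ U y ≠ 0} := by
  by_contra hx
  have hO : IsOpen (closure {y | fderiv ℝ U y ≠ 0})ᶜ := isClosed_closure.isOpen_compl
  obtain ⟨r, hr, hball⟩ := Metric.isOpen_iff.1 hO x hx
  obtain ⟨y, hy, z, hz, hyz⟩ := hd (Metric.ball x r) Metric.isOpen_ball ⟨x, Metric.mem_ball_self hr⟩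
  apply hyz
  refine Metric.isOpen_ball.is_const_of_fderiv_eq_zero (𝕜 := ℝ)
    (convex_ball x r).isPreconnected (hU.differentiable (by simp)).differentiableOn ?_ hy hz
  intro w hw
  by_contra hcon
  exact hball hw (subset_closure hcon)

theorem eval_lin (v p : V2) : MvPolynomial.eval p (∑ j, MvPolynomial.C (v j) * MvPolynomial.X j) =
    ∑ j, v j * p j := by
  simp

theorem deg_lin (v : V2) (hv : v ≠ 0) : (∑ j, MvPolynomial.C (v j) * MvPolynomial.X j :
    MvPolynomial (Fin 2) ℝ).totalDegree = 1 := by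
  have h1 : (∑ j, MvPolynomial.C (v j) * MvPolynomial.X j :
      MvPolynomial (Fin 2) ℝ).totalDegree ≤ 1 := by
    apply MvPolynomial.totalDegree_finsetSum_le
    intro j _
    refine (MvPolynomial.totalDegree_mul _ _).trans ?_
    rw [MvPolynomial.totalDegree_C, MvPolynomial.totalDegree_X]
  refine le_antisymm h1 ?_
  by_contra hcon
  have h2 : (∑ j, MvPolynomial.C (v j) * MvPolynomial.X j :
      MvPolynomial (Fin 2) ℝ).totalDegree = 0 := by omega
  rw [MvPolynomial.totalDegree_eq_zero_iff_eq_C] at h2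
  apply hv
  funext i
  have h3 := eval_lin v (Pi.single i 1)
  have h4 := eval_lin v 0
  rw [h2, MvPolynomial.eval_C] at h3 h4
  rw [h4] at h3
  simp [Pi.single_apply] at h3
  simpa using h3.symm

theorem dP_lin (V : V2 → V2) (x p : V2) (i : Fin 2) :
    deriv (fun t => ∑ j, V x j * (Function.update p i t) j) (p i) = V x i := by
  fin_cases i
  · have h4 : (fun t => ∑ j, V x j * (Function.update p (0 : Fin 2) t) j) =
        fun t => V x 0 * t + V x 1 * p 1 := by
      funext t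
      simp [Fin.sum_univ_two]
    show deriv (fun t => ∑ j, V x j * (Function.update p (0 : Fin 2) t) j) (p 0) = V x 0
    rw [h4]
    have h5 : HasDerivAt (fun t : ℝ => V x 0 * t + V x 1 * p 1) (V x 0 * 1) (p 0) :=
      ((hasDerivAt_id (p 0)).const_mul (V x 0)).add_const _
    rw [h5.deriv, mul_one]
  · have h4 : (fun t => ∑ j, V x j * (Function.update p (1 : Fin 2) t) j) =
        fun t => V x 0 * p 0 + V x 1 * t := by
      funext t
      simp [Fin.sum_univ_two]
    show deriv (fun t => ∑ j, V x j * (Function.update p (1 : Fin 2) t) j) (p 1) = V x 1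
    rw [h4]
    have h5 : HasDerivAt (fun t : ℝ => V x 0 * p 0 + V x 1 * t) (V x 1 * 1) (p 1) :=
      ((hasDerivAt_id (p 1)).const_mul (V x 1)).const_add _
    rw [h5.deriv, mul_one]

end Pool.W4b1b5d.H3
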