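import Pool.Agent.W_4b1b5d_h3.Symm
import Pool.Agent.W_4b1b5d_h3.LkDer

set_option autoImplicit false

namespace Pool.W4b1b5d.H3

theorem Grow_per_bdd {f : V2 → ℂ} (hc : Continuous f) (hp : Per f) :
    ∃ M : ℝ, ∀ x, ‖f x‖ ≤ M := by
  obtain ⟨M, hM⟩ := (isCompact_Icc (a := (0 : V2)) (b := 1)).exists_bound_of_continuousOn
    hc.continuousOn
  refine ⟨M, fun x => ?_⟩
  rw [← hp x (fun i => -⌊x i⌋)]
  refine hM _ ⟨fun i => ?_, fun i => ?_⟩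
  · simp only [Pi.zero_apply, Pi.add_apply, Int.cast_neg]
    linarith [Int.floor_le (x i)]
  · simp only [Pi.one_apply, Pi.add_apply, Int.cast_neg]
    linarith [Int.lt_floor_add_one (x i)]

theorem Grow_main (d : ℕ) (u : ℕ → ℂ) (k : ℕ) (M F : ℝ) (hM0 : 0 ≤ M)
    (hM : ∀ j, j ≤ 2 * d → ‖u j‖ ≤ M) (hF : ∀ j : ℕ, j < 2 * d → ‖fall ((j : ℤ) - d) k‖ ≤ F)
    (p : ℂ) (hp : 1 ≤ ‖p‖) :
    ‖Lk d u k p - u (2 * d) * fall d k * p ^ ((d : ℤ) - k)‖ ≤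
      (2 * d : ℝ) * ((M * F) * ‖p‖ ^ ((d : ℤ) - k - 1)) := by
  unfold Lk
  rw [Finset.sum_range_succ]
  have e1 : (((2 * d : ℕ) : ℤ) - d) = d := by push_cast; ring
  rw [e1, add_sub_cancel_right]
  have h1 : ∀ j ∈ Finset.range (2 * d),
      ‖u j * fall ((j : ℤ) - d) k * p ^ ((j : ℤ) - d - k)‖ ≤ (M * F) * ‖p‖ ^ ((d : ℤ) - k - 1) := by
    intro j hj
    rw [Finset.mem_range] at hj
    rw [norm_mul, norm_mul, norm_zpow]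
    have h2 := hM j hj.le
    have h3 := hF j hj
    have h4 : ‖p‖ ^ ((j : ℤ) - d - k) ≤ ‖p‖ ^ ((d : ℤ) - k - 1) :=
      zpow_le_zpow_right₀ hp (by omega)
    have h5 : 0 ≤ F := (norm_nonneg _).trans h3
    exact mul_le_mul (mul_le_mul h2 h3 (norm_nonneg _) hM0) h4 (by positivity) (by positivity)
  refine (norm_sum_le_of_le _ h1).trans ?_
  rw [Finset.sum_const, Finset.card_range, nsmul_eq_mul]
  push_cast
  exact le_rfl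

theorem Grow_fall0 (s : ℤ) : fall s 0 = 1 := by
  unfold fall
  rw [Finset.prod_range_zero]

theorem Grow_fall1 (s : ℤ) : fall s 1 = s := by
  unfold fall
  rw [Finset.prod_range_one]
  simp

namespace LD

/-- TASK Grow.  The coefficients are continuous and periodic, hence bounded (`[0,1]²` is compact). -/
theorem c_bdd (D : LD) : ∃ M : ℝ, ∀ j, j ≤ 2 * D.d → ∀ x, ‖D.c j x‖ ≤ M := by
  have h : ∀ j, ∃ M : ℝ, ∀ x, ‖D.c j x‖ ≤ M :=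
    fun j => Grow_per_bdd (D.csm j).continuous (D.cper j)
  choose M hM using h
  have h0 : ∀ j, 0 ≤ M j := fun j => (norm_nonneg _).trans (hM j 0)
  refine ⟨∑ j ∈ Finset.range (2 * D.d + 1), M j, fun j hj x => (hM j x).trans ?_⟩
  exact Finset.single_le_sum (f := M) (fun i _ => h0 i) (Finset.mem_range.2 (by omega))

theorem Grow_c (D : LD) : ∃ M : ℝ, 0 ≤ M ∧ ∀ j, j ≤ 2 * D.d → ∀ x, ‖D.c j x‖ ≤ M := by
  obtain ⟨M, hM⟩ := c_bdd D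
  exact ⟨M, (norm_nonneg _).trans (hM 0 (by omega) 0), hM⟩

/-- `|R(x,p)| → ∞` as `|p| → ∞`, uniformly in `x`:  for `‖p‖ ≥ 1`,
`‖R(x,p) - a p^d‖ ≤ (2d) M ‖p‖^(d-1)`, with `a ≠ 0` and `d ≥ 1`. -/
theorem R_large (D : LD) (M : ℝ) : ∃ ρ : ℝ, 0 < ρ ∧ ∀ (x : V2) (p : ℂ), ρ ≤ ‖p‖ →
    M ≤ ‖D.R 0 x p‖ := by
  obtain ⟨B, hB0, hB⟩ := Grow_c D
  have ha : 0 < ‖D.a‖ := norm_pos_iff.2 D.ha
  refine ⟨max 1 ((|M| + 2 * D.d * B) / ‖D.a‖), lt_max_of_lt_left one_pos, fun x p hp => ?_⟩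
  have hp1 : 1 ≤ ‖p‖ := (le_max_left _ _).trans hp
  have hp0 : 0 < ‖p‖ := by linarith
  have hp2 : |M| + 2 * D.d * B ≤ ‖p‖ * ‖D.a‖ := by
    rw [← div_le_iff₀ ha]
    exact (le_max_right _ _).trans hp
  have h1 := Grow_main D.d (fun j => D.c j x) 0 B 1 hB0 (fun j hj => hB j hj x)
    (fun j _ => by rw [Grow_fall0, norm_one]) p hp1
  rw [Grow_fall0, mul_one, mul_one, D.top, Nat.cast_zero, sub_zero] at h1
  have h2 : ‖D.a * p ^ ((D.d : ℤ))‖ ≤ ‖D.R 0 x p‖ +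
      ‖D.R 0 x p - D.a * p ^ ((D.d : ℤ))‖ := by
    have h3 := norm_sub_le (D.R 0 x p) (D.R 0 x p - D.a * p ^ ((D.d : ℤ)))
    rwa [sub_sub_cancel] at h3
  have h4 : ‖D.a * p ^ ((D.d : ℤ))‖ = ‖D.a‖ * ‖p‖ * ‖p‖ ^ ((D.d : ℤ) - 1) := by
    rw [norm_mul, norm_zpow, zpow_sub_one₀ hp0.ne']
    field_simp
  have h5 : (1 : ℝ) ≤ ‖p‖ ^ ((D.d : ℤ) - 1) := by
    apply one_le_zpow₀ hp1
    have := D.hd
    omega
  have h6 : ‖D.R 0 x p - D.a * p ^ ((D.d : ℤ))‖ ≤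
      (2 * D.d : ℝ) * (B * ‖p‖ ^ ((D.d : ℤ) - 1)) := h1
  have h7 : |M| ≤ (‖p‖ * ‖D.a‖ - 2 * D.d * B) * 1 := by linarith
  have h8 : (‖p‖ * ‖D.a‖ - 2 * D.d * B) * 1 ≤
      (‖p‖ * ‖D.a‖ - 2 * D.d * B) * ‖p‖ ^ ((D.d : ℤ) - 1) := by
    refine mul_le_mul_of_nonneg_left h5 ?_
    linarith [abs_nonneg M]
  have h9 := le_abs_self M
  nlinarith

/-- `R_p(x,p) ≠ 0` for `|p|` large, uniformly in `x`: for `‖p‖ ≥ 1`,
`‖R_p(x,p) - d a p^(d-1)‖ ≤ (2d) d M ‖p‖^(d-2)`  (real or integer exponent). -/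
theorem Rp_ne (D : LD) : ∃ ρ : ℝ, 0 < ρ ∧ ∀ (x : V2) (p : ℂ), ρ ≤ ‖p‖ → D.R 1 x p ≠ 0 := by
  obtain ⟨B, hB0, hB⟩ := Grow_c D
  have ha : 0 < ‖D.a‖ := norm_pos_iff.2 D.ha
  have hd : (0 : ℝ) < D.d := by exact_mod_cast D.hd
  refine ⟨max 1 (2 * D.d * B / ‖D.a‖ + 1), lt_max_of_lt_left one_pos, fun x p hp h0 => ?_⟩
  have hp1 : 1 ≤ ‖p‖ := (le_max_left _ _).trans hp
  have hp0 : 0 < ‖p‖ := by linarith
  have hp2 : 2 * D.d * B / ‖D.a‖ + 1 ≤ ‖p‖ := (le_max_right _ _).trans hp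
  have hp3 : 2 * D.d * B + ‖D.a‖ ≤ ‖p‖ * ‖D.a‖ := by
    have h := mul_le_mul_of_nonneg_right hp2 ha.le
    rw [add_mul, div_mul_cancel₀ _ ha.ne', one_mul] at h
    exact h
  have h1 := Grow_main D.d (fun j => D.c j x) 1 B D.d hB0 (fun j hj => hB j hj x)
    (fun j hj => by
      rw [Grow_fall1, Complex.norm_intCast]
      have h2 : |((j : ℤ) - D.d)| ≤ D.d := by
        rw [abs_le]
        omega
      have h3 : ((|((j : ℤ) - D.d)| : ℤ) : ℝ) ≤ ((D.d : ℤ) : ℝ) := Int.cast_le.2 h2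
      rw [Int.cast_abs] at h3
      exact_mod_cast h3) p hp1
  rw [Grow_fall1, D.top] at h1
  have h2 : Lk D.d (fun j => D.c j x) 1 p = 0 := h0
  rw [h2, zero_sub, norm_neg, norm_mul, norm_mul, norm_zpow, Complex.norm_intCast] at h1
  have h3 : |(((D.d : ℤ)) : ℝ)| = D.d := by
    rw [Int.cast_natCast, abs_of_pos hd]
  rw [h3] at h1
  have h4 : ‖p‖ ^ ((D.d : ℤ) - (1 : ℕ)) = ‖p‖ * ‖p‖ ^ ((D.d : ℤ) - (1 : ℕ) - 1) := by
    rw [zpow_sub_one₀ hp0.ne']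
    field_simp
  rw [h4] at h1
  have h5 : 0 < ‖p‖ ^ ((D.d : ℤ) - (1 : ℕ) - 1) := zpow_pos hp0 _
  have h6 : (D.d * (‖p‖ * ‖D.a‖ - 2 * D.d * B)) * ‖p‖ ^ ((D.d : ℤ) - (1 : ℕ) - 1) ≤ 0 := by
    linarith
  have h7 : 0 < D.d * (‖p‖ * ‖D.a‖ - 2 * D.d * B) := by
    apply mul_pos hd
    linarith
  have h8 := mul_pos h7 h5
  linarith

/-- `R` is bounded on the part `|p| ≤ ρ` of `Out`: by `R_sum` and `|l|^j ‖p‖^{-j} ≤ ‖p‖^j`. -/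
theorem R_bdd (D : LD) (ρ : ℝ) : ∃ M : ℝ, ∀ (x : V2) (p : ℂ), |D.l x| < ‖p‖ ^ 2 → ‖p‖ ≤ ρ →
    ‖D.R 0 x p‖ ≤ M := by
  obtain ⟨B, hB0, hB⟩ := Grow_c D
  refine ⟨B + D.d * (2 * B * (max 1 ρ) ^ D.d), fun x p hl hp => ?_⟩
  have hp0 : 0 < ‖p‖ := by
    rcases (norm_nonneg p).eq_or_lt with h | h
    · rw [← h] at hl
      have := abs_nonneg (D.l x)
      norm_num at hl
      linarith
    · exact h
  rw [R_sum]
  have hQ : 1 ≤ max 1 ρ := le_max_left _ _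
  have h1 : ∀ j ∈ Finset.Icc 1 D.d,
      ‖D.c (D.d + j) x * p ^ j
        + (D.l x : ℂ) ^ j * (starRingEnd ℂ) (D.c (D.d + j) x) * (p ^ j)⁻¹‖ ≤
        2 * B * (max 1 ρ) ^ D.d := by
    intro j hj
    rw [Finset.mem_Icc] at hj
    have hc := hB (D.d + j) (by omega) x
    have hpj : ‖p‖ ^ j ≤ (max 1 ρ) ^ D.d := by
      calc ‖p‖ ^ j ≤ (max 1 ρ) ^ j := by
            apply pow_le_pow_left₀ hp0.le
            exact hp.trans (le_max_right _ _)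
        _ ≤ (max 1 ρ) ^ D.d := pow_le_pow_right₀ hQ hj.2
    have t1 : ‖D.c (D.d + j) x * p ^ j‖ ≤ B * (max 1 ρ) ^ D.d := by
      rw [norm_mul, norm_pow]
      exact mul_le_mul hc hpj (by positivity) hB0
    have t2 : ‖(D.l x : ℂ) ^ j * (starRingEnd ℂ) (D.c (D.d + j) x) * (p ^ j)⁻¹‖ ≤
        B * (max 1 ρ) ^ D.d := by
      rw [norm_mul, norm_mul, norm_pow, norm_inv, norm_pow, Complex.norm_real, Real.norm_eq_abs,
        RCLike.norm_conj]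
      have h3 : |D.l x| ^ j * (‖p‖ ^ j)⁻¹ ≤ ‖p‖ ^ j := by
        rw [← div_eq_mul_inv, div_le_iff₀ (by positivity), ← pow_add, ← two_mul, pow_mul]
        exact pow_le_pow_left₀ (abs_nonneg _) hl.le j
      calc |D.l x| ^ j * ‖D.c (D.d + j) x‖ * (‖p‖ ^ j)⁻¹
          = ‖D.c (D.d + j) x‖ * (|D.l x| ^ j * (‖p‖ ^ j)⁻¹) := by ring
        _ ≤ B * (max 1 ρ) ^ D.d :=
            mul_le_mul hc (h3.trans hpj) (by positivity) hB0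
    refine (norm_add_le _ _).trans ?_
    linarith
  refine (norm_add_le _ _).trans (add_le_add (hB D.d (by omega) x) ?_)
  refine (norm_sum_le_of_le _ h1).trans ?_
  rw [Finset.sum_const, Nat.card_Icc, nsmul_eq_mul, Nat.add_sub_cancel]

/-- Critical values in `Out` are bounded (from `Rp_ne` and `R_bdd`). -/
theorem crit_bdd (D : LD) : ∃ C : ℝ, 0 < C ∧ ∀ (x : V2) (p : ℂ), |D.l x| < ‖p‖ ^ 2 →
    D.R 1 x p = 0 → ‖(D.R 0 x p) ^ 2‖ ^ 2 < C := by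
  obtain ⟨ρ, -, hρ⟩ := Rp_ne D
  obtain ⟨M, hM⟩ := R_bdd D ρ
  refine ⟨|M| ^ 4 + 1, by positivity, fun x p hl h0 => ?_⟩
  have h1 : ‖p‖ ≤ ρ := by
    by_contra hcon
    push Not at hcon
    exact hρ x p hcon.le h0
  have h2 := hM x p hl h1
  have h3 : ‖D.R 0 x p‖ ≤ |M| := h2.trans (le_abs_self M)
  have h4 : ‖D.R 0 x p‖ ^ 4 ≤ |M| ^ 4 := pow_le_pow_left₀ (norm_nonneg _) h3 4
  rw [norm_pow, ← pow_mul]
  norm_num
  linarith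

end LD

end Pool.W4b1b5d.H3
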