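import Pool.Agent.W_4b1b5d_h3.CDcalc

set_option autoImplicit false

namespace Pool.W4b1b5d.H3

open MeasureTheory Set

/-- The cell over the unit square with corner `y`. -/
def Cell (y : V2) : Set (V2 × ℂ) := (Icc y (fun i => y i + 1)) ×ˢ (univ : Set ℂ)

/-- A continuous function on `V2 × ℂ` which vanishes for large `p` is integrable on the cell. -/
theorem integrableOn_cell {E : Type*} [NormedAddCommGroup E] (f : V2 × ℂ → E) (hf : Continuous f)
    (ρ : ℝ) (hρ : ∀ z : V2 × ℂ, ρ ≤ ‖z.2‖ → f z = 0) (y : V2) :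
    IntegrableOn f (Cell y) := by
  have hK : IsCompact ((Icc y (fun i => y i + 1)) ×ˢ (Metric.closedBall (0 : ℂ) ρ)) :=
    isCompact_Icc.prod (isCompact_closedBall 0 ρ)
  refine (hf.continuousOn.integrableOn_compact hK).of_forall_sdiff_eq_zero
    (measurableSet_Icc.prod MeasurableSet.univ) fun z hz => ?_
  apply hρ
  by_contra h
  exact hz.2 ⟨hz.1.1, by simpa using (not_le.1 h).le⟩

theorem IBP_x (g : V2 → ℂ) (hg : ContDiff ℝ 1 g)
    (hper : ∀ (x : V2) (k : Fin 2 → ℤ), g (x + fun i => (k i : ℝ)) = g x) (y v : V2) :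
    ∫ x in Icc y (fun i => y i + 1), fderiv ℝ g x v = 0 := by
  have hle : y ≤ fun i => y i + 1 := fun i => by simp
  have hc : Continuous fun x => fderiv ℝ g x v :=
    (hg.continuous_fderiv one_ne_zero).clm_apply continuous_const
  have hsum : ∀ x, ∑ i : Fin 2, ((v i • fderiv ℝ g x : V2 →L[ℝ] ℂ)) (Pi.single i 1) =
      fderiv ℝ g x v := by
    intro x
    conv_rhs => rw [← Finset.univ_sum_single v]
    rw [map_sum]
    refine Finset.sum_congr rfl fun i _ => ?_
    have h1 : (Pi.single i (v i) : V2) = v i • Pi.single i 1 := by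
      rw [← Pi.single_smul, smul_eq_mul, mul_one]
    rw [h1, map_smul]
    rfl
  have h := integral_divergence_of_hasFDerivAt_off_countable' y (fun i => y i + 1) hle
    (fun i x => v i • g x) (fun i x => v i • fderiv ℝ g x) ∅ countable_empty
    (fun i => (hg.continuous.const_smul (v i)).continuousOn)
    (fun x _ i => ((hg.differentiable one_ne_zero) x).hasFDerivAt.const_smul (v i))
    (by
      simp only [hsum]
      exact hc.continuousOn.integrableOn_compact isCompact_Icc)
  simp only [hsum] at h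
  rw [h]
  refine Finset.sum_eq_zero fun i _ => ?_
  rw [sub_eq_zero]
  refine setIntegral_congr_fun measurableSet_Icc fun x _ => ?_
  have h2 : (i.insertNth (y i + 1) x : V2) =
      (i.insertNth (y i) x : V2) + fun j => (((if j = i then 1 else 0 : ℤ)) : ℝ) := by
    funext j
    by_cases hj : j = i
    · subst hj
      simp
    · obtain ⟨k, rfl⟩ := Fin.exists_succAbove_eq hj
      simp
  simp only [h2, hper]

theorem IBP_p (g : ℂ → ℂ) (hg : ContDiff ℝ 1 g) (hs : HasCompactSupport g) (v : ℂ) :
    ∫ p, fderiv ℝ g p v = 0 := by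
  have hc : Continuous fun x => fderiv ℝ g x v :=
    (hg.continuous_fderiv one_ne_zero).clm_apply continuous_const
  have hs' : HasCompactSupport fun x => fderiv ℝ g x v := hs.fderiv_apply ℝ v
  have h := integral_mul_fderiv_eq_neg_fderiv_mul_of_integrable (μ := volume)
    (f := fun _ : ℂ => (1 : ℂ)) (g := g) (v := v) (by simp)
    (by simpa using hc.integrable_of_hasCompactSupport hs')
    (by simpa using hg.continuous.integrable_of_hasCompactSupport hs)
    (fun x _ => differentiableAt_const _) (fun x _ => (hg.differentiable one_ne_zero) x)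
  simpa using h

theorem IBP_van (f : V2 × ℂ → ℂ) (ρ : ℝ) (hρ : ∀ z : V2 × ℂ, ρ ≤ ‖z.2‖ → f z = 0)
    (z : V2 × ℂ) (hz : ρ + 1 ≤ ‖z.2‖) : fderiv ℝ f z = 0 := by
  have h1 : f =ᶠ[nhds z] fun _ => 0 := by
    have h2 : ∀ᶠ w : V2 × ℂ in nhds z, ρ < ‖w.2‖ := by
      have h3 : IsOpen {w : V2 × ℂ | ρ < ‖w.2‖} := isOpen_lt (by fun_prop) (by fun_prop)
      exact h3.mem_nhds (by change ρ < ‖z.2‖; linarith)
    filter_upwards [h2] with w hw
    exact hρ w hw.le
  rw [h1.fderiv_eq]
  simp

/-- TASK IBP.  The integral of a directional derivative of a `C¹` function which is periodic in `x`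
and vanishes for large `p` is zero.

Proof.  `v = (v1, 0) + (0, v2)`, so by linearity treat the two directions.
For `(0, v2)`: for fixed `x` the function `p ↦ f (x,p)` is `C¹` with compact support and the integral
over `ℂ` of its derivative in direction `v2` vanishes
(`integral_fderiv_eq_zero`-type statement; in Mathlib e.g.
`integral_bilinear_hasLineDerivAt_right_eq_neg_left_of_integrable` with one function constant on the
support, or reduce `ℂ ≃ ℝ²` and use Fubini plus `integral_eq_zero_of_hasDerivAt_of_integrable`);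
then integrate over `x`.
For `(v1, 0)`: for fixed `p`, `v1 = v1 0 • e0 + v1 1 • e1`; integrate over the coordinate `i` first:
`∫_{y i}^{y i + 1} ∂_i f dx_i = f(.., y i + 1, ..) - f(.., y i, ..) = 0` by periodicity.
(One can use `MeasureTheory.integral_prod`, the measurable equivalence `(Fin 2 → ℝ) ≃ᵐ ℝ × ℝ`
(`MeasurableEquiv.finTwoArrow`, `volume_preserving_finTwoArrow`), and
`intervalIntegral.integral_eq_sub_of_hasDerivAt`.  All functions are continuous with
support in the compact set `Icc × closedBall 0 ρ`, hence integrable.) -/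
theorem ibp_real (f : V2 × ℂ → ℂ) (hf : ContDiff ℝ 1 f)
    (hper : ∀ (z : V2 × ℂ) (k : Fin 2 → ℤ), f (z.1 + fun i => (k i : ℝ), z.2) = f z)
    (ρ : ℝ) (hρ : ∀ z : V2 × ℂ, ρ ≤ ‖z.2‖ → f z = 0) (y : V2) (v : V2 × ℂ) :
    ∫ z in Cell y, fderiv ℝ f z v = 0 := by
  have hd := hf.differentiable one_ne_zero
  have hcf := hf.continuous_fderiv one_ne_zero
  have hint : ∀ w : V2 × ℂ, IntegrableOn (fun z => fderiv ℝ f z w) (Cell y) := fun w =>
    integrableOn_cell _ (hcf.clm_apply continuous_const) (ρ + 1)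
      (fun z hz => by rw [IBP_van f ρ hρ z hz]; rfl) y
  have hsplit : ∀ z, fderiv ℝ f z v = fderiv ℝ f z (v.1, 0) + fderiv ℝ f z (0, v.2) := by
    intro z
    rw [← map_add]
    simp
  have h1 : ∫ z in Cell y, fderiv ℝ f z (0, v.2) = 0 := by
    have h2 := hint (0, v.2)
    unfold Cell at h2 ⊢
    rw [Measure.volume_eq_prod] at h2 ⊢
    rw [setIntegral_prod _ h2]
    rw [setIntegral_congr_fun (g := fun _ => (0 : ℂ)) measurableSet_Icc]
    · simp
    · intro x _
      have h3 : ∀ p, fderiv ℝ f (x, p) (0, v.2) = fderiv ℝ (fun p => f (x, p)) p v.2 := by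
        intro p
        have h4 : HasFDerivAt (fun p : ℂ => (x, p)) (ContinuousLinearMap.inr ℝ V2 ℂ) p :=
          hasFDerivAt_prodMk_right x p
        have h5 := (hd (x, p)).hasFDerivAt.comp p h4
        have h6 : fderiv ℝ (fun p => f (x, p)) p = _ := h5.fderiv
        rw [h6]
        simp
      simp only [h3, Measure.restrict_univ]
      refine IBP_p _ (hf.comp (contDiff_const.prodMk contDiff_id)) ?_ v.2
      refine HasCompactSupport.intro (isCompact_closedBall (0 : ℂ) ρ) fun p hp => ?_
      apply hρ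
      have : ρ < ‖p‖ := by simpa using hp
      exact this.le
  have h1' : ∫ z in Cell y, fderiv ℝ f z (v.1, 0) = 0 := by
    have h2 := hint (v.1, 0)
    unfold Cell at h2 ⊢
    rw [Measure.volume_eq_prod] at h2 ⊢
    unfold IntegrableOn at h2
    rw [← Measure.prod_restrict] at h2 ⊢
    rw [integral_prod_symm _ h2]
    rw [integral_congr_ae (g := fun _ => (0 : ℂ))]
    · simp
    · refine Filter.Eventually.of_forall fun p => ?_
      have h3 : ∀ x, fderiv ℝ f (x, p) (v.1, 0) = fderiv ℝ (fun x => f (x, p)) x v.1 := by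
        intro x
        have h4 : HasFDerivAt (fun x : V2 => (x, p)) (ContinuousLinearMap.inl ℝ V2 ℂ) x :=
          hasFDerivAt_prodMk_left x p
        have h5 := (hd (x, p)).hasFDerivAt.comp x h4
        have h6 : fderiv ℝ (fun x => f (x, p)) x = _ := h5.fderiv
        rw [h6]
        simp
      simp only [h3]
      exact IBP_x _ (hf.comp (contDiff_id.prodMk contDiff_const)) (fun x k => hper (x, p) k) y v.1
  simp only [hsplit]
  rw [integral_add (hint _) (hint _), h1, h1', add_zero]

/-- Same for the complex operators `CD`. -/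
theorem ibp (A B : V2 × ℂ) (f : V2 × ℂ → ℂ) (hf : ContDiff ℝ 1 f)
    (hper : ∀ (z : V2 × ℂ) (k : Fin 2 → ℤ), f (z.1 + fun i => (k i : ℝ), z.2) = f z)
    (ρ : ℝ) (hρ : ∀ z : V2 × ℂ, ρ ≤ ‖z.2‖ → f z = 0) (y : V2) :
    ∫ z in Cell y, CD A B f z = 0 := by
  have hcf := hf.continuous_fderiv one_ne_zero
  have hint : ∀ w : V2 × ℂ, IntegrableOn (fun z => fderiv ℝ f z w) (Cell y) := fun w =>
    integrableOn_cell _ (hcf.clm_apply continuous_const) (ρ + 1)
      (fun z hz => by rw [IBP_van f ρ hρ z hz]; rfl) y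
  unfold CD
  rw [integral_add (hint A) ((hint B).const_mul _), integral_const_mul,
    ibp_real f hf hper ρ hρ y A, ibp_real f hf hper ρ hρ y B]
  simp

end Pool.W4b1b5d.H3
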