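import Pool.Agent.W_4b1b5d_h3.Tang
import Pool.Agent.W_4b1b5d_h3.Lowest
import Pool.Agent.W_4b1b5d_h3.NonVan

set_option autoImplicit false

namespace Pool.W4b1b5d.H3

lemma KZero_hasF (g : V2 → ℝ) (x : V2) (hg : DifferentiableAt ℝ g x) :
    HasFDerivAt (fun y => (g y : ℂ)) (Complex.ofRealCLM.comp (fderiv ℝ g x)) x :=
  Complex.ofRealCLM.hasFDerivAt.comp x hg.hasFDerivAt

lemma KZero_ofReal (g : V2 → ℝ) (x : V2) (hg : DifferentiableAt ℝ g x) (v : V2) :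
    fderiv ℝ (fun y => (g y : ℂ)) x v = ((fderiv ℝ g x v : ℝ) : ℂ) := by
  rw [(KZero_hasF g x hg).fderiv]
  rfl

lemma KZero_pd_contDiff (i : Fin 2) (g : V2 → ℝ) (hg : ContDiff ℝ (⊤ : ℕ∞) g) :
    ContDiff ℝ (⊤ : ℕ∞) (pd i g) := by
  have h1 : ContDiff ℝ (⊤ : ℕ∞) (fderiv ℝ g) := hg.fderiv_right (m := (⊤ : ℕ∞)) le_rfl
  exact h1.clm_apply contDiff_const

lemma KZero_diff {E : Type*} [NormedAddCommGroup E] [NormedSpace ℝ E] {g : V2 → E}
    (hg : ContDiff ℝ (⊤ : ℕ∞) g) (x : V2) : DifferentiableAt ℝ g x :=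
  (hg.differentiable (by simp)) x

lemma KZero_ddr (al : Fin 2 → ℂ) (g : V2 → ℝ) (hg : ContDiff ℝ (⊤ : ℕ∞) g) (x : V2) :
    ddr al g x = al 0 * (pd 0 g x : ℂ) + al 1 * (pd 1 g x : ℂ) := by
  unfold ddr dd pd
  rw [Fin.sum_univ_two, KZero_ofReal _ _ (KZero_diff hg x), KZero_ofReal _ _ (KZero_diff hg x)]

lemma KZero_tgt (g : V2 → ℝ) (x : V2) :
    tgt g x = (-(pd 1 g x)) • (Pi.single 0 1 : V2) + (pd 0 g x) • (Pi.single 1 1 : V2) := by
  ext i
  fin_cases i <;> simp [tgt]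

lemma KZero_dtgt (g h : V2 → ℝ) (x : V2) :
    fderiv ℝ h x (tgt g x) = -(pd 1 g x) * pd 0 h x + pd 0 g x * pd 1 h x := by
  rw [KZero_tgt, map_add, map_smul, map_smul, smul_eq_mul, smul_eq_mul]
  rfl

lemma KZero_symm (g : V2 → ℝ) (hg : ContDiff ℝ (⊤ : ℕ∞) g) (x : V2) :
    pd 1 (pd 0 g) x = pd 0 (pd 1 g) x := by
  have h1 : ContDiff ℝ (⊤ : ℕ∞) (fderiv ℝ g) := hg.fderiv_right (m := (⊤ : ℕ∞)) le_rfl
  have h2 : ∀ i j : Fin 2, pd i (pd j g) x =
      fderiv ℝ (fderiv ℝ g) x (Pi.single i 1) (Pi.single j 1) := by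
    intro i j
    have h3 : HasFDerivAt (pd j g) ((fderiv ℝ (fderiv ℝ g) x).flip (Pi.single j 1)) x := by
      have h4 := (KZero_diff h1 x).hasFDerivAt
      have h5 := h4.clm_apply (hasFDerivAt_const (Pi.single j 1 : V2) x)
      refine h5.congr_fderiv ?_
      ext v
      simp
    have h6 : pd i (pd j g) x = fderiv ℝ (pd j g) x (Pi.single i 1) := rfl
    rw [h6, h3.fderiv]
    rfl
  rw [h2, h2]
  have h7 : ContDiffAt ℝ (⊤ : ℕ∞) g x := hg.contDiffAt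
  have h8 : minSmoothness ℝ 2 ≤ ((⊤ : ℕ∞) : WithTop ℕ∞) := by
    rw [minSmoothness_of_isRCLikeNormedField]
    exact ENat.LEInfty.out
  exact (h7.isSymmSndFDerivAt h8) _ _

lemma KZero_ddr_hasF (al : Fin 2 → ℂ) (g : V2 → ℝ) (hg : ContDiff ℝ (⊤ : ℕ∞) g) (x : V2) :
    HasFDerivAt (ddr al g) (al 0 • (Complex.ofRealCLM.comp (fderiv ℝ (pd 0 g) x)) +
      al 1 • (Complex.ofRealCLM.comp (fderiv ℝ (pd 1 g) x))) x := by
  have h0 : ddr al g = fun y => al 0 * (pd 0 g y : ℂ) + al 1 * (pd 1 g y : ℂ) :=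
    funext (KZero_ddr al g hg)
  rw [h0]
  exact ((KZero_hasF _ x (KZero_diff (KZero_pd_contDiff 0 g hg) x)).const_mul (al 0)).add
    ((KZero_hasF _ x (KZero_diff (KZero_pd_contDiff 1 g hg) x)).const_mul (al 1))

lemma KZero_KK_cont (g : V2 → ℝ) (hg : ContDiff ℝ (⊤ : ℕ∞) g) : Continuous (KK g) := by
  have h0 := (KZero_pd_contDiff 0 g hg).continuous
  have h1 := (KZero_pd_contDiff 1 g hg).continuous
  have h00 := (KZero_pd_contDiff 0 _ (KZero_pd_contDiff 0 g hg)).continuous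
  have h01 := (KZero_pd_contDiff 0 _ (KZero_pd_contDiff 1 g hg)).continuous
  have h11 := (KZero_pd_contDiff 1 _ (KZero_pd_contDiff 1 g hg)).continuous
  unfold KK
  fun_prop

lemma KZero_alg (G G' u u' : ℂ) (J : ℕ) (hJ : 1 ≤ J) (hG : G ≠ 0)
    (h1 : (starRingEnd ℂ) G = (-1) ^ J * G) (h2 : (starRingEnd ℂ) G' = (-1) ^ J * G')
    (h3 : u * G' = (J : ℂ) * G * u') : ((starRingEnd ℂ) u * u').im = 0 := by
  have hJ0 : (J : ℂ) ≠ 0 := by exact_mod_cast (by omega : J ≠ 0)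
  have hs : ((-1 : ℂ)) ^ J ≠ 0 := pow_ne_zero _ (by norm_num)
  have h4 := congrArg (starRingEnd ℂ) h3
  rw [map_mul, map_mul, map_mul, h1, h2, Complex.conj_natCast] at h4
  have h5 : (starRingEnd ℂ) u * G' = (J : ℂ) * G * (starRingEnd ℂ) u' := by
    apply mul_left_cancel₀ hs
    linear_combination h4
  have h6 : (starRingEnd ℂ) u * u' = u * (starRingEnd ℂ) u' := by
    apply mul_left_cancel₀ (mul_ne_zero hJ0 hG)
    linear_combination u * h5 - (starRingEnd ℂ) u * h3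
  have h7 : (starRingEnd ℂ) ((starRingEnd ℂ) u * u') = (starRingEnd ℂ) u * u' := by
    rw [map_mul, Complex.conj_conj, h6]
  exact Complex.conj_eq_iff_im.1 h7

/-- TASK KZero (1).  Pure computation: with `u = ddr al U` and `τ = tgt U x`,
`Im (conj (u x) * fderiv u x τ) = Im (conj (al 0) * al 1) * KK U x`.
(`u = al 0 * U_0 + al 1 * U_1`, `D_τ U_0 = -U_1 U_00 + U_0 U_01`, `D_τ U_1 = -U_1 U_01 + U_0 U_11`,
symmetry of the second derivatives.) -/
theorem im_K (al : Fin 2 → ℂ) (g : V2 → ℝ) (hg : ContDiff ℝ (⊤ : ℕ∞) g) (x : V2) :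
    ((starRingEnd ℂ) (ddr al g x) * fderiv ℝ (ddr al g) x (tgt g x)).im
      = ((starRingEnd ℂ) (al 0) * al 1).im * KK g x := by
  rw [(KZero_ddr_hasF al g hg x).fderiv, KZero_ddr al g hg x]
  have h1 : (al 0 • (Complex.ofRealCLM.comp (fderiv ℝ (pd 0 g) x)) +
      al 1 • (Complex.ofRealCLM.comp (fderiv ℝ (pd 1 g) x)) : V2 →L[ℝ] ℂ) (tgt g x) =
      al 0 * ((-(pd 1 g x) * pd 0 (pd 0 g) x + pd 0 g x * pd 0 (pd 1 g) x : ℝ) : ℂ) +
      al 1 * ((-(pd 1 g x) * pd 0 (pd 1 g) x + pd 0 g x * pd 1 (pd 1 g) x : ℝ) : ℂ) := by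
    rw [← KZero_dtgt g (pd 1 g) x, ← KZero_symm g hg x, ← KZero_dtgt g (pd 0 g) x]
    rfl
  rw [h1]
  unfold KK
  simp only [Complex.mul_im, Complex.conj_re, Complex.conj_im, Complex.add_re, Complex.add_im,
    Complex.mul_re, Complex.ofReal_re, Complex.ofReal_im]
  ring

/-- TASK KZero (2).  The level lines of `U` are straight.

Proof.  Suppose `KK U x1 ≠ 0`.  `S = {x : KK U x ≠ 0}` is open, and on `S` `dU ≠ 0` (`KK` is
quadratic in the first derivatives).  Let `J ≥ 1` be the lowest degree on `S` (`exists_lowest`).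
By `lowest_zero` there is `x ∈ S` with `f J 0 x ≠ 0`.  On the open set `S` the function
`g = f J 0 * u^J` (`u = ddr al U`) satisfies `conj g = (-1)^J g` (`lowest_real`), so the derivative
`g' = fderiv g x τ`, `τ = tgt U x`, also satisfies `conj g' = (-1)^J g'`; by `tang`
`fderiv (f J 0) x τ = 0`, so `g' = J f_J u^(J-1) u'` with `u' = fderiv u x τ`, i.e.
`g' = J g u'/u` (`u ≠ 0` by `ddr_ne`).  So `conj (u'/u) = u'/u` (`g ≠ 0`), i.e. `u'/u` is real, and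
`Im (conj u * u') = |u|² Im (u'/u) = 0`, which contradicts `im_K`. -/
theorem kzero (I : ID) (hn : Odd I.n) (hF : ∃ a b x, I.f a b x ≠ 0) (x : V2) : KK I.U x = 0 := by
  by_contra hK
  set S : Set V2 := {x | KK I.U x ≠ 0} with hS
  have hSo : IsOpen S := isOpen_ne_fun (KZero_KK_cont I.U I.Usm) continuous_const
  obtain ⟨J, hJ1, hlow, a, b, hab, y, hyS, hy⟩ := exists_lowest I hn hF S ⟨x, hK⟩
  have hdU : fderiv ℝ I.U y ≠ 0 := by
    intro h0
    apply hyS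
    have h1 : ∀ i : Fin 2, pd i I.U y = 0 := by
      intro i
      unfold pd
      rw [h0]
      rfl
    unfold KK
    rw [h1 0, h1 1]
    ring
  have hfJ : I.f J 0 y ≠ 0 := fun h0 => hy (lowest_zero I S hSo J hlow y hyS hdU h0 a b hab)
  have hu : ddr I.al I.U y ≠ 0 := ddr_ne I.al I.hal I.U y (KZero_diff I.Usm y) hdU
  have hud := KZero_ddr_hasF I.al I.U I.Usm y
  have hud' : HasFDerivAt (ddr I.al I.U) (fderiv ℝ (ddr I.al I.U) y) y :=
    hud.differentiableAt.hasFDerivAt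
  have hfd : HasFDerivAt (I.f J 0) (fderiv ℝ (I.f J 0) y) y :=
    (KZero_diff (I.fsm J 0) y).hasFDerivAt
  have hpd := hud'.pow J
  have hgd := hfd.mul hpd
  set τ : V2 := tgt I.U y with hτ
  have htang : fderiv ℝ (I.f J 0) y τ = 0 :=
    tang I hn y hdU τ (tgt_ker I.U y (KZero_diff I.Usm y)) J
  set u : ℂ := ddr I.al I.U y with hu_def
  set u' : ℂ := fderiv ℝ (ddr I.al I.U) y τ with hu'_def
  set g : V2 → ℂ := fun z => I.f J 0 z * (ddr I.al I.U z) ^ J with hg_def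
  have hgd' : HasFDerivAt g (fderiv ℝ g y) y := hgd.differentiableAt.hasFDerivAt
  have hval : u * fderiv ℝ g y τ = (J : ℂ) * (I.f J 0 y * u ^ J) * u' := by
    have h1 : fderiv ℝ g y = _ := hgd.fderiv
    rw [h1]
    have h2 : u ^ J = u ^ (J - 1) * u := by
      rw [← pow_succ]
      congr 1
      omega
    simp only [_root_.add_apply, _root_.smul_apply, smul_eq_mul,
      nsmul_eq_mul, htang]
    rw [h2]
    simp only [← hu'_def]
    ring
  have hconj : (starRingEnd ℂ) (fderiv ℝ g y τ) = (-1) ^ J * fderiv ℝ g y τ := by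
    have h1 : HasFDerivAt (fun z => (starRingEnd ℂ) (g z))
        ((Complex.conjCLE : ℂ →L[ℝ] ℂ).comp (fderiv ℝ g y)) y :=
      (Complex.conjCLE : ℂ →L[ℝ] ℂ).hasFDerivAt.comp y hgd'
    have h2 : HasFDerivAt (fun z => (-1 : ℂ) ^ J * g z) ((-1 : ℂ) ^ J • fderiv ℝ g y) y :=
      hgd'.const_mul _
    have h3 : (fun z => (starRingEnd ℂ) (g z)) =ᶠ[nhds y] fun z => (-1 : ℂ) ^ J * g z := by
      filter_upwards [hSo.mem_nhds hyS] with z hz
      exact lowest_real I S hSo J hlow z hz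
    have h4 := h1.congr_of_eventuallyEq h3.symm
    have h5 := h4.unique h2
    have h6 := congrArg (fun L : V2 →L[ℝ] ℂ => L τ) h5
    exact h6
  have hfin := KZero_alg (I.f J 0 y * u ^ J) (fderiv ℝ g y τ) u u' J hJ1
    (mul_ne_zero hfJ (pow_ne_zero _ hu)) (lowest_real I S hSo J hlow y hyS) hconj hval
  have hK2 := im_K I.al I.U I.Usm y
  rw [hfin] at hK2
  rcases mul_eq_zero.1 hK2.symm with h | h
  · exact I.hal h
  · exact hyS h

end Pool.W4b1b5d.H3
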