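import Pool.Agent.W_4b1b5d_h3.Pt

set_option autoImplicit false

namespace Pool.W4b1b5d.H3

open MeasureTheory Set Filter

/-- `‖ξ‖² τ_δ(ξ) ≤ 1/4` for `δ > 0`. -/
theorem sq_tau_le (δ : ℝ) (hδ : 0 < δ) (ξ : ℂ) : ‖ξ‖ ^ 2 * tau δ ξ ≤ 1 / 4 := by
  unfold tau
  have h0 : 0 ≤ ‖ξ‖ ^ 2 := sq_nonneg _
  have h1 : 0 < (‖ξ‖ ^ 2 + δ) ^ 2 := by positivity
  rw [← mul_div_assoc, div_le_div_iff₀ h1 (by norm_num)]
  nlinarith [sq_nonneg (‖ξ‖ ^ 2 - δ)]

/-- `0 ≤ τ_δ` for `δ > 0`. -/
theorem tau_nonneg (δ : ℝ) (hδ : 0 < δ) (ξ : ℂ) : 0 ≤ tau δ ξ := by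
  unfold tau
  positivity

/-- TASK Lim.  Dominated convergence on a compact set: the integrand is bounded by `1/4`
(`sq_tau_le`) and tends to `0` pointwise as `δ → 0+` (for `ξ ≠ 0`:
`‖ξ‖² δ/(‖ξ‖²+δ)² ≤ δ/‖ξ‖²`; for `ξ = 0` it is `0`). -/
theorem lim (f : V2 × ℂ → ℂ) (S : Set (V2 × ℂ)) (hS : IsCompact S)
    (hf : ContinuousOn f S) :
    Tendsto (fun δ : ℝ => ∫ z in S, ‖f z‖ ^ 2 * tau δ (f z)) (nhdsWithin 0 (Ioi 0)) (nhds 0) := by
  have h0 : Tendsto (fun δ : ℝ => ∫ z in S, ‖f z‖ ^ 2 * tau δ (f z)) (nhdsWithin 0 (Ioi 0))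
      (nhds (∫ _z in S, (0 : ℝ))) := by
    refine tendsto_integral_filter_of_dominated_convergence (fun _ => (1 / 4 : ℝ)) ?_ ?_ ?_ ?_
    · filter_upwards [self_mem_nhdsWithin] with δ hδ
      have hδ' : 0 < δ := hδ
      refine ContinuousOn.aestronglyMeasurable ?_ hS.measurableSet
      have h1 : ContinuousOn (fun z => ‖f z‖ ^ 2) S := (hf.norm).pow 2
      unfold tau
      refine h1.mul (ContinuousOn.div continuousOn_const ((h1.add continuousOn_const).pow 2) ?_)
      intro z _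
      have : 0 ≤ ‖f z‖ ^ 2 := sq_nonneg _
      positivity
    · filter_upwards [self_mem_nhdsWithin] with δ hδ
      have hδ' : 0 < δ := hδ
      refine Eventually.of_forall fun z => ?_
      rw [Real.norm_of_nonneg (mul_nonneg (sq_nonneg _) (tau_nonneg δ hδ' _))]
      exact sq_tau_le δ hδ' _
    · exact integrableOn_const (hS.measure_lt_top.ne)
    · refine Eventually.of_forall fun z => ?_
      by_cases hz : f z = 0
      · simp [hz]
      · have hpos : 0 < ‖f z‖ ^ 2 := by positivity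
        have hc : ContinuousAt (fun δ : ℝ => ‖f z‖ ^ 2 * tau δ (f z)) 0 := by
          unfold tau
          refine continuousAt_const.mul (ContinuousAt.div continuousAt_id
            ((continuousAt_const.add continuousAt_id).pow 2) ?_)
          simp only [id, add_zero]
          positivity
        have h2 := hc.tendsto
        have h3 : ‖f z‖ ^ 2 * tau 0 (f z) = 0 := by
          unfold tau
          simp
        rw [h3] at h2
        exact h2.mono_left nhdsWithin_le_nhds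
  simpa using h0

end Pool.W4b1b5d.H3
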