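import Mathlib

set_option autoImplicit false

namespace Pool.W4b1b5d.H3

theorem OdeLine_gron (g A c : ℝ → ℝ) (hg : ContDiff ℝ 2 g) (hA : ContDiff ℝ 1 A)
    (hc : Continuous c)
    (h1 : ∀ s, deriv A s * (g s) ^ 2 = (2 * deriv g s * g s - c s * A s) * A s)
    (hA0 : A 0 = 0) (t : ℝ) (hpos : ∀ s ∈ Set.Icc 0 t, 0 < g s) :
    ∀ s ∈ Set.Icc 0 t, A s = 0 := by
  have hgc := hg.continuous
  have hAc := hA.continuous
  have hdg : Continuous (deriv g) := hg.continuous_deriv (by norm_num)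
  have hb : ContinuousOn (fun s => (2 * deriv g s * g s - c s * A s) / (g s) ^ 2)
      (Set.Icc 0 t) := by
    refine ContinuousOn.div (Continuous.continuousOn ?_) (hgc.pow 2).continuousOn
      (fun s hs => (pow_pos (hpos s hs) 2).ne')
    exact ((continuous_const.mul hdg).mul hgc).sub (hc.mul hAc)
  obtain ⟨K, hK⟩ := isCompact_Icc.exists_bound_of_continuousOn hb
  have h3 := norm_le_gronwallBound_of_norm_deriv_right_le (f := A) (f' := deriv A) (δ := 0)
    (K := K) (ε := 0) (a := 0) (b := t) hAc.continuousOn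
    (fun x _ => (hA.differentiable (by norm_num) x).hasDerivAt.hasDerivWithinAt)
    (by rw [hA0, norm_zero]) (fun x hx => ?_)
  · intro s hs
    have h4 := h3 s hs
    rw [gronwallBound_ε0_δ0] at h4
    exact norm_le_zero_iff.1 h4
  · have hx' : x ∈ Set.Icc 0 t := ⟨hx.1, hx.2.le⟩
    have hgx := hpos x hx'
    have e : deriv A x = (2 * deriv g x * g x - c x * A x) / (g x) ^ 2 * A x := by
      rw [div_mul_eq_mul_div, eq_div_iff (pow_pos hgx 2).ne']
      exact h1 x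
    rw [e, norm_mul, add_zero]
    exact mul_le_mul_of_nonneg_right (hK x hx') (norm_nonneg _)

theorem OdeLine_aff (g A c : ℝ → ℝ) (hg : ContDiff ℝ 2 g) (hA : ContDiff ℝ 1 A)
    (hc : Continuous c)
    (h1 : ∀ s, deriv A s * (g s) ^ 2 = (2 * deriv g s * g s - c s * A s) * A s)
    (h2 : ∀ s, (∀ᶠ t in nhds s, A t = 0) →
      deriv (deriv g) s * (g s) ^ 2 = 2 * (deriv g s) ^ 2 * g s)
    (hA0 : A 0 = 0) (t : ℝ) (hpos : ∀ s ∈ Set.Icc 0 t, 0 < g s) :
    ∀ s ∈ Set.Icc 0 t, (g s)⁻¹ = (g 0)⁻¹ - s * (deriv g 0 / (g 0) ^ 2) := by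
  have hgc := hg.continuous
  have hdg : Continuous (deriv g) := hg.continuous_deriv (by norm_num)
  have hgd : ∀ x, HasDerivAt g (deriv g x) x := fun x =>
    (hg.differentiable (by norm_num) x).hasDerivAt
  have hdd : ∀ x, HasDerivAt (deriv g) (deriv (deriv g) x) x := fun x =>
    (hg.differentiable_deriv_two x).hasDerivAt
  have hAz := OdeLine_gron g A c hg hA hc h1 hA0 t hpos
  -- the derivative of `1/g` is constant
  have hψ : ∀ s ∈ Set.Icc 0 t, -(deriv g s / (g s) ^ 2) = -(deriv g 0 / (g 0) ^ 2) := by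
    intro s hs
    rcases eq_or_lt_of_le hs.1 with h0 | h0
    · rw [← h0]
    · have hcont : ContinuousOn (fun x => -(deriv g x / (g x) ^ 2)) (Set.Icc 0 s) := by
        refine (ContinuousOn.div hdg.continuousOn (hgc.pow 2).continuousOn fun x hx => ?_).neg
        exact (pow_pos (hpos x ⟨hx.1, hx.2.trans hs.2⟩) 2).ne'
      have hder : ∀ x ∈ Set.Ioo 0 s, HasDerivAt (fun x => -(deriv g x / (g x) ^ 2)) 0 x := by
        intro x hx
        have hx' : x ∈ Set.Icc 0 t := ⟨hx.1.le, (hx.2.trans_le hs.2).le⟩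
        have hgx := hpos x hx'
        have h4 : ∀ᶠ y in nhds x, A y = 0 := by
          filter_upwards [Ioo_mem_nhds hx.1 hx.2] with y hy
          exact hAz y ⟨hy.1.le, (hy.2.trans_le hs.2).le⟩
        have h5 := h2 x h4
        have h6 := ((hdd x).div ((hgd x).pow 2) (pow_pos hgx 2).ne').neg
        refine h6.congr_deriv ?_
        have h7 : deriv (deriv g) x * (g x) ^ 2 - deriv g x * (((2 : ℕ) : ℝ) * g x ^ (2 - 1) *
            deriv g x) = 0 := by
          rw [h5]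
          push_cast
          ring
        show -((deriv (deriv g) x * (g x) ^ 2 - deriv g x * (((2 : ℕ) : ℝ) * g x ^ (2 - 1) *
            deriv g x)) / ((g x) ^ 2) ^ 2) = 0
        rw [h7, zero_div, neg_zero]
      obtain ⟨ξ, hξ, h3⟩ := exists_hasDerivAt_eq_slope (fun x => -(deriv g x / (g x) ^ 2))
        (fun _ => 0) h0 hcont hder
      have h4 : (s - 0) ≠ 0 := by
        rw [sub_zero]
        exact h0.ne'
      rw [eq_div_iff h4, zero_mul] at h3
      linarith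
  intro s hs
  rcases eq_or_lt_of_le hs.1 with h0 | h0
  · rw [← h0]
    ring
  · have hcont : ContinuousOn (fun x => (g x)⁻¹) (Set.Icc 0 s) := by
      refine hgc.continuousOn.inv₀ fun x hx => ?_
      exact (hpos x ⟨hx.1, hx.2.trans hs.2⟩).ne'
    have hder : ∀ x ∈ Set.Ioo 0 s, HasDerivAt (fun x => (g x)⁻¹) (-deriv g x / (g x) ^ 2) x := by
      intro x hx
      have hgx := hpos x ⟨hx.1.le, (hx.2.trans_le hs.2).le⟩
      exact (hgd x).inv hgx.ne'
    obtain ⟨ξ, hξ, h3⟩ := exists_hasDerivAt_eq_slope (fun x => (g x)⁻¹)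
      (fun x => -deriv g x / (g x) ^ 2) h0 hcont hder
    have h4 : (s - 0) ≠ 0 := by
      rw [sub_zero]
      exact h0.ne'
    have h5 := hψ ξ ⟨hξ.1.le, (hξ.2.trans_le hs.2).le⟩
    rw [neg_div, h5, eq_div_iff h4] at h3
    linarith

theorem OdeLine_fwd (g A c : ℝ → ℝ) (hg : ContDiff ℝ 2 g) (hA : ContDiff ℝ 1 A)
    (hc : Continuous c)
    (h1 : ∀ s, deriv A s * (g s) ^ 2 = (2 * deriv g s * g s - c s * A s) * A s)
    (h2 : ∀ s, (∀ᶠ t in nhds s, A t = 0) →
      deriv (deriv g) s * (g s) ^ 2 = 2 * (deriv g s) ^ 2 * g s)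
    (h0 : 0 < g 0) (hA0 : A 0 = 0) (t : ℝ) (ht : 0 ≤ t) :
    A t = 0 ∧ 0 < g t ∧ (g t)⁻¹ = (g 0)⁻¹ - t * (deriv g 0 / (g 0) ^ 2) := by
  have hgc := hg.continuous
  have hpos : ∀ s ∈ Set.Icc 0 t, 0 < g s := by
    by_contra hcon
    push Not at hcon
    obtain ⟨s₀, hs₀, hs₀'⟩ := hcon
    have hcomp : IsCompact (Set.Icc 0 t ∩ {x | g x ≤ 0}) :=
      isCompact_Icc.inter_right (isClosed_le hgc continuous_const)
    obtain ⟨T, ⟨hT1, hT2⟩, hT3⟩ := hcomp.exists_isLeast ⟨s₀, hs₀, hs₀'⟩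
    have hT0 : 0 < T := by
      rcases eq_or_lt_of_le hT1.1 with h | h
      · rw [← h] at hT2
        exact absurd h0 (not_lt.2 hT2)
      · exact h
    have hlt : ∀ s, 0 ≤ s → s < T → 0 < g s := by
      intro s hs hsT
      by_contra h
      exact absurd (hT3 ⟨⟨hs, hsT.le.trans hT1.2⟩, not_lt.1 h⟩) (not_le.2 hsT)
    obtain ⟨M, hM⟩ : ∃ M, M = (g 0)⁻¹ + T * |deriv g 0 / (g 0) ^ 2| := ⟨_, rfl⟩
    have hM0 : 0 < M := by
      rw [hM]
      have h3 : 0 < (g 0)⁻¹ := inv_pos.2 h0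
      have h4 : 0 ≤ T * |deriv g 0 / (g 0) ^ 2| := mul_nonneg hT0.le (abs_nonneg _)
      linarith
    have hge : ∀ s, 0 ≤ s → s < T → M⁻¹ ≤ g s := by
      intro s hs hsT
      have h3 := OdeLine_aff g A c hg hA hc h1 h2 hA0 s
        (fun x hx => hlt x hx.1 (hx.2.trans_lt hsT)) s ⟨hs, le_rfl⟩
      have h4 : (g s)⁻¹ ≤ M := by
        rw [h3, hM]
        have h5 := neg_abs_le (deriv g 0 / (g 0) ^ 2)
        have h6 : s * |deriv g 0 / (g 0) ^ 2| ≤ T * |deriv g 0 / (g 0) ^ 2| :=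
          mul_le_mul_of_nonneg_right hsT.le (abs_nonneg _)
        nlinarith
      have h5 := inv_anti₀ (inv_pos.2 (hlt s hs hsT)) h4
      rwa [inv_inv] at h5
    have hlim : Filter.Tendsto g (nhdsWithin T (Set.Iio T)) (nhds (g T)) :=
      (hgc.tendsto T).mono_left nhdsWithin_le_nhds
    have h3 : M⁻¹ ≤ g T := by
      refine ge_of_tendsto hlim ?_
      filter_upwards [Ioo_mem_nhdsLT hT0] with s hs
      exact hge s hs.1.le hs.2
    have h4 : 0 < M⁻¹ := inv_pos.2 hM0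
    have h5 : g T ≤ 0 := hT2
    linarith
  exact ⟨OdeLine_gron g A c hg hA hc h1 hA0 t hpos t ⟨ht, le_rfl⟩, hpos t ⟨ht, le_rfl⟩,
    OdeLine_aff g A c hg hA hc h1 h2 hA0 t hpos t ⟨ht, le_rfl⟩⟩

theorem OdeLine_dneg (f : ℝ → ℝ) (s : ℝ) : deriv (fun x => f (-x)) s = -deriv f (-s) :=
  deriv_comp_neg f s

/-- TASK OdeLine.  One variable lemma.

Proof.  Let `s > 0` be such that `g > 0` on `[0,s]`.  There `A' = b A` with
`b = (2 g' g - c A)/g²` continuous, `A 0 = 0`, so `A = 0` on `[0,s]` (Gronwall, or: the derivative of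
`A * exp (-∫ b)` is zero; in Mathlib `ODE_solution_unique...` or
`norm_le_gronwallBound_of_norm_deriv_right_le`).  In the open interval `(0,s)`, by `h2`, the function
`1/g` has second derivative `-g''/g² + 2 g'²/g³ = 0`; so `1/g` is affine on `[0,s]`:
`1/g(t) = 1/g(0) - t g'(0)/g(0)²`.  If `g` had a zero on `[0,∞)`, at the first zero `T`, `g(t) → 0` as
`t → T-` but `1/g` is bounded on `[0,T)`, a contradiction.  So `g > 0` on `[0,∞)`, similarly on
`(-∞,0]` (apply the same to `s ↦ g (-s)`), and `1/g` is affine and positive on the whole line,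
hence constant.  (To treat both sides at once: prove the statement for every interval `(-s, s')` on
which `g > 0`.) -/
theorem ode_line (g A c : ℝ → ℝ) (hg : ContDiff ℝ 2 g) (hA : ContDiff ℝ 1 A) (hc : Continuous c)
    (h1 : ∀ s, deriv A s * (g s) ^ 2 = (2 * deriv g s * g s - c s * A s) * A s)
    (h2 : ∀ s, (∀ᶠ t in nhds s, A t = 0) →
      deriv (deriv g) s * (g s) ^ 2 = 2 * (deriv g s) ^ 2 * g s)
    (h0 : 0 < g 0) (hA0 : A 0 = 0) : ∀ s, A s = 0 ∧ g s = g 0 := by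
  -- reflection
  have hg' : ContDiff ℝ 2 (fun x => g (-x)) := hg.comp contDiff_neg
  have hA' : ContDiff ℝ 1 (fun x => A (-x)) := hA.comp contDiff_neg
  have hc' : Continuous (fun x => -c (-x)) := (hc.comp continuous_neg).neg
  have hdd : deriv (fun x => g (-x)) = fun x => -deriv g (-x) := by
    funext x
    exact OdeLine_dneg g x
  have h1' : ∀ s, deriv (fun x => A (-x)) s * (g (-s)) ^ 2 =
      (2 * deriv (fun x => g (-x)) s * g (-s) - -c (-s) * A (-s)) * A (-s) := by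
    intro s
    rw [OdeLine_dneg, OdeLine_dneg]
    have h3 := h1 (-s)
    linarith
  have h2' : ∀ s, (∀ᶠ t in nhds s, A (-t) = 0) →
      deriv (deriv (fun x => g (-x))) s * (g (-s)) ^ 2 =
        2 * (deriv (fun x => g (-x)) s) ^ 2 * g (-s) := by
    intro s hs
    have h3 : ∀ᶠ t in nhds (-s), A t = 0 := by
      have h4 : Filter.Tendsto (fun t : ℝ => -t) (nhds (-s)) (nhds s) := by
        have h5 := (continuous_neg (G := ℝ)).tendsto (-s)
        rwa [neg_neg] at h5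
      filter_upwards [h4.eventually hs] with t ht
      rwa [neg_neg] at ht
    have h4 := h2 (-s) h3
    rw [hdd]
    have h5 : deriv (fun x => -deriv g (-x)) s = deriv (deriv g) (-s) := by
      rw [deriv.fun_neg, OdeLine_dneg, neg_neg]
    rw [h5]
    linarith
  have F := OdeLine_fwd g A c hg hA hc h1 h2 h0 hA0
  have F' := OdeLine_fwd (fun x => g (-x)) (fun x => A (-x)) (fun x => -c (-x)) hg' hA' hc' h1' h2'
    (by rw [neg_zero]; exact h0) (by rw [neg_zero]; exact hA0)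
  obtain ⟨κ, hκ⟩ : ∃ κ, κ = deriv g 0 / (g 0) ^ 2 := ⟨_, rfl⟩
  have hF : ∀ t, 0 ≤ t → A t = 0 ∧ 0 < g t ∧ (g t)⁻¹ = (g 0)⁻¹ - t * κ := by
    intro t ht
    rw [hκ]
    exact F t ht
  have hF' : ∀ t, 0 ≤ t → A (-t) = 0 ∧ 0 < g (-t) ∧ (g (-t))⁻¹ = (g 0)⁻¹ + t * κ := by
    intro t ht
    obtain ⟨k1, k2, k3⟩ := F' t ht
    refine ⟨k1, k2, ?_⟩
    rw [OdeLine_dneg, neg_zero] at k3
    rw [k3, hκ]
    ring
  have hκ0 : κ = 0 := by
    have hi : 0 < (g 0)⁻¹ := inv_pos.2 h0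
    by_contra hne
    rcases lt_or_gt_of_ne hne with h | h
    · obtain ⟨-, k2, k3⟩ := hF' ((g 0)⁻¹ / (-κ)) (div_nonneg hi.le (by linarith))
      have k4 : 0 < (g (-((g 0)⁻¹ / (-κ))))⁻¹ := inv_pos.2 k2
      have k5 : (g 0)⁻¹ / (-κ) * κ = -(g 0)⁻¹ := by
        field_simp
      rw [k3, k5] at k4
      linarith
    · obtain ⟨-, k2, k3⟩ := hF ((g 0)⁻¹ / κ) (div_nonneg hi.le h.le)
      have k4 : 0 < (g ((g 0)⁻¹ / κ))⁻¹ := inv_pos.2 k2
      have k5 : (g 0)⁻¹ / κ * κ = (g 0)⁻¹ := by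
        field_simp
      rw [k3, k5] at k4
      linarith
  intro s
  rcases le_total 0 s with hs | hs
  · obtain ⟨k1, k2, k3⟩ := hF s hs
    rw [hκ0, mul_zero, sub_zero] at k3
    exact ⟨k1, inv_injective k3⟩
  · obtain ⟨k1, k2, k3⟩ := hF' (-s) (by linarith)
    rw [neg_neg] at k1 k2 k3
    rw [hκ0, mul_zero, add_zero] at k3
    exact ⟨k1, inv_injective k3⟩

end Pool.W4b1b5d.H3
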