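import Pool.Agent.W_4b1b5d_h3.DefsI
import Pool.Agent.W_4b1b5d_h3.OdeLine

set_option autoImplicit false

namespace Pool.W4b1b5d.H3

theorem Lines_two_le : (2 : WithTop ℕ∞) ≤ ((⊤ : ℕ∞) : WithTop ℕ∞) := by
  have : ((2:ℕ∞) : WithTop ℕ∞) ≤ ((⊤ : ℕ∞) : WithTop ℕ∞) := WithTop.coe_le_coe.mpr le_top
  exact this

/-- directional derivative -/
noncomputable def Lines_D (v : V2) (f : V2 → ℝ) (x : V2) : ℝ := fderiv ℝ f x v

theorem Lines_D_smooth (v : V2) {f : V2 → ℝ} (hf : ContDiff ℝ (⊤ : ℕ∞) f) :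
    ContDiff ℝ (⊤ : ℕ∞) (Lines_D v f) :=
  (hf.fderiv_right (m := (⊤ : ℕ∞)) (by simp)).clm_apply contDiff_const

theorem Lines_diff {f : V2 → ℝ} (hf : ContDiff ℝ (⊤ : ℕ∞) f) : Differentiable ℝ f :=
  hf.differentiable (by simp)

theorem Lines_D_comm (v w : V2) {f : V2 → ℝ} (hf : ContDiff ℝ (⊤ : ℕ∞) f) (x : V2) :
    Lines_D v (Lines_D w f) x = Lines_D w (Lines_D v f) x := by
  have hd : DifferentiableAt ℝ (fderiv ℝ f) x :=
    (hf.fderiv_right (m := (⊤ : ℕ∞)) (by simp)).differentiable (by simp) x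
  have key : ∀ a b : V2, Lines_D a (Lines_D b f) x = fderiv ℝ (fderiv ℝ f) x a b := by
    intro a b
    have h1 : HasFDerivAt (fun y => fderiv ℝ f y b)
        ((fderiv ℝ (fderiv ℝ f) x).flip b) x := by
      simpa using hd.hasFDerivAt.clm_apply (hasFDerivAt_const b x)
    show fderiv ℝ (fun y => fderiv ℝ f y b) x a = _
    rw [h1.fderiv]
    rfl
  rw [key, key]
  exact (hf.contDiffAt.isSymmSndFDerivAt
    (by simpa using Lines_two_le)).eq v w

theorem Lines_D_lin (v : V2) (f : V2 → ℝ) (x : V2) :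
    Lines_D v f x = v 0 * pd 0 f x + v 1 * pd 1 f x := by
  have hv : v = v 0 • (Pi.single (0 : Fin 2) (1:ℝ) : V2) + v 1 • (Pi.single (1 : Fin 2) (1:ℝ) : V2) := by
    ext i
    fin_cases i <;> simp
  unfold Lines_D pd
  conv_lhs => rw [hv]
  rw [map_add, map_smul, map_smul]
  simp

theorem Lines_pd_eq (i : Fin 2) (f : V2 → ℝ) : pd i f = Lines_D (Pi.single i 1) f := rfl

theorem Lines_D_comb (v : V2) (a b : ℝ) {f g : V2 → ℝ} (hf : ContDiff ℝ (⊤ : ℕ∞) f)
    (hg : ContDiff ℝ (⊤ : ℕ∞) g) (x : V2) :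
    Lines_D v (fun y => a * f y + b * g y) x = a * Lines_D v f x + b * Lines_D v g x := by
  have h := (((Lines_diff hf) x).hasFDerivAt.const_mul a).add
    (((Lines_diff hg) x).hasFDerivAt.const_mul b)
  unfold Lines_D
  rw [show (fun y => a * f y + b * g y) = (fun y => a * f y) + (fun y => b * g y) from rfl,
    h.fderiv]
  simp

theorem Lines_line (v x0 : V2) {f : V2 → ℝ} (hf : ContDiff ℝ (⊤ : ℕ∞) f) (s : ℝ) :
    HasDerivAt (fun s : ℝ => f (x0 + s • v)) (Lines_D v f (x0 + s • v)) s := by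
  have h1 : HasDerivAt (fun s : ℝ => x0 + s • v) v s := by
    simpa using ((hasDerivAt_id s).smul_const v).const_add x0
  exact ((Lines_diff hf) _).hasFDerivAt.comp_hasDerivAt s h1

theorem Lines_line_smooth (v x0 : V2) {f : V2 → ℝ} (hf : ContDiff ℝ (⊤ : ℕ∞) f) :
    ContDiff ℝ (⊤ : ℕ∞) (fun s : ℝ => f (x0 + s • v)) :=
  hf.comp (contDiff_const.add (contDiff_id.smul contDiff_const))

/-- second derivatives in terms of the partial ones -/
theorem Lines_second (v w : V2) {U : V2 → ℝ} (hU : ContDiff ℝ (⊤ : ℕ∞) U) (x : V2) :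
    Lines_D v (Lines_D w U) x = v 0 * w 0 * pd 0 (pd 0 U) x + (v 0 * w 1 + v 1 * w 0) * pd 0 (pd 1 U) x
      + v 1 * w 1 * pd 1 (pd 1 U) x := by
  have h1 : Lines_D w U = fun y => w 0 * pd 0 U y + w 1 * pd 1 U y := by
    funext y
    exact Lines_D_lin w U y
  have hs : ∀ i, ContDiff ℝ (⊤ : ℕ∞) (pd i U) := fun i => Lines_D_smooth _ hU
  rw [h1, Lines_D_comb v (w 0) (w 1) (hs 0) (hs 1), Lines_D_lin v, Lines_D_lin v]
  have hc : pd 1 (pd 0 U) x = pd 0 (pd 1 U) x := by
    rw [Lines_pd_eq, Lines_pd_eq, Lines_pd_eq, Lines_pd_eq]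
    exact Lines_D_comm _ _ hU x
  rw [hc]
  ring

/-- the identity `K[U] = 0` in rotated coordinates -/
theorem Lines_rot (p q : ℝ) {U : V2 → ℝ} (hU : ContDiff ℝ (⊤ : ℕ∞) U) (hK : ∀ x, KK U x = 0)
    (x : V2) :
    Lines_D ![-q, p] (Lines_D ![-q, p] U) x * (Lines_D ![p, q] U x) ^ 2
      - 2 * Lines_D ![-q, p] (Lines_D ![p, q] U) x * Lines_D ![-q, p] U x * Lines_D ![p, q] U x
      + Lines_D ![p, q] (Lines_D ![p, q] U) x * (Lines_D ![-q, p] U x) ^ 2 = 0 := by
  have h := hK x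
  unfold KK at h
  rw [Lines_second _ _ hU, Lines_second _ _ hU, Lines_second _ _ hU, Lines_D_lin ![p, q] U x,
    Lines_D_lin ![-q, p] U x]
  simp only [Matrix.cons_val_zero, Matrix.cons_val_one]
  linear_combination (p ^ 2 + q ^ 2) ^ 2 * h

/-- product rule in the needed form -/
theorem Lines_prod (v : V2) {a b c d e : V2 → ℝ} (ha : ContDiff ℝ (⊤ : ℕ∞) a)
    (hb : ContDiff ℝ (⊤ : ℕ∞) b) (hc : ContDiff ℝ (⊤ : ℕ∞) c) (hd : ContDiff ℝ (⊤ : ℕ∞) d)
    (he : ContDiff ℝ (⊤ : ℕ∞) e)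
    (hz : ∀ x, a x * (b x) ^ 2 - 2 * c x * d x * b x + e x * (d x) ^ 2 = 0) (x : V2)
    (h1 : a x = 0) (h2 : d x = 0) :
    Lines_D v a x * (b x) ^ 2 - 2 * c x * Lines_D v d x * b x = 0 := by
  have hline : ∀ s : ℝ, HasDerivAt (fun s : ℝ => a (x + s • v) * (b (x + s • v)) ^ 2
      - 2 * c (x + s • v) * d (x + s • v) * b (x + s • v) + e (x + s • v) * (d (x + s • v)) ^ 2) 0 s := by
    intro s
    have : (fun s : ℝ => a (x + s • v) * (b (x + s • v)) ^ 2
      - 2 * c (x + s • v) * d (x + s • v) * b (x + s • v) + e (x + s • v) * (d (x + s • v)) ^ 2)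
        = fun _ => 0 := by
      funext s
      exact hz _
    rw [this]
    exact hasDerivAt_const s 0
  have hA := Lines_line v x ha 0
  have hB := Lines_line v x hb 0
  have hC := Lines_line v x hc 0
  have hD := Lines_line v x hd 0
  have hE := Lines_line v x he 0
  have hall := ((hA.mul (hB.pow 2)).sub (((hC.const_mul 2).mul hD).mul hB)).add (hE.mul (hD.pow 2))
  have hu := (hline 0).unique hall
  simp only [zero_smul, add_zero, h1, h2] at hu
  simp at hu
  linear_combination -hu + (2 * c x * Lines_D v b x - d x * Lines_D v e x) * h2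

/-- TASK Lines (1).  If `K[U] = 0` identically and `∇U(x0) ≠ 0`, then `∇U` is constant on the line
through `x0` orthogonal to `n = ∇U(x0)`.

Proof.  Let `n = (U_0(x0), U_1(x0))`, `t = (-n_1, n_0)`, and write `U_t, U_n, U_tt, ...` for the
directional derivatives (`fderiv`/iterated).  Since `∇U = (U_n n + U_t t)/|n|²`,
`KK U * |n|⁴ = U_tt U_n² - 2 U_tn U_t U_n + U_nn U_t²` (polynomial identity in the first and second partial
derivatives), so the right hand side is zero everywhere.  Apply `ode_line` to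
`g s = U_n (x0 + s t)`, `A s = U_t (x0 + s t)`, `c s = U_nn (x0 + s t)`:
`h1` is this identity (`A' = U_tt`, `g' = U_tn`).  `h2`: differentiate the identity in direction `n`
at a point of the line where `U_t = 0`, `U_tt = 0` (if `A = 0` near `s` then `A' s = 0`):
`U_ttn U_n² - 2 U_tn² U_n = 0` and `g'' = U_ttn`.  `g 0 = |n|² > 0`, `A 0 = 0`.
So `U_t = 0`, `U_n = |n|²` on the line, i.e. `∇U = n`. -/
theorem grad_const (U : V2 → ℝ) (hU : ContDiff ℝ (⊤ : ℕ∞) U) (hK : ∀ x, KK U x = 0) (x0 : V2)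
    (h0 : fderiv ℝ U x0 ≠ 0) (s : ℝ) (i : Fin 2) :
    pd i U (x0 + s • ![-(pd 1 U x0), pd 0 U x0]) = pd i U x0 := by
  set p := pd 0 U x0 with hp
  set q := pd 1 U x0 with hq
  have hpq : 0 < p ^ 2 + q ^ 2 := by
    by_contra hcon
    have h1 : p = 0 := by nlinarith [sq_nonneg p, sq_nonneg q]
    have h2 : q = 0 := by nlinarith [sq_nonneg p, sq_nonneg q]
    apply h0
    ext v
    have := Lines_D_lin v U x0
    rw [← hp, ← hq, h1, h2] at this
    simpa [Lines_D] using this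
  have hUn := Lines_D_smooth ![p, q] hU
  have hUt := Lines_D_smooth ![-q, p] hU
  have hg : ContDiff ℝ (⊤ : ℕ∞) (fun s : ℝ => Lines_D ![p, q] U (x0 + s • ![-q, p])) :=
    Lines_line_smooth _ _ hUn
  have hA : ContDiff ℝ (⊤ : ℕ∞) (fun s : ℝ => Lines_D ![-q, p] U (x0 + s • ![-q, p])) :=
    Lines_line_smooth _ _ hUt
  have hdg : deriv (fun s : ℝ => Lines_D ![p, q] U (x0 + s • ![-q, p]))
      = fun s : ℝ => Lines_D ![-q, p] (Lines_D ![p, q] U) (x0 + s • ![-q, p]) := by
    funext s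
    exact (Lines_line _ _ hUn s).deriv
  have hdA : deriv (fun s : ℝ => Lines_D ![-q, p] U (x0 + s • ![-q, p]))
      = fun s : ℝ => Lines_D ![-q, p] (Lines_D ![-q, p] U) (x0 + s • ![-q, p]) := by
    funext s
    exact (Lines_line _ _ hUt s).deriv
  have hmain := ode_line (fun s : ℝ => Lines_D ![p, q] U (x0 + s • ![-q, p]))
    (fun s : ℝ => Lines_D ![-q, p] U (x0 + s • ![-q, p]))
    (fun s : ℝ => Lines_D ![p, q] (Lines_D ![p, q] U) (x0 + s • ![-q, p]))
    (hg.of_le Lines_two_le)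
    (hA.of_le (by exact_mod_cast (le_top : (1:ℕ∞) ≤ ⊤)))
    (Lines_line_smooth _ _ (Lines_D_smooth _ hUn)).continuous ?_ ?_ ?_ ?_
  · obtain ⟨h1, h2⟩ := hmain s
    simp only [zero_smul, add_zero] at h2
    rw [Lines_D_lin] at h1
    rw [Lines_D_lin, Lines_D_lin] at h2
    simp only [Matrix.cons_val_zero, Matrix.cons_val_one] at h1 h2
    rw [← hp, ← hq] at h2
    fin_cases i
    · show pd 0 U (x0 + s • ![-q, p]) = p
      have : (p ^ 2 + q ^ 2) * pd 0 U (x0 + s • ![-q, p]) = (p ^ 2 + q ^ 2) * p := by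
        linear_combination p * h2 - q * h1
      exact mul_left_cancel₀ hpq.ne' this
    · show pd 1 U (x0 + s • ![-q, p]) = q
      have : (p ^ 2 + q ^ 2) * pd 1 U (x0 + s • ![-q, p]) = (p ^ 2 + q ^ 2) * q := by
        linear_combination q * h2 + p * h1
      exact mul_left_cancel₀ hpq.ne' this
  · intro s
    have hr := Lines_rot p q hU hK (x0 + s • ![-q, p])
    rw [hdg, hdA]
    linear_combination hr
  · intro s hs
    have hA0 : Lines_D ![-q, p] U (x0 + s • ![-q, p]) = 0 := hs.self_of_nhds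
    have hA1 : Lines_D ![-q, p] (Lines_D ![-q, p] U) (x0 + s • ![-q, p]) = 0 := by
      have : deriv (fun s : ℝ => Lines_D ![-q, p] U (x0 + s • ![-q, p])) s = 0 := by
        have hev : (fun s : ℝ => Lines_D ![-q, p] U (x0 + s • ![-q, p])) =ᶠ[nhds s]
            fun _ => (0:ℝ) := hs
        rw [hev.deriv_eq]
        simp
      rwa [hdA] at this
    have hr := Lines_prod ![p, q] (Lines_D_smooth ![-q, p] hUt) hUn (Lines_D_smooth ![-q, p] hUn)
      hUt (Lines_D_smooth ![p, q] hUn) (Lines_rot p q hU hK) (x0 + s • ![-q, p]) hA1 hA0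
    rw [hdg]
    have hdd : deriv (fun s : ℝ => Lines_D ![-q, p] (Lines_D ![p, q] U) (x0 + s • ![-q, p])) s
        = Lines_D ![-q, p] (Lines_D ![-q, p] (Lines_D ![p, q] U)) (x0 + s • ![-q, p]) :=
      (Lines_line _ _ (Lines_D_smooth _ hUn) s).deriv
    rw [hdd]
    have hc1 : Lines_D ![p, q] (Lines_D ![-q, p] U) = Lines_D ![-q, p] (Lines_D ![p, q] U) := by
      funext y
      exact Lines_D_comm _ _ hU y
    have hc2 : Lines_D ![p, q] (Lines_D ![-q, p] (Lines_D ![-q, p] U)) (x0 + s • ![-q, p])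
        = Lines_D ![-q, p] (Lines_D ![-q, p] (Lines_D ![p, q] U)) (x0 + s • ![-q, p]) := by
      rw [Lines_D_comm _ _ hUt, hc1]
    rw [hc2, hc1] at hr
    show _ = 2 * (Lines_D ![-q, p] (Lines_D ![p, q] U) (x0 + s • ![-q, p])) ^ 2 * _
    linear_combination hr
  · simp only [zero_smul, add_zero]
    rw [Lines_D_lin]
    simp only [Matrix.cons_val_zero, Matrix.cons_val_one]
    rw [← hp, ← hq]
    linarith [hpq, sq p, sq q]
  · simp only [zero_smul, add_zero]
    rw [Lines_D_lin]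
    simp only [Matrix.cons_val_zero, Matrix.cons_val_one]
    rw [← hp, ← hq]
    ring

/-- TASK Lines (2).  There is one direction `e` with `D_e U = 0` everywhere.

Proof.  If `dU = 0` everywhere take `e = (1,0)`.  Otherwise let `dU(x0) ≠ 0`, `n = ∇U(x0)`,
`e = (-n_1, n_0)`.  Let `x1` be a point with `∇U(x1) = n' ≠ 0`; if `n'` is not parallel to `n`, the lines
`x0 + ℝ e` and `x1 + ℝ (-n'_1, n'_0)` meet in a point `y`, and `grad_const` gives
`∇U(y) = n` and `∇U(y) = n'`, contradiction.  So `∇U(x1)` is parallel to `n`, i.e.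
`fderiv U x1 e = 0`. -/
theorem lines (U : V2 → ℝ) (hU : ContDiff ℝ (⊤ : ℕ∞) U) (hK : ∀ x, KK U x = 0) :
    ∃ e : V2, e ≠ 0 ∧ ∀ x, fderiv ℝ U x e = 0 := by
  by_cases hall : ∀ x, fderiv ℝ U x = 0
  · refine ⟨![1, 0], ?_, ?_⟩
    · intro h
      have := congrFun h 0
      simp at this
    · intro x
      rw [hall x]
      rfl
  · push Not at hall
    obtain ⟨x0, hx0⟩ := hall
    refine ⟨![-(pd 1 U x0), pd 0 U x0], ?_, ?_⟩
    · intro h
      have h1 := congrFun h 0
      have h2 := congrFun h 1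
      simp at h1 h2
      apply hx0
      ext v
      have := Lines_D_lin v U x0
      rw [h1, h2] at this
      simpa [Lines_D] using this
    · intro x1
      by_cases hx1 : fderiv ℝ U x1 = 0
      · rw [hx1]
        rfl
      · by_contra hne
        have hd : Lines_D ![-(pd 1 U x0), pd 0 U x0] U x1 ≠ 0 := hne
        rw [Lines_D_lin] at hd
        simp only [Matrix.cons_val_zero, Matrix.cons_val_one] at hd
        -- intersection of the two lines
        obtain ⟨s, t, hst⟩ : ∃ s t : ℝ, x0 + s • ![-(pd 1 U x0), pd 0 U x0]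
            = x1 + t • ![-(pd 1 U x1), pd 0 U x1] := by
          obtain ⟨del, hdel⟩ : ∃ del : ℝ, del = -pd 1 U x0 * pd 0 U x1 + pd 0 U x0 * pd 1 U x1 :=
            ⟨_, rfl⟩
          rw [← hdel] at hd
          refine ⟨((x1 0 - x0 0) * pd 0 U x1 + (x1 1 - x0 1) * pd 1 U x1) / del,
            ((x1 0 - x0 0) * pd 0 U x0 + (x1 1 - x0 1) * pd 1 U x0) / del, ?_⟩
          ext i
          fin_cases i
          · show x0 0 + ((x1 0 - x0 0) * pd 0 U x1 + (x1 1 - x0 1) * pd 1 U x1) / del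
                * (-(pd 1 U x0)) = x1 0 + ((x1 0 - x0 0) * pd 0 U x0 + (x1 1 - x0 1) * pd 1 U x0)
                / del * (-(pd 1 U x1))
            field_simp
            rw [hdel]
            ring
          · show x0 1 + ((x1 0 - x0 0) * pd 0 U x1 + (x1 1 - x0 1) * pd 1 U x1) / del
                * (pd 0 U x0) = x1 1 + ((x1 0 - x0 0) * pd 0 U x0 + (x1 1 - x0 1) * pd 1 U x0)
                / del * (pd 0 U x1)
            field_simp
            rw [hdel]
            ring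
        have e0 := grad_const U hU hK x0 hx0 s
        have e1 := grad_const U hU hK x1 hx1 t
        have h00 := e0 0
        have h01 := e0 1
        have h10 := e1 0
        have h11 := e1 1
        rw [hst] at h00 h01
        rw [h10] at h00
        rw [h11] at h01
        apply hd
        rw [h00, h01]
        ring

end Pool.W4b1b5d.H3
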