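import Pool.Agent.W_4b1b5d_h3.KZero
import Pool.Agent.W_4b1b5d_h3.Lines
import Pool.Agent.W_4b1b5d_h3.EndE

set_option autoImplicit false

namespace Pool.W4b1b5d.H3

/-- The main theorem in terms of the data `ID`. -/
theorem mainI (I : ID) (hn : Odd I.n) (hF : ∃ a b x, I.f a b x ≠ 0) :
    ∃ e : V2, e ≠ 0 ∧ (∀ x, fderiv ℝ I.U x e = 0) ∧
      ∀ x, fderiv ℝ I.U x ≠ 0 → fderiv ℝ I.mu x e = 0 := by
  obtain ⟨e, he0, he⟩ := lines I.U I.Usm (kzero I hn hF)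
  obtain ⟨lam, hlam, -⟩ := dir_decomp I.al I.hal e
  have hlam0 : lam ≠ 0 := by
    rintro rfl
    apply he0
    ext i
    have := hlam i
    simp only [zero_mul, map_zero, add_zero] at this
    exact_mod_cast this
  obtain ⟨I', hal, hn', hU', hmu', hf'⟩ := rescale I lam hlam0
  refine ⟨e, he0, he, fun x hx => ?_⟩
  have hF' : ∃ a b x, I'.f a b x ≠ 0 := by
    obtain ⟨a, b, x, h⟩ := hF
    exact ⟨a, b, x, (hf' a b x).2 h⟩
  have h1 := endE_norm I' (hn' ▸ hn) hF' e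
    (fun i => by rw [hal i]; exact hlam i) (by rw [hU']; exact he) x (by rw [hU']; exact hx)
  have h2 : I'.mu = fun x => I.mu x * (‖lam‖ ^ 2)⁻¹ := by
    funext x
    rw [hmu' x, div_eq_mul_inv]
  rw [h2] at h1
  have h3 : fderiv ℝ (fun x => I.mu x * (‖lam‖ ^ 2)⁻¹) x = (‖lam‖ ^ 2)⁻¹ • fderiv ℝ I.mu x := by
    exact fderiv_mul_const ((I.musm.differentiable (by simp)) x) _
  rw [h3] at h1
  have h4 : (‖lam‖ ^ 2)⁻¹ ≠ 0 := inv_ne_zero (pow_ne_zero 2 (norm_ne_zero_iff.2 hlam0))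
  simpa [h4] using h1

end Pool.W4b1b5d.H3
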