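import Pool.Agent.W_4b1b5d_h3.Defs

set_option autoImplicit false

namespace Pool.W4b1b5d.H3

/-- Square of the positive part. -/
noncomputable def posq (t : ℝ) : ℝ := (max t 0) ^ 2

/-- Smooth cutoff: `1` for `t ≤ C`, `0` for `t ≥ C + 1`. -/
noncomputable def thet (C t : ℝ) : ℝ := 1 - Real.smoothTransition (t - C)

/-- The cutoff function on the `w`-plane. -/
noncomputable def Psi (s ε C : ℝ) (w : ℂ) : ℝ := posq (s * w.im - ε) * thet C (‖w‖ ^ 2)

/-- `posq' t = 2 max t 0`  (cases `t < 0`, `t = 0`, `t > 0`). -/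
theorem posq_hasDerivAt (t : ℝ) : HasDerivAt posq (2 * max t 0) t := by
  rcases lt_trichotomy t 0 with h | h | h
  · rw [max_eq_right h.le, mul_zero]
    refine (hasDerivAt_const t (0 : ℝ)).congr_of_eventuallyEq ?_
    filter_upwards [Iio_mem_nhds h] with u hu
    have hu' : u < 0 := hu
    simp [posq, max_eq_right hu'.le]
  · subst h
    rw [max_self, mul_zero]
    have h1 : HasDerivWithinAt posq 0 (Set.Iic 0) 0 := by
      refine (hasDerivWithinAt_const (0 : ℝ) (Set.Iic 0) (0 : ℝ)).congr (fun u hu => ?_) ?_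
      · have hu' : u ≤ 0 := hu
        simp [posq, max_eq_right hu']
      · simp [posq]
    have h2 : HasDerivWithinAt posq 0 (Set.Ici 0) 0 := by
      have h3 : HasDerivWithinAt (fun u : ℝ => u ^ 2) 0 (Set.Ici 0) 0 := by
        have := (hasDerivAt_pow 2 (0 : ℝ)).hasDerivWithinAt (s := Set.Ici 0)
        simpa using this
      refine h3.congr (fun u hu => ?_) ?_
      · have hu' : 0 ≤ u := hu
        simp [posq, max_eq_left hu']
      · simp [posq]
    have h3 := h1.union h2
    rw [Set.Iic_union_Ici] at h3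
    exact hasDerivWithinAt_univ.1 h3
  · rw [max_eq_left h.le]
    have h3 : HasDerivAt (fun u : ℝ => u ^ 2) (2 * t) t := by
      have := hasDerivAt_pow 2 t
      simpa using this
    refine h3.congr_of_eventuallyEq ?_
    filter_upwards [Ioi_mem_nhds h] with u hu
    have hu' : 0 < u := hu
    simp [posq, max_eq_left hu'.le]

theorem PsiM_posq : ContDiff ℝ 1 posq := by
  rw [contDiff_one_iff_deriv]
  refine ⟨fun t => (posq_hasDerivAt t).differentiableAt, ?_⟩
  have h : deriv posq = fun t => 2 * max t 0 := funext fun t => (posq_hasDerivAt t).deriv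
  rw [h]
  fun_prop

theorem PsiM_norm : ContDiff ℝ 1 (fun w : ℂ => ‖w‖ ^ 2) := contDiff_norm_sq ℝ

theorem PsiM_thet (C : ℝ) : ContDiff ℝ 1 (thet C) := by
  unfold thet
  exact contDiff_const.sub (Real.smoothTransition.contDiff.comp (contDiff_id.sub contDiff_const))

theorem Psi_contDiff (s ε C : ℝ) : ContDiff ℝ 1 (Psi s ε C) := by
  unfold Psi
  refine ContDiff.mul ?_ ?_
  · refine PsiM_posq.comp ?_
    exact (contDiff_const.mul (Complex.imCLM.contDiff)).sub contDiff_const
  · exact (PsiM_thet C).comp PsiM_norm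

theorem Psi_zero_of_le (s ε C : ℝ) {w : ℂ} (h : s * w.im ≤ ε) : Psi s ε C w = 0 := by
  unfold Psi posq
  rw [max_eq_right (by linarith)]
  simp

theorem Psi_zero_of_large (s ε C : ℝ) {w : ℂ} (h : C + 1 ≤ ‖w‖ ^ 2) : Psi s ε C w = 0 := by
  unfold Psi thet
  rw [Real.smoothTransition.one_of_one_le (by linarith)]
  simp

/-- On `‖w‖² < C` the cutoff `thet` is `1` near `w`, so the derivative in direction `i` is
`s * 2 max (s Im w - ε) 0`. -/
theorem Psi_deriv (s ε C : ℝ) {w : ℂ} (h : ‖w‖ ^ 2 < C) :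
    fderiv ℝ (Psi s ε C) w Complex.I = s * (2 * max (s * w.im - ε) 0) := by
  have h1 : Psi s ε C =ᶠ[nhds w] fun w => posq (s * w.im - ε) := by
    have h2 : ∀ᶠ v : ℂ in nhds w, ‖v‖ ^ 2 < C :=
      (PsiM_norm.continuous.continuousAt (x := w)).eventually (Iio_mem_nhds h)
    filter_upwards [h2] with v hv
    unfold Psi thet
    rw [Real.smoothTransition.zero_of_nonpos (by linarith)]
    simp
  rw [h1.fderiv_eq]
  have h3 : HasFDerivAt (fun w : ℂ => s * w.im - ε) (s • Complex.imCLM) w := by
    have := (Complex.imCLM.hasFDerivAt (x := w)).const_mul s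
    exact this.sub_const ε
  have h4 := (posq_hasDerivAt (s * w.im - ε)).comp_hasFDerivAt w h3
  have h5 : HasFDerivAt (fun w : ℂ => posq (s * w.im - ε))
      ((2 * max (s * w.im - ε) 0) • (s • Complex.imCLM)) w := h4
  rw [h5.fderiv]
  simp
  ring

/-- The derivative is continuous with compact support, hence bounded. -/
theorem Psi_deriv_bdd (s ε C : ℝ) : ∃ M : ℝ, ∀ w : ℂ, |fderiv ℝ (Psi s ε C) w Complex.I| ≤ M := by
  have hcs : HasCompactSupport (Psi s ε C) := by
    refine HasCompactSupport.intro (isCompact_closedBall (0 : ℂ) (|C| + 1)) fun w hw => ?_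
    apply Psi_zero_of_large
    have h1 : |C| + 1 < ‖w‖ := by
      simpa using hw
    have h2 := le_abs_self C
    have h3 := abs_nonneg C
    nlinarith
  have h1 : HasCompactSupport (fderiv ℝ (Psi s ε C)) := hcs.fderiv ℝ
  have h2 : Continuous (fderiv ℝ (Psi s ε C)) := (Psi_contDiff s ε C).continuous_fderiv one_ne_zero
  obtain ⟨M, hM⟩ := h1.exists_bound_of_continuous h2
  refine ⟨M, fun w => ?_⟩
  have h3 := (fderiv ℝ (Psi s ε C) w).le_opNorm Complex.I
  rw [Complex.norm_I, mul_one, Real.norm_eq_abs] at h3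
  exact h3.trans (hM w)

end Pool.W4b1b5d.H3
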