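import Pool.Agent.W_4b1b5d_h3.Bdry
import Pool.Agent.W_4b1b5d_h3.Grow
import Pool.Agent.W_4b1b5d_h3.PsiM
import Pool.Agent.W_4b1b5d_h3.IBP

set_option autoImplicit false

namespace Pool.W4b1b5d.H3

open Classical in
/-- The cutoff `N = Psi (R²)` on `Out`, `0` elsewhere. -/
noncomputable def NN (D : LD) (s ε C : ℝ) (z : V2 × ℂ) : ℂ :=
  if z ∈ D.Out then ((Psi s ε C ((D.R 0 z.1 z.2) ^ 2) : ℝ) : ℂ) else 0

/-- TASK NCut.  `R` is periodic in `x`. -/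
theorem LD.R_per (D : LD) (k : ℕ) (z : V2 × ℂ) (n : Fin 2 → ℤ) :
    D.R k (z.1 + fun i => (n i : ℝ)) z.2 = D.R k z.1 z.2 := by
  unfold LD.R
  congr 1
  funext j
  exact D.cper j z.1 n

/-- `Out` is periodic in `x`. -/
theorem LD.Out_per (D : LD) (z : V2 × ℂ) (n : Fin 2 → ℤ) (hz : z ∈ D.Out) :
    ((z.1 + fun i => (n i : ℝ)), z.2) ∈ D.Out := by
  change |D.l (z.1 + fun i => (n i : ℝ))| < ‖z.2‖ ^ 2
  rw [D.lper z.1 n]
  exact hz

theorem NCut_Out_iff (D : LD) (z : V2 × ℂ) (n : Fin 2 → ℤ) :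
    ((z.1 + fun i => (n i : ℝ)), z.2) ∈ D.Out ↔ z ∈ D.Out := by
  change |D.l (z.1 + fun i => (n i : ℝ))| < ‖z.2‖ ^ 2 ↔ |D.l z.1| < ‖z.2‖ ^ 2
  rw [D.lper z.1 n]

/-- Near a point outside of `Out` the function `NN` vanishes (`LD.im_small` and `Psi_zero_of_le`,
here `|s| ≤ 1` is used: `s * Im R² ≤ |Im R²| < ε`). -/
theorem NN_eventually_zero (D : LD) (s ε C : ℝ) (hs : |s| ≤ 1) (hε : 0 < ε) (z : V2 × ℂ)
    (hz : z ∉ D.Out) : ∀ᶠ z' in nhds z, NN D s ε C z' = 0 := by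
  filter_upwards [LD.im_small D ε hε z hz] with w hw
  unfold NN
  split_ifs with h
  · rw [Psi_zero_of_le, Complex.ofReal_zero]
    have h1 := hw h
    have h2 := le_abs_self (s * ((D.R 0 w.1 w.2) ^ 2).im)
    rw [abs_mul] at h2
    have h3 := abs_nonneg ((D.R 0 w.1 w.2) ^ 2).im
    nlinarith
  · rfl

/-- `NN` is `C¹`: near points of the open set `Out` it is `Psi (R²)` with `R` smooth, near the other
points it is `0`. -/
theorem NN_contDiff (D : LD) (s ε C : ℝ) (hs : |s| ≤ 1) (hε : 0 < ε) :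
    ContDiff ℝ 1 (NN D s ε C) := by
  rw [contDiff_iff_contDiffAt]
  intro z
  by_cases hz : z ∈ D.Out
  · have h1 : NN D s ε C =ᶠ[nhds z]
        fun z => ((Psi s ε C ((D.R 0 z.1 z.2) ^ 2) : ℝ) : ℂ) := by
      filter_upwards [(LD.isOpen_Out D).mem_nhds hz] with w hw
      unfold NN
      rw [if_pos hw]
    have h2 : ContDiffAt ℝ 1 (fun z : V2 × ℂ => D.R 0 z.1 z.2) z := by
      have h3 := Lk_contDiffOn D.d D.c D.csm 0
      have h4 : IsOpen {z : V2 × ℂ | z.2 ≠ 0} := isOpen_ne_fun continuous_snd continuous_const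
      exact (h3.contDiffAt (h4.mem_nhds (LD.ne_zero_of_Out D hz))).of_le (by norm_cast)
    have h3 : ContDiffAt ℝ 1 (fun z : V2 × ℂ => Psi s ε C ((D.R 0 z.1 z.2) ^ 2)) z :=
      (Psi_contDiff s ε C).contDiffAt.comp z (h2.pow 2)
    have h4 : ContDiffAt ℝ 1 (fun z : V2 × ℂ => ((Psi s ε C ((D.R 0 z.1 z.2) ^ 2) : ℝ) : ℂ)) z :=
      Complex.ofRealCLM.contDiff.contDiffAt.comp z h3
    exact h4.congr_of_eventuallyEq h1
  · have h1 : NN D s ε C =ᶠ[nhds z] fun _ => 0 := NN_eventually_zero D s ε C hs hε z hz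
    exact contDiffAt_const.congr_of_eventuallyEq h1

/-- `tsupport NN ⊆ Out`. -/
theorem NN_tsupport (D : LD) (s ε C : ℝ) (hs : |s| ≤ 1) (hε : 0 < ε) :
    tsupport (NN D s ε C) ⊆ D.Out := by
  intro z hz
  by_contra h
  exact (notMem_tsupport_iff_eventuallyEq.2 (NN_eventually_zero D s ε C hs hε z h)) hz

theorem NN_per (D : LD) (s ε C : ℝ) (z : V2 × ℂ) (n : Fin 2 → ℤ) :
    NN D s ε C (z.1 + fun i => (n i : ℝ), z.2) = NN D s ε C z := by
  unfold NN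
  simp only [LD.R_per D 0 z n]
  by_cases h : z ∈ D.Out
  · rw [if_pos ((NCut_Out_iff D z n).2 h), if_pos h]
  · rw [if_neg (fun h1 => h ((NCut_Out_iff D z n).1 h1)), if_neg h]

/-- `NN` vanishes for large `p` (`R_large`, `Psi_zero_of_large`). -/
theorem NN_large (D : LD) (s ε C : ℝ) : ∃ ρ : ℝ, 0 < ρ ∧ ∀ z : V2 × ℂ, ρ ≤ ‖z.2‖ →
    NN D s ε C z = 0 := by
  obtain ⟨ρ, hρ, h⟩ := LD.R_large D (max 1 (C + 1))
  refine ⟨ρ, hρ, fun z hz => ?_⟩
  unfold NN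
  split_ifs with h1
  · rw [Psi_zero_of_large, Complex.ofReal_zero]
    have h2 := h z.1 z.2 hz
    have h3 : (1 : ℝ) ≤ max 1 (C + 1) := le_max_left _ _
    have h4 : C + 1 ≤ max 1 (C + 1) := le_max_right _ _
    have h5 : (1 : ℝ) ≤ ‖D.R 0 z.1 z.2‖ := h3.trans h2
    rw [norm_pow, ← pow_mul]
    calc C + 1 ≤ ‖D.R 0 z.1 z.2‖ := h4.trans h2
      _ = ‖D.R 0 z.1 z.2‖ ^ 1 := (pow_one _).symm
      _ ≤ ‖D.R 0 z.1 z.2‖ ^ (2 * 2) := pow_le_pow_right₀ h5 (by norm_num)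
  · rfl

/-- The part of `tsupport NN` over the unit square with corner `y` is compact
(closed and bounded). -/
theorem NN_compact (D : LD) (s ε C : ℝ) (y : V2) :
    IsCompact (tsupport (NN D s ε C) ∩ Cell y) := by
  obtain ⟨ρ, hρ, h⟩ := NN_large D s ε C
  have hK : IsCompact ((Set.Icc y (fun i => y i + 1)) ×ˢ (Metric.closedBall (0 : ℂ) ρ)) :=
    isCompact_Icc.prod (isCompact_closedBall 0 ρ)
  refine hK.of_isClosed_subset ?_ ?_
  · refine (isClosed_tsupport _).inter ?_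
    exact isClosed_Icc.prod isClosed_univ
  · have h1 : tsupport (NN D s ε C) ⊆ {z | ‖z.2‖ ≤ ρ} := by
      refine closure_minimal ?_ ?_
      · intro z hz
        by_contra h2
        have h3 : ρ < ‖z.2‖ := not_le.1 h2
        exact hz (h z h3.le)
      · exact isClosed_le (by fun_prop) (by fun_prop)
    rintro z ⟨hz1, hz2⟩
    refine ⟨hz2.1, ?_⟩
    simpa using h1 hz1

end Pool.W4b1b5d.H3
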