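import Pool.Agent.W_4b1b5d_h3.LkDer

set_option autoImplicit false

namespace Pool.W4b1b5d.H3

open Polynomial

/-- The polynomial `∑ u j X^j`, `j ≤ 2d`. -/
noncomputable def pol (d : ℕ) (u : ℕ → ℂ) : Polynomial ℂ :=
  ∑ j ∈ Finset.range (2 * d + 1), C (u j) * X ^ j

/-- TASK NearB (1).  `Lk d u 0 p = p^(-d) * (pol d u)(p)`. -/
theorem pol_eval (d : ℕ) (u : ℕ → ℂ) (p : ℂ) (hp : p ≠ 0) :
    (pol d u).eval p = p ^ d * Lk d u 0 p := by
  unfold pol Lk
  rw [Polynomial.eval_finset_sum, Finset.mul_sum]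
  refine Finset.sum_congr rfl fun j _ => ?_
  have h : p ^ d * p ^ ((j : ℤ) - d - ((0 : ℕ) : ℤ)) = p ^ j := by
    rw [← zpow_natCast, ← zpow_add₀ hp, ← zpow_natCast]
    congr 1
    push_cast
    ring
  have h0 : fall ((j : ℤ) - d) 0 = 1 := by simp [fall]
  simp only [Polynomial.eval_mul, Polynomial.eval_C, Polynomial.eval_pow, Polynomial.eval_X]
  rw [h0, ← h]
  ring

/-- `Lk d u 1 p = p^(-d-1) * (pol d ((j-d) u_j))(p)`. -/
theorem pol_eval_one (d : ℕ) (u : ℕ → ℂ) (p : ℂ) (hp : p ≠ 0) :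
    (pol d (fun j => ((j : ℂ) - d) * u j)).eval p = p ^ (d + 1) * Lk d u 1 p := by
  unfold pol Lk
  rw [Polynomial.eval_finset_sum, Finset.mul_sum]
  refine Finset.sum_congr rfl fun j _ => ?_
  have h : p ^ (d + 1) * p ^ ((j : ℤ) - d - ((1 : ℕ) : ℤ)) = p ^ j := by
    rw [← zpow_natCast, ← zpow_add₀ hp, ← zpow_natCast]
    congr 1
    push_cast
    ring
  have h0 : fall ((j : ℤ) - d) 1 = (j : ℂ) - d := by simp [fall]
  simp only [Polynomial.eval_mul, Polynomial.eval_C, Polynomial.eval_pow, Polynomial.eval_X]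
  rw [h0, ← h]
  ring

/-- order of vanishing of a polynomial function -/
theorem NearB_order {Q : Polynomial ℂ} (hQ : Q ≠ 0) (p : ℂ) :
    analyticOrderAt (fun q => Q.eval q) p = (Q.rootMultiplicity p : ℕ∞) := by
  have hQa : ∀ P : Polynomial ℂ, AnalyticAt ℂ (fun q => P.eval q) p := fun P =>
    P.differentiable.analyticAt p
  obtain ⟨g, hg, hnd⟩ := Polynomial.exists_eq_pow_rootMultiplicity_mul_and_not_dvd Q hQ p
  rw [(hQa Q).analyticOrderAt_eq_natCast]
  refine ⟨fun q => g.eval q, hQa g, ?_, ?_⟩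
  · intro h0
    exact hnd (Polynomial.dvd_iff_isRoot.2 h0)
  · refine Filter.Eventually.of_forall fun q => ?_
    conv_lhs => rw [hg]
    simp only [Polynomial.eval_mul, Polynomial.eval_pow, Polynomial.eval_sub, Polynomial.eval_X,
      Polynomial.eval_C, smul_eq_mul]

theorem NearB_analytic (d : ℕ) (u : ℕ → ℂ) (k : ℕ) {p : ℂ} (hp : p ≠ 0) :
    AnalyticAt ℂ (fun q => Lk d u k q) p := by
  have h : DifferentiableOn ℂ (fun q => Lk d u k q) {q | q ≠ 0} := fun q hq =>
    (Lk_hasDerivAt d u k hq).differentiableAt.differentiableWithinAt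
  exact h.analyticAt (isOpen_ne.mem_nhds hp)

theorem NearB_iter (d : ℕ) (u : ℕ → ℂ) (k i : ℕ) {p : ℂ} (hp : p ≠ 0) :
    iteratedDeriv i (fun q => Lk d u k q) p = Lk d u (k + i) p := by
  induction i generalizing p with
  | zero => simp
  | succ i ih =>
    rw [iteratedDeriv_succ]
    have h : iteratedDeriv i (fun q => Lk d u k q) =ᶠ[nhds p] fun q => Lk d u (k + i) q := by
      filter_upwards [isOpen_ne.mem_nhds hp] with q hq
      exact ih hq
    rw [h.deriv_eq, (Lk_hasDerivAt d u (k + i) hp).deriv]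
    rfl

theorem NearB_gen (d : ℕ) (u : ℕ → ℂ) (k e : ℕ) {Q : Polynomial ℂ} (hQ : Q ≠ 0) {p : ℂ}
    (hp : p ≠ 0) (h : ∀ q : ℂ, q ≠ 0 → Q.eval q = q ^ e * Lk d u k q) (m : ℕ) :
    (∀ i, i < m → Lk d u (k + i) p = 0) ↔ m ≤ Q.rootMultiplicity p := by
  have h1 : analyticOrderAt (fun q => Q.eval q) p = analyticOrderAt (fun q => Lk d u k q) p := by
    have h2 : (fun q => Q.eval q) =ᶠ[nhds p] (fun q : ℂ => q ^ e) * fun q => Lk d u k q := by
      filter_upwards [isOpen_ne.mem_nhds hp] with q hq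
      exact h q hq
    have ha : AnalyticAt ℂ (fun q : ℂ => q ^ e) p := by fun_prop
    rw [analyticOrderAt_congr h2, analyticOrderAt_mul ha (NearB_analytic d u k hp),
      ha.analyticOrderAt_eq_zero.2 (pow_ne_zero _ hp), zero_add]
  rw [← ENat.coe_le_coe, ← NearB_order hQ p, h1,
    natCast_le_analyticOrderAt_iff_iteratedDeriv_eq_zero (NearB_analytic d u k hp)]
  refine forall₂_congr fun i _ => ?_
  rw [NearB_iter d u k i hp]

/-- TASK NearB (2).  Vanishing of the first `m` derivatives of the Laurent polynomial at `p ≠ 0`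
means that `p` is a root of multiplicity at least `m` of `pol d u`.

Proof.  `Lk d u i` is the `i`-th derivative of `f = Lk d u 0` on `p ≠ 0` (`Lk_hasDerivAt`), and
`pol.eval = p^d f`.  By induction on `m` (for all pairs of functions) or by the Leibniz formula the first
`m` derivatives of `f` vanish at `p` iff the first `m` derivatives of `p^d f` do, and for a
polynomial `Q ≠ 0` the first `m` derivatives vanish iff `m ≤ Q.rootMultiplicity p`
(`Polynomial.lt_rootMultiplicity_iff_isRoot_iterate_derivative` and relatives).  Another way: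
use `analyticOrderAt`. -/
theorem mult_iff (d : ℕ) (u : ℕ → ℂ) (hu : pol d u ≠ 0) (p : ℂ) (hp : p ≠ 0) (m : ℕ) :
    (∀ i, i < m → Lk d u i p = 0) ↔ m ≤ (pol d u).rootMultiplicity p := by
  rw [← NearB_gen d u 0 d hu hp (fun q hq => pol_eval d u q hq) m]
  simp only [zero_add]

/-- TASK NearB (3).  The same for the derivative (`Lk d u (i+1)` are the derivatives of
`Lk d u 1 = p^(-d-1) * pol d ((j-d) u_j)`). -/
theorem mult_iff_one (d : ℕ) (u : ℕ → ℂ) (hu : pol d (fun j => ((j : ℂ) - d) * u j) ≠ 0) (p : ℂ)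
    (hp : p ≠ 0) (m : ℕ) :
    (∀ i, 1 ≤ i → i ≤ m → Lk d u i p = 0) ↔
      m ≤ (pol d (fun j => ((j : ℂ) - d) * u j)).rootMultiplicity p := by
  rw [← NearB_gen d u 1 (d + 1) hu hp (fun q hq => pol_eval_one d u q hq) m]
  constructor
  · intro h i hi
    exact h (1 + i) (by omega) (by omega)
  · intro h i h1 hi
    have := h (i - 1) (by omega)
    rwa [show 1 + (i - 1) = i by omega] at this

/-- TASK NearB (4).  For the data `D`: the polynomial of `R_p` is not zero (its coefficient of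
`X^(2d)` is `d * a ≠ 0`), so for every `p ≠ 0` some derivative `R k x p`, `k ≥ 1`, is nonzero. -/
theorem LD.pol_ne (D : LD) (x : V2) : pol D.d (fun j => ((j : ℂ) - D.d) * D.c j x) ≠ 0 := by
  intro h0
  have h1 := congrArg (fun Q : Polynomial ℂ => Q.coeff (2 * D.d)) h0
  simp only [pol, Polynomial.finset_sum_coeff, Polynomial.coeff_C_mul_X_pow,
    Polynomial.coeff_zero] at h1
  rw [Finset.sum_ite_eq, if_pos (Finset.mem_range.2 (by omega)), D.top x] at h1
  have hd : (D.d : ℂ) ≠ 0 := by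
    have := D.hd
    exact_mod_cast (by omega : D.d ≠ 0)
  have h2 : (D.d : ℂ) * D.a = 0 := by
    rw [← h1]
    push_cast
    ring
  exact mul_ne_zero hd D.ha h2

theorem LD.exists_ne (D : LD) (x : V2) (p : ℂ) (hp : p ≠ 0) : ∃ k, 1 ≤ k ∧ D.R k x p ≠ 0 := by
  by_contra hcon
  push Not at hcon
  have h := (mult_iff_one D.d (fun j => D.c j x) (D.pol_ne x) p hp
    ((pol D.d (fun j => ((j : ℂ) - D.d) * D.c j x)).rootMultiplicity p + 1)).1
    (fun i h1 _ => hcon i h1)
  omega

end Pool.W4b1b5d.H3
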