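import Pool.Agent.W_4b1b5d_h3.NearA
import Pool.Agent.W_4b1b5d_h3.NearB
import Pool.Agent.W_4b1b5d_h3.Bdry

set_option autoImplicit false

namespace Pool.W4b1b5d.H3

open Metric Set

theorem Near_pol_eval (d : ℕ) (u : ℕ → ℂ) (z : ℂ) :
    (pol d u).eval z = ∑ j ∈ Finset.range (2 * d + 1), u j * z ^ j := by
  simp [pol, Polynomial.eval_finset_sum]

theorem Near_pol_zero (d : ℕ) (u : ℕ → ℂ) (h : pol d u = 0) (k : ℕ) (p : ℂ) :
    Lk d u k p = 0 := by
  have h1 : ∀ j ∈ Finset.range (2 * d + 1), u j = 0 := by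
    intro j hj
    have h2 : (pol d u).coeff j = u j := by
      simp only [pol, Polynomial.finset_sum_coeff, Polynomial.coeff_C_mul, Polynomial.coeff_X_pow]
      rw [Finset.sum_eq_single j]
      · simp
      · intro i _ hij
        simp [hij.symm]
      · intro h3
        exact absurd hj h3
    rw [h] at h2
    simpa using h2.symm
  unfold Lk
  apply Finset.sum_eq_zero
  intro j hj
  rw [h1 j hj]
  simp

/-- a continuous function equal to the inverse on `κ ≤ ‖w‖`. -/
noncomputable def Near_g (κ : ℝ) (w : ℂ) : ℂ :=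
  (starRingEnd ℂ) w / ((max (‖w‖ ^ 2) (κ ^ 2) : ℝ) : ℂ)

theorem Near_g_cont {κ : ℝ} (hκ : 0 < κ) : Continuous (Near_g κ) := by
  unfold Near_g
  apply Continuous.div
  · exact Complex.continuous_conj
  · exact Complex.continuous_ofReal.comp ((continuous_norm.pow 2).max continuous_const)
  · intro w
    have : 0 < max (‖w‖ ^ 2) (κ ^ 2) := lt_max_of_lt_right (by positivity)
    exact_mod_cast this.ne'

theorem Near_g_eq {κ : ℝ} (hκ : 0 < κ) {w : ℂ} (hw : κ ≤ ‖w‖) : Near_g κ w = w⁻¹ := by
  unfold Near_g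
  have h1 : κ ^ 2 ≤ ‖w‖ ^ 2 := by gcongr
  rw [max_eq_left h1, Complex.inv_def, Complex.normSq_eq_norm_sq]
  rw [div_eq_mul_inv]
  push_cast
  rfl

/-- TASK Near.  Bad points persist: near a bad point `(x1,p1)` there is, for every `x` close to `x1`,
a bad point `(x,p')` with `p'` close to `p1`.

Proof.  Let `P x = pol d ((j-d) c_j x)` and `A x = pol d (dd al c_j x)`.  `Out` is open
(`isOpen_Out`) and `P x1` has finitely many roots, so choose `0 < r < ε` and `δ1 > 0` such that
`(x,p) ∈ Out` for `dist x x1 < δ1`, `p ∈ closedBall p1 r`, and `p1` is the only root of `P x1` in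
`closedBall p1 r`.  Suppose the claim fails: then there is a sequence `x_n → x1`
without bad points `(x_n, p')`, `p' ∈ ball p1 r`.  For `n` large `P x_n` has no zero on the circle
`sphere p1 r` (compactness, `P x1 ≠ 0` there, continuity).  For `z ∈ ball p1 r` let
`k = (P x_n).rootMultiplicity z`; by `mult_iff_one` `R i x_n z = 0` for `1 ≤ i ≤ k` and
`R (k+1) x_n z ≠ 0`; since `(x_n, z)` is not bad (of order `k`), `R1 i x_n z = 0` for `i < k`, so by
`mult_iff` `k ≤ (A x_n).rootMultiplicity z` (or `A x_n = 0`).  By `cauchy_quot` all the moments of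
`A x_n / P x_n` over the circle vanish, and they converge to the moments of `A x1 / P x1`
(the circle integral is continuous in the parameter: the integrand is jointly continuous near
`{x1} × sphere`, e.g. `intervalIntegral.continuousAt_of_dominated_interval` or uniform
convergence).  But `A x1 ≠ 0` and `(A x1).rootMultiplicity p1 < m = (P x1).rootMultiplicity p1` because
`(x1,p1)` is bad, which contradicts `residue_quot`. -/
theorem near (D : LD) (m : ℕ) (x1 : V2) (p1 : ℂ) (hb : D.Bad x1 p1 m) (ε : ℝ) (hε : 0 < ε) :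
    ∃ δ : ℝ, 0 < δ ∧ ∀ x : V2, dist x x1 < δ →
      ∃ p' : ℂ, dist p' p1 < ε ∧ ∃ m', D.Bad x p' m' := by
  classical
  obtain ⟨hout, hR, hRm, i0, hi0, hR1⟩ := hb
  set P : V2 → Polynomial ℂ := fun x => pol D.d (fun j => ((j : ℂ) - D.d) * D.c j x) with hPdef
  set A : V2 → Polynomial ℂ := fun x => pol D.d (fun j => dd D.al (D.c j) x) with hAdef
  have hPne : ∀ x, P x ≠ 0 := fun x => D.pol_ne x
  have hp1 : p1 ≠ 0 := D.ne_zero_of_Out (z := (x1, p1)) hout
  -- multiplicities at the bad point
  have hmP : m ≤ (P x1).rootMultiplicity p1 :=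
    (mult_iff_one D.d (fun j => D.c j x1) (hPne x1) p1 hp1 m).mp hR
  have hA1 : A x1 ≠ 0 := by
    intro h
    exact hR1 (Near_pol_zero D.d _ h i0 p1)
  have hmA : (A x1).rootMultiplicity p1 < m := by
    by_contra hge
    push Not at hge
    have h := (mult_iff D.d (fun j => dd D.al (D.c j) x1) hA1 p1 hp1 m).mpr hge
    exact hR1 (h i0 hi0)
  -- choice of the radius
  have hOutn : D.Out ∈ nhds ((x1, p1) : V2 × ℂ) := D.isOpen_Out.mem_nhds hout
  obtain ⟨η, hη, hηsub⟩ := Metric.mem_nhds_iff.mp hOutn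
  have hroots : ∀ᶠ z in nhds p1, (P x1).eval z = 0 → z = p1 := by
    have hfin : ((P x1).roots.toFinset.erase p1 : Set ℂ).Finite := Finset.finite_toSet _
    have h1 : ((P x1).roots.toFinset.erase p1 : Set ℂ)ᶜ ∈ nhds p1 :=
      hfin.isClosed.isOpen_compl.mem_nhds (by simp)
    filter_upwards [h1] with z hz h0
    by_contra hne
    apply hz
    simp only [Finset.coe_erase, Set.mem_diff, Finset.mem_coe, Multiset.mem_toFinset,
      Set.mem_singleton_iff]
    exact ⟨(Polynomial.mem_roots (hPne x1)).mpr h0, hne⟩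
  obtain ⟨r0, hr0, hr0sub⟩ := Metric.eventually_nhds_iff.mp hroots
  set r : ℝ := min (ε / 2) (min (η / 2) (r0 / 2)) with hr
  have hrpos : 0 < r := by
    rw [hr]
    exact lt_min (by positivity) (lt_min (by positivity) (by positivity))
  have hrε : r < ε := lt_of_le_of_lt (min_le_left _ _) (by linarith)
  have hrη : r < η := lt_of_le_of_lt ((min_le_right _ _).trans (min_le_left _ _)) (by linarith)
  have hrr0 : r < r0 := lt_of_le_of_lt ((min_le_right _ _).trans (min_le_right _ _)) (by linarith)
  have hPonly : ∀ z ∈ closedBall p1 r, (P x1).eval z = 0 → z = p1 := fun z hz =>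
    hr0sub (lt_of_le_of_lt (mem_closedBall.mp hz) hrr0)
  -- joint continuity
  have hPc : Continuous fun q : V2 × ℂ => (P q.1).eval q.2 := by
    have h1 : (fun q : V2 × ℂ => (P q.1).eval q.2) = fun q : V2 × ℂ =>
        ∑ j ∈ Finset.range (2 * D.d + 1), (((j : ℂ) - D.d) * D.c j q.1) * q.2 ^ j := by
      funext q
      exact Near_pol_eval _ _ _
    rw [h1]
    apply continuous_finsetSum
    intro j _
    exact (continuous_const.mul ((D.csm j).continuous.comp continuous_fst)).mul
      (continuous_snd.pow j)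
  have hAc : Continuous fun q : V2 × ℂ => (A q.1).eval q.2 := by
    have h1 : (fun q : V2 × ℂ => (A q.1).eval q.2) = fun q : V2 × ℂ =>
        ∑ j ∈ Finset.range (2 * D.d + 1), (dd D.al (D.c j) q.1) * q.2 ^ j := by
      funext q
      exact Near_pol_eval _ _ _
    rw [h1]
    apply continuous_finsetSum
    intro j _
    exact ((dd_contDiff D.al (D.csm j)).continuous.comp continuous_fst).mul
      (continuous_snd.pow j)
  -- lower bound on the sphere
  have hsph : ∀ z ∈ sphere p1 r, (P x1).eval z ≠ 0 := by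
    intro z hz h0
    have h1 := hPonly z (sphere_subset_closedBall hz) h0
    rw [h1] at hz
    simp at hz
    exact hrpos.ne hz
  obtain ⟨κ, hκ, hκle⟩ : ∃ κ : ℝ, 0 < κ ∧ ∀ z ∈ sphere p1 r, κ < ‖(P x1).eval z‖ := by
    have hcomp : IsCompact (sphere p1 r) := isCompact_sphere p1 r
    have hne : (sphere p1 r).Nonempty := by
      refine ⟨p1 + r, ?_⟩
      simp [abs_of_pos hrpos]
    obtain ⟨z0, hz0, hmin⟩ := hcomp.exists_isMinOn hne
      (f := fun z => ‖(P x1).eval z‖) ((P x1).continuous.norm.continuousOn)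
    have h1 : 0 < ‖(P x1).eval z0‖ := norm_pos_iff.mpr (hsph z0 hz0)
    refine ⟨‖(P x1).eval z0‖ / 2, by positivity, fun z hz => ?_⟩
    have h2 := hmin hz
    simp only [mem_setOf_eq] at h2
    linarith
  have hev : ∀ᶠ x in nhds x1, ∀ z ∈ sphere p1 r, κ < ‖(P x).eval z‖ := by
    apply (isCompact_sphere p1 r).eventually_forall_of_forall_eventually
    intro z hz
    have h1 : IsOpen {q : V2 × ℂ | κ < ‖(P q.1).eval q.2‖} :=
      isOpen_lt continuous_const hPc.norm
    exact h1.mem_nhds (hκle z hz)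
  have hev2 : ∀ᶠ x in nhds x1, dist x x1 < η := Metric.ball_mem_nhds x1 hη
  -- moments
  obtain ⟨j, hj⟩ := residue_quot (P x1) (A x1) p1 r hrpos (hPne x1) hA1 hPonly
    (lt_of_lt_of_le hmA hmP)
  set G : V2 → ℂ := fun x => ∫ θ in (0 : ℝ)..2 * Real.pi,
    (circleMap 0 r θ * Complex.I) • ((circleMap p1 r θ - p1) ^ j *
      ((A x).eval (circleMap p1 r θ) * Near_g κ ((P x).eval (circleMap p1 r θ)))) with hG
  have hGc : Continuous G := by
    apply intervalIntegral.continuous_parametric_intervalIntegral_of_continuous'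
    have hcm : Continuous fun q : V2 × ℝ => circleMap p1 r q.2 :=
      (continuous_circleMap p1 r).comp continuous_snd
    have hcm0 : Continuous fun q : V2 × ℝ => circleMap 0 r q.2 :=
      (continuous_circleMap 0 r).comp continuous_snd
    have h1 : Continuous fun q : V2 × ℝ => ((q.1, circleMap p1 r q.2) : V2 × ℂ) :=
      continuous_fst.prodMk hcm
    have hA' := hAc.comp h1
    have hP' := (Near_g_cont hκ).comp (hPc.comp h1)
    exact (hcm0.mul continuous_const).smul
      (((hcm.sub continuous_const).pow j).mul (hA'.mul hP'))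
  have hGeq : ∀ x, (∀ z ∈ sphere p1 r, κ < ‖(P x).eval z‖) →
      (∮ z in C(p1, r), (z - p1) ^ j * ((A x).eval z / (P x).eval z)) = G x := by
    intro x hx
    rw [hG]
    simp only [circleIntegral, deriv_circleMap]
    apply intervalIntegral.integral_congr
    intro θ _
    have h1 : circleMap p1 r θ ∈ sphere p1 r := circleMap_mem_sphere p1 hrpos.le θ
    simp only
    rw [Near_g_eq hκ (hx _ h1).le, div_eq_mul_inv]
  have hG1 : G x1 ≠ 0 := by
    rw [← hGeq x1 (fun z hz => hκle z hz)]
    exact hj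
  have hGev : ∀ᶠ x in nhds x1, G x ≠ 0 := hGc.continuousAt.eventually_ne hG1
  obtain ⟨δ, hδ, hδsub⟩ := Metric.eventually_nhds_iff.mp (hev.and (hev2.and hGev))
  refine ⟨δ, hδ, fun x hx => ?_⟩
  obtain ⟨h1, h2, h3⟩ := hδsub hx
  by_contra hno
  push Not at hno
  apply h3
  rw [← hGeq x h1]
  apply cauchy_quot (P x) (A x) p1 r hrpos (hPne x)
  · intro z hz h0
    have h4 := h1 z hz
    rw [h0, norm_zero] at h4
    linarith
  · by_cases hAx : A x = 0
    · exact Or.inl hAx
    · right
      intro z hz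
      have hzO : ((x, z) : V2 × ℂ) ∈ D.Out := by
        apply hηsub
        rw [Metric.mem_ball, Prod.dist_eq]
        exact max_lt h2 (lt_trans (mem_ball.mp hz) hrη)
      have hz0 : z ≠ 0 := D.ne_zero_of_Out hzO
      set k := (P x).rootMultiplicity z with hk
      have h5 := (mult_iff_one D.d (fun j => D.c j x) (hPne x) z hz0 k).mpr le_rfl
      have h6 : D.R (k + 1) x z ≠ 0 := by
        intro h7
        have h8 := (mult_iff_one D.d (fun j => D.c j x) (hPne x) z hz0 (k + 1)).mp (by
          intro i hi1 hi2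
          rcases Nat.lt_or_ge i (k + 1) with h9 | h9
          · exact h5 i hi1 (by omega)
          · have h10 : i = k + 1 := by omega
            rw [h10]
            exact h7)
        have h11 : (P x).rootMultiplicity z < k + 1 := by omega
        exact absurd h8 (not_le.mpr h11)
      have h7 := hno z (lt_trans (mem_ball.mp hz) hrε) k
      have h8 : ∀ i, i < k → D.R1 i x z = 0 := by
        intro i hi
        by_contra hne
        exact h7 ⟨hzO, h5, h6, i, hi, hne⟩
      exact (mult_iff D.d (fun j => dd D.al (D.c j) x) hAx z hz0 k).mp h8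

end Pool.W4b1b5d.H3
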