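import Pool.Agent.W_4b1b5d_h3.Defs

set_option autoImplicit false

namespace Pool.W4b1b5d.H3

open Polynomial

/-- TASK NearA (1).  If every zero of `P` in the open disc is a zero of `A` of at least the same
multiplicity and `P` has no zero on the circle, then `A/P` has no poles in the closed disc and all its
moments over the circle vanish.

Proof.  If `A = 0` trivial.  Let `P1 = ∏_{roots z of P in the open disc} (X - z)` (with multiplicity:
`(P.roots.filter (· ∈ ball c r)).map (X - C ·)).prod`) and `P = P1 * P2`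
(`P1 ∣ P`, the multiset of roots of `P2` is the complement).  `P1 ∣ A` because
`P1.roots ≤ A.roots` (e.g. `Multiset.prod_X_sub_C_dvd_iff_le_roots`).  `A = P1 * Q`, so
`A/P = Q/P2` on the circle and `P2` has no zero on the closed disc, so
`z ↦ (z-c)^j * (Q.eval z / P2.eval z)` is differentiable on the closed disc; use
`Complex.circleIntegral_eq_zero_of_differentiable_on_off_countable` (or
`DiffContOnCl` version). -/
theorem cauchy_quot (P A : Polynomial ℂ) (c : ℂ) (r : ℝ) (hr : 0 < r) (hP0 : P ≠ 0)
    (hP : ∀ z ∈ Metric.sphere c r, P.eval z ≠ 0)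
    (h : A = 0 ∨ ∀ z ∈ Metric.ball c r, P.rootMultiplicity z ≤ A.rootMultiplicity z) (j : ℕ) :
    (∮ z in C(c, r), (z - c) ^ j * (A.eval z / P.eval z)) = 0 := by
  classical
  rcases h with rfl | h
  · simp [circleIntegral]
  by_cases hA0 : A = 0
  · subst hA0
    simp [circleIntegral]
  set M : Multiset ℂ := P.roots.filter (fun z => z ∈ Metric.ball c r) with hM
  set P₁ : Polynomial ℂ := (M.map fun a => X - C a).prod with hP₁
  have hMle : M ≤ P.roots := Multiset.filter_le _ _
  have hMA : M ≤ A.roots := by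
    rw [Multiset.le_iff_count]
    intro a
    rw [hM, Multiset.count_filter]
    split_ifs with ha
    · rw [count_roots, count_roots]
      exact h a ha
    · exact Nat.zero_le _
  obtain ⟨P₂, hP₂⟩ : P₁ ∣ P := (Multiset.prod_X_sub_C_dvd_iff_le_roots hP0 M).2 hMle
  obtain ⟨Q, hQ⟩ : P₁ ∣ A := (Multiset.prod_X_sub_C_dvd_iff_le_roots hA0 M).2 hMA
  have hP₂0 : P₂ ≠ 0 := by
    rintro rfl
    exact hP0 (by rw [hP₂, mul_zero])
  have hev : ∀ z, P.eval z = P₁.eval z * P₂.eval z := by
    intro z
    conv_lhs => rw [hP₂]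
    rw [eval_mul]
  have hnz : ∀ z ∈ Metric.closedBall c r, P₂.eval z ≠ 0 := by
    intro z hz h0
    have hPz : P.eval z = 0 := by rw [hev, h0, mul_zero]
    have hzb : z ∈ Metric.ball c r := by
      rcases (Metric.mem_closedBall.1 hz).lt_or_eq with h1 | h1
      · exact h1
      · exact absurd hPz (hP z h1)
    have hroots : P.roots = M + P₂.roots := by
      have h1 : P₁ * P₂ ≠ 0 := by rw [← hP₂]; exact hP0
      have h2 : P₁.roots = M := by rw [hP₁, roots_multiset_prod_X_sub_C]
      conv_lhs => rw [hP₂]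
      rw [roots_mul h1, h2]
    have hc := congrArg (Multiset.count z) hroots
    rw [Multiset.count_add, hM, Multiset.count_filter, if_pos hzb] at hc
    have hc2 : 0 < Multiset.count z P₂.roots :=
      Multiset.count_pos.2 ((mem_roots hP₂0).2 h0)
    omega
  have hcong : (∮ z in C(c, r), (z - c) ^ j * (A.eval z / P.eval z)) =
      ∮ z in C(c, r), (z - c) ^ j * (Q.eval z / P₂.eval z) := by
    refine circleIntegral.integral_congr hr.le fun z hz => ?_
    have h1 : P₁.eval z ≠ 0 := by
      intro h2
      exact hP z hz (by rw [hev, h2, zero_mul])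
    have h3 : A.eval z = P₁.eval z * Q.eval z := by
      conv_lhs => rw [hQ]
      rw [eval_mul]
    rw [h3, hev, mul_div_mul_left _ _ h1]
  rw [hcong]
  have hd : ∀ z ∈ Metric.closedBall c r,
      DifferentiableAt ℂ (fun z => (z - c) ^ j * (Q.eval z / P₂.eval z)) z := by
    intro z hz
    refine DifferentiableAt.mul ?_ ?_
    · exact (differentiableAt_id.sub_const c).pow j
    · exact Q.differentiable.differentiableAt.div P₂.differentiable.differentiableAt (hnz z hz)
  exact Complex.circleIntegral_eq_zero_of_differentiable_on_off_countable hr.le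
    Set.countable_empty (fun z hz => (hd z hz).continuousAt.continuousWithinAt)
    (fun z hz => hd z (Metric.ball_subset_closedBall hz.1))

/-- TASK NearA (2).  If `c` is the only zero of `P` in the closed disc and the multiplicity of `c`
in `A` is smaller than in `P`, then some moment of `A/P` is nonzero.

Proof.  `A = (X-c)^k * A1`, `P = (X-c)^m * P1` with `A1(c) ≠ 0`, `P1(z) ≠ 0` on the closed disc
(`Polynomial.exists_eq_pow_rootMultiplicity_mul_and_not_dvd`), `k < m`; take `j = m - k - 1`: on the
circle `(z-c)^j A/P = (z-c)⁻¹ * (A1/P1)`, so the integral is `2πi A1(c)/P1(c) ≠ 0`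
(Cauchy integral formula
`Complex.circleIntegral_sub_inv_smul_of_differentiable_on_off_countable` or
`DiffContOnCl.circleIntegral_sub_inv_smul`). -/
theorem residue_quot (P A : Polynomial ℂ) (c : ℂ) (r : ℝ) (hr : 0 < r) (hP0 : P ≠ 0) (hA : A ≠ 0)
    (hP : ∀ z ∈ Metric.closedBall c r, P.eval z = 0 → z = c)
    (h : A.rootMultiplicity c < P.rootMultiplicity c) :
    ∃ j : ℕ, (∮ z in C(c, r), (z - c) ^ j * (A.eval z / P.eval z)) ≠ 0 := by
  obtain ⟨A₁, hA₁, hA₁'⟩ := exists_eq_pow_rootMultiplicity_mul_and_not_dvd A hA c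
  obtain ⟨P₁, hP₁, hP₁'⟩ := exists_eq_pow_rootMultiplicity_mul_and_not_dvd P hP0 c
  have hA₁c : A₁.eval c ≠ 0 := fun h0 => hA₁' (dvd_iff_isRoot.2 h0)
  have hP₁c : P₁.eval c ≠ 0 := fun h0 => hP₁' (dvd_iff_isRoot.2 h0)
  have hnz : ∀ z ∈ Metric.closedBall c r, P₁.eval z ≠ 0 := by
    intro z hz h0
    have h1 : P.eval z = 0 := by rw [hP₁, eval_mul, h0, mul_zero]
    have h2 := hP z hz h1
    rw [h2] at h0
    exact hP₁c h0
  set k := A.rootMultiplicity c with hk
  set m := P.rootMultiplicity c with hm
  refine ⟨m - k - 1, ?_⟩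
  have hcong : (∮ z in C(c, r), (z - c) ^ (m - k - 1) * (A.eval z / P.eval z)) =
      ∮ z in C(c, r), (z - c)⁻¹ • (A₁.eval z / P₁.eval z) := by
    refine circleIntegral.integral_congr hr.le fun z hz => ?_
    have hzc : z - c ≠ 0 := by
      intro h0
      rw [mem_sphere_iff_norm, h0, norm_zero] at hz
      exact hr.ne hz
    have hPz : P₁.eval z ≠ 0 := hnz z (Metric.sphere_subset_closedBall hz)
    have h3 : A.eval z = (z - c) ^ k * A₁.eval z := by
      conv_lhs => rw [hA₁]
      simp
    have h4 : P.eval z = (z - c) ^ m * P₁.eval z := by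
      conv_lhs => rw [hP₁]
      simp
    have h5 : (z - c) ^ m = (z - c) ^ (m - k - 1) * ((z - c) ^ k * (z - c)) := by
      rw [← pow_succ, ← pow_add]
      congr 1
      omega
    rw [h3, h4, h5, smul_eq_mul]
    field_simp
  rw [hcong]
  have hd : ∀ z ∈ Metric.closedBall c r,
      DifferentiableAt ℂ (fun z => A₁.eval z / P₁.eval z) z := fun z hz =>
    A₁.differentiable.differentiableAt.div P₁.differentiable.differentiableAt (hnz z hz)
  rw [Complex.circleIntegral_sub_inv_smul_of_differentiable_on_off_countable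
    (s := ∅) Set.countable_empty (Metric.mem_ball_self hr)
    (fun z hz => (hd z hz).continuousAt.continuousWithinAt)
    (fun z hz => hd z (Metric.ball_subset_closedBall hz.1))]
  rw [smul_eq_mul]
  exact mul_ne_zero Complex.two_pi_I_ne_zero (div_ne_zero hA₁c hP₁c)

end Pool.W4b1b5d.H3
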