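import Pool.Agent.W_4b1b5d_h3.IBP

set_option autoImplicit false

namespace Pool.W4b1b5d.H3

open MeasureTheory Set

/-- The three components of the cross product of the gradients of `w` and `xi` with respect to three
operators `CD (A i) (B i)`, contracted with the gradient of `f`. -/
noncomputable def VV (A B : Fin 4 → V2 × ℂ) (w xi f : V2 × ℂ → ℂ) (z : V2 × ℂ) : ℂ :=
  (CD (A 1) (B 1) w z * CD (A 2) (B 2) xi z - CD (A 2) (B 2) w z * CD (A 1) (B 1) xi z)
      * CD (A 0) (B 0) f z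
  + (CD (A 2) (B 2) w z * CD (A 0) (B 0) xi z - CD (A 0) (B 0) w z * CD (A 2) (B 2) xi z)
      * CD (A 1) (B 1) f z
  + (CD (A 0) (B 0) w z * CD (A 1) (B 1) xi z - CD (A 1) (B 1) w z * CD (A 0) (B 0) xi z)
      * CD (A 2) (B 2) f z

theorem Null_zero (A B : V2 × ℂ) {f : V2 × ℂ → ℂ} {z : V2 × ℂ}
    (h : f =ᶠ[nhds z] fun _ => 0) : CD A B f z = 0 := by
  unfold CD
  rw [h.fderiv_eq]
  simp

theorem Null_per (A B : V2 × ℂ) {f : V2 × ℂ → ℂ}
    (hf : ∀ (z : V2 × ℂ) (k : Fin 2 → ℤ), f (z.1 + fun i => (k i : ℝ), z.2) = f z)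
    (z : V2 × ℂ) (k : Fin 2 → ℤ) :
    CD A B f (z.1 + fun i => (k i : ℝ), z.2) = CD A B f z := by
  have h1 : ∀ z : V2 × ℂ, ((z.1 + fun i => (k i : ℝ)), z.2) =
      z + (((fun i => (k i : ℝ)) : V2), (0 : ℂ)) := by
    intro z
    apply Prod.ext
    · rfl
    · simp
  have h : (fun z : V2 × ℂ => f (z + (((fun i => (k i : ℝ)) : V2), (0 : ℂ)))) = f := by
    funext z
    rw [← h1]
    exact hf z k
  rw [h1]
  have h3 : fderiv ℝ f (z + (((fun i => (k i : ℝ)) : V2), (0 : ℂ))) = fderiv ℝ f z := by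
    rw [← fderiv_comp_add_right, h]
  unfold CD
  rw [h3]

theorem Null_contDiff {N g : V2 × ℂ → ℂ} {O : Set (V2 × ℂ)} (hO : IsOpen O)
    (hN : ContDiff ℝ 1 N) (hNO : tsupport N ⊆ O) (hg : ContDiffOn ℝ (⊤ : ℕ∞) g O) :
    ContDiff ℝ 1 (fun z => N z * g z) := by
  rw [contDiff_iff_contDiffAt]
  intro z
  by_cases hz : z ∈ O
  · have h1 : ContDiffAt ℝ 1 g z :=
      ((hg.contDiffAt (hO.mem_nhds hz)).of_le (by exact_mod_cast le_top))
    exact hN.contDiffAt.mul h1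
  · have h1 : N =ᶠ[nhds z] fun _ => 0 :=
      notMem_tsupport_iff_eventuallyEq.1 fun h => hz (hNO h)
    have h2 : (fun z => N z * g z) =ᶠ[nhds z] fun _ => 0 := by
      filter_upwards [h1] with x hx
      rw [hx, zero_mul]
    exact contDiffAt_const.congr_of_eventuallyEq h2

theorem Null_int (A B : V2 × ℂ) {F : V2 × ℂ → ℂ} (hF : ContDiff ℝ 1 F) (ρ : ℝ)
    (hρ : ∀ z : V2 × ℂ, ρ ≤ ‖z.2‖ → F z = 0) (y : V2) : IntegrableOn (CD A B F) (Cell y) := by
  apply integrableOn_cell (CD A B F) _ (ρ + 1)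
  · intro z hz
    apply Null_zero
    have h1 : IsOpen {z : V2 × ℂ | ρ < ‖z.2‖} := isOpen_lt continuous_const (by fun_prop)
    have h2 : z ∈ {z : V2 × ℂ | ρ < ‖z.2‖} := by
      change ρ < ‖z.2‖
      linarith
    filter_upwards [h1.mem_nhds h2] with x hx
    exact hρ x (le_of_lt hx)
  · have h1 : Continuous (fderiv ℝ F) := hF.continuous_fderiv one_ne_zero
    unfold CD
    exact (h1.clm_apply continuous_const).add
      (continuous_const.mul (h1.clm_apply continuous_const))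

theorem Null_triple (A B : V2 × ℂ) {a b c d e : V2 × ℂ → ℂ} {z : V2 × ℂ}
    (ha : DifferentiableAt ℝ a z) (hb : DifferentiableAt ℝ b z) (hc : DifferentiableAt ℝ c z)
    (hd : DifferentiableAt ℝ d z) (he : DifferentiableAt ℝ e z) :
    CD A B (fun z => (a z * b z - c z * d z) * e z) z =
      (CD A B a z * b z + a z * CD A B b z - (CD A B c z * d z + c z * CD A B d z)) * e z
        + (a z * b z - c z * d z) * CD A B e z := by
  have h1 : DifferentiableAt ℝ (fun z => a z * b z) z := ha.mul hb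
  have h2 : DifferentiableAt ℝ (fun z => c z * d z) z := hc.mul hd
  have h3 : DifferentiableAt ℝ (fun z => a z * b z - c z * d z) z := h1.sub h2
  rw [CD_mul A B h3 he, CD_sub A B h1 h2, CD_mul A B ha hb, CD_mul A B hc hd]

/-- TASK Null.  The integral identity (a null Lagrangian).

Proof.  Write `D1, D2, D3, D4` for the four operators, `V1 = D2 w D3 xi - D3 w D2 xi` and so on, so
that `VV f = ∑ V_i D_i f`.  On `O`, by `CD_comm` and `D4 w = D4 xi = 0` (on the open set `O`, so that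
also `D4 D_i w = D_i D4 w = 0`), `D4 V_i = 0` and `D1 V1 + D2 V2 + D3 V3 = 0` (pure algebra from
`CD_mul`, `CD_sub`, `CD_comm`).  Hence on `O`
`D4 (N * VV T) - ∑_i D_i (V_i * N * D4 T)
  = D4 N * VV T + N * ∑ V_i D4 D_i T - ∑ (D_i V_i) N D4 T - ∑ V_i (D_i N) D4 T - N ∑ V_i D_i D4 T
  = D4 N * VV T - D4 T * VV N`.
Outside of `tsupport N` all the products `N * ...` vanish identically near the point and both sides
are zero.  The functions `N * VV T` and `V_i * N * D4 T` are `C¹` on the whole space (smooth times `C¹`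
on `O`, zero off `tsupport N`, and the two open sets `O` and `(tsupport N)ᶜ` cover the space), periodic in `x`
(the derivatives of periodic functions are periodic) and vanish for `‖z.2‖ ≥ ρ`; so by `ibp` the
integral of each `D_i (...)` is `0`. -/
theorem null_lemma (A B : Fin 4 → V2 × ℂ) (O : Set (V2 × ℂ)) (hO : IsOpen O)
    (w xi T N : V2 × ℂ → ℂ)
    (hw : ContDiffOn ℝ (⊤ : ℕ∞) w O) (hxi : ContDiffOn ℝ (⊤ : ℕ∞) xi O)
    (hT : ContDiffOn ℝ (⊤ : ℕ∞) T O) (hN : ContDiff ℝ 1 N) (hNO : tsupport N ⊆ O)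
    (hOper : ∀ (z : V2 × ℂ) (k : Fin 2 → ℤ), z ∈ O → ((z.1 + fun i => (k i : ℝ)), z.2) ∈ O)
    (hwper : ∀ (z : V2 × ℂ) (k : Fin 2 → ℤ), w (z.1 + fun i => (k i : ℝ), z.2) = w z)
    (hxiper : ∀ (z : V2 × ℂ) (k : Fin 2 → ℤ), xi (z.1 + fun i => (k i : ℝ), z.2) = xi z)
    (hTper : ∀ (z : V2 × ℂ) (k : Fin 2 → ℤ), T (z.1 + fun i => (k i : ℝ), z.2) = T z)
    (hNper : ∀ (z : V2 × ℂ) (k : Fin 2 → ℤ), N (z.1 + fun i => (k i : ℝ), z.2) = N z)
    (ρ : ℝ) (hρ : ∀ z : V2 × ℂ, ρ ≤ ‖z.2‖ → N z = 0)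
    (hw4 : ∀ z ∈ O, CD (A 3) (B 3) w z = 0) (hxi4 : ∀ z ∈ O, CD (A 3) (B 3) xi z = 0)
    (y : V2) :
    ∫ z in Cell y, (CD (A 3) (B 3) N z * VV A B w xi T z - CD (A 3) (B 3) T z * VV A B w xi N z)
      = 0 := by
  classical
  have hd : ∀ {g : V2 × ℂ → ℂ}, ContDiffOn ℝ (⊤ : ℕ∞) g O → ∀ z ∈ O,
      DifferentiableAt ℝ g z := fun hg z hz =>
    (hg.contDiffAt (hO.mem_nhds hz)).differentiableAt (by simp)
  have hws : ∀ i, ContDiffOn ℝ (⊤ : ℕ∞) (CD (A i) (B i) w) O := fun i => CD_contDiffOn _ _ hO hw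
  have hxs : ∀ i, ContDiffOn ℝ (⊤ : ℕ∞) (CD (A i) (B i) xi) O := fun i =>
    CD_contDiffOn _ _ hO hxi
  have hTs : ∀ i, ContDiffOn ℝ (⊤ : ℕ∞) (CD (A i) (B i) T) O := fun i => CD_contDiffOn _ _ hO hT
  have hws0 := hws 0
  have hws1 := hws 1
  have hws2 := hws 2
  have hxs0 := hxs 0
  have hxs1 := hxs 1
  have hxs2 := hxs 2
  have hTs0 := hTs 0
  have hTs1 := hTs 1
  have hTs2 := hTs 2
  have hTs3 := hTs 3
  -- the auxiliary functions
  let g : V2 × ℂ → ℂ := fun z =>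
    (CD (A 1) (B 1) w z * CD (A 2) (B 2) xi z - CD (A 2) (B 2) w z * CD (A 1) (B 1) xi z)
      * CD (A 0) (B 0) T z
    + (CD (A 2) (B 2) w z * CD (A 0) (B 0) xi z - CD (A 0) (B 0) w z * CD (A 2) (B 2) xi z)
      * CD (A 1) (B 1) T z
    + (CD (A 0) (B 0) w z * CD (A 1) (B 1) xi z - CD (A 1) (B 1) w z * CD (A 0) (B 0) xi z)
      * CD (A 2) (B 2) T z
  let g0 : V2 × ℂ → ℂ := fun z =>
    (CD (A 1) (B 1) w z * CD (A 2) (B 2) xi z - CD (A 2) (B 2) w z * CD (A 1) (B 1) xi z)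
      * CD (A 3) (B 3) T z
  let g1 : V2 × ℂ → ℂ := fun z =>
    (CD (A 2) (B 2) w z * CD (A 0) (B 0) xi z - CD (A 0) (B 0) w z * CD (A 2) (B 2) xi z)
      * CD (A 3) (B 3) T z
  let g2 : V2 × ℂ → ℂ := fun z =>
    (CD (A 0) (B 0) w z * CD (A 1) (B 1) xi z - CD (A 1) (B 1) w z * CD (A 0) (B 0) xi z)
      * CD (A 3) (B 3) T z
  have hg : ContDiffOn ℝ (⊤ : ℕ∞) g O :=
    ((((hws1.mul hxs2).sub (hws2.mul hxs1)).mul hTs0).add
      (((hws2.mul hxs0).sub (hws0.mul hxs2)).mul hTs1)).add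
      (((hws0.mul hxs1).sub (hws1.mul hxs0)).mul hTs2)
  have hg0 : ContDiffOn ℝ (⊤ : ℕ∞) g0 O := ((hws1.mul hxs2).sub (hws2.mul hxs1)).mul hTs3
  have hg1 : ContDiffOn ℝ (⊤ : ℕ∞) g1 O := ((hws2.mul hxs0).sub (hws0.mul hxs2)).mul hTs3
  have hg2 : ContDiffOn ℝ (⊤ : ℕ∞) g2 O := ((hws0.mul hxs1).sub (hws1.mul hxs0)).mul hTs3
  have cF := Null_contDiff hO hN hNO hg
  have c0 := Null_contDiff hO hN hNO hg0
  have c1 := Null_contDiff hO hN hNO hg1
  have c2 := Null_contDiff hO hN hNO hg2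
  have pw := fun i => Null_per (A i) (B i) hwper
  have px := fun i => Null_per (A i) (B i) hxiper
  have pT := fun i => Null_per (A i) (B i) hTper
  have pF : ∀ (z : V2 × ℂ) (k : Fin 2 → ℤ),
      (fun z => N z * g z) (z.1 + fun i => (k i : ℝ), z.2) = (fun z => N z * g z) z := by
    intro z k
    change N _ * (_ + _ + _) = N z * (_ + _ + _)
    simp only [hNper, pw, px, pT]
  have p0 : ∀ (z : V2 × ℂ) (k : Fin 2 → ℤ),
      (fun z => N z * g0 z) (z.1 + fun i => (k i : ℝ), z.2) = (fun z => N z * g0 z) z := by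
    intro z k
    change N _ * (_ * _) = N z * (_ * _)
    simp only [hNper, pw, px, pT]
  have p1 : ∀ (z : V2 × ℂ) (k : Fin 2 → ℤ),
      (fun z => N z * g1 z) (z.1 + fun i => (k i : ℝ), z.2) = (fun z => N z * g1 z) z := by
    intro z k
    change N _ * (_ * _) = N z * (_ * _)
    simp only [hNper, pw, px, pT]
  have p2 : ∀ (z : V2 × ℂ) (k : Fin 2 → ℤ),
      (fun z => N z * g2 z) (z.1 + fun i => (k i : ℝ), z.2) = (fun z => N z * g2 z) z := by
    intro z k
    change N _ * (_ * _) = N z * (_ * _)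
    simp only [hNper, pw, px, pT]
  have v : ∀ f : V2 × ℂ → ℂ, ∀ z : V2 × ℂ, ρ ≤ ‖z.2‖ → (fun z => N z * f z) z = 0 := by
    intro f z hz
    change N z * f z = 0
    rw [hρ z hz, zero_mul]
  -- the pointwise identity
  have key : ∀ z : V2 × ℂ,
      CD (A 3) (B 3) N z * VV A B w xi T z - CD (A 3) (B 3) T z * VV A B w xi N z =
      CD (A 3) (B 3) (fun z => N z * g z) z - (CD (A 0) (B 0) (fun z => N z * g0 z) z
        + CD (A 1) (B 1) (fun z => N z * g1 z) z + CD (A 2) (B 2) (fun z => N z * g2 z) z) := by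
    intro z
    by_cases hz : z ∈ O
    · have hNd : DifferentiableAt ℝ N z := hN.differentiable one_ne_zero z
      have z3w : ∀ i, CD (A 3) (B 3) (CD (A i) (B i) w) z = 0 := by
        intro i
        rw [CD_comm _ _ _ _ hO hw hz]
        apply Null_zero
        filter_upwards [hO.mem_nhds hz] with x hx
        exact hw4 x hx
      have z3x : ∀ i, CD (A 3) (B 3) (CD (A i) (B i) xi) z = 0 := by
        intro i
        rw [CD_comm _ _ _ _ hO hxi hz]
        apply Null_zero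
        filter_upwards [hO.mem_nhds hz] with x hx
        exact hxi4 x hx
      have t3 : ∀ i, CD (A 3) (B 3) (CD (A i) (B i) T) z =
          CD (A i) (B i) (CD (A 3) (B 3) T) z := fun i => CD_comm _ _ _ _ hO hT hz
      have w01 : CD (A 1) (B 1) (CD (A 0) (B 0) w) z = CD (A 0) (B 0) (CD (A 1) (B 1) w) z :=
        CD_comm _ _ _ _ hO hw hz
      have w02 : CD (A 2) (B 2) (CD (A 0) (B 0) w) z = CD (A 0) (B 0) (CD (A 2) (B 2) w) z :=
        CD_comm _ _ _ _ hO hw hz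
      have w12 : CD (A 2) (B 2) (CD (A 1) (B 1) w) z = CD (A 1) (B 1) (CD (A 2) (B 2) w) z :=
        CD_comm _ _ _ _ hO hw hz
      have x01 : CD (A 1) (B 1) (CD (A 0) (B 0) xi) z = CD (A 0) (B 0) (CD (A 1) (B 1) xi) z :=
        CD_comm _ _ _ _ hO hxi hz
      have x02 : CD (A 2) (B 2) (CD (A 0) (B 0) xi) z = CD (A 0) (B 0) (CD (A 2) (B 2) xi) z :=
        CD_comm _ _ _ _ hO hxi hz
      have x12 : CD (A 2) (B 2) (CD (A 1) (B 1) xi) z = CD (A 1) (B 1) (CD (A 2) (B 2) xi) z :=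
        CD_comm _ _ _ _ hO hxi hz
      have dw0 := hd hws0 z hz
      have dw1 := hd hws1 z hz
      have dw2 := hd hws2 z hz
      have dx0 := hd hxs0 z hz
      have dx1 := hd hxs1 z hz
      have dx2 := hd hxs2 z hz
      have dT0 := hd hTs0 z hz
      have dT1 := hd hTs1 z hz
      have dT2 := hd hTs2 z hz
      have dT3 := hd hTs3 z hz
      have e0 : CD (A 0) (B 0) (fun z => N z * g0 z) z = _ :=
        (CD_mul _ _ hNd (hd hg0 z hz)).trans
          (congrArg (fun t => CD (A 0) (B 0) N z * g0 z + N z * t)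
            (Null_triple (A 0) (B 0) dw1 dx2 dw2 dx1 dT3))
      have e1 : CD (A 1) (B 1) (fun z => N z * g1 z) z = _ :=
        (CD_mul _ _ hNd (hd hg1 z hz)).trans
          (congrArg (fun t => CD (A 1) (B 1) N z * g1 z + N z * t)
            (Null_triple (A 1) (B 1) dw2 dx0 dw0 dx2 dT3))
      have e2 : CD (A 2) (B 2) (fun z => N z * g2 z) z = _ :=
        (CD_mul _ _ hNd (hd hg2 z hz)).trans
          (congrArg (fun t => CD (A 2) (B 2) N z * g2 z + N z * t)
            (Null_triple (A 2) (B 2) dw0 dx1 dw1 dx0 dT3))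
      have i0 := Null_triple (A 3) (B 3) dw1 dx2 dw2 dx1 dT0
      have i1 := Null_triple (A 3) (B 3) dw2 dx0 dw0 dx2 dT1
      have i2 := Null_triple (A 3) (B 3) dw0 dx1 dw1 dx0 dT2
      have m0 := ((dw1.mul dx2).sub (dw2.mul dx1)).mul dT0
      have m1 := ((dw2.mul dx0).sub (dw0.mul dx2)).mul dT1
      have m2 := ((dw0.mul dx1).sub (dw1.mul dx0)).mul dT2
      have eg : CD (A 3) (B 3) g z = _ :=
        (CD_add (A 3) (B 3) (m0.add m1) m2).trans
          (congrArg₂ (fun s t => s + t) ((CD_add (A 3) (B 3) m0 m1).trans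
            (congrArg₂ (fun s t => s + t) i0 i1)) i2)
      have eF : CD (A 3) (B 3) (fun z => N z * g z) z = _ :=
        (CD_mul _ _ hNd (hd hg z hz)).trans
          (congrArg (fun t => CD (A 3) (B 3) N z * g z + N z * t) eg)
      rw [eF, e0, e1, e2]
      simp only [z3w, z3x, t3, g, g0, g1, g2, VV, w01, w02, w12, x01, x02, x12]
      ring
    · have h1 : N =ᶠ[nhds z] fun _ => 0 :=
        notMem_tsupport_iff_eventuallyEq.1 fun h => hz (hNO h)
      have h2 : ∀ f : V2 × ℂ → ℂ, (fun z => N z * f z) =ᶠ[nhds z] fun _ => 0 := by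
        intro f
        filter_upwards [h1] with x hx
        rw [hx, zero_mul]
      have h3 : ∀ A' B' : V2 × ℂ, CD A' B' N z = 0 := fun A' B' => Null_zero A' B' h1
      rw [Null_zero (A 3) (B 3) (h2 g), Null_zero (A 0) (B 0) (h2 g0),
        Null_zero (A 1) (B 1) (h2 g1), Null_zero (A 2) (B 2) (h2 g2)]
      simp only [VV, h3]
      ring
  have iF := Null_int (A 3) (B 3) cF ρ (v g) y
  have i0 := Null_int (A 0) (B 0) c0 ρ (v g0) y
  have i1 := Null_int (A 1) (B 1) c1 ρ (v g1) y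
  have i2 := Null_int (A 2) (B 2) c2 ρ (v g2) y
  have zF := ibp (A 3) (B 3) _ cF pF ρ (v g) y
  have z0 := ibp (A 0) (B 0) _ c0 p0 ρ (v g0) y
  have z1 := ibp (A 1) (B 1) _ c1 p1 ρ (v g1) y
  have z2 := ibp (A 2) (B 2) _ c2 p2 ρ (v g2) y
  have i01 : IntegrableOn (fun z => CD (A 0) (B 0) (fun z => N z * g0 z) z
        + CD (A 1) (B 1) (fun z => N z * g1 z) z) (Cell y) := i0.add i1
  have i012 : IntegrableOn (fun z => CD (A 0) (B 0) (fun z => N z * g0 z) z
        + CD (A 1) (B 1) (fun z => N z * g1 z) z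
        + CD (A 2) (B 2) (fun z => N z * g2 z) z) (Cell y) := i01.add i2
  calc ∫ z in Cell y,
        (CD (A 3) (B 3) N z * VV A B w xi T z - CD (A 3) (B 3) T z * VV A B w xi N z)
      = ∫ z in Cell y, (CD (A 3) (B 3) (fun z => N z * g z) z -
          (CD (A 0) (B 0) (fun z => N z * g0 z) z
        + CD (A 1) (B 1) (fun z => N z * g1 z) z + CD (A 2) (B 2) (fun z => N z * g2 z) z)) :=
        integral_congr_ae (Filter.Eventually.of_forall key)
    _ = (∫ z in Cell y, CD (A 3) (B 3) (fun z => N z * g z) z) -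
          ((∫ z in Cell y, CD (A 0) (B 0) (fun z => N z * g0 z) z)
        + (∫ z in Cell y, CD (A 1) (B 1) (fun z => N z * g1 z) z)
        + (∫ z in Cell y, CD (A 2) (B 2) (fun z => N z * g2 z) z)) := by
        rw [integral_sub iF i012, integral_add i01 i2, integral_add i0 i1]
    _ = 0 := by
        rw [zF, z0, z1, z2]
        ring

end Pool.W4b1b5d.H3
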