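import Pool.Agent.W_4b1b5d_h3.FinalG

set_option autoImplicit false

/-!
# MP_4b1b5d_an, part (i) for every metric and all odd degrees

Let `H = ½ g^{ij}(x) p_i p_j + U(x)` be a natural system on the 2-torus, `g` any smooth metric, `U`
any nonconstant smooth potential.  If `H` has an integral polynomial in the momenta of odd degree,
then there is a smooth vector field `V` on the torus, without zeros, such that the linear function
`p(V)` commutes with `H` over the closure of the set `{dU ≠ 0}` (there `V` is a Killing field which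
preserves `U`).  So if `U` is not constant on any nonempty open set (in particular if `U` is real
analytic), then `H` has a linear integral.
-/

namespace Pool.Agent.Results.MP_4b1b5d_an.OddAllMetrics

open Pool.W4b1b5d.H3 Pool.Agent Pool.Agent.U4b

theorem result :
  ∀ (ginv : (Fin 2 → ℝ) → Matrix (Fin 2) (Fin 2) ℝ) (U : (Fin 2 → ℝ) → ℝ)
    (H : (Fin 2 → ℝ) → (Fin 2 → ℝ) → ℝ)
    (IsInt : ((Fin 2 → ℝ) → MvPolynomial (Fin 2) ℝ) → Prop),
    (∀ x, (ginv x).PosDef) →
    (∀ i j, ContDiff ℝ (⊤ : ℕ∞) (fun x => ginv x i j)) →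
    (∀ (x : Fin 2 → ℝ) (k : Fin 2 → ℤ), ginv (x + fun i => (k i : ℝ)) = ginv x) →
    ContDiff ℝ (⊤ : ℕ∞) U →
    (∀ (x : Fin 2 → ℝ) (k : Fin 2 → ℤ), U (x + fun i => (k i : ℝ)) = U x) →
    (∃ x y, U x ≠ U y) →
    (∀ x p, H x p = (1 / 2 : ℝ) * ∑ i, ∑ j, ginv x i j * p i * p j + U x) →
    (∀ F : (Fin 2 → ℝ) → MvPolynomial (Fin 2) ℝ, IsInt F ↔
      ((∀ m, ContDiff ℝ (⊤ : ℕ∞) (fun x => (F x).coeff m)) ∧
       (∀ (x : Fin 2 → ℝ) (k : Fin 2 → ℤ), F (x + fun i => (k i : ℝ)) = F x) ∧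
       (∃ N : ℕ, ∀ x, (F x).totalDegree ≤ N) ∧
       (∀ x p : Fin 2 → ℝ, ∑ i : Fin 2,
          (deriv (fun t => H x (Function.update p i t)) (p i) *
              deriv (fun t => MvPolynomial.eval p (F (Function.update x i t))) (x i) -
            deriv (fun t => H (Function.update x i t) p) (x i) *
              deriv (fun t => MvPolynomial.eval (Function.update p i t) (F x)) (p i)) = 0))) →
    (∃ (F : (Fin 2 → ℝ) → MvPolynomial (Fin 2) ℝ) (n : ℕ), IsInt F ∧ Odd n ∧
          (∀ x, (F x).totalDegree ≤ n) ∧ (∃ x, (F x).totalDegree = n)) →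
    (∃ V : (Fin 2 → ℝ) → (Fin 2 → ℝ), ContDiff ℝ (⊤ : ℕ∞) V ∧
      (∀ (x : Fin 2 → ℝ) (k : Fin 2 → ℤ), V (x + fun i => (k i : ℝ)) = V x) ∧
      (∀ x, V x ≠ 0) ∧
      (∀ x ∈ closure {y | fderiv ℝ U y ≠ 0}, ∀ p : Fin 2 → ℝ, ∑ i : Fin 2,
          (deriv (fun t => H x (Function.update p i t)) (p i) *
              deriv (fun t => ∑ j, V (Function.update x i t) j * p j) (x i) -
            deriv (fun t => H (Function.update x i t) p) (x i) * V x i) = 0) ∧
      ((∀ O : Set (Fin 2 → ℝ), IsOpen O → O.Nonempty → ∃ x ∈ O, ∃ y ∈ O, U x ≠ U y) →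
        IsInt (fun x => ∑ j, MvPolynomial.C (V x j) * MvPolynomial.X j) ∧
        (∀ x, (∑ j, MvPolynomial.C (V x j) * MvPolynomial.X j :
          MvPolynomial (Fin 2) ℝ).totalDegree = 1))) := by
  intro ginv U H IsInt hpos hgs hgper hU hUper hUn hH hInt hodd
  have hHe : H = Ham ginv U := by
    funext x p
    exact hH x p
  have hIe : ∀ F, IsInt F ↔ U4b.IsInt (Ham ginv U) F := by
    intro F
    rw [hInt F, hHe]
    rfl
  obtain ⟨V, hV, hVper, hV0, hbr⟩ := finalG ginv U hpos hgs hgper hU hUper hUn (by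
    obtain ⟨F, n, hF, hn⟩ := hodd
    exact ⟨F, n, (hIe F).1 hF, hn⟩)
  have hbr' : ∀ x ∈ closure {y | fderiv ℝ U y ≠ 0}, ∀ p : Fin 2 → ℝ, ∑ i : Fin 2,
          (deriv (fun t => H x (Function.update p i t)) (p i) *
              deriv (fun t => ∑ j, V (Function.update x i t) j * p j) (x i) -
            deriv (fun t => H (Function.update x i t) p) (x i) * V x i) = 0 := by
    intro x hx p
    rw [hHe]
    have h1 := hbr x hx p
    simp only [PB, dP, dX, dP_lin] at h1
    exact h1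
  refine ⟨V, hV, hVper, hV0, hbr', fun hd => ⟨?_, fun x => deg_lin _ (hV0 x)⟩⟩
  rw [hInt]
  refine ⟨?_, ?_, ⟨1, fun x => (deg_lin _ (hV0 x)).le⟩, ?_⟩
  · exact CoefSm.sum (fun j _ => (CoefSm.C ((contDiff_apply ℝ ℝ j).comp hV)).mul
      (CoefSm.const (MvPolynomial.X j)))
  · intro x k
    simp only [hVper]
  · intro x p
    have h1 := hbr' x (closure_univ U hU hd x) p
    simp only [eval_lin, dP_lin]
    exact h1

end Pool.Agent.Results.MP_4b1b5d_an.OddAllMetrics
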