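import Pool.Agent.W_4b1b5d_h3.NCut
import Pool.Agent.W_4b1b5d_h3.Null

set_option autoImplicit false

namespace Pool.W4b1b5d.H3

/-- The four operators `dd`, `db`, `∂_p`, `∂_{conj p}` as `CD (opA al i) (opB al i)`. -/
noncomputable def opA (al : Fin 2 → ℂ) : Fin 4 → V2 × ℂ :=
  ![(fun i => (al i).re, 0), (fun i => (cj al i).re, 0), (0, 1 / 2), (0, 1 / 2)]

noncomputable def opB (al : Fin 2 → ℂ) : Fin 4 → V2 × ℂ :=
  ![(fun i => (al i).im, 0), (fun i => (cj al i).im, 0), (0, -(Complex.I / 2)),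
    (0, Complex.I / 2)]

/-- `τ_δ(ξ) = δ / (|ξ|² + δ)²`. -/
noncomputable def tau (δ : ℝ) (ξ : ℂ) : ℝ := δ / (‖ξ‖ ^ 2 + δ) ^ 2

/-- `w = R²`. -/
noncomputable def ww (D : LD) (z : V2 × ℂ) : ℂ := (D.R 0 z.1 z.2) ^ 2

/-- `ξ = R_p`. -/
noncomputable def xx (D : LD) (z : V2 × ℂ) : ℂ := D.R 1 z.1 z.2

/-- `T = conj ξ / (|ξ|² + δ)`. -/
noncomputable def TT (D : LD) (δ : ℝ) (z : V2 × ℂ) : ℂ :=
  (starRingEnd ℂ) (xx D z) / ((‖xx D z‖ ^ 2 + δ : ℝ) : ℂ)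

/-- `X = dd R * R_pp - R_p * dd R_p`. -/
noncomputable def XX (D : LD) (z : V2 × ℂ) : ℂ :=
  D.R1 0 z.1 z.2 * D.R 2 z.1 z.2 - D.R 1 z.1 z.2 * D.R1 1 z.1 z.2

/-- `Y = db R * R_pp - R_p * db R_p`. -/
noncomputable def YY (D : LD) (z : V2 × ℂ) : ℂ :=
  D.R2 0 z.1 z.2 * D.R 2 z.1 z.2 - D.R 1 z.1 z.2 * D.R2 1 z.1 z.2

open Classical in
/-- The integrand of the identity (I). -/
noncomputable def GG (D : LD) (s ε C δ : ℝ) (z : V2 × ℂ) : ℝ :=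
  if z ∈ D.Out then
    s * fderiv ℝ (Psi s ε C) (ww D z) Complex.I * tau δ (xx D z)
      * (4 * ‖D.R 0 z.1 z.2‖ ^ 2 * (‖XX D z‖ ^ 2 - ‖YY D z‖ ^ 2))
  else 0

theorem Pt_open (D : LD) : IsOpen D.Out := by
  have h1 : Continuous fun z : V2 × ℂ => |D.l z.1| :=
    (D.lsm.continuous.comp continuous_fst).abs
  have h2 : Continuous fun z : V2 × ℂ => ‖z.2‖ ^ 2 := (continuous_snd.norm).pow 2
  exact isOpen_lt h1 h2

theorem Pt_cj_cj (a : Fin 2 → ℂ) : cj (cj a) = a := by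
  funext i
  unfold cj
  exact Complex.conj_conj _

/-- the algebraic core: `V_i` contracted -/
theorem Pt_alg (a1 a2 a3 b1 b2 b3 Pw Pc Q τ R r1 r2 r3 : ℂ)
    (ha1 : a1 = 2 * R * r1) (ha2 : a2 = 2 * R * r2) (ha3 : a3 = 2 * R * r3) :
    (Pw * 0 + Pc * (starRingEnd ℂ) a3) *
        ((a2 * b3 - a3 * b2) * (Q * b1 + τ * (starRingEnd ℂ) b2) +
          (a3 * b1 - a1 * b3) * (Q * b2 + τ * (starRingEnd ℂ) b1) +
          (a1 * b2 - a2 * b1) * (Q * b3 + τ * (starRingEnd ℂ) (0 : ℂ))) -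
      (Q * 0 + τ * (starRingEnd ℂ) b3) *
        ((a2 * b3 - a3 * b2) * (Pw * a1 + Pc * (starRingEnd ℂ) a2) +
          (a3 * b1 - a1 * b3) * (Pw * a2 + Pc * (starRingEnd ℂ) a1) +
          (a1 * b2 - a2 * b1) * (Pw * a3 + Pc * (starRingEnd ℂ) (0 : ℂ))) =
      Pc * τ * (4 * (R * (starRingEnd ℂ) R) *
        ((r1 * b3 - r3 * b1) * (starRingEnd ℂ) (r1 * b3 - r3 * b1) -
          (r2 * b3 - r3 * b2) * (starRingEnd ℂ) (r2 * b3 - r3 * b2))) := by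
  rw [ha1, ha2, ha3]
  simp only [map_mul, map_sub, map_zero, map_ofNat]
  ring

/-- TASK Pt.  The pointwise identity: for every `z`,
`GG z = 2 s * Im (D4 N * VV T - D4 T * VV N)`.

Proof.  If `z ∉ Out`, then `N = 0` near `z` (`NN_eventually_zero`), so `CD _ _ N z = 0` and the right
hand side is `0`.  If `z ∈ Out`, then near `z` (`Out` is open) `N = Psi (R²)`.  Let `D1..D4` be the
operators (so `D1 = Dx al`, `D2 = Dx (cj al)`, `D3 = Dp`, `D4 = Dq` definitionally).  With `w = R²`,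
`ξ = R_p`:  `D4 w = D4 ξ = 0`, `D1 w = 2 R R1_0`, `D2 w = 2 R R2_0`, `D3 w = 2 R ξ`,
`D1 ξ = R1_1`, `D2 ξ = R2_1`, `D3 ξ = R_2`  (`Dx_Lk`, `Dp_Lk`, `Dq_Lk`, `CD_mul`).  By `Dx_conj`,
`Dp_conj`, `Dq_conj`: `D1 (conj w) = conj (D2 w)`, `D2 (conj w) = conj (D1 w)`,
`D3 (conj w) = conj (D4 w) = 0`, `D4 (conj w) = conj (D3 w)` and the same for `ξ`
(note `cj (cj al) = al`).  Put `V1 = D2 w D3 ξ - D3 w D2 ξ`, `V2 = D3 w D1 ξ - D1 w D3 ξ`,
`V3 = D1 w D2 ξ - D2 w D1 ξ`.  Then `VV w = VV ξ = 0`,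
`VV (conj w) = V1 conj(D2 w) + V2 conj(D1 w)`, same for `ξ`.  By `CD_comp_real` and `CD_T`
with `P = (Psi_u + i Psi_v)/2` at `w`, `τ = δ/(|ξ|²+δ)²`:
`D4 N = P conj(D3 w)`, `VV N = P VV(conj w)`, `D4 T = τ conj(D3 ξ)`, `VV T = τ VV(conj ξ)`, so
`D4 N * VV T - D4 T * VV N
  = P τ [conj(D3 w) (V1 conj(D2 ξ) + V2 conj(D1 ξ)) - conj(D3 ξ)(V1 conj(D2 w) + V2 conj(D1 w))]
  = P τ (V2 conj V2 - V1 conj V1) = P τ (‖V2‖² - ‖V1‖²)`.
Finally `V2 = - 2 R X`, `V1 = 2 R Y`, so `‖V2‖² - ‖V1‖² = 4 ‖R‖² (‖X‖² - ‖Y‖²)`, which is real, and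
`Im P = Psi_v / 2`. -/
theorem pt (D : LD) (s ε C δ : ℝ) (hs : |s| ≤ 1) (hε : 0 < ε) (hδ : 0 < δ) (z : V2 × ℂ) :
    GG D s ε C δ z = 2 * s *
      (CD (opA D.al 3) (opB D.al 3) (NN D s ε C) z
          * VV (opA D.al) (opB D.al) (ww D) (xx D) (TT D δ) z
        - CD (opA D.al 3) (opB D.al 3) (TT D δ) z
          * VV (opA D.al) (opB D.al) (ww D) (xx D) (NN D s ε C) z).im := by
  classical
  by_cases hz : z ∈ D.Out
  · have hz2 : z.2 ≠ 0 := by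
      intro h
      have h1 : |D.l z.1| < ‖z.2‖ ^ 2 := hz
      rw [h, norm_zero] at h1
      have := abs_nonneg (D.l z.1)
      norm_num at h1
      linarith
    have hR : ∀ k, DifferentiableAt ℝ (fun z : V2 × ℂ => D.R k z.1 z.2) z := by
      intro k
      have h1 : IsOpen {z : V2 × ℂ | z.2 ≠ 0} := isOpen_ne_fun continuous_snd continuous_const
      exact ((Lk_contDiffOn D.d D.c D.csm k).contDiffAt (h1.mem_nhds hz2)).differentiableAt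
        (by simp)
    have e1 : ∀ k, CD (opA D.al 0) (opB D.al 0) (fun z : V2 × ℂ => D.R k z.1 z.2) z =
        D.R1 k z.1 z.2 := fun k => Dx_Lk D.al D.d D.c D.csm k z hz2
    have e2 : ∀ k, CD (opA D.al 1) (opB D.al 1) (fun z : V2 × ℂ => D.R k z.1 z.2) z =
        D.R2 k z.1 z.2 := fun k => Dx_Lk (cj D.al) D.d D.c D.csm k z hz2
    have e3 : ∀ k, CD (opA D.al 2) (opB D.al 2) (fun z : V2 × ℂ => D.R k z.1 z.2) z =
        D.R (k + 1) z.1 z.2 := fun k => Dp_Lk D.d D.c D.csm k z hz2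
    have e4 : ∀ k, CD (opA D.al 3) (opB D.al 3) (fun z : V2 × ℂ => D.R k z.1 z.2) z = 0 :=
      fun k => Dq_Lk D.d D.c D.csm k z hz2
    have hw : ww D = fun z : V2 × ℂ => D.R 0 z.1 z.2 * D.R 0 z.1 z.2 := by
      funext z
      unfold ww
      ring
    have hwd : DifferentiableAt ℝ (ww D) z := by
      rw [hw]
      exact (hR 0).mul (hR 0)
    have hxd : DifferentiableAt ℝ (xx D) z := hR 1
    have ew : ∀ A B, CD A B (ww D) z =
        2 * D.R 0 z.1 z.2 * CD A B (fun z : V2 × ℂ => D.R 0 z.1 z.2) z := by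
      intro A B
      rw [hw, CD_mul A B (hR 0) (hR 0)]
      ring
    have c1 : ∀ f : V2 × ℂ → ℂ, DifferentiableAt ℝ f z →
        CD (opA D.al 0) (opB D.al 0) (fun z => (starRingEnd ℂ) (f z)) z =
          (starRingEnd ℂ) (CD (opA D.al 1) (opB D.al 1) f z) := fun f hf => Dx_conj D.al hf
    have c2 : ∀ f : V2 × ℂ → ℂ, DifferentiableAt ℝ f z →
        CD (opA D.al 1) (opB D.al 1) (fun z => (starRingEnd ℂ) (f z)) z =
          (starRingEnd ℂ) (CD (opA D.al 0) (opB D.al 0) f z) := by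
      intro f hf
      have h1 := Dx_conj (cj D.al) hf
      rw [Pt_cj_cj] at h1
      exact h1
    have c3 : ∀ f : V2 × ℂ → ℂ, DifferentiableAt ℝ f z →
        CD (opA D.al 2) (opB D.al 2) (fun z => (starRingEnd ℂ) (f z)) z =
          (starRingEnd ℂ) (CD (opA D.al 3) (opB D.al 3) f z) := fun f hf => Dp_conj hf
    have c4 : ∀ f : V2 × ℂ → ℂ, DifferentiableAt ℝ f z →
        CD (opA D.al 3) (opB D.al 3) (fun z => (starRingEnd ℂ) (f z)) z =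
          (starRingEnd ℂ) (CD (opA D.al 2) (opB D.al 2) f z) := fun f hf => Dq_conj hf
    have hN : NN D s ε C =ᶠ[nhds z] fun z => ((Psi s ε C (ww D z) : ℝ) : ℂ) := by
      filter_upwards [(Pt_open D).mem_nhds hz] with z' hz'
      unfold NN ww
      rw [if_pos hz']
    have hP : DifferentiableAt ℝ (Psi s ε C) (ww D z) :=
      (Psi_contDiff s ε C).differentiable (by simp) _
    have eN : ∀ A B, CD A B (NN D s ε C) z =
        (((fderiv ℝ (Psi s ε C) (ww D z) 1 : ℝ) : ℂ)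
          - Complex.I * (fderiv ℝ (Psi s ε C) (ww D z) Complex.I : ℝ)) / 2 * CD A B (ww D) z
        + (((fderiv ℝ (Psi s ε C) (ww D z) 1 : ℝ) : ℂ)
          + Complex.I * (fderiv ℝ (Psi s ε C) (ww D z) Complex.I : ℝ)) / 2
          * CD A B (fun z => (starRingEnd ℂ) (ww D z)) z := by
      intro A B
      rw [← CD_comp_real A B (Psi s ε C) hP hwd]
      unfold CD
      rw [hN.fderiv_eq]
    have eT : ∀ A B, CD A B (TT D δ) z =
        - ((starRingEnd ℂ) (xx D z)) ^ 2 / ((‖xx D z‖ ^ 2 + δ : ℝ) : ℂ) ^ 2 * CD A B (xx D) z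
        + (δ : ℂ) / ((‖xx D z‖ ^ 2 + δ : ℝ) : ℂ) ^ 2
          * CD A B (fun z => (starRingEnd ℂ) (xx D z)) z := fun A B => CD_T A B δ hδ hxd
    have x1 : CD (opA D.al 0) (opB D.al 0) (xx D) z = D.R1 1 z.1 z.2 := e1 1
    have x2 : CD (opA D.al 1) (opB D.al 1) (xx D) z = D.R2 1 z.1 z.2 := e2 1
    have x3 : CD (opA D.al 2) (opB D.al 2) (xx D) z = D.R 2 z.1 z.2 := e3 1
    have x4 : CD (opA D.al 3) (opB D.al 3) (xx D) z = 0 := e4 1
    have w1 : CD (opA D.al 0) (opB D.al 0) (ww D) z = 2 * D.R 0 z.1 z.2 * D.R1 0 z.1 z.2 := by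
      rw [ew, e1]
    have w2 : CD (opA D.al 1) (opB D.al 1) (ww D) z = 2 * D.R 0 z.1 z.2 * D.R2 0 z.1 z.2 := by
      rw [ew, e2]
    have w3 : CD (opA D.al 2) (opB D.al 2) (ww D) z = 2 * D.R 0 z.1 z.2 * D.R 1 z.1 z.2 := by
      rw [ew, e3]
    have w4 : CD (opA D.al 3) (opB D.al 3) (ww D) z = 0 := by
      rw [ew, e4, mul_zero]
    have hmain : CD (opA D.al 3) (opB D.al 3) (NN D s ε C) z
          * VV (opA D.al) (opB D.al) (ww D) (xx D) (TT D δ) z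
        - CD (opA D.al 3) (opB D.al 3) (TT D δ) z
          * VV (opA D.al) (opB D.al) (ww D) (xx D) (NN D s ε C) z =
        (((fderiv ℝ (Psi s ε C) (ww D z) 1 : ℝ) : ℂ)
          + Complex.I * (fderiv ℝ (Psi s ε C) (ww D z) Complex.I : ℝ)) / 2 *
          ((tau δ (xx D z) * (4 * ‖D.R 0 z.1 z.2‖ ^ 2 * (‖XX D z‖ ^ 2 - ‖YY D z‖ ^ 2)) : ℝ) :
            ℂ) := by
      have halg := Pt_alg (2 * D.R 0 z.1 z.2 * D.R1 0 z.1 z.2)
        (2 * D.R 0 z.1 z.2 * D.R2 0 z.1 z.2) (2 * D.R 0 z.1 z.2 * D.R 1 z.1 z.2)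
        (D.R1 1 z.1 z.2) (D.R2 1 z.1 z.2) (D.R 2 z.1 z.2)
        ((((fderiv ℝ (Psi s ε C) (ww D z) 1 : ℝ) : ℂ)
          - Complex.I * (fderiv ℝ (Psi s ε C) (ww D z) Complex.I : ℝ)) / 2)
        ((((fderiv ℝ (Psi s ε C) (ww D z) 1 : ℝ) : ℂ)
          + Complex.I * (fderiv ℝ (Psi s ε C) (ww D z) Complex.I : ℝ)) / 2)
        (- ((starRingEnd ℂ) (xx D z)) ^ 2 / ((‖xx D z‖ ^ 2 + δ : ℝ) : ℂ) ^ 2)
        ((δ : ℂ) / ((‖xx D z‖ ^ 2 + δ : ℝ) : ℂ) ^ 2)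
        (D.R 0 z.1 z.2) (D.R1 0 z.1 z.2) (D.R2 0 z.1 z.2) (D.R 1 z.1 z.2) rfl rfl rfl
      unfold VV
      rw [eN, eN, eN, eN, eT, eT, eT, eT, c1 _ hwd, c2 _ hwd, c3 _ hwd, c4 _ hwd,
        c1 _ hxd, c2 _ hxd, c3 _ hxd, c4 _ hxd, w1, w2, w3, w4, x1, x2, x3, x4, halg]
      have hX : D.R1 0 z.1 z.2 * D.R 2 z.1 z.2 - D.R 1 z.1 z.2 * D.R1 1 z.1 z.2 = XX D z := rfl
      have hY : D.R2 0 z.1 z.2 * D.R 2 z.1 z.2 - D.R 1 z.1 z.2 * D.R2 1 z.1 z.2 = YY D z := rfl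
      rw [hX, hY, Complex.mul_conj', Complex.mul_conj', Complex.mul_conj']
      unfold tau
      push_cast
      ring
    rw [hmain, Complex.mul_im, Complex.ofReal_im, Complex.ofReal_re, mul_zero, zero_add]
    have him : ((((fderiv ℝ (Psi s ε C) (ww D z) 1 : ℝ) : ℂ)
          + Complex.I * (fderiv ℝ (Psi s ε C) (ww D z) Complex.I : ℝ)) / 2).im =
        fderiv ℝ (Psi s ε C) (ww D z) Complex.I / 2 := by
      have h2 : (2 : ℂ) = ((2 : ℝ) : ℂ) := by norm_num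
      rw [h2, Complex.div_ofReal_im, Complex.add_im, Complex.ofReal_im, Complex.mul_im,
        Complex.I_re, Complex.I_im, Complex.ofReal_im, Complex.ofReal_re]
      ring
    rw [him]
    unfold GG
    rw [if_pos hz]
    ring
  · have hN := NN_eventually_zero D s ε C hs hε z hz
    have hN' : NN D s ε C =ᶠ[nhds z] fun _ => (0 : ℂ) := hN
    have h0 : ∀ A B, CD A B (NN D s ε C) z = 0 := by
      intro A B
      unfold CD
      rw [hN'.fderiv_eq]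
      simp
    have hV : VV (opA D.al) (opB D.al) (ww D) (xx D) (NN D s ε C) z = 0 := by
      unfold VV
      rw [h0, h0, h0]
      ring
    rw [h0, hV]
    unfold GG
    rw [if_neg hz]
    simp

end Pool.W4b1b5d.H3
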