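import Pool.Agent.W_4b1b5d_h3.Alpha

set_option autoImplicit false

namespace Pool.W4b1b5d.H3

open MvPolynomial

abbrev RP := MvPolynomial (Fin 2) ℝ
abbrev CP := MvPolynomial (Fin 2) ℂ

/-- the exponent `(a, b)` -/
noncomputable def mk2 (a b : ℕ) : Fin 2 →₀ ℕ := Finsupp.single 0 a + Finsupp.single 1 b

/-- The substitution `p_i = om i * P + conj (om i) * Q` (`X 0 = P`, `X 1 = Q`). -/
noncomputable def Ph (om : Fin 2 → ℂ) : RP →ₐ[ℝ] CP :=
  MvPolynomial.aeval (fun i => C (om i) * X 0 + C ((starRingEnd ℂ) (om i)) * X 1)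

theorem Subst_C (om : Fin 2 → ℂ) (r : ℝ) : Ph om (C r) = C (r : ℂ) := by
  unfold Ph
  rw [MvPolynomial.aeval_C, MvPolynomial.algebraMap_apply]
  rfl

theorem Subst_X (om : Fin 2 → ℂ) (i : Fin 2) :
    Ph om (X i) = C (om i) * X 0 + C ((starRingEnd ℂ) (om i)) * X 1 := by
  unfold Ph
  rw [MvPolynomial.aeval_X]

theorem Subst_row1 (G : Matrix (Fin 2) (Fin 2) ℝ) (al om : Fin 2 → ℂ)
    (hG : ∀ i j, ((G i j : ℝ) : ℂ)
      = al i * (starRingEnd ℂ) (al j) + al j * (starRingEnd ℂ) (al i))
    (h1 : ∑ i, al i * om i = 1) (h2 : ∑ i, (starRingEnd ℂ) (al i) * om i = 0) (i : Fin 2) :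
    ∑ j, ((G i j : ℝ) : ℂ) * om j = (starRingEnd ℂ) (al i) := by
  simp only [Fin.sum_univ_two, hG] at h1 h2 ⊢
  linear_combination (al i) * h2 + (starRingEnd ℂ) (al i) * h1

theorem Subst_row2 (G : Matrix (Fin 2) (Fin 2) ℝ) (al om : Fin 2 → ℂ)
    (hG : ∀ i j, ((G i j : ℝ) : ℂ)
      = al i * (starRingEnd ℂ) (al j) + al j * (starRingEnd ℂ) (al i))
    (h1 : ∑ i, al i * om i = 1) (h2 : ∑ i, (starRingEnd ℂ) (al i) * om i = 0) (i : Fin 2) :
    ∑ j, ((G i j : ℝ) : ℂ) * (starRingEnd ℂ) (om j) = al i := by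
  have h1' := congrArg (starRingEnd ℂ) h1
  have h2' := congrArg (starRingEnd ℂ) h2
  simp only [Fin.sum_univ_two, map_add, map_mul, map_one, map_zero, Complex.conj_conj]
    at h1' h2'
  simp only [Fin.sum_univ_two, hG]
  linear_combination (al i) * h1' + (starRingEnd ℂ) (al i) * h2'

/-- TASK Subst (1).  `al·p` becomes `X 0` and `conj(al)·p` becomes `X 1`; hence
`(G p)_i = al_i Q + conj(al_i) P` after the substitution. -/
theorem Ph_lin (G : Matrix (Fin 2) (Fin 2) ℝ) (al om : Fin 2 → ℂ)
    (hG : ∀ i j, ((G i j : ℝ) : ℂ)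
      = al i * (starRingEnd ℂ) (al j) + al j * (starRingEnd ℂ) (al i))
    (h1 : ∑ i, al i * om i = 1) (h2 : ∑ i, (starRingEnd ℂ) (al i) * om i = 0) (i : Fin 2) :
    Ph om (∑ j, C (G i j) * X j) = C (al i) * X 1 + C ((starRingEnd ℂ) (al i)) * X 0 := by
  rw [map_sum]
  have e : ∀ j, Ph om (C (G i j) * X j) =
      C ((G i j : ℂ) * om j) * X 0 + C ((G i j : ℂ) * (starRingEnd ℂ) (om j)) * X 1 := by
    intro j
    rw [map_mul, Subst_C, Subst_X, C_mul, C_mul]
    ring
  simp only [e]
  rw [Finset.sum_add_distrib, ← Finset.sum_mul, ← Finset.sum_mul, ← map_sum C, ← map_sum C,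
    Subst_row1 G al om hG h1 h2, Subst_row2 G al om hG h1 h2]
  ring

/-- TASK Subst (2).  `½ p^T G p` becomes `P Q`. -/
theorem Ph_quad (G : Matrix (Fin 2) (Fin 2) ℝ) (al om : Fin 2 → ℂ)
    (hG : ∀ i j, ((G i j : ℝ) : ℂ)
      = al i * (starRingEnd ℂ) (al j) + al j * (starRingEnd ℂ) (al i))
    (h1 : ∑ i, al i * om i = 1) (h2 : ∑ i, (starRingEnd ℂ) (al i) * om i = 0) :
    Ph om (C (1 / 2) * ∑ i, ∑ j, C (G i j) * X i * X j) = X 0 * X 1 := by
  have e0 : ∀ i : Fin 2, ∑ j, C (G i j) * X i * X j =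
      X i * ∑ j, (C (G i j) * X j : RP) := by
    intro i
    rw [Finset.mul_sum]
    refine Finset.sum_congr rfl fun j _ => ?_
    ring
  simp only [e0]
  rw [map_mul, map_sum, Subst_C]
  have e1 : ∀ i : Fin 2, Ph om (X i * ∑ j, C (G i j) * X j) =
      (C (om i) * X 0 + C ((starRingEnd ℂ) (om i)) * X 1) *
        (C (al i) * X 1 + C ((starRingEnd ℂ) (al i)) * X 0) := by
    intro i
    rw [map_mul, Ph_lin G al om hG h1 h2 i, Subst_X]
  simp only [e1]
  have h1' := congrArg (starRingEnd ℂ) h1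
  have h2' := congrArg (starRingEnd ℂ) h2
  simp only [Fin.sum_univ_two, map_add, map_mul, map_one, map_zero, Complex.conj_conj]
    at h1' h2' h1 h2
  have g1 := congrArg (C : ℂ → CP) h1
  have g2 := congrArg (C : ℂ → CP) h2
  have g1' := congrArg (C : ℂ → CP) h1'
  have g2' := congrArg (C : ℂ → CP) h2'
  simp only [C_add, C_mul, C_1, C_0] at g1 g2 g1' g2'
  have hh : (C (((1 / 2 : ℝ)) : ℂ) : CP) * 2 = 1 := by
    have h2C : (2 : CP) = C 2 := (map_ofNat (C : ℂ →+* CP) 2).symm
    have h2D : (((1 / 2 : ℝ)) : ℂ) * 2 = 1 := by norm_num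
    rw [h2C, ← C_mul, h2D, C_1]
  rw [Fin.sum_univ_two]
  linear_combination (C (((1 / 2 : ℝ)) : ℂ) : CP) * (X 0 * X 1 * g1 + X 0 * X 1 * g1' +
    X 0 ^ 2 * g2 + X 1 ^ 2 * g2') + X 0 * X 1 * hh

/-- TASK Subst (3).  Chain rule (induction on the polynomial). -/
theorem Ph_pderiv (al om : Fin 2 → ℂ)
    (h3 : ∀ i j, om i * al j + (starRingEnd ℂ) (om i * al j) = if i = j then 1 else 0)
    (F : RP) (i : Fin 2) :
    Ph om (pderiv i F) = C (al i) * pderiv 0 (Ph om F)
      + C ((starRingEnd ℂ) (al i)) * pderiv 1 (Ph om F) := by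
  induction F using MvPolynomial.induction_on with
  | C r => rw [pderiv_C, map_zero, Subst_C, pderiv_C, pderiv_C]; ring
  | add p q hp hq =>
    simp only [map_add, hp, hq]
    ring
  | mul_X p j hp =>
    have e0 : pderiv 0 (Ph om (X j)) = C (om j) := by
      rw [Subst_X]
      simp [pderiv_X]
    have e1 : pderiv 1 (Ph om (X j)) = C ((starRingEnd ℂ) (om j)) := by
      rw [Subst_X]
      simp [pderiv_X]
    have e2 : Ph om (pderiv i (X j)) = C (al i * om j + (starRingEnd ℂ) (al i * om j)) := by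
      have h4 := h3 j i
      have h5 : al i * om j + (starRingEnd ℂ) (al i * om j) = if j = i then 1 else 0 := by
        rw [← h4, mul_comm (al i)]
      rw [h5, pderiv_X, Pi.single_apply]
      by_cases hij : j = i
      · simp [hij]
      · simp [hij]
    rw [pderiv_mul, map_add, map_mul, map_mul, hp, e2, map_mul (Ph om), pderiv_mul, pderiv_mul,
      e0, e1]
    simp only [C_add, C_mul, map_mul]
    ring

/-- conjugation of the coefficients and exchange of the variables -/
noncomputable def Subst_sigma : CP →+* CP :=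
  (rename (Equiv.swap (0 : Fin 2) 1) : CP →ₐ[ℂ] CP).toRingHom.comp (map (starRingEnd ℂ))

theorem Subst_sigma_Ph (om : Fin 2 → ℂ) (F : RP) : Subst_sigma (Ph om F) = Ph om F := by
  have h : (Subst_sigma.comp (Ph om).toRingHom : RP →+* CP) = (Ph om).toRingHom := by
    refine MvPolynomial.ringHom_ext ?_ ?_
    · intro r
      have h1 : (Ph om).toRingHom (C r) = C (r : ℂ) := Subst_C om r
      rw [RingHom.comp_apply, h1]
      simp [Subst_sigma]
    · intro i
      have h1 : (Ph om).toRingHom (X i) = C (om i) * X 0 + C ((starRingEnd ℂ) (om i)) * X 1 :=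
        Subst_X om i
      rw [RingHom.comp_apply, h1]
      simp [Subst_sigma]
      ring
  exact congrArg (fun g : RP →+* CP => g F) h

/-- TASK Subst (4).  Reality: `coeff (b,a) = conj (coeff (a,b))`.
(Let `σ` be the ring automorphism of `CP` which conjugates the coefficients and swaps `X 0`, `X 1`;
`σ (Ph om F) = Ph om F` by checking on constants and variables.) -/
theorem Ph_conj (om : Fin 2 → ℂ) (F : RP) (a b : ℕ) :
    (Ph om F).coeff (mk2 b a) = (starRingEnd ℂ) ((Ph om F).coeff (mk2 a b)) := by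
  have h := congrArg (coeff (mk2 b a)) (Subst_sigma_Ph om F)
  rw [← h]
  unfold Subst_sigma
  rw [RingHom.comp_apply]
  have e : mk2 b a = Finsupp.mapDomain (Equiv.swap (0 : Fin 2) 1) (mk2 a b) := by
    unfold mk2
    rw [Finsupp.mapDomain_add, Finsupp.mapDomain_single, Finsupp.mapDomain_single,
      Equiv.swap_apply_left, Equiv.swap_apply_right, add_comm]
  rw [e]
  have h1 := coeff_rename_mapDomain (Equiv.swap (0 : Fin 2) 1) (Equiv.injective _)
    (map (starRingEnd ℂ) (Ph om F)) (mk2 a b)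
  rw [coeff_map] at h1
  exact h1

theorem Subst_mk2_degree (a b : ℕ) : (mk2 a b).degree = a + b := by
  unfold mk2
  rw [map_add, Finsupp.degree_single, Finsupp.degree_single]

theorem Subst_homog (om : Fin 2 → ℂ) {F : RP} {n : ℕ} (hF : F.IsHomogeneous n) :
    (Ph om F).IsHomogeneous n := by
  have h := hF.aeval (fun i => C (om i) * X 0 + C ((starRingEnd ℂ) (om i)) * X 1 : Fin 2 → CP)
    (n := 1) (fun i => (isHomogeneous_C_mul_X _ _).add (isHomogeneous_C_mul_X _ _))
  rw [one_mul] at h
  exact h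

theorem Subst_coeff (om : Fin 2 → ℂ) (F : RP) (d : Fin 2 →₀ ℕ) :
    coeff d (Ph om F) = coeff d (Ph om (homogeneousComponent d.degree F)) := by
  classical
  conv_lhs => rw [← sum_homogeneousComponent F]
  rw [map_sum, coeff_sum]
  by_cases hd : d.degree ∈ Finset.range (F.totalDegree + 1)
  · rw [Finset.sum_eq_single_of_mem _ hd]
    intro i _ hi
    exact (Subst_homog om (homogeneousComponent_isHomogeneous i F)).coeff_eq_zero (Ne.symm hi)
  · rw [homogeneousComponent_eq_zero (d.degree) F (by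
      rw [Finset.mem_range] at hd
      omega), map_zero, coeff_zero]
    refine Finset.sum_eq_zero fun i hi => ?_
    refine (Subst_homog om (homogeneousComponent_isHomogeneous i F)).coeff_eq_zero ?_
    rintro rfl
    exact hd hi

/-- TASK Subst (5).  `Ph` does not raise the total degree. -/
theorem Ph_degree (om : Fin 2 → ℂ) (F : RP) (n : ℕ) (hF : F.totalDegree ≤ n) (a b : ℕ)
    (hab : n < a + b) : (Ph om F).coeff (mk2 a b) = 0 := by
  rw [Subst_coeff, homogeneousComponent_eq_zero, map_zero, coeff_zero]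
  rw [Subst_mk2_degree]
  omega

theorem Subst_injective (al om : Fin 2 → ℂ)
    (h3 : ∀ i j, om i * al j + (starRingEnd ℂ) (om i * al j) = if i = j then 1 else 0) :
    Function.Injective (Ph om) := by
  let ψ : CP →ₐ[ℂ] CP := aeval (![∑ j, C (al j) * X j, ∑ j, C ((starRingEnd ℂ) (al j)) * X j])
  have h : (ψ.toRingHom.comp (Ph om).toRingHom : RP →+* CP) = map Complex.ofRealHom := by
    refine MvPolynomial.ringHom_ext ?_ ?_
    · intro r
      have h1 : (Ph om).toRingHom (C r) = C (r : ℂ) := Subst_C om r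
      have h2 : ψ.toRingHom (C (r : ℂ)) = C (r : ℂ) := by
        change ψ (C (r : ℂ)) = _
        simp only [ψ, MvPolynomial.aeval_C, MvPolynomial.algebraMap_eq]
      rw [RingHom.comp_apply, h1, h2, map_C]
      rfl
    · intro i
      have h1 : (Ph om).toRingHom (X i) = C (om i) * X 0 + C ((starRingEnd ℂ) (om i)) * X 1 :=
        Subst_X om i
      have h2 : ψ.toRingHom (C (om i) * X 0 + C ((starRingEnd ℂ) (om i)) * X 1) =
          C (om i) * (∑ j, C (al j) * X j) +
            C ((starRingEnd ℂ) (om i)) * ∑ j, C ((starRingEnd ℂ) (al j)) * X j := by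
        change ψ (C (om i) * X 0 + C ((starRingEnd ℂ) (om i)) * X 1) = _
        rw [map_add, map_mul, map_mul]
        simp only [ψ, MvPolynomial.aeval_C, MvPolynomial.algebraMap_eq, MvPolynomial.aeval_X]
        rfl
      rw [RingHom.comp_apply, h1, h2, map_X, Finset.mul_sum, Finset.mul_sum,
        ← Finset.sum_add_distrib]
      have h4 : ∀ j, C (om i) * (C (al j) * X j) +
          C ((starRingEnd ℂ) (om i)) * (C ((starRingEnd ℂ) (al j)) * X j) =
            (if i = j then (X j : CP) else 0) := by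
        intro j
        have h5 : C (om i) * (C (al j) * X j) +
          C ((starRingEnd ℂ) (om i)) * (C ((starRingEnd ℂ) (al j)) * X j) =
            C (om i * al j + (starRingEnd ℂ) (om i * al j)) * (X j : CP) := by
          rw [map_mul (starRingEnd ℂ), C_add, C_mul, C_mul]
          ring
        rw [h5, h3]
        split_ifs
        · rw [C_1, one_mul]
        · rw [C_0, zero_mul]
      simp only [h4, Finset.sum_ite_eq, Finset.mem_univ, if_true]
  intro F G hFG
  have h1 : (ψ.toRingHom.comp (Ph om).toRingHom : RP →+* CP) F =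
      (ψ.toRingHom.comp (Ph om).toRingHom : RP →+* CP) G := congrArg ψ hFG
  rw [h] at h1
  exact map_injective _ Complex.ofReal_injective h1

/-- TASK Subst (6).  If `F` has total degree exactly `n ≥ 1`, some coefficient `(a,b)`,
`a + b = n`, of `Ph om F` is nonzero.
(The homogeneous component `F_n ≠ 0`, `Ph om F_n` is the homogeneous component of `Ph om F` of degree `n`,
and `Ph om` is injective since `X i ↦ C (al i) * X 0 + ...` gives a left inverse on `CP`:
the composition of `Ph om` with `X 0 ↦ ∑ al j X j`, `X 1 ↦ ∑ conj (al j) X j` is the inclusion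
`RP → CP`, by `h3`.) -/
theorem Ph_top (al om : Fin 2 → ℂ)
    (h3 : ∀ i j, om i * al j + (starRingEnd ℂ) (om i * al j) = if i = j then 1 else 0)
    (F : RP) (n : ℕ) (hn : 1 ≤ n) (hF : F.totalDegree = n) :
    ∃ a b : ℕ, a + b = n ∧ (Ph om F).coeff (mk2 a b) ≠ 0 := by
  classical
  have hF0 : F ≠ 0 := by
    rintro rfl
    rw [totalDegree_zero] at hF
    omega
  have hc0 : homogeneousComponent n F ≠ 0 := by
    obtain ⟨d, hd, hd2⟩ := Finset.exists_mem_eq_sup F.support
      (support_nonempty.2 hF0) (fun s => s.sum fun _ e => e)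
    have hdn : d.degree = n := by
      rw [← hF]
      exact hd2.symm
    intro h
    have h1 := congrArg (coeff d) h
    rw [coeff_homogeneousComponent, if_pos hdn, coeff_zero] at h1
    exact (mem_support_iff.1 hd) h1
  have hP0 : Ph om (homogeneousComponent n F) ≠ 0 := by
    intro h
    exact hc0 (Subst_injective al om h3 (h.trans (map_zero _).symm))
  obtain ⟨d, hd⟩ := support_nonempty.2 hP0
  have hd' := mem_support_iff.1 hd
  have hdeg : d.degree = n := by
    by_contra hne
    exact hd' ((Subst_homog om (homogeneousComponent_isHomogeneous n F)).coeff_eq_zero hne)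
  have hd3 : mk2 (d 0) (d 1) = d := by
    ext i
    unfold mk2
    fin_cases i <;> simp
  refine ⟨d 0, d 1, ?_, ?_⟩
  · rw [← Subst_mk2_degree, hd3, hdeg]
  · rw [Subst_coeff, hd3, hdeg]
    exact hd'

end Pool.W4b1b5d.H3
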