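import Pool.Agent.W_4b1b5d_h3.DefsI
import Pool.Agent.W_4b1b5d_h3.Subst

set_option autoImplicit false

namespace Pool.W4b1b5d.H3

open MvPolynomial

theorem RealId_mk2_zero (a b : ℕ) : mk2 a b 0 = a := by simp [mk2]

theorem RealId_mk2_one (a b : ℕ) : mk2 a b 1 = b := by simp [mk2]

theorem RealId_eq_mk2 (m : Fin 2 →₀ ℕ) : m = mk2 (m 0) (m 1) := by
  ext i
  fin_cases i
  · simp [mk2]
  · simp [mk2]

theorem RealId_mk2_inj {a b a' b' : ℕ} (h : mk2 a b = mk2 a' b') : a = a' ∧ b = b' := by
  constructor
  · have := DFunLike.congr_fun h 0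
    rwa [RealId_mk2_zero, RealId_mk2_zero] at this
  · have := DFunLike.congr_fun h 1
    rwa [RealId_mk2_one, RealId_mk2_one] at this

theorem RealId_mk2_degree (a b : ℕ) : (mk2 a b).degree = a + b := by
  rw [Finsupp.degree_eq_sum, Fin.sum_univ_two, RealId_mk2_zero, RealId_mk2_one]

/-- coefficients beyond the total degree vanish -/
theorem RealId_coeff_zero {P : RP} {n a b : ℕ} (h : P.totalDegree ≤ n) (hab : n < a + b) :
    P.coeff (mk2 a b) = 0 := by
  apply coeff_eq_zero_of_totalDegree_lt
  rw [← Finsupp.degree_apply, RealId_mk2_degree]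
  omega

theorem RealId_comp_update {f : V2 → ℝ} (hf : Differentiable ℝ f) (x : V2) (i : Fin 2) :
    HasDerivAt (fun t => f (Function.update x i t)) (fderiv ℝ f x (Pi.single i 1)) (x i) := by
  have h1 : HasFDerivAt f (fderiv ℝ f x) (Function.update x i (x i)) := by
    rw [Function.update_eq_self]
    exact (hf x).hasFDerivAt
  exact h1.comp_hasDerivAt (x i) (hasDerivAt_update x i (x i))

theorem RealId_eval_update (P : RP) (p : V2) (i : Fin 2) :
    HasDerivAt (fun t => eval (Function.update p i t) P) (eval p (pderiv i P)) (p i) := by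
  induction P using MvPolynomial.induction_on with
  | C a =>
    simp only [eval_C, pderiv_C, map_zero]
    exact hasDerivAt_const _ _
  | add P Q hP hQ =>
    simp only [map_add]
    exact hP.add hQ
  | mul_X P j hP =>
    simp only [map_mul, eval_X, pderiv_mul, map_add]
    have hj : HasDerivAt (fun t => Function.update p i t j) (eval p (pderiv i (X j : RP))) (p i) := by
      have h1 := hasDerivAt_pi.1 (hasDerivAt_update p i (p i)) j
      have h2 : eval p (pderiv i (X j : RP)) = (Pi.single i (1 : ℝ) : Fin 2 → ℝ) j := by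
        rw [pderiv_X]
        by_cases hij : j = i
        · subst hij; simp
        · simp [hij]
      rw [h2]
      exact h1
    have := hP.fun_mul hj
    simpa [Function.update_eq_self, add_comm] using this

/-- derivative of the Hamiltonian in a momentum -/
theorem RealId_ham_p (G : Matrix (Fin 2) (Fin 2) ℝ) (hs : G 0 1 = G 1 0) (c u : ℝ) (p : V2)
    (i : Fin 2) :
    HasDerivAt (fun t => (1 / 2 : ℝ) * ∑ k, ∑ j, (c * G k j) * Function.update p i t k *
      Function.update p i t j + u) (c * ∑ j, G i j * p j) (p i) := by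
  have hc : ∀ j, HasDerivAt (fun t => Function.update p i t j)
      ((Pi.single i (1 : ℝ) : Fin 2 → ℝ) j) (p i) :=
    fun j => hasDerivAt_pi.1 (hasDerivAt_update p i (p i)) j
  have h1 : HasDerivAt (fun t => (1 / 2 : ℝ) * ∑ k, ∑ j, (c * G k j) * Function.update p i t k *
      Function.update p i t j + u)
      ((1 / 2 : ℝ) * ∑ k, ∑ j, (((c * G k j) * (Pi.single i (1 : ℝ) : Fin 2 → ℝ) k) * p j
        + ((c * G k j) * p k) * (Pi.single i (1 : ℝ) : Fin 2 → ℝ) j)) (p i) := by
    refine HasDerivAt.add_const u (HasDerivAt.const_mul (1 / 2 : ℝ) ?_)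
    refine HasDerivAt.fun_sum fun k _ => HasDerivAt.fun_sum fun j _ => ?_
    have := ((hc k).const_mul (c * G k j)).fun_mul (hc j)
    simpa [Function.update_eq_self] using this
  refine h1.congr_deriv ?_
  simp only [Fin.sum_univ_two]
  fin_cases i
  · simp [hs]; ring
  · simp [hs]; ring

/-- derivative of `F` in a position variable -/
theorem RealId_F {F : V2 → RP} (hF : ∀ m, ContDiff ℝ (⊤ : ℕ∞) (fun x => (F x).coeff m)) {n : ℕ}
    (hbox : ∀ y, F y = ∑ q ∈ Finset.range (n + 1) ×ˢ Finset.range (n + 1),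
      monomial (mk2 q.1 q.2) ((F y).coeff (mk2 q.1 q.2))) (i : Fin 2) (x p : V2) :
    HasDerivAt (fun t => eval p (F (Function.update x i t)))
      (eval p (∑ q ∈ Finset.range (n + 1) ×ˢ Finset.range (n + 1),
        monomial (mk2 q.1 q.2)
          (fderiv ℝ (fun y => (F y).coeff (mk2 q.1 q.2)) x (Pi.single i 1)))) (x i) := by
  have h1 : ∀ y, eval p (F y) = ∑ q ∈ Finset.range (n + 1) ×ˢ Finset.range (n + 1),
      (F y).coeff (mk2 q.1 q.2) * eval p (monomial (mk2 q.1 q.2) (1 : ℝ)) := by
    intro y
    conv_lhs => rw [hbox y]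
    rw [map_sum]
    refine Finset.sum_congr rfl fun q _ => ?_
    rw [eval_monomial, eval_monomial, one_mul]
  have h2 : eval p (∑ q ∈ Finset.range (n + 1) ×ˢ Finset.range (n + 1),
        monomial (mk2 q.1 q.2)
          (fderiv ℝ (fun y => (F y).coeff (mk2 q.1 q.2)) x (Pi.single i 1))) =
      ∑ q ∈ Finset.range (n + 1) ×ˢ Finset.range (n + 1),
        fderiv ℝ (fun y => (F y).coeff (mk2 q.1 q.2)) x (Pi.single i 1) *
          eval p (monomial (mk2 q.1 q.2) (1 : ℝ)) := by
    rw [map_sum]
    refine Finset.sum_congr rfl fun q _ => ?_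
    rw [eval_monomial, eval_monomial, one_mul]
  rw [h2]
  simp only [h1]
  refine HasDerivAt.fun_sum fun q _ => HasDerivAt.mul_const ?_ _
  exact RealId_comp_update (f := fun y => (F y).coeff (mk2 q.1 q.2))
    ((hF _).differentiable (by simp)) x i

/-- The polynomial with coefficients `∂_i` of the coefficients of `F` (degree at most `n`). -/
noncomputable def Fd (n : ℕ) (F : V2 → RP) (i : Fin 2) (x : V2) : RP :=
  ∑ q ∈ Finset.range (n + 1) ×ˢ Finset.range (n + 1),
    monomial (mk2 q.1 q.2) (fderiv ℝ (fun y => (F y).coeff (mk2 q.1 q.2)) x (Pi.single i 1))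

/-- A polynomial of degree at most `n` as a sum over a box. -/
theorem eq_sum_box (n : ℕ) (P : RP) (h : P.totalDegree ≤ n) :
    P = ∑ q ∈ Finset.range (n + 1) ×ˢ Finset.range (n + 1),
      monomial (mk2 q.1 q.2) (P.coeff (mk2 q.1 q.2)) := by
  ext m
  rw [coeff_sum]
  simp only [coeff_monomial]
  rw [RealId_eq_mk2 m]
  by_cases hm : m 0 ≤ n ∧ m 1 ≤ n
  · rw [Finset.sum_eq_single (m 0, m 1)]
    · simp
    · intro q _ hq
      rw [if_neg]
      intro h'
      obtain ⟨h1, h2⟩ := RealId_mk2_inj h'
      exact hq (by ext <;> simp [h1, h2])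
    · intro h'
      exfalso
      apply h'
      simp only [Finset.mem_product, Finset.mem_range]
      omega
  · rw [RealId_coeff_zero h (by omega)]
    symm
    apply Finset.sum_eq_zero
    intro q hq
    rw [if_neg]
    intro h'
    obtain ⟨h1, h2⟩ := RealId_mk2_inj h'
    simp only [Finset.mem_product, Finset.mem_range] at hq
    omega

/-- TASK RealId.  The bracket condition as an identity of polynomials in `p`.

Proof.  For real `p`: `deriv (fun t => H x (update p i t)) (p i) = mu x * ∑_j G i j p_j` (`G` is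
symmetric), `deriv (fun t => H (update x i t) p) (x i) = ½ ∂_i mu ∑_{j,k} G j k p_j p_k + ∂_i U`,
`deriv (fun t => eval p (F (update x i t))) (x i) = eval p (Fd n F i x)` (`eq_sum_box`, finite sum of
smooth functions), `deriv (fun t => eval (update p i t) (F x)) (p i) = eval p (pderiv i (F x))`.  So the
polynomial below vanishes at all real `p`, hence is zero (`MvPolynomial.funext`).
(Lemmas of this kind are proved in
`Pool/Agent/W_MP_4b1b5d_an/Convert.lean`: `hasDerivAt_comp_update`, `hasDerivAt_eval_update`;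
you may copy their proofs.) -/
theorem real_id (G : Matrix (Fin 2) (Fin 2) ℝ) (hG : G.PosDef) (mu U : V2 → ℝ)
    (hmu : ContDiff ℝ (⊤ : ℕ∞) mu) (hU : ContDiff ℝ (⊤ : ℕ∞) U)
    (H : V2 → V2 → ℝ)
    (hH : ∀ x p, H x p = (1 / 2 : ℝ) * ∑ i, ∑ j, (mu x * G i j) * p i * p j + U x)
    (F : V2 → RP) (hF : ∀ m, ContDiff ℝ (⊤ : ℕ∞) (fun x => (F x).coeff m)) (n : ℕ)
    (hdeg : ∀ x, (F x).totalDegree ≤ n)
    (hbr : ∀ x p : V2, ∑ i : Fin 2,
          (deriv (fun t => H x (Function.update p i t)) (p i) *
              deriv (fun t => MvPolynomial.eval p (F (Function.update x i t))) (x i) -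
            deriv (fun t => H (Function.update x i t) p) (x i) *
              deriv (fun t => MvPolynomial.eval (Function.update p i t) (F x)) (p i)) = 0)
    (x : V2) :
    ∑ i : Fin 2, (C (mu x) * (∑ j, C (G i j) * X j) * Fd n F i x
      - (C (pd i mu x) * (C (1 / 2) * ∑ j, ∑ k, C (G j k) * X j * X k) + C (pd i U x))
        * pderiv i (F x)) = 0 := by
  have hs : G 0 1 = G 1 0 := by
    have h1 := hG.isHermitian.apply 1 0
    simpa using h1
  have hmud : Differentiable ℝ mu := hmu.differentiable (by simp)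
  have hUd : Differentiable ℝ U := hU.differentiable (by simp)
  apply MvPolynomial.funext
  intro p
  rw [map_zero, ← hbr x p, map_sum]
  refine Finset.sum_congr rfl fun i _ => ?_
  have e1 : HasDerivAt (fun t => H x (Function.update p i t)) (mu x * ∑ j, G i j * p j) (p i) := by
    simp only [hH]
    exact RealId_ham_p G hs (mu x) (U x) p i
  have e2 : HasDerivAt (fun t => H (Function.update x i t) p)
      (pd i mu x * (1 / 2 * ∑ j, ∑ k, G j k * p j * p k) + pd i U x) (x i) := by
    simp only [hH]
    have h1 : ∀ y : V2, (1 / 2 : ℝ) * ∑ i, ∑ j, (mu y * G i j) * p i * p j + U y =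
        mu y * (1 / 2 * ∑ j, ∑ k, G j k * p j * p k) + U y := by
      intro y
      simp only [Fin.sum_univ_two]
      ring
    simp only [h1]
    exact ((RealId_comp_update hmud x i).mul_const _).add (RealId_comp_update hUd x i)
  rw [e1.deriv, e2.deriv, (RealId_F hF (fun y => eq_sum_box n (F y) (hdeg y)) i x p).deriv,
    (RealId_eval_update (F x) p i).deriv]
  simp only [map_sub, map_mul, map_add, eval_C, eval_X, map_sum, Fd]

end Pool.W4b1b5d.H3
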