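import Pool.Agent.W_4b1b5d_h3.Defs

set_option autoImplicit false

namespace Pool.W4b1b5d.H3

namespace LD

/-- TASK Symm (1).  Only even `j` contribute (`D.par`), and for even `j` the exponent `j - d` has the
parity of `d`. -/
theorem R_neg (D : LD) (x : V2) (p : ℂ) : D.R 0 x (-p) = (-1) ^ D.d * D.R 0 x p := by
  unfold R Lk
  rw [Finset.mul_sum]
  refine Finset.sum_congr rfl fun j _ => ?_
  rcases Nat.even_or_odd j with hj | hj
  · obtain ⟨m, hm⟩ := hj
    rcases Nat.even_or_odd D.d with hd | hd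
    · have hz : Even ((j : ℤ) - D.d - ((0 : ℕ) : ℤ)) := by
        obtain ⟨n, hn⟩ := hd
        exact ⟨(m : ℤ) - n, by rw [hm, hn]; push_cast; ring⟩
      rw [hz.neg_zpow, hd.neg_one_pow]
      ring
    · have hz : Odd ((j : ℤ) - D.d - ((0 : ℕ) : ℤ)) := by
        obtain ⟨n, hn⟩ := hd
        exact ⟨(m : ℤ) - n - 1, by rw [hm, hn]; push_cast; ring⟩
      rw [hz.neg_zpow, hd.neg_one_pow]
      ring
  · simp only [D.par x j hj, zero_mul, mul_zero]

/-- Symmetric form of `R`: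
`R(x,p) = c_d + ∑_{1 ≤ j ≤ d} (c_{d+j} p^j + l^j conj(c_{d+j}) p^{-j})`.
(`fall _ 0 = 1`; split the range `2d+1` at `d` and use `D.symm`.) -/
theorem R_sum (D : LD) (x : V2) (p : ℂ) :
    D.R 0 x p = D.c D.d x + ∑ j ∈ Finset.Icc 1 D.d,
      (D.c (D.d + j) x * p ^ j
        + (D.l x : ℂ) ^ j * (starRingEnd ℂ) (D.c (D.d + j) x) * (p ^ j)⁻¹) := by
  unfold R Lk
  have hfall : ∀ s : ℤ, fall s 0 = 1 := fun s => by simp [fall]
  simp only [hfall, mul_one]
  rw [show 2 * D.d + 1 = D.d + (D.d + 1) by ring, Finset.sum_range_add, Finset.sum_range_succ',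
    show Finset.Icc 1 D.d = Finset.Ico 1 (D.d + 1) by ext; simp,
    Finset.sum_Ico_eq_sum_range, ← Finset.sum_range_reflect _ D.d]
  rw [show D.d + 1 - 1 = D.d by omega, Finset.sum_add_distrib]
  have h1 : ∀ j ∈ Finset.range D.d, D.c (D.d - 1 - j) x *
      p ^ (((D.d - 1 - j : ℕ) : ℤ) - D.d - ((0 : ℕ) : ℤ)) =
      (D.l x : ℂ) ^ (1 + j) * (starRingEnd ℂ) (D.c (D.d + (1 + j)) x) * (p ^ (1 + j))⁻¹ := by
    intro j hj
    rw [Finset.mem_range] at hj
    rw [show D.d - 1 - j = D.d - (1 + j) by omega, D.symm x (1 + j) (by omega)]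
    congr 1
    rw [← zpow_natCast, ← zpow_neg]
    congr 1
    rw [Nat.cast_sub (by omega)]
    push_cast
    ring
  have h2 : ∀ j ∈ Finset.range D.d, D.c (D.d + (j + 1)) x *
      p ^ (((D.d + (j + 1) : ℕ) : ℤ) - D.d - ((0 : ℕ) : ℤ)) =
      D.c (D.d + (1 + j)) x * p ^ (1 + j) := by
    intro j _
    rw [add_comm j 1]
    congr 1
    rw [← zpow_natCast]
    congr 1
    push_cast
    ring
  rw [Finset.sum_congr rfl h1, Finset.sum_congr rfl h2]
  simp only [add_zero, sub_self, CharP.cast_eq_zero, Nat.cast_zero, zpow_zero, mul_one]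
  ring

/-- The coefficient `c_d` is real (`D.symm` with `j = 0`). -/
theorem c_d_real (D : LD) (x : V2) : (starRingEnd ℂ) (D.c D.d x) = D.c D.d x := by
  have h := D.symm x 0 (Nat.zero_le _)
  simpa using h.symm

/-- If `|p|² = |l(x)| ≠ 0` then `R(x,p)²` is real.
Proof.  Put `p' = l / conj p`.  From `R_sum`, `R(x,p') = conj (R(x,p))` (because
`l^j / p'^j = (conj p)^j` and `p'^j = l^j / (conj p)^j`).  If `l > 0` then `p' = p`
(as `p * conj p = |p|² = l`), so `R` is real.  If `l < 0` then `p' = -p`, so by `R_neg`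
`conj R = ± R` and `R²` is real. -/
theorem sq_real (D : LD) (x : V2) (p : ℂ) (hp : p ≠ 0) (h : ‖p‖ ^ 2 = |D.l x|) :
    ((D.R 0 x p) ^ 2).im = 0 := by
  have hcp : (starRingEnd ℂ) p ≠ 0 := (map_ne_zero _).2 hp
  have hl : (D.l x : ℂ) ≠ 0 := by
    intro h0
    rw [Complex.ofReal_eq_zero] at h0
    rw [h0, abs_zero] at h
    exact hp (norm_eq_zero.1 ((pow_eq_zero_iff two_ne_zero).1 h))
  have hconj : D.R 0 x ((D.l x : ℂ) / (starRingEnd ℂ) p) = (starRingEnd ℂ) (D.R 0 x p) := by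
    rw [R_sum, R_sum, map_add, c_d_real, map_sum]
    congr 1
    refine Finset.sum_congr rfl fun j _ => ?_
    simp only [map_add, map_mul, map_pow, map_inv₀, Complex.conj_conj, Complex.conj_ofReal,
      div_pow]
    have hcpj : ((starRingEnd ℂ) p) ^ j ≠ 0 := pow_ne_zero _ hcp
    have hlj : (D.l x : ℂ) ^ j ≠ 0 := pow_ne_zero _ hl
    field_simp
    ring
  have hpp : p * (starRingEnd ℂ) p = ((|D.l x| : ℝ) : ℂ) := by
    rw [Complex.mul_conj, Complex.normSq_eq_norm_sq, h]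
  have key : (starRingEnd ℂ) ((D.R 0 x p) ^ 2) = (D.R 0 x p) ^ 2 := by
    rw [map_pow, ← hconj]
    rcases le_or_gt 0 (D.l x) with h0 | h0
    · rw [abs_of_nonneg h0] at hpp
      rw [show (D.l x : ℂ) / (starRingEnd ℂ) p = p by rw [← hpp]; field_simp]
    · rw [abs_of_neg h0] at hpp
      rw [show (D.l x : ℂ) / (starRingEnd ℂ) p = -p by
        rw [show (D.l x : ℂ) = -(p * (starRingEnd ℂ) p) by rw [hpp]; push_cast; ring]
        field_simp, R_neg, mul_pow, ← pow_mul, mul_comm D.d 2, pow_mul]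
      simp
  exact Complex.conj_eq_iff_im.1 key

end LD

end Pool.W4b1b5d.H3
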