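import Pool.Agent.W_4b1b5d_h3.TangPt

set_option autoImplicit false

namespace Pool.W4b1b5d.H3

/-- The tangent vector of the level line of `U`. -/
noncomputable def tgt (g : V2 → ℝ) (x : V2) : V2 := ![-(pd 1 g x), pd 0 g x]

theorem Tang_lin {E : Type*} [NormedAddCommGroup E] [NormedSpace ℝ E] (L : V2 →L[ℝ] E) (v : V2) :
    L v = v 0 • L (Pi.single 0 1) + v 1 • L (Pi.single 1 1) := by
  have h : v = v 0 • (Pi.single 0 1 : V2) + v 1 • (Pi.single 1 1 : V2) := by
    funext i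
    fin_cases i <;> simp
  conv_lhs => rw [h]
  rw [map_add, map_smul, map_smul]

/-- `dU(tgt U) = 0`. -/
theorem tgt_ker (g : V2 → ℝ) (x : V2) (hg : DifferentiableAt ℝ g x) :
    fderiv ℝ g x (tgt g x) = 0 := by
  have _ := hg
  rw [Tang_lin]
  show -(pd 1 g x) • pd 0 g x + pd 0 g x • pd 1 g x = 0
  simp only [smul_eq_mul]
  ring

/-- The kernel of `dU(x) ≠ 0` is spanned by `tgt U x`. -/
theorem ker_tgt (g : V2 → ℝ) (x : V2) (hg : DifferentiableAt ℝ g x) (h : fderiv ℝ g x ≠ 0)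
    (v : V2) (hv : fderiv ℝ g x v = 0) : ∃ t : ℝ, v = t • tgt g x := by
  have _ := hg
  rw [Tang_lin] at hv
  have hv' : v 0 * pd 0 g x + v 1 * pd 1 g x = 0 := hv
  by_cases h0 : pd 0 g x = 0
  · have h1 : pd 1 g x ≠ 0 := by
      intro h1
      apply h
      ext w
      rw [Tang_lin]
      show w 0 • pd 0 g x + w 1 • pd 1 g x = 0
      rw [h0, h1, smul_zero, smul_zero, add_zero]
    refine ⟨-(v 0 / pd 1 g x), ?_⟩
    funext i
    fin_cases i
    · show v 0 = -(v 0 / pd 1 g x) * -(pd 1 g x)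
      field_simp
    · show v 1 = -(v 0 / pd 1 g x) * pd 0 g x
      rw [h0, mul_zero]
      rw [h0, mul_zero, zero_add] at hv'
      exact (mul_eq_zero.1 hv').resolve_right h1
  · refine ⟨v 1 / pd 0 g x, ?_⟩
    funext i
    fin_cases i
    · show v 0 = v 1 / pd 0 g x * -(pd 1 g x)
      field_simp
      linarith
    · show v 1 = v 1 / pd 0 g x * pd 0 g x
      field_simp

theorem Tang_cont_pd {g : V2 → ℝ} (hg : ContDiff ℝ (⊤ : ℕ∞) g) (i : Fin 2) :
    Continuous (pd i g) := by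
  have h1 : Continuous (fun x => fderiv ℝ g x) := hg.continuous_fderiv (by simp)
  exact h1.clm_apply continuous_const

theorem Tang_cont_tgt {g : V2 → ℝ} (hg : ContDiff ℝ (⊤ : ℕ∞) g) : Continuous (tgt g) := by
  refine continuous_pi fun i => ?_
  fin_cases i
  · exact (Tang_cont_pd hg 1).neg
  · exact Tang_cont_pd hg 0

/-- the bad set -/
def Tang_S (I : ID) : Set V2 :=
  {x | fderiv ℝ I.U x ≠ 0 ∧ ∃ k : ℤ, fderiv ℝ (I.f k 0) x (tgt I.U x) ≠ 0}

theorem Tang_open (I : ID) : IsOpen (Tang_S I) := by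
  have h1 : IsOpen {x : V2 | fderiv ℝ I.U x ≠ 0} := by
    have hc : Continuous (fun x => fderiv ℝ I.U x) := I.Usm.continuous_fderiv (by simp)
    exact isOpen_ne_fun hc continuous_const
  have h2 : IsOpen {x : V2 | ∃ k : ℤ, fderiv ℝ (I.f k 0) x (tgt I.U x) ≠ 0} := by
    have e : {x : V2 | ∃ k : ℤ, fderiv ℝ (I.f k 0) x (tgt I.U x) ≠ 0} =
        ⋃ k : ℤ, {x : V2 | fderiv ℝ (I.f k 0) x (tgt I.U x) ≠ 0} := by
      ext x
      simp
    rw [e]
    refine isOpen_iUnion fun k => ?_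
    have hc : Continuous (fun x => fderiv ℝ (I.f k 0) x) :=
      (I.fsm k 0).continuous_fderiv (by simp)
    exact isOpen_ne_fun (hc.clm_apply (Tang_cont_tgt I.Usm)) continuous_const
  exact h1.inter h2

theorem Tang_fderiv_zero {f : V2 → ℂ} {S : Set V2} (hS : IsOpen S) (h : ∀ x ∈ S, f x = 0)
    {x : V2} (hx : x ∈ S) : fderiv ℝ f x = 0 := by
  have h1 : f =ᶠ[nhds x] fun _ => 0 := by
    filter_upwards [hS.mem_nhds hx] with y hy
    exact h y hy
  rw [h1.fderiv_eq]
  simp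

theorem Tang_empty (I : ID) (hn : Odd I.n) : Tang_S I = ∅ := by
  classical
  by_contra hne
  obtain ⟨x0, hx0⟩ := Set.nonempty_iff_ne_empty.2 hne
  have hS := Tang_open I
  have hex : ∃ k : ℕ, ∃ x ∈ Tang_S I, I.f k 0 x ≠ 0 := by
    by_contra hcon
    push Not at hcon
    have hx0' := hx0
    obtain ⟨-, k, hk⟩ := hx0
    apply hk
    have hz : ∀ x ∈ Tang_S I, I.f k 0 x = 0 := by
      intro x hx
      rcases lt_or_ge k 0 with h | h
      · exact I.f_neg k 0 x h
      · obtain ⟨k', rfl⟩ := Int.eq_ofNat_of_zero_le h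
        exact hcon k' x hx
    rw [Tang_fderiv_zero hS hz hx0']
    rfl
  obtain ⟨x, hx, hJ⟩ := Nat.find_spec hex
  have hmin : ∀ k : ℕ, k < Nat.find hex → ∀ x ∈ Tang_S I, I.f k 0 x = 0 := by
    intro k hk y hy
    by_contra hcon
    exact Nat.find_min hex hk ⟨y, hy, hcon⟩
  have hJ1 : 1 ≤ Nat.find hex := by
    by_contra hcon
    have h0 : Nat.find hex = 0 := by omega
    rw [h0] at hJ
    apply hJ
    apply I.par
    obtain ⟨m, hm⟩ := hn
    exact ⟨m, by rw [hm]; push_cast; ring⟩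
  have hd : DifferentiableAt ℝ I.U x := (I.Usm.differentiable (by simp)) x
  have h2 := tang_pt I x (tgt I.U x) (tgt_ker I.U x hd) (Nat.find hex) hJ1 hJ
    (fun k hk => by
      rw [Tang_fderiv_zero hS (hmin k hk) hx]
      rfl)
  obtain ⟨-, k, hk⟩ := hx
  exact hk (h2 k)

/-- TASK Tang.  Tangential constancy (odd degree).

Proof.  Let `S = {x : fderiv U x ≠ 0 ∧ ∃ k : ℤ, fderiv (f k 0) x (tgt U x) ≠ 0}`; it is open (only
finitely many `k`, `0 ≤ k ≤ n`, matter; continuity).  Suppose `S` is nonempty.  Not all the `f k 0`,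
`k ≥ 0` natural, vanish identically on `S` (otherwise their derivatives vanish on the open set `S`); let `J`
be the least natural number such that `f J 0` is not identically zero on `S`; `J ≥ 1` because
`f 0 0 = 0` by `par` (`n` odd).  Choose `x ∈ S` with `f J 0 x ≠ 0`; for `k < J`, `f k 0 = 0` on the open
set `S`, so its derivative at `x` is zero.  `tang_pt` with `v = tgt U x` contradicts `x ∈ S`.
So `S = ∅`; conclude with `ker_tgt`. -/
theorem tang (I : ID) (hn : Odd I.n) (x : V2) (hx : fderiv ℝ I.U x ≠ 0) (v : V2)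
    (hv : fderiv ℝ I.U x v = 0) (k : ℤ) : fderiv ℝ (I.f k 0) x v = 0 := by
  have hd : DifferentiableAt ℝ I.U x := (I.Usm.differentiable (by simp)) x
  obtain ⟨t, rfl⟩ := ker_tgt I.U x hd hx v hv
  rw [map_smul]
  by_cases h : fderiv ℝ (I.f k 0) x (tgt I.U x) = 0
  · rw [h, smul_zero]
  · exfalso
    have h1 : x ∈ Tang_S I := ⟨hx, k, h⟩
    rw [Tang_empty I hn] at h1
    exact h1

end Pool.W4b1b5d.H3
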