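import Pool.Agent.W_4b1b5d_h3.Build
import Pool.Agent.W_4b1b5d_h3.Contra

set_option autoImplicit false

namespace Pool.W4b1b5d.H3

open Polynomial

/-- TASK TangPt (1).  Divisibility of complex polynomials from multiplicities:
if every root of `Q ≠ 0` is a root of `A` of at least the same multiplicity (or `A = 0`) then
`Q ∣ A`, so `A = 0` when `deg A < deg Q`.  (`Q` splits over `ℂ`; `Q.roots ≤ A.roots`.) -/
theorem poly_zero_of_mult (Q A : Polynomial ℂ) (hQ : Q ≠ 0)
    (h : A ≠ 0 → ∀ z : ℂ, Q.rootMultiplicity z ≤ A.rootMultiplicity z)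
    (hdeg : A.natDegree < Q.natDegree ∨ A = 0) : A = 0 := by
  by_contra hA
  have h1 := h hA
  have h2 : Q.roots ≤ A.roots := by
    rw [Multiset.le_iff_count]
    intro z
    rw [count_roots, count_roots]
    exact h1 z
  have h3 : Q.roots.card = Q.natDegree := (IsAlgClosed.splits Q).natDegree_eq_card_roots.symm
  have h4 : A.roots.card ≤ A.natDegree := A.card_roots'
  have h5 := Multiset.card_le_card h2
  rcases hdeg with h6 | h6
  · omega
  · exact hA h6

theorem TangPt_coeff (d : ℕ) (u : ℕ → ℂ) (j : ℕ) (hj : j ≤ 2 * d) : (pol d u).coeff j = u j := by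
  unfold pol
  rw [finsetSum_coeff]
  simp only [coeff_C_mul_X_pow]
  rw [Finset.sum_eq_single j]
  · simp
  · intro b _ hb
    rw [if_neg (fun h => hb h.symm)]
  · intro h
    exact absurd (Finset.mem_range.mpr (by omega)) h

theorem TangPt_natDegree (d : ℕ) (u : ℕ → ℂ) : (pol d u).natDegree ≤ 2 * d := by
  unfold pol
  refine natDegree_sum_le_of_forall_le _ _ fun j hj => ?_
  refine (natDegree_C_mul_X_pow_le _ _).trans ?_
  have := Finset.mem_range.mp hj
  omega

theorem TangPt_trans0 (D : LD) (x : V2) (hl : D.l x = 0) (p : ℂ) (hp : p ≠ 0) :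
    p * D.R2 0 x p + dd D.al (fun y => (D.l y : ℂ)) x * D.R 1 x p = 0 := by
  have h := D.trans x p hp
  have h1 : Lk D.d (fun j => dd D.al (D.c j) x) 0 p = D.R1 0 x p := rfl
  have h2 : Lk D.d (fun j => dd (cj D.al) (D.c j) x) 0 p = D.R2 0 x p := rfl
  have h3 : Lk D.d (fun j => D.c j x) 1 p = D.R 1 x p := rfl
  rw [h1, h2, h3, hl] at h
  simpa using h

theorem TangPt_transS (D : LD) (x : V2) (hl : D.l x = 0) (i : ℕ) : ∀ p : ℂ, p ≠ 0 →
    p * D.R2 (i + 1) x p + ((i : ℂ) + 1) * D.R2 i x p
      + dd D.al (fun y => (D.l y : ℂ)) x * D.R (i + 2) x p = 0 := by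
  have hR2 : ∀ (k : ℕ) (p : ℂ), p ≠ 0 →
      HasDerivAt (fun q => D.R2 k x q) (D.R2 (k + 1) x p) p := fun k p hp =>
    Lk_hasDerivAt D.d (fun j => dd (cj D.al) (D.c j) x) k hp
  have hR : ∀ (k : ℕ) (p : ℂ), p ≠ 0 →
      HasDerivAt (fun q => D.R k x q) (D.R (k + 1) x p) p := fun k p hp =>
    Lk_hasDerivAt D.d (fun j => D.c j x) k hp
  induction i with
  | zero =>
    intro p hp
    have h1 : (fun q => q * D.R2 0 x q + dd D.al (fun y => (D.l y : ℂ)) x * D.R 1 x q)
        =ᶠ[nhds p] fun _ => (0 : ℂ) := by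
      filter_upwards [isOpen_ne.mem_nhds hp] with q hq
      exact TangPt_trans0 D x hl q hq
    have h2 := ((hasDerivAt_id p).mul (hR2 0 p hp)).add
      ((hR 1 p hp).const_mul (dd D.al (fun y => (D.l y : ℂ)) x))
    have h3 := (hasDerivAt_const p (0 : ℂ)).congr_of_eventuallyEq h1
    have h4 := h2.unique h3
    simp only [id] at h4
    rw [← h4]
    push_cast
    ring
  | succ i ih =>
    intro p hp
    have h1 : (fun q => q * D.R2 (i + 1) x q + ((i : ℂ) + 1) * D.R2 i x q
        + dd D.al (fun y => (D.l y : ℂ)) x * D.R (i + 2) x q)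
        =ᶠ[nhds p] fun _ => (0 : ℂ) := by
      filter_upwards [isOpen_ne.mem_nhds hp] with q hq
      exact ih q hq
    have h2 := (((hasDerivAt_id p).mul (hR2 (i + 1) p hp)).add
      ((hR2 i p hp).const_mul ((i : ℂ) + 1))).add
      ((hR (i + 2) p hp).const_mul (dd D.al (fun y => (D.l y : ℂ)) x))
    have h3 := (hasDerivAt_const p (0 : ℂ)).congr_of_eventuallyEq h1
    have h4 := h2.unique h3
    simp only [id] at h4
    rw [← h4]
    push_cast
    ring

theorem TangPt_R2 (D : LD) (x : V2) (hl : D.l x = 0) (p : ℂ) (hp : p ≠ 0) (m : ℕ)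
    (h : ∀ i, 1 ≤ i → i ≤ m → D.R i x p = 0) : ∀ i, i < m → D.R2 i x p = 0 := by
  intro i
  induction i with
  | zero =>
    intro hi
    have h1 := TangPt_trans0 D x hl p hp
    rw [h 1 le_rfl (by omega), mul_zero, add_zero] at h1
    exact (mul_eq_zero.mp h1).resolve_left hp
  | succ i ih =>
    intro hi
    have h1 := TangPt_transS D x hl i p hp
    rw [h (i + 2) (by omega) (by omega), ih (by omega), mul_zero, mul_zero, add_zero, add_zero] at h1
    exact (mul_eq_zero.mp h1).resolve_left hp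

/-- TASK TangPt (2).  The pointwise form of the tangential constancy.

Proof.  Let `h = U x`.  `beta h k x = f k 0 x` (`beta_at`), in particular `beta h J x ≠ 0`; let `D` be
the data from `build` (`D.l x = ell h x = 0`), `d = D.d`, so `J ≤ d`.  For `p ≠ 0`,
`D.R i x p` is the `i`-th derivative of the polynomial `q = ∑_{k=0}^{d} f_{k,0}(x) X^k` (the
coefficients with `j < d` vanish at `x`, by `D.symm` or `f_neg`), where `f_{d,0}(x) = a ≠ 0`.  Let
`Δ = ∑_{k=0}^{d} (fderiv (f k 0) x v) X^k`.  By `dir_decomp`,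
`fderiv g x v = lam dd g x + conj lam db g x`; by `beta_deriv_at`, `fderiv (beta h s) x v =
fderiv (f s 0) x v` for all `s` (in particular `0` for `s < 0`, and for `s = d` since `β_d` is
constant), so for `p ≠ 0` and all `i` the `i`-th derivative of `Δ` at `p` is
`lam * D.R1 i x p + conj lam * D.R2 i x p`.
Let `p ≠ 0` be a root of `q'` of multiplicity `m`: `D.R i x p = 0` for `1 ≤ i ≤ m`, so by `prop2`
(`|D.l x| = 0 < |p|²`) `D.R1 i x p = 0` for `i < m`; and by the transport equation at `x` (where `l = 0`):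
`p R2_0(p) = - dd l * R_1(p)` for all `p ≠ 0`, whose derivatives of order `i < m` at the root vanish by
induction (`p R2_i + i R2_{i-1} = - dd l R_{i+1}`), so `D.R2 i x p = 0` for `i < m`.  Hence the
multiplicity of `p` in `Δ` is at least `m`.  At `p = 0`: the coefficients of `Δ` of order `k < J` vanish
(`hlow`), and the coefficient `J f_{J,0}(x)` of `X^(J-1)` in `q'` is not zero.  So all the roots of `q'`
are roots of `Δ` with multiplicity.  `deg q' = d - 1` (leading coefficient `d a`), and `deg Δ < d - 1`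
or `Δ = 0`:  the coefficient of `X^d` is `0` (`β_d` constant) and the coefficient of `X^(d-1)` is `0` by
parity (`f (d-1) 0 = 0` identically by `par`, since `f d 0 x ≠ 0` gives `d + n` even).
By `poly_zero_of_mult`, `Δ = 0`; and for `k > d`, `f k 0`
has derivative `0` at `x` in the direction `v` by `beta_deriv_at` (`beta h k = 0`). -/
theorem tang_pt (I : ID) (x v : V2) (hv : fderiv ℝ I.U x v = 0) (J : ℕ) (hJ1 : 1 ≤ J)
    (hJ : I.f J 0 x ≠ 0) (hlow : ∀ k : ℕ, k < J → fderiv ℝ (I.f k 0) x v = 0) :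
    ∀ k : ℤ, fderiv ℝ (I.f k 0) x v = 0 := by
  obtain ⟨D, hal, hl, hc, hbig⟩ := build I (I.U x) x J (by exact_mod_cast hJ1) (by
    rw [I.beta_at]; exact hJ)
  have hlx : D.l x = 0 := by
    rw [hl, ID.ell]
    simp
  have hJd : J ≤ D.d := by
    by_contra hcon
    have h1 := hbig J (by exact_mod_cast not_le.mp hcon) x
    rw [I.beta_at] at h1
    exact hJ h1
  have hcf : ∀ j, D.c j = I.beta (I.U x) ((j : ℤ) - D.d) := fun j => funext (hc j)
  have hcx : ∀ j : ℕ, D.c j x = I.f ((j : ℤ) - D.d) 0 x := by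
    intro j
    rw [hc, I.beta_at]
  have hcd : ∀ j : ℕ, fderiv ℝ (D.c j) x v = fderiv ℝ (I.f ((j : ℤ) - D.d) 0) x v := by
    intro j
    rw [hcf, I.beta_deriv_at x v hv]
  have hneg : ∀ k : ℤ, k < 0 → fderiv ℝ (I.f k 0) x v = 0 := by
    intro k hk
    have h1 : I.f k 0 = fun _ => 0 := funext fun y => I.f_neg k 0 y hk
    rw [h1]
    simp
  -- the polynomials
  obtain ⟨lam, -, hlam⟩ := dir_decomp D.al D.hal v
  set uD : ℕ → ℂ := fun j => fderiv ℝ (D.c j) x v with huD
  have huD2 : ∀ j, uD j = lam * dd D.al (D.c j) x + (starRingEnd ℂ) lam * dd (cj D.al) (D.c j) x :=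
    fun j => hlam (D.c j) x ((D.csm j).differentiable (by simp) x)
  have hLk : ∀ (i : ℕ) (p : ℂ), Lk D.d uD i p
      = lam * D.R1 i x p + (starRingEnd ℂ) lam * D.R2 i x p := by
    intro i p
    unfold LD.R1 LD.R2 Lk
    rw [Finset.mul_sum, Finset.mul_sum, ← Finset.sum_add_distrib]
    refine Finset.sum_congr rfl fun j _ => ?_
    rw [huD2]
    ring
  set Q : Polynomial ℂ := pol D.d (fun j => ((j : ℂ) - D.d) * D.c j x) with hQdef
  set A : Polynomial ℂ := pol D.d uD with hAdef
  have hQ : Q ≠ 0 := D.pol_ne x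
  have hu0 : ∀ j : ℕ, j < D.d + J → uD j = 0 := by
    intro j hj
    have h1 : uD j = fderiv ℝ (I.f ((j : ℤ) - D.d) 0) x v := hcd j
    rw [h1]
    rcases lt_or_ge j D.d with h2 | h2
    · exact hneg _ (by omega)
    · obtain ⟨k, rfl⟩ := Nat.exists_eq_add_of_le h2
      have h3 : ((D.d + k : ℕ) : ℤ) - D.d = (k : ℤ) := by push_cast; ring
      rw [h3]
      exact hlow k (by omega)
  have hutop : uD (2 * D.d) = 0 := by
    have h1 : D.c (2 * D.d) = fun _ => D.a := funext D.top
    simp only [huD]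
    rw [h1]
    simp
  have hA0 : A = 0 := by
    refine poly_zero_of_mult Q A hQ (fun hA z => ?_) ?_
    · by_cases hz : z = 0
      · rw [hz, rootMultiplicity_eq_natTrailingDegree', rootMultiplicity_eq_natTrailingDegree']
        have h1 : Q.natTrailingDegree ≤ D.d + J := by
          refine natTrailingDegree_le_of_ne_zero ?_
          rw [hQdef, TangPt_coeff _ _ _ (by omega)]
          have h2 : ((D.d + J : ℕ) : ℤ) - D.d = (J : ℤ) := by push_cast; ring
          rw [hcx, h2]
          push_cast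
          have h3 : ((D.d : ℂ) + J - D.d) = J := by ring
          rw [h3]
          exact mul_ne_zero (by exact_mod_cast (by omega : J ≠ 0)) hJ
        have h2 : D.d + J ≤ A.natTrailingDegree := by
          refine le_natTrailingDegree hA fun j hj => ?_
          rw [hAdef, TangPt_coeff _ _ _ (by omega)]
          exact hu0 j hj
        exact h1.trans h2
      · have h1 : ∀ i, 1 ≤ i → i ≤ Q.rootMultiplicity z → D.R i x z = 0 :=
          (mult_iff_one D.d (fun j => D.c j x) (D.pol_ne x) z hz (Q.rootMultiplicity z)).mpr le_rfl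
        have h2 := prop2 D x z (by
          rw [hlx, abs_zero]
          have := norm_pos_iff.mpr hz
          positivity) (Q.rootMultiplicity z) h1
        have h3 := TangPt_R2 D x hlx z hz (Q.rootMultiplicity z) h1
        refine (mult_iff D.d uD hA z hz (Q.rootMultiplicity z)).mp fun i hi => ?_
        rw [hLk, h2 i hi, h3 i hi, mul_zero, mul_zero, add_zero]
    · by_cases hA : A = 0
      · exact Or.inr hA
      · left
        have h1 : 2 * D.d ≤ Q.natDegree := by
          refine le_natDegree_of_ne_zero ?_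
          rw [hQdef, TangPt_coeff _ _ _ le_rfl, D.top]
          push_cast
          have h3 : (2 * (D.d : ℂ) - D.d) = D.d := by ring
          rw [h3]
          have := D.hd
          exact mul_ne_zero (by exact_mod_cast (by omega : D.d ≠ 0)) D.ha
        have h2 : A.natDegree ≤ 2 * D.d := TangPt_natDegree _ _
        refine lt_of_lt_of_le (lt_of_le_of_ne h2 fun h3 => ?_) h1
        have h4 : A.leadingCoeff ≠ 0 := leadingCoeff_ne_zero.mpr hA
        apply h4
        rw [leadingCoeff, h3, hAdef, TangPt_coeff _ _ _ le_rfl]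
        exact hutop
  have hu : ∀ j : ℕ, j ≤ 2 * D.d → uD j = 0 := by
    intro j hj
    have h1 := TangPt_coeff D.d uD j hj
    rw [← hAdef, hA0, coeff_zero] at h1
    exact h1.symm
  intro k
  rcases lt_or_ge k 0 with hk | hk
  · exact hneg k hk
  · rcases lt_or_ge (D.d : ℤ) k with hk2 | hk2
    · rw [← I.beta_deriv_at x v hv]
      have h1 : I.beta (I.U x) k = fun _ => 0 := funext (hbig k hk2)
      rw [h1]
      simp
    · obtain ⟨n, rfl⟩ := Int.eq_ofNat_of_zero_le hk
      have h1 := hu (n + D.d) (by omega)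
      have h2 : uD (n + D.d) = fderiv ℝ (I.f (((n + D.d : ℕ) : ℤ) - D.d) 0) x v := hcd _
      rw [h1] at h2
      have h3 : ((n + D.d : ℕ) : ℤ) - D.d = (n : ℤ) := by push_cast; ring
      rw [h3] at h2
      exact h2.symm

end Pool.W4b1b5d.H3
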